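import Pool.Agent.Work.MP_343d73_gt.Defs

/-! Bundle of small proof modules (one section per former module). -/

section

set_option autoImplicit false

namespace Pool.Agent.MP_343d73

theorem prA1 : PA1 := by
  intro σ S hS a b r hab
  have := hS.dist_eq_dist_add_one_of_adj r hab
  rw [S.dist_comm (u := b), S.dist_comm (u := a)]
  omega

theorem prA8 : PA8 := by
  intro σ G _ _ S hS g a b
  have key : ∀ (g : G) a b, S.Reachable a b →
      S.Reachable (g • a) (g • b) ∧ S.dist (g • a) (g • b) ≤ S.dist a b := by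
    intro g a b hr
    obtain ⟨p, hp⟩ := hr.exists_walk_length_eq_dist
    let f : S →g S := ⟨fun x => g • x, fun {x y} h => hS g x y h⟩
    have hq : (p.map f).length = p.length := SimpleGraph.Walk.length_map f p
    refine ⟨⟨p.map f⟩, ?_⟩
    rw [← hp, ← hq]
    exact SimpleGraph.dist_le (p.map f)
  by_cases hr : S.Reachable a b
  · apply le_antisymm (key g a b hr).2
    have := (key g⁻¹ (g • a) (g • b) (key g a b hr).1).2
    simpa using this
  · have hr' : ¬ S.Reachable (g • a) (g • b) := by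
      intro h
      apply hr
      have := (key g⁻¹ (g • a) (g • b) h).1
      simpa using this
    rw [SimpleGraph.dist_eq_zero_of_not_reachable hr, SimpleGraph.dist_eq_zero_of_not_reachable hr']

end Pool.Agent.MP_343d73

end

section

set_option autoImplicit false

namespace Pool.Agent.MP_343d73

namespace A2

theorem key (h1 : PA1) {σ : Type} (S : SimpleGraph σ) (hS : S.IsTree) (a b x x' : σ)
    (hab : S.Adj a b) (hx : S.dist b x < S.dist a x) (hx' : S.dist a x' < S.dist b x')
    (hxx : S.Adj x' x) : x = b ∧ x' = a := by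
  have e1 := h1 S hS a b x hab
  have e2 := h1 S hS a b x' hab
  have e3 := h1 S hS x' x a hxx
  have e4 := h1 S hS x' x b hxx
  have c1 := S.dist_comm (u := a) (v := x)
  have c2 := S.dist_comm (u := a) (v := x')
  have c3 := S.dist_comm (u := b) (v := x)
  have c4 := S.dist_comm (u := b) (v := x')
  have hαβ : S.dist a x' = S.dist b x := by omega
  have hax : S.dist a x = S.dist a x' + 1 := by omega
  have hbx' : S.dist b x' = S.dist a x' + 1 := by omega
  obtain ⟨P, hP⟩ := (hS.connected a x').exists_walk_length_eq_dist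
  obtain ⟨Q, hQ⟩ := (hS.connected b x).exists_walk_length_eq_dist
  have hR1 : (P.concat hxx).length = S.dist a x := by
    rw [SimpleGraph.Walk.length_concat]; omega
  have hR2 : (SimpleGraph.Walk.cons hab Q).length = S.dist a x := by
    rw [SimpleGraph.Walk.length_cons]; omega
  have p1 := SimpleGraph.Walk.isPath_of_length_eq_dist _ hR1
  have p2 := SimpleGraph.Walk.isPath_of_length_eq_dist _ hR2
  have heq := (hS.existsUnique_path a x).unique p1 p2
  have hb : b ∈ (P.concat hxx).support := by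
    rw [heq]
    simp
  rw [SimpleGraph.Walk.support_concat, List.mem_append,
    List.mem_singleton] at hb
  rcases hb with hb | hb
  · exfalso
    classical
    have hd := SimpleGraph.dist_le (P.dropUntil b hb)
    have hl := P.length_dropUntil_le hb
    omega
  · subst hb
    refine ⟨rfl, ?_⟩
    have h0 : S.dist a x' = 0 := by rw [hαβ]; exact S.dist_self
    exact ((hS.connected.dist_eq_zero_iff).1 h0).symm

end A2

theorem prA2 (h1 : PA1) : PA2 := by
  intro σ S hS a b r r' hab hr hr'
  have main : ∀ (x y : σ) (w : S.Walk x y), S.dist b x < S.dist a x → S.dist a y < S.dist b y →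
      S.dist x b + 1 + S.dist a y ≤ w.length := by
    intro x y w
    induction w with
    | nil => intro h h'; omega
    | @cons u v z h w ih =>
      intro hu hz
      rw [SimpleGraph.Walk.length_cons]
      by_cases hv : S.dist b v < S.dist a v
      · have := ih hv hz
        have ht := hS.connected.dist_triangle (u := u) (v := v) (w := b)
        have h1' : S.dist u v = 1 := SimpleGraph.dist_eq_one_iff_adj.2 h
        omega
      · have hv' : S.dist a v < S.dist b v := by
          have := h1 S hS a b v hab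
          omega
        obtain ⟨hub, hva⟩ := A2.key h1 S hS a b u v hab hu hv' h.symm
        subst hub
        subst hva
        have h0 : S.dist u u = 0 := S.dist_self
        have := SimpleGraph.dist_le w
        omega
  obtain ⟨w, hw⟩ := (hS.connected r r').exists_walk_length_eq_dist
  have hlow := main r r' w hr hr'
  have t1 := hS.connected.dist_triangle (u := r) (v := b) (w := r')
  have t2 := hS.connected.dist_triangle (u := b) (v := a) (w := r')
  have h1' : S.dist b a = 1 := SimpleGraph.dist_eq_one_iff_adj.2 hab.symm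
  omega

end Pool.Agent.MP_343d73

end

section

set_option autoImplicit false

namespace Pool.Agent.MP_343d73

theorem prA4 : PA4 := by
  intro σ S hS x y n hn
  obtain ⟨p, hp⟩ := (hS.connected x y).exists_walk_length_eq_dist
  have huniq : ∀ r, S.dist x r = n ∧ S.dist x r + S.dist r y = S.dist x y → r = p.getVert n := by
    intro r ⟨h1, h2⟩
    obtain ⟨u, hu⟩ := (hS.connected x r).exists_walk_length_eq_dist
    obtain ⟨v, hv⟩ := (hS.connected r y).exists_walk_length_eq_dist
    have hl : (u.append v).length = S.dist x y := by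
      rw [SimpleGraph.Walk.length_append]; omega
    have p1 := SimpleGraph.Walk.isPath_of_length_eq_dist _ hl
    have p2 := SimpleGraph.Walk.isPath_of_length_eq_dist _ hp
    have heq := (hS.existsUnique_path x y).unique p1 p2
    rw [← heq]
    have hun : n = u.length := by omega
    rw [SimpleGraph.Walk.getVert_append, hun]
    simp
  refine ⟨p.getVert n, ?_, huniq⟩
  have d1 : S.dist x (p.getVert n) ≤ n := by
    have := SimpleGraph.dist_le (p.take n)
    have h2 := p.take_length n
    omega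
  have d2 : S.dist (p.getVert n) y ≤ p.length - n := by
    have := SimpleGraph.dist_le (p.drop n)
    have h2 := p.drop_length n
    omega
  have ht := hS.connected.dist_triangle (u := x) (v := p.getVert n) (w := y)
  constructor <;> omega

theorem prA3 : PA3 := by
  intro σ S hS x y
  apply Set.Finite.of_injOn (f := fun r => S.dist x r) (t := Set.Iic (S.dist x y))
  · intro r hr
    simp only [Set.mem_ofPred_eq] at hr
    simp only [Set.mem_Iic]
    omega
  · intro r hr r' hr' h
    simp only [Set.mem_ofPred_eq] at hr hr' h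
    have hle : S.dist x r ≤ S.dist x y := by omega
    exact (prA4 S hS x y (S.dist x r) hle).unique ⟨rfl, hr⟩ ⟨h.symm, hr'⟩
  · exact Set.finite_Iic _

end Pool.Agent.MP_343d73

end

section

set_option autoImplicit false

/-!
A5: projection of a point of a tree to a geodesic.
-/

namespace Pool.Agent.MP_343d73

namespace ItemA5

variable {σ : Type}

/-- two points of an interval, in order -/
lemma mid (h4 : PA4) (S : SimpleGraph σ) (hT : S.IsTree) {u v c z : σ}
    (hc : S.dist u c + S.dist c v = S.dist u v) (hz : S.dist u z + S.dist z v = S.dist u v)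
    (hle : S.dist u c ≤ S.dist u z) : S.dist u c + S.dist c z = S.dist u z := by
  obtain ⟨c₂, ⟨h21, h22⟩, -⟩ := h4 S hT u z (S.dist u c) hle
  have h3 : S.dist u c₂ + S.dist c₂ v = S.dist u v := by
    have e1 := hT.1.dist_triangle (u := u) (v := c₂) (w := v)
    have e2 := hT.1.dist_triangle (u := c₂) (v := z) (w := v)
    omega
  have hlu : S.dist u c ≤ S.dist u v := by omega
  have h5 : c₂ = c := (h4 S hT u v (S.dist u c) hlu).unique ⟨h21, h3⟩ ⟨rfl, hc⟩
  rw [h5] at h22
  exact h22

/-- one side of the projection -/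
lemma side (h1 : PA1) (h2 : PA2) (h4 : PA4) (S : SimpleGraph σ) (hT : S.IsTree) {u v w c z : σ}
    (hc : S.dist u c + S.dist c v = S.dist u v)
    (hmin : ∀ c', S.dist u c' + S.dist c' v = S.dist u v → S.dist w c ≤ S.dist w c')
    (hz : S.dist u z + S.dist z v = S.dist u v)
    (hle : S.dist u c ≤ S.dist u z) : S.dist w z = S.dist w c + S.dist c z := by
  have hm := mid h4 S hT hc hz hle
  by_cases h0 : S.dist c z = 0
  · have : c = z := (hT.1.dist_eq_zero_iff).mp h0
    subst this
    omega
  obtain ⟨c', ⟨h31, h32⟩, -⟩ := h4 S hT c z 1 (by omega)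
  have hadj : S.Adj c c' := SimpleGraph.dist_eq_one_iff_adj.1 h31
  have hc' : S.dist u c' + S.dist c' v = S.dist u v := by
    have e1 := hT.1.dist_triangle (u := u) (v := c') (w := v)
    have e2 := hT.1.dist_triangle (u := c') (v := z) (w := v)
    have e3 := hT.1.dist_triangle (u := u) (v := c) (w := c')
    omega
  have hmc := hmin c' hc'
  have e1 := h1 S hT c c' w hadj
  have e2 : S.dist c' w = S.dist w c' := SimpleGraph.dist_comm
  have e3 : S.dist c w = S.dist w c := SimpleGraph.dist_comm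
  have e4 := h2 S hT c c' z w hadj (by omega) (by omega)
  have e5 : S.dist z w = S.dist w z := SimpleGraph.dist_comm
  have e6 : S.dist z c' = S.dist c' z := SimpleGraph.dist_comm
  omega

end ItemA5

open ItemA5

theorem prA5 (h1 : PA1) (h2 : PA2) (h4 : PA4) : PA5 := by
  intro σ S hT u v w
  have hne : ∃ n : ℕ, ∃ c, S.dist u c + S.dist c v = S.dist u v ∧ S.dist w c = n :=
    ⟨_, u, by simp, rfl⟩
  classical
  obtain ⟨c, hc, hcn⟩ := Nat.find_spec hne
  have hmin : ∀ c', S.dist u c' + S.dist c' v = S.dist u v → S.dist w c ≤ S.dist w c' := by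
    intro c' hc'
    rw [hcn]
    exact Nat.find_min' hne ⟨c', hc', rfl⟩
  refine ⟨c, hc, fun z hz => ?_⟩
  rcases le_total (S.dist u c) (S.dist u z) with hle | hle
  · exact side h1 h2 h4 S hT hc hmin hz hle
  · have cm : ∀ x y, S.dist x y = S.dist y x := fun x y => SimpleGraph.dist_comm
    refine side h1 h2 h4 S hT (u := v) (v := u) (w := w) (c := c) (z := z) ?_ ?_ ?_ ?_
    · rw [cm v c, cm c u, cm v u]
      omega
    · intro c' hc'
      apply hmin
      rw [cm v c', cm c' u, cm v u] at hc'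
      omega
    · rw [cm v z, cm z u, cm v u]
      omega
    · rw [cm v c, cm v z]
      omega

end Pool.Agent.MP_343d73

end

section

set_option autoImplicit false

namespace Pool.Agent.MP_343d73

theorem prA6 (h1 : PA1) (h2 : PA2) : PA6 := by
  intro σ S hS s r hsr
  obtain ⟨p, hp⟩ := (hS.connected s r).exists_walk_length_eq_dist
  cases p with
  | nil => exact absurd rfl hsr
  | @cons u b w h p' =>
    refine ⟨b, ⟨h, ?_⟩, ?_⟩
    · show S.dist b r < S.dist s r
      have := SimpleGraph.dist_le p'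
      rw [SimpleGraph.Walk.length_cons] at hp
      omega
    · intro b' ⟨hb', hf⟩
      have hf' : S.dist b' r < S.dist s r := hf
      have hb : S.dist b r < S.dist s r := by
        have := SimpleGraph.dist_le p'
        rw [SimpleGraph.Walk.length_cons] at hp
        omega
      by_contra hne
      have hd1 : S.dist s b' = 1 := SimpleGraph.dist_eq_one_iff_adj.2 hb'
      have hd2 : S.dist b b' ≠ 0 := by
        intro h0
        exact hne ((hS.connected.dist_eq_zero_iff).1 h0).symm
      have h3 := h1 S hS s b b' h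
      have h4 := h1 S hS s b r h
      have h5 := h2 S hS s b r b' h hb (by omega)
      have c1 := S.dist_comm (u := b) (v := r)
      have c2 := S.dist_comm (u := b') (v := r)
      omega

theorem prA7 (h1 : PA1) (h2 : PA2) : PA7 := by
  intro σ S hS x y r r' hxy hr hr'
  obtain ⟨x1, ⟨hx1, hf⟩, -⟩ := prA6 h1 h2 S hS x y hxy
  have hf' : S.dist x1 y < S.dist x y := hf
  unfold Beh at hr hr'
  have e1 := h1 S hS x x1 r hx1
  have e2 := h1 S hS x x1 r' hx1
  have e3 := h1 S hS x x1 y hx1
  have t1 := hS.connected.dist_triangle (u := r) (v := x1) (w := y)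
  have t2 := hS.connected.dist_triangle (u := x1) (v := y) (w := r')
  have c1 := S.dist_comm (u := x) (v := r)
  have c2 := S.dist_comm (u := x) (v := r')
  have c3 := S.dist_comm (u := x1) (v := r)
  have c4 := S.dist_comm (u := x1) (v := r')
  have c5 := S.dist_comm (u := y) (v := r')
  have c6 := S.dist_comm (u := x) (v := y)
  have c7 := S.dist_comm (u := r) (v := r')
  have h3 := h2 S hS x x1 r' r hx1 (by omega) (by omega)
  omega

end Pool.Agent.MP_343d73

end

section

set_option autoImplicit false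

/-!
A9: ping-pong.
-/

namespace Pool.Agent.MP_343d73

namespace ItemA9

lemma half (h1 : PA1) (h2 : PA2) (h8 : PA8) {σ G : Type} [Group G] [MulAction G σ]
    (S : SimpleGraph σ) (hT : S.IsTree)
    (hS : ∀ (g : G) a b, S.Adj a b → S.Adj (g • a) (g • b)) {y z z1 : σ} {b : G}
    (hzz : S.Adj z z1) (hfar : Far S (z, z1) y) (hbz : b • z = z) (hbz1 : b • z1 ≠ z1) {r : σ}
    (hr : Beh S y z r) : Beh S z y (b • r) ∧ S.dist z (b • r) = S.dist z r := by
  unfold Far at hfar
  unfold Beh at hr ⊢
  simp only at hfar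
  have cm : ∀ x y, S.dist x y = S.dist y x := fun x y => SimpleGraph.dist_comm
  -- `r` is far
  have hrf : S.dist z1 r < S.dist z r := by
    rcases h1 S hT z z1 r hzz with h | h
    · have e1 := h2 S hT z z1 y r hzz hfar (by omega)
      have e2 := cm y r
      have e3 := cm y z
      have e4 := cm r z
      omega
    · omega
  have hbr : S.dist (b • z1) (b • r) = S.dist z1 r := h8 S hS b _ _
  have hbr2 : S.dist z (b • r) = S.dist z r := by
    have := h8 S hS b z r
    rwa [hbz] at this
  have hadj : S.Adj z (b • z1) := by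
    have := hS b _ _ hzz
    rwa [hbz] at this
  have hd1 : S.dist z (b • z1) = 1 := SimpleGraph.dist_eq_one_iff_adj.2 hadj
  have hd2 : S.dist z1 (b • z1) = 2 := by
    have h0 : S.dist z1 (b • z1) ≠ 0 := by
      intro h
      exact hbz1 ((hT.1.dist_eq_zero_iff).mp h).symm
    rcases h1 S hT z z1 (b • z1) hzz with h | h
    · omega
    · omega
  have hnf : S.dist z (b • r) < S.dist z1 (b • r) := by
    rcases h1 S hT z z1 (b • r) hzz with h | h
    · omega
    · exfalso
      have e1 := h2 S hT z z1 (b • r) (b • z1) hzz (by omega) (by omega)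
      have e2 := cm (b • r) (b • z1)
      have e3 := cm (b • r) z1
      omega
  have e1 := h2 S hT z z1 y (b • r) hzz hfar hnf
  have e2 := h1 S hT z z1 y hzz
  have e3 := cm y (b • r)
  have e4 := cm y z1
  have e5 := cm z y
  have e6 := cm z (b • r)
  exact ⟨by omega, hbr2⟩

end ItemA9

open ItemA9

theorem prA9 (h1 : PA1) (h2 : PA2) (h8 : PA8) : PA9 := by
  intro σ G _ _ S hT hS y z y1 z1 a b hy hyf hz hzf hay hay1 hbz hbz1 r hr m
  have cm : ∀ x y, S.dist x y = S.dist y x := fun x y => SimpleGraph.dist_comm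
  induction m with
  | zero => simpa using hr
  | succ m ih =>
    obtain ⟨ih1, ih2⟩ := ih
    have hpow : (a * b) ^ (m + 1) • r = a • (b • ((a * b) ^ m • r)) := by
      rw [pow_succ', mul_smul, mul_smul]
    rw [hpow]
    generalize (a * b) ^ m • r = x at ih1 ih2 ⊢
    obtain ⟨h3, h4⟩ := half h1 h2 h8 S hT hS hz hzf hbz hbz1 ih2
    obtain ⟨h5, h6⟩ := half h1 h2 h8 S hT hS hy hyf hay hay1 h3
    refine ⟨?_, h5⟩
    rw [h6]
    unfold Beh at h3 ih2
    have e1 := cm y (b • x)
    have e2 := cm z (b • x)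
    have e3 := cm x z
    have e4 := cm x y
    have e5 := cm z y
    rw [e1, h3, ← e2, h4, ← e3, ih2, e4, ih1, e5]
    ring

end Pool.Agent.MP_343d73

end

section

set_option autoImplicit false

namespace Pool.Agent.MP_343d73

theorem prB1 : PB1 := by
  intro G τ _ _ hfree _ f hf
  set e : Quotient (MulAction.orbitRel G τ) × G → τ := fun x => x.2⁻¹ • x.1.out with he
  have hinj : Function.Injective e := by
    rintro ⟨q, k⟩ ⟨q', k'⟩ h
    simp only [he] at h
    have h1 : q = q' := by
      rw [← Quotient.out_eq q, ← Quotient.out_eq q']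
      refine Quotient.sound (MulAction.orbitRel_apply.2 ⟨k * k'⁻¹, ?_⟩)
      simp only [mul_smul]
      rw [← h, smul_inv_smul]
    subst h1
    have h2 : (k' * k⁻¹) • q.out = q.out := by
      rw [mul_smul, h, smul_inv_smul]
    have h3 := hfree _ _ h2
    have h4 : k' = k := by
      rw [mul_inv_eq_one] at h3
      exact h3
    rw [h4]
  have hsurj : Function.Surjective e := by
    intro t
    obtain ⟨g, hg⟩ : (Quotient.mk (MulAction.orbitRel G τ) t).out ∈ MulAction.orbit G t :=
      MulAction.orbitRel_apply.1 (Quotient.exact (Quotient.out_eq _))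
    refine ⟨(Quotient.mk _ t, g), ?_⟩
    simp only [he]
    rw [← hg]
    simp
  have h1 : ∑ᶠ x, f (e x) = ∑ᶠ t, f t := finsum_eq_of_bijective e ⟨hinj, hsurj⟩ (fun x => rfl)
  rw [← h1, finsum_curry]
  refine Set.Finite.subset (Set.Finite.preimage hinj.injOn hf) ?_
  intro x hx
  exact hx

end Pool.Agent.MP_343d73

end

section

set_option autoImplicit false

namespace Pool.Agent.MP_343d73

open scoped Classical in
theorem prB2 : PB2 := by
  intro G τ V _ _ _ X hX Ψ hinv hflow A hA
  have : Finite (Quotient (MulAction.orbitRel G τ)) := hX.cocompact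
  have : Fintype (Quotient (MulAction.orbitRel G τ)) := Fintype.ofFinite _
  set s : Quotient (MulAction.orbitRel G τ) × Fin 4 → Quotient (MulAction.orbitRel G τ) × Fin 4 :=
    fun x => (cl G (X.nb x.1.out x.2), X.pm x.1.out x.2 x.2) with hs
  set g : Quotient (MulAction.orbitRel G τ) × Fin 4 → ℝ :=
    fun x => if x.1 ∈ A then Ψ x.1.out x.2 else 0 with hg
  have hrep : ∀ t : τ, ∃ k : G, t = k • (cl G t).out := by
    intro t
    obtain ⟨k, hk⟩ : (cl G t).out ∈ MulAction.orbit G t :=
      MulAction.orbitRel_apply.1 (Quotient.exact (Quotient.out_eq _))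
    refine ⟨k⁻¹, ?_⟩
    rw [← hk]
    simp
  have hcl : ∀ (k : G) (t : τ), cl G (k • t) = cl G t := by
    intro k t
    exact Quotient.sound (MulAction.orbitRel_apply.2 ⟨k, rfl⟩)
  -- the image of a pair
  have key : ∀ (q : Quotient (MulAction.orbitRel G τ)) (i : Fin 4),
      cl G (X.nb (cl G (X.nb q.out i)).out (X.pm q.out i i)) = q ∧
      X.pm (cl G (X.nb q.out i)).out (X.pm q.out i i) (X.pm q.out i i) = i ∧
      Ψ (cl G (X.nb q.out i)).out (X.pm q.out i i) = - Ψ q.out i := by
    intro q i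
    obtain ⟨k, hk⟩ := hrep (X.nb q.out i)
    generalize hq' : (cl G (X.nb q.out i)).out = t' at *
    have h1 : X.nb (X.nb q.out i) (X.pm q.out i i) = q.out := X.nb_nb _ _
    have h2 : X.pm (X.nb q.out i) (X.pm q.out i i) = (X.pm q.out i)⁻¹ := X.pm_pm _ _
    have h3 : Ψ (X.nb q.out i) (X.pm q.out i i) = - Ψ q.out i := hflow _ _
    rw [hk] at h1 h2 h3
    rw [hX.nb_smul] at h1
    rw [hX.pm_smul] at h2
    rw [hinv] at h3
    refine ⟨?_, ?_, h3⟩
    · have h4 := hcl k (X.nb t' (X.pm q.out i i))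
      rw [h1] at h4
      rw [← h4]
      exact Quotient.out_eq q
    · rw [h2]
      simp
  have hs2 : Function.Involutive s := by
    rintro ⟨q, i⟩
    obtain ⟨h1, h2, -⟩ := key q i
    simp only [hs]
    rw [h1, h2]
  have hgs : ∀ x, g (s x) = - g x := by
    rintro ⟨q, i⟩
    obtain ⟨h1, h2, h3⟩ := key q i
    simp only [hs, hg]
    rw [h3]
    by_cases hq : q ∈ A
    · by_cases hq' : cl G (X.nb q.out i) ∈ A
      · rw [if_pos hq, if_pos hq']
      · rw [if_pos hq, if_neg hq']
        have h4 : cl G q.out ∈ A := by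
          have : cl G q.out = q := Quotient.out_eq q
          rw [this]
          exact hq
        rw [hA _ _ h4 hq', neg_zero]
    · by_cases hq' : cl G (X.nb q.out i) ∈ A
      · rw [if_neg hq, if_pos hq', neg_zero]
        have h4 : cl G (cl G (X.nb q.out i)).out ∈ A := by
          have : cl G (cl G (X.nb q.out i)).out = cl G (X.nb q.out i) := Quotient.out_eq _
          rw [this]
          exact hq'
        have h5 := hA _ (X.pm q.out i i) h4 (by rw [h1]; exact hq)
        rw [h3] at h5
        exact h5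
      · rw [if_neg hq, if_neg hq', neg_zero]
  have hsum : ∑ x, g x = 0 := by
    have h1 : ∑ x, g (s x) = ∑ x, g x := Equiv.sum_comp (Function.Involutive.toPerm s hs2) g
    have h2 : ∑ x, g (s x) = - ∑ x, g x := by
      rw [← Finset.sum_neg_distrib]
      exact Finset.sum_congr rfl fun x _ => hgs x
    linarith
  rw [finsum_eq_sum_of_fintype]
  rw [Fintype.sum_prod_type] at hsum
  refine Eq.trans ?_ hsum
  refine Finset.sum_congr rfl fun q _ => ?_
  by_cases hq : q ∈ A
  · rw [if_pos hq]
    exact Finset.sum_congr rfl fun i _ => (if_pos hq).symm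
  · rw [if_neg hq]
    exact (Finset.sum_eq_zero fun i _ => if_neg hq).symm

end Pool.Agent.MP_343d73

end

section

set_option autoImplicit false

namespace Pool.Agent.MP_343d73

open scoped Classical in
theorem prB3 (h1 : PB1) : PB3 := by
  intro G τ Y _ _ _ hfree hfin F hF hstab hsupp hsupp' hzero
  have := hfin
  have : Fintype (Quotient (MulAction.orbitRel G τ)) := Fintype.ofFinite _
  rw [finsum_eq_sum_of_fintype]
  set cY : Y → Quotient (MulAction.orbitRel G Y) := fun y => Quotient.mk _ y with hcY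
  -- the finitely many orbits
  set S : Finset (Quotient (MulAction.orbitRel G Y)) :=
    Finset.univ.biUnion fun q : Quotient (MulAction.orbitRel G τ) =>
      (hsupp q.out).toFinset.image cY with hS
  have hrep : ∀ y : Y, ∃ k : G, k • (cY y).out = y := by
    intro y
    obtain ⟨k, hk⟩ : (cY y).out ∈ MulAction.orbit G y :=
      MulAction.orbitRel_apply.1 (Quotient.exact (Quotient.out_eq _))
    refine ⟨k⁻¹, ?_⟩
    rw [← hk]
    simp
  have hcl : ∀ (k : G) (y : Y), cY (k • y) = cY y := by
    intro k y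
    exact Quotient.sound (MulAction.orbitRel_apply.2 ⟨k, rfl⟩)
  have hSfree : ∀ o ∈ S, ∀ g : G, g • o.out = o.out → g = 1 := by
    intro o ho g hg
    rw [hS, Finset.mem_biUnion] at ho
    obtain ⟨q, -, ho⟩ := ho
    obtain ⟨y, hy, rfl⟩ := Finset.mem_image.1 ho
    rw [Set.Finite.mem_toFinset, Function.mem_support] at hy
    obtain ⟨k, hk⟩ := hrep y
    have h2 := hstab _ _ hy (k * g * k⁻¹) (by
      rw [← hk]
      simp only [mul_smul, inv_smul_smul, hg])
    have h3 : k * g = k := mul_inv_eq_one.1 h2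
    exact mul_eq_left.1 h3
  have hstep : ∀ q : Quotient (MulAction.orbitRel G τ),
      ∑ᶠ y, F q.out y = ∑ o ∈ S, ∑ᶠ k : G, F (k⁻¹ • q.out) o.out := by
    intro q
    have hmaps : ∀ y ∈ (hsupp q.out).toFinset, cY y ∈ S := by
      intro y hy
      rw [hS, Finset.mem_biUnion]
      exact ⟨q, Finset.mem_univ q, Finset.mem_image_of_mem _ hy⟩
    rw [finsum_eq_sum_of_support_toFinset_subset _ (hsupp q.out) (Finset.Subset.refl _),
      ← Finset.sum_fiberwise_of_maps_to hmaps]
    refine Finset.sum_congr rfl fun o ho => ?_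
    have hinj : Function.Injective fun k : G => k • o.out := by
      intro k k' h
      have h2 : (k'⁻¹ * k) • o.out = o.out := by
        rw [mul_smul]
        exact inv_smul_eq_iff.2 h
      have h3 := hSfree o ho _ h2
      exact (inv_mul_eq_one.1 h3).symm
    have e1 : ∑ᶠ k : G, F (k⁻¹ • q.out) o.out = ∑ᶠ k : G, F q.out (k • o.out) := by
      refine finsum_congr fun k => ?_
      rw [← hF k (k⁻¹ • q.out) o.out, smul_inv_smul]
    rw [e1]
    rw [← finsum_mem_range (f := fun y => F q.out y) hinj]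
    rw [← finsum_mem_coe_finset]
    refine finsum_mem_inter_support_eq _ _ _ ?_
    ext y
    simp only [Finset.coe_filter, Set.Finite.mem_toFinset, Function.mem_support, Set.mem_inter_iff,
      Set.mem_ofPred_eq, Set.mem_range]
    constructor
    · rintro ⟨⟨h2, h3⟩, h4⟩
      refine ⟨?_, h4⟩
      obtain ⟨k, hk⟩ := hrep y
      rw [h3] at hk
      exact ⟨k, hk⟩
    · rintro ⟨⟨k, hk⟩, h4⟩
      refine ⟨⟨h4, ?_⟩, h4⟩
      rw [← hk, hcl]
      exact Quotient.out_eq o
  rw [Finset.sum_congr rfl fun q _ => hstep q, Finset.sum_comm]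
  refine Finset.sum_eq_zero fun o _ => ?_
  have h2 := h1 hfree hfin (fun t => F t o.out) (hsupp' o.out)
  rw [finsum_eq_sum_of_fintype] at h2
  rw [h2, hzero]

end Pool.Agent.MP_343d73

end

section

set_option autoImplicit false

namespace Pool.Agent.MP_343d73

open scoped Classical in
theorem prB4 : PB4 := by
  intro τ V X E hE hfin A
  set s : τ × Fin 4 → τ × Fin 4 := fun x => (X.nb x.1 x.2, X.pm x.1 x.2 x.2) with hs
  set g : τ × Fin 4 → ℝ := fun x => if x.1 ∈ A ∧ X.nb x.1 x.2 ∈ A then E x.1 x.2 else 0 with hg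
  have hs2 : Function.Involutive s := by
    rintro ⟨t, i⟩
    simp only [hs]
    rw [X.nb_nb, X.pm_pm]
    simp
  have hgs : ∀ x, g (s x) = - g x := by
    rintro ⟨t, i⟩
    simp only [hs, hg]
    rw [X.nb_nb, hE t i]
    by_cases h1 : t ∈ A
    · by_cases h2 : X.nb t i ∈ A
      · simp [h1, h2]
      · simp [h1, h2]
    · simp [h1]
  have hsuppg : (Function.support g).Finite := by
    refine Set.Finite.subset (hfin.prod (Set.finite_univ (α := Fin 4))) ?_
    rintro ⟨t, i⟩ hx
    refine ⟨⟨i, ?_⟩, Set.mem_univ _⟩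
    intro h0
    apply hx
    simp only [hg]
    rw [h0]
    simp
  have hsum : ∑ᶠ x, g x = 0 := by
    have h1 : ∑ᶠ x, g (s x) = ∑ᶠ x, g x :=
      finsum_eq_of_bijective s hs2.bijective (fun x => rfl)
    have h2 : ∑ᶠ x, g (s x) = - ∑ᶠ x, g x := by
      rw [← finsum_neg_distrib]
      exact finsum_congr hgs
    linarith
  rw [finsum_curry _ hsuppg] at hsum
  refine Eq.trans ?_ hsum
  exact finsum_congr fun t => (finsum_eq_sum_of_fintype _).symm

theorem prB5 : PB5 := by
  intro G τ Z α _ _ _ P hP h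
  choose f0 hf0 hf1 using fun q : Quotient (MulAction.orbitRel G Z) => h q.out
  have hrep : ∀ z : Z, ∃ k : G, k • (cl G z).out = z := by
    intro z
    obtain ⟨k, hk⟩ : (cl G z).out ∈ MulAction.orbit G z :=
      MulAction.orbitRel_apply.1 (Quotient.exact (Quotient.out_eq _))
    refine ⟨k⁻¹, ?_⟩
    rw [← hk]
    simp
  have hcl : ∀ (k : G) (z : Z), cl G (k • z) = cl G z := by
    intro k z
    exact Quotient.sound (MulAction.orbitRel_apply.2 ⟨k, rfl⟩)
  choose k hk using hrep
  refine ⟨fun z t => f0 (cl G z) ((k z)⁻¹ • t), ?_, ?_⟩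
  · intro z
    have := hP (k z) (cl G z).out (f0 (cl G z)) (hf0 _)
    rw [hk z] at this
    exact this
  · intro g z t
    simp only
    rw [hcl g z]
    have h1 := hf1 (cl G z) ((k (g • z))⁻¹ * g * k z) (by
      rw [mul_smul, mul_smul, hk z]
      have := hk (g • z)
      rw [hcl g z] at this
      exact inv_smul_eq_iff.2 this.symm) ((k z)⁻¹ • t)
    rw [← h1, mul_smul, mul_smul, smul_inv_smul]

end Pool.Agent.MP_343d73

end

section

set_option autoImplicit false

namespace Pool.Agent.MP_343d73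

namespace C1

theorem key : ∀ (s : Equiv.Perm (Fin 4)), Equiv.Perm.sign s = -1 → ∀ i : Fin 4,
    (s (fa i) = fc (s i) ∧ s (fb i) = fb (s i) ∧ s (fc i) = fa (s i)) ∨
    (s (fa i) = fb (s i) ∧ s (fb i) = fa (s i) ∧ s (fc i) = fc (s i)) ∨
    (s (fa i) = fa (s i) ∧ s (fb i) = fc (s i) ∧ s (fc i) = fb (s i)) := by
  decide

theorem ne_a (i : Fin 4) : fa i ≠ i := by fin_cases i <;> decide
theorem ne_b (i : Fin 4) : fb i ≠ i := by fin_cases i <;> decide
theorem ne_c (i : Fin 4) : fc i ≠ i := by fin_cases i <;> decide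

end C1

open C1

theorem prC1 : PC1 := by
  intro τ V X b hb
  obtain ⟨ha, hg⟩ := hb
  constructor
  · intro t i hi
    have ho := X.orient t i hi
    have hab := hg t i (fa i) (fb i) (ne_a i) (ne_b i)
    have hbc := hg t i (fb i) (fc i) (ne_b i) (ne_c i)
    have hca := hg t i (fc i) (fa i) (ne_c i) (ne_a i)
    rcases key (X.pm t i) ho i with ⟨h1, h2, h3⟩ | ⟨h1, h2, h3⟩ | ⟨h1, h2, h3⟩
    · rw [h1, h2] at hab
      rw [h2, h3] at hbc
      rw [h3, h1] at hca
      simp only [d1]
      rw [← hab, ← hbc, ← hca]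
      rw [ha (X.nb t i) (fb (X.pm t i i)) (fc (X.pm t i i)),
        ha (X.nb t i) (fa (X.pm t i i)) (fb (X.pm t i i)),
        ha (X.nb t i) (fc (X.pm t i i)) (fa (X.pm t i i))]
      ring
    · rw [h1, h2] at hab
      rw [h2, h3] at hbc
      rw [h3, h1] at hca
      simp only [d1]
      rw [← hab, ← hbc, ← hca]
      rw [ha (X.nb t i) (fa (X.pm t i i)) (fb (X.pm t i i)),
        ha (X.nb t i) (fc (X.pm t i i)) (fa (X.pm t i i)),
        ha (X.nb t i) (fb (X.pm t i i)) (fc (X.pm t i i))]
      ring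
    · rw [h1, h2] at hab
      rw [h2, h3] at hbc
      rw [h3, h1] at hca
      simp only [d1]
      rw [← hab, ← hbc, ← hca]
      rw [ha (X.nb t i) (fc (X.pm t i i)) (fa (X.pm t i i)),
        ha (X.nb t i) (fb (X.pm t i i)) (fc (X.pm t i i)),
        ha (X.nb t i) (fa (X.pm t i i)) (fb (X.pm t i i))]
      ring
  · intro t
    have h10 := ha t 0 1
    have h20 := ha t 0 2
    have h30 := ha t 0 3
    have h21 := ha t 1 2
    have h31 := ha t 1 3
    have h32 := ha t 2 3
    rw [Fin.sum_univ_four]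
    simp only [d1, fa, fb, fc]
    simp
    rw [h10, h20, h30, h21, h31, h32]
    ring

theorem prC2 : PC2 := by
  intro τ V X b hb c t i hi
  have hd := (prC1 X b hb).1 t i hi
  obtain ⟨ha, hg⟩ := hb
  have ho := X.orient t i hi
  have hab := hg t i (fa i) (fb i) (ne_a i) (ne_b i)
  have hbc := hg t i (fb i) (fc i) (ne_b i) (ne_c i)
  have hca := hg t i (fc i) (fa i) (ne_c i) (ne_a i)
  have va := X.vx_nb t i (fa i) (ne_a i)
  have vb := X.vx_nb t i (fb i) (ne_b i)
  have vc := X.vx_nb t i (fc i) (ne_c i)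
  rcases key (X.pm t i) ho i with ⟨h1, h2, h3⟩ | ⟨h1, h2, h3⟩ | ⟨h1, h2, h3⟩
  all_goals
    rw [h1, h2] at hab
    rw [h2, h3] at hbc
    rw [h3, h1] at hca
    rw [h1] at va
    rw [h2] at vb
    rw [h3] at vc
    simp only [Tri.Wd, Tri.cbar, hd]
    rw [← hab, ← hbc, ← hca, va, vb, vc]
  · rw [ha (X.nb t i) (fb (X.pm t i i)) (fc (X.pm t i i)),
        ha (X.nb t i) (fa (X.pm t i i)) (fb (X.pm t i i)),
        ha (X.nb t i) (fc (X.pm t i i)) (fa (X.pm t i i))]
    ring
  · rw [ha (X.nb t i) (fa (X.pm t i i)) (fb (X.pm t i i)),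
        ha (X.nb t i) (fc (X.pm t i i)) (fa (X.pm t i i)),
        ha (X.nb t i) (fb (X.pm t i i)) (fc (X.pm t i i))]
    ring
  · rw [ha (X.nb t i) (fc (X.pm t i i)) (fa (X.pm t i i)),
        ha (X.nb t i) (fb (X.pm t i i)) (fc (X.pm t i i)),
        ha (X.nb t i) (fa (X.pm t i i)) (fb (X.pm t i i))]
    ring

end Pool.Agent.MP_343d73

end

section

set_option autoImplicit false

namespace Pool.Agent.MP_343d73

theorem prC3 : PC3 := by
  intro τ V X b hb c t
  obtain ⟨ha, -⟩ := hb
  have h10 := ha t 0 1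
  have h20 := ha t 0 2
  have h30 := ha t 0 3
  have h21 := ha t 1 2
  have h31 := ha t 1 3
  have h32 := ha t 2 3
  rw [Fin.sum_univ_four, Fin.sum_univ_four]
  simp only [Tri.cbar, Tri.Wd, d1, fa, fb, fc]
  simp
  rw [h10, h20, h30, h21, h31, h32]
  ring

theorem prC4 : PC4 := by
  intro τ V X b hb c x t i hc
  have h1 : c (X.vx t (fa i)) = x := hc _ (by fin_cases i <;> decide)
  have h2 : c (X.vx t (fb i)) = x := hc _ (by fin_cases i <;> decide)
  have h3 : c (X.vx t (fc i)) = x := hc _ (by fin_cases i <;> decide)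
  simp only [Tri.cbar, Tri.Wd, d1, h1, h2, h3]
  ring

theorem prC5 : PC5 := by
  intro τ V X c h t i
  simp only [Tri.cbar, Tri.Wd, d1]
  ring

end Pool.Agent.MP_343d73

end

section

set_option autoImplicit false

namespace Pool.Agent.MP_343d73

namespace D1

private theorem exists_prim (f : ℤ → ℝ) : ∃ u : ℤ → ℝ, ∀ m, u (m + 1) - u m = f m := by
  refine ⟨fun m => (∑ k ∈ Finset.range m.toNat, f k) -
    ∑ k ∈ Finset.range (-m).toNat, f (-((k : ℤ) + 1)), fun m => ?_⟩
  rcases le_or_gt 0 m with hm | hm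
  · obtain ⟨n, rfl⟩ := Int.eq_ofNat_of_zero_le hm
    have h1 : ((n : ℤ) + 1).toNat = n + 1 := by omega
    have h2 : (-((n : ℤ) + 1)).toNat = 0 := by omega
    have h3 : ((n : ℤ)).toNat = n := by omega
    have h4 : (-(n : ℤ)).toNat = 0 := by omega
    simp only [h1, h2, h3, h4, Finset.range_zero, Finset.sum_empty, Finset.sum_range_succ]
    ring
  · obtain ⟨n, hn⟩ := Int.eq_ofNat_of_zero_le (show 0 ≤ -m - 1 by omega)
    obtain rfl : m = -((n : ℤ) + 1) := by omega
    have h1 : (-((n : ℤ) + 1) + 1).toNat = 0 := by omega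
    have h2 : (-(-((n : ℤ) + 1) + 1)).toNat = n := by omega
    have h3 : (-((n : ℤ) + 1)).toNat = 0 := by omega
    have h4 : (-(-((n : ℤ) + 1))).toNat = n + 1 := by omega
    simp only [h1, h2, h3, h4, Finset.range_zero, Finset.sum_empty, Finset.sum_range_succ]
    ring

end D1

/-- D1 -/
theorem prD1 : PD1 := by
  intro p q h
  choose u hu using fun n : ℤ => D1.exists_prim (fun m => p m n)
  have hr : ∀ n m : ℤ, q m n - (u (n + 1) m - u n m) = q 0 n - (u (n + 1) 0 - u n 0) := by
    intro n m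
    induction m using Int.induction_on with
    | zero => rfl
    | succ k ih =>
      rw [← ih]
      have h1 := h k n
      have h2 := hu (n + 1) k
      have h3 := hu n k
      linarith
    | pred k ih =>
      rw [← ih]
      have h1 := h (-(k : ℤ) - 1) n
      have h2 := hu (n + 1) (-(k : ℤ) - 1)
      have h3 := hu n (-(k : ℤ) - 1)
      simp only [sub_add_cancel] at h1 h2 h3
      linarith
  obtain ⟨w, hw⟩ := D1.exists_prim (fun n => q 0 n - (u (n + 1) 0 - u n 0))
  refine ⟨fun m n => u n m + w n, fun m n => ?_, fun m n => ?_⟩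
  · have := hu n m
    simp only
    linarith
  · have h1 := hr n m
    have h2 := hw n
    simp only
    linarith

end Pool.Agent.MP_343d73

end

section

set_option autoImplicit false

namespace Pool.Agent.MP_343d73

namespace D2

private theorem zmul {G : Type} [Group G] {a b : G} (hab : Commute a b) (m n m' n' : ℤ) :
    (a ^ m * b ^ n) * (a ^ m' * b ^ n') = a ^ (m + m') * b ^ (n + n') := by
  have h1 : b ^ n * a ^ m' = a ^ m' * b ^ n := ((hab.symm.zpow_zpow n m')).eq
  calc (a ^ m * b ^ n) * (a ^ m' * b ^ n') = a ^ m * (b ^ n * a ^ m') * b ^ n' := by group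
    _ = a ^ m * (a ^ m' * b ^ n) * b ^ n' := by rw [h1]
    _ = a ^ (m + m') * b ^ (n + n') := by rw [zpow_add, zpow_add]; group

end D2

/-- D2 -/
theorem prD2 (h1 : PD1) : PD2 := by
  intro G V _ _ a b hab hfree hfr ha hb hc
  classical
  -- the relation
  let s : Setoid V :=
    { r := fun v w => ∃ m n : ℤ, w = (a ^ m * b ^ n) • v
      iseqv := by
        refine ⟨fun v => ⟨0, 0, by simp⟩, ?_, ?_⟩
        · rintro v w ⟨m, n, rfl⟩
          refine ⟨-m, -n, ?_⟩
          rw [← mul_smul, D2.zmul hab]; simp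
        · rintro v w u ⟨m, n, rfl⟩ ⟨m', n', rfl⟩
          refine ⟨m' + m, n' + n, ?_⟩
          rw [← mul_smul, D2.zmul hab] }
  let r : V → V := fun v => (Quotient.mk s v).out
  have hr : ∀ v, ∃ m n : ℤ, v = (a ^ m * b ^ n) • r v := fun v =>
    (Quotient.mk_out (s := s) v)
  choose μ ν hμ using hr
  have hrel : ∀ v w, (∃ m n : ℤ, w = (a ^ m * b ^ n) • v) → r w = r v := by
    intro v w h
    have : Quotient.mk s v = Quotient.mk s w := Quotient.sound h
    simp only [r, this]
  -- uniqueness of coordinates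
  have huniq : ∀ (v0 : V) (m n m' n' : ℤ), (a ^ m * b ^ n) • v0 = (a ^ m' * b ^ n') • v0 →
      m = m' ∧ n = n' := by
    intro v0 m n m' n' h
    have h2 : (a ^ (-m' + m) * b ^ (-n' + n)) • v0 = v0 := by
      rw [← D2.zmul hab, mul_smul, h, ← mul_smul, D2.zmul hab]; simp
    have h3 := hfr _ _ h2
    have h4 := hfree _ _ h3
    omega
  -- the potentials
  have hH : ∀ v0 : V, ∃ H : ℤ → ℤ → ℝ,
      (∀ m n, H (m + 1) n - H m n = - ha ((a ^ (m + 1) * b ^ n) • v0)) ∧
      ∀ m n, H m (n + 1) - H m n = - hb ((a ^ m * b ^ (n + 1)) • v0) := by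
    intro v0
    refine h1 (fun m n => - ha ((a ^ (m + 1) * b ^ n) • v0))
      (fun m n => - hb ((a ^ m * b ^ (n + 1)) • v0)) ?_
    intro m n
    have h := hc ((a ^ (m + 1) * b ^ (n + 1)) • v0)
    have e1 : b⁻¹ • (a ^ (m + 1) * b ^ (n + 1)) • v0 = (a ^ (m + 1) * b ^ n) • v0 := by
      rw [← mul_smul]
      have := D2.zmul hab 0 (-1) (m + 1) (n + 1)
      simp only [zpow_zero, one_mul, zpow_neg, zpow_one, zero_add] at this
      rw [this]
      congr 3
      ring
    have e2 : a⁻¹ • (a ^ (m + 1) * b ^ (n + 1)) • v0 = (a ^ m * b ^ (n + 1)) • v0 := by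
      rw [← mul_smul]
      have := D2.zmul hab (-1) 0 (m + 1) (n + 1)
      simp only [zpow_zero, mul_one, zpow_neg, zpow_one, zero_add] at this
      rw [this]
      congr 3
      ring
    rw [e1, e2] at h
    linarith
  choose H hH1 hH2 using hH
  have key : ∀ v (m n : ℤ), v = (a ^ m * b ^ n) • r v → μ v = m ∧ ν v = n := by
    intro v m n h
    have := hμ v
    exact huniq (r v) _ _ _ _ (this.symm.trans h)
  refine ⟨fun v => H (r v) (μ v) (ν v), fun v => ?_, fun v => ?_⟩
  · have e : a⁻¹ • v = (a ^ (μ v - 1) * b ^ (ν v)) • r v := by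
      conv_lhs => rw [hμ v]
      rw [← mul_smul]
      have := D2.zmul hab (-1) 0 (μ v) (ν v)
      simp only [zpow_zero, mul_one, zpow_neg, zpow_one, zero_add] at this
      rw [this]
      congr 3
      ring
    have er : r (a⁻¹ • v) = r v := hrel v _ ⟨-1, 0, by simp⟩
    have := key (a⁻¹ • v) (μ v - 1) (ν v) (by rw [er]; exact e)
    simp only [er, this.1, this.2]
    have h := hH1 (r v) (μ v - 1) (ν v)
    simp only [sub_add_cancel] at h
    rw [← hμ v] at h
    linarith
  · have e : b⁻¹ • v = (a ^ (μ v) * b ^ (ν v - 1)) • r v := by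
      conv_lhs => rw [hμ v]
      rw [← mul_smul]
      have := D2.zmul hab 0 (-1) (μ v) (ν v)
      simp only [zpow_zero, one_mul, zpow_neg, zpow_one, zero_add] at this
      rw [this]
      congr 3
      ring
    have er : r (b⁻¹ • v) = r v := hrel v _ ⟨0, -1, by simp⟩
    have := key (b⁻¹ • v) (μ v) (ν v - 1) (by rw [er]; exact e)
    simp only [er, this.1, this.2]
    have h := hH2 (r v) (μ v) (ν v - 1)
    simp only [sub_add_cancel] at h
    rw [← hμ v] at h
    linarith

end Pool.Agent.MP_343d73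

end

section

set_option autoImplicit false

namespace Pool.Agent.MP_343d73

namespace D3

variable {τ V G : Type} [Group G] [MulAction G τ] [MulAction G V]

private theorem c1_smul {X : Tri τ V} (hD : X.IsDeck G) {b : τ → Fin 4 → Fin 4 → ℝ}
    (hb : X.IsC1 b) (g : G) : X.IsC1 (fun t j k => b (g • t) j k) := by
  refine ⟨fun t j k => hb.1 _ _ _, fun t i j k hj hk => ?_⟩
  have h := hb.2 (g • t) i j k hj hk
  rw [hD.nb_smul, hD.pm_smul] at h
  exact h

private theorem c1_comb {X : Tri τ V} {b b' : τ → Fin 4 → Fin 4 → ℝ}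
    (hb : X.IsC1 b) (hb' : X.IsC1 b') (x y : ℝ) :
    X.IsC1 (fun t j k => x * b t j k + y * b' t j k) := by
  refine ⟨fun t j k => ?_, fun t i j k hj hk => ?_⟩
  · have h1 := hb.1 t j k
    have h2 := hb'.1 t j k
    simp only [h1, h2]; ring
  · have h1 := hb.2 t i j k hj hk
    have h2 := hb'.2 t i j k hj hk
    simp only [h1, h2]

private theorem c1_grad (X : Tri τ V) (h : V → ℝ) :
    X.IsC1 (fun t j k => h (X.vx t k) - h (X.vx t j)) := by
  refine ⟨fun t j k => by ring, fun t i j k hj hk => ?_⟩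
  simp only [X.vx_nb t i j hj, X.vx_nb t i k hk]

private theorem const_of_tet {X : Tri τ V} (hC : X.Conn) (κ : V → ℝ)
    (h : ∀ t j k, κ (X.vx t k) = κ (X.vx t j)) : ∃ c, ∀ v, κ v = c := by
  obtain ⟨⟨t0⟩, hC⟩ := hC
  refine ⟨κ (X.vx t0 0), fun v => ?_⟩
  obtain ⟨t, i, rfl⟩ := X.vx_surj v
  have key : ∀ t, κ (X.vx t 0) = κ (X.vx t0 0) := by
    intro t
    induction hC t0 t with
    | refl => rfl
    | @tail u w _ hs ih =>
      obtain ⟨i, rfl⟩ := hs
      rw [← ih]
      obtain ⟨j, hj⟩ : ∃ j : Fin 4, j ≠ i := exists_ne i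
      rw [h (X.nb u i) (X.pm u i j) 0, X.vx_nb u i j hj]
      exact h _ _ _
  rw [h t 0 i]
  exact key t

/-- one flow: primitive and obstruction -/
private theorem obstr {X : Tri τ V} (hD : X.IsDeck G) (hC : X.Conn) (hH1 : X.H1Zero)
    (hH2 : X.H2Zero) {a b : G} (hab : Commute a b) (e : τ → Fin 4 → ℝ) (he : X.Flow e)
    (hcl : Closed e) (hea : ∀ t i, e (a⁻¹ • t) i = e t i) (heb : ∀ t i, e (b⁻¹ • t) i = e t i) :
    ∃ (β : τ → Fin 4 → Fin 4 → ℝ) (ha hb : V → ℝ) (lam : ℝ), X.IsC1 β ∧ (∀ t i, d1 β t i = e t i) ∧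
      (∀ t j k, β (a⁻¹ • t) j k - β t j k = ha (X.vx t k) - ha (X.vx t j)) ∧
      (∀ t j k, β (b⁻¹ • t) j k - β t j k = hb (X.vx t k) - hb (X.vx t j)) ∧
      ∀ v, (hb (a⁻¹ • v) - hb v) - (ha (b⁻¹ • v) - ha v) = lam := by
  obtain ⟨β, hβ, hβe⟩ := hH2 e (fun t i _ => he t i) hcl
  have hex : ∀ g : G, (∀ t i, e (g • t) i = e t i) → ∃ h : V → ℝ, ∀ t j k,
      β (g • t) j k - β t j k = h (X.vx t k) - h (X.vx t j) := by
    intro g hg
    have h1 := c1_comb (c1_smul hD hβ g) hβ 1 (-1)
    have h2 : ∀ t i, d1 (fun t j k => 1 * β (g • t) j k + (-1) * β t j k) t i = 0 := by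
      intro t i
      have e1 := hβe (g • t) i
      have e2 := hβe t i
      have e3 := hg t i
      simp only [d1] at e1 e2 ⊢
      linarith
    obtain ⟨h, hh⟩ := hH1 _ h1 h2
    exact ⟨h, fun t j k => by rw [← hh t j k]; ring⟩
  obtain ⟨ha, hha⟩ := hex a⁻¹ hea
  obtain ⟨hb, hhb⟩ := hex b⁻¹ heb
  obtain ⟨lam, hlam⟩ := const_of_tet hC
    (fun v => (hb (a⁻¹ • v) - hb v) - (ha (b⁻¹ • v) - ha v)) (by
      intro t j k
      have hcomm : b⁻¹ • a⁻¹ • t = a⁻¹ • b⁻¹ • t := by
        rw [← mul_smul, ← mul_smul]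
        congr 1
        exact (hab.inv_inv).symm.eq
      have h1 := hha t j k
      have h2 := hhb t j k
      have h3 := hha (b⁻¹ • t) j k
      have h4 := hhb (a⁻¹ • t) j k
      rw [hcomm] at h4
      simp only [hD.vx_smul] at h3 h4
      linarith)
  exact ⟨β, ha, hb, lam, hβ, hβe, hha, hhb, hlam⟩

end D3

/-- D3 -/
theorem prD3 (h2 : PD2) : PD3 := by
  intro τ V G _ _ _ X hD hC hH1 hH2 P hP e e' hf hf' hcl hcl' hinv hinv'
  obtain ⟨φ⟩ := hP
  set a : P := φ.symm (Multiplicative.ofAdd (1, 0)) with ha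
  set b : P := φ.symm (Multiplicative.ofAdd (0, 1)) with hb
  have hpow : ∀ m n : ℤ, a ^ m * b ^ n = φ.symm (Multiplicative.ofAdd (m, n)) := by
    intro m n
    rw [ha, hb, ← map_zpow φ.symm, ← map_zpow φ.symm, ← map_mul φ.symm, ← ofAdd_zsmul,
      ← ofAdd_zsmul, ← ofAdd_add]
    simp
  have hcommP : a * b = b * a := by
    rw [ha, hb, ← map_mul φ.symm, ← map_mul φ.symm, mul_comm]
  have hab : Commute (a : G) (b : G) := by
    have := congrArg (Subtype.val) hcommP
    simpa [Commute, SemiconjBy] using this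
  have hfree : ∀ m n : ℤ, (a : G) ^ m * (b : G) ^ n = 1 → m = 0 ∧ n = 0 := by
    intro m n h
    have h3 : a ^ m * b ^ n = 1 := by
      apply Subtype.ext
      simpa using h
    rw [hpow] at h3
    have h4 : Multiplicative.ofAdd ((m, n) : ℤ × ℤ) = 1 := by
      have := congrArg φ h3
      simpa using this
    have h5 : ((m, n) : ℤ × ℤ) = 0 := by
      have := congrArg Multiplicative.toAdd h4
      simpa using this
    simpa using h5
  have haP : (a : G)⁻¹ ∈ P := P.inv_mem a.2
  have hbP : (b : G)⁻¹ ∈ P := P.inv_mem b.2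
  obtain ⟨β, α1, α2, l, hβ, hβe, hα1, hα2, hl⟩ := D3.obstr hD hC hH1 hH2 hab e hf hcl
    (hinv _ haP) (hinv _ hbP)
  obtain ⟨β', α1', α2', l', hβ', hβe', hα1', hα2', hl'⟩ := D3.obstr hD hC hH1 hH2 hab e' hf' hcl'
    (hinv' _ haP) (hinv' _ hbP)
  obtain ⟨x, y, hxy, hxyl⟩ : ∃ x y : ℝ, (x ≠ 0 ∨ y ≠ 0) ∧ x * l + y * l' = 0 := by
    by_cases h0 : l = 0 ∧ l' = 0
    · exact ⟨1, 0, Or.inl one_ne_zero, by rw [h0.1, h0.2]; ring⟩
    · refine ⟨l', -l, ?_, by ring⟩
      by_contra h
      push Not at h
      exact h0 ⟨by linarith [h.2], h.1⟩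
  obtain ⟨h, hh1, hh2⟩ := h2 (a : G) (b : G) hab hfree hD.free_vx
    (fun v => x * α1 v + y * α1' v) (fun v => x * α2 v + y * α2' v) (by
      intro v
      have e1 := hl v
      have e2 := hl' v
      have : x * (α2 ((a : G)⁻¹ • v) - α2 v - (α1 ((b : G)⁻¹ • v) - α1 v)) +
        y * (α2' ((a : G)⁻¹ • v) - α2' v - (α1' ((b : G)⁻¹ • v) - α1' v)) = 0 := by
        rw [e1, e2]; exact hxyl
      linarith)
  let γ : τ → Fin 4 → Fin 4 → ℝ := fun t j k =>
    1 * (x * β t j k + y * β' t j k) + (-1) * (h (X.vx t k) - h (X.vx t j))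
  have hγ1 : X.IsC1 γ := D3.c1_comb (D3.c1_comb hβ hβ' x y) (D3.c1_grad X h) 1 (-1)
  have hγa : ∀ t j k, γ ((a : G)⁻¹ • t) j k = γ t j k := by
    intro t j k
    simp only [γ, hD.vx_smul]
    have e1 := hα1 t j k
    have e2 := hα1' t j k
    have e3 := hh1 (X.vx t j)
    have e4 := hh1 (X.vx t k)
    have e5 : x * (β ((a : G)⁻¹ • t) j k - β t j k) + y * (β' ((a : G)⁻¹ • t) j k - β' t j k) =
      x * (α1 (X.vx t k) - α1 (X.vx t j)) + y * (α1' (X.vx t k) - α1' (X.vx t j)) := by
      rw [e1, e2]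
    linarith
  have hγb : ∀ t j k, γ ((b : G)⁻¹ • t) j k = γ t j k := by
    intro t j k
    simp only [γ, hD.vx_smul]
    have e1 := hα2 t j k
    have e2 := hα2' t j k
    have e3 := hh2 (X.vx t j)
    have e4 := hh2 (X.vx t k)
    have e5 : x * (β ((b : G)⁻¹ • t) j k - β t j k) + y * (β' ((b : G)⁻¹ • t) j k - β' t j k) =
      x * (α2 (X.vx t k) - α2 (X.vx t j)) + y * (α2' (X.vx t k) - α2' (X.vx t j)) := by
      rw [e1, e2]
    linarith
  let K : Subgroup G :=
    { carrier := {g | ∀ t j k, γ (g • t) j k = γ t j k}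
      mul_mem' := by
        intro g g' hg hg' t j k
        rw [mul_smul, hg, hg']
      one_mem' := by
        intro t j k
        rw [one_smul]
      inv_mem' := by
        intro g hg t j k
        have := hg (g⁻¹ • t) j k
        rw [smul_inv_smul] at this
        exact this.symm }
  have haK : (a : G) ∈ K := by
    have : (a : G)⁻¹ ∈ K := hγa
    simpa using K.inv_mem this
  have hbK : (b : G) ∈ K := by
    have : (b : G)⁻¹ ∈ K := hγb
    simpa using K.inv_mem this
  refine ⟨x, y, hxy, γ, hγ1, ?_, ?_⟩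
  · intro g hg
    obtain ⟨⟨m, n⟩, hmn⟩ : ∃ z : ℤ × ℤ, φ ⟨g, hg⟩ = Multiplicative.ofAdd z :=
      ⟨Multiplicative.toAdd (φ ⟨g, hg⟩), rfl⟩
    have h3 : (⟨g, hg⟩ : P) = a ^ m * b ^ n := by
      rw [hpow, ← hmn]; simp
    have h4 : g = (a : G) ^ m * (b : G) ^ n := by
      have := congrArg Subtype.val h3
      simpa using this
    have h5 : g ∈ K := by
      rw [h4]
      exact K.mul_mem (K.zpow_mem haK m) (K.zpow_mem hbK n)
    exact h5
  · intro t i
    have e1 := hβe t i
    have e2 := hβe' t i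
    rw [← e1, ← e2]
    simp only [d1, γ]
    ring

end Pool.Agent.MP_343d73

end

section

/-!
Item E1: chains between two tetrahedra.
-/

namespace Pool.Agent.MP_343d73

namespace E1

variable {τ V : Type}

/-- the other side of a face -/
def opp (X : Tri τ V) (p : τ × Fin 4) : τ × Fin 4 := (X.nb p.1 p.2, X.pm p.1 p.2 p.2)

theorem opp_opp (X : Tri τ V) (p : τ × Fin 4) : opp X (opp X p) = p := by
  obtain ⟨t, i⟩ := p
  simp only [opp]
  rw [X.nb_nb, X.pm_pm]
  simp

theorem opp_eq_iff (X : Tri τ V) (p q : τ × Fin 4) : opp X p = q ↔ p = opp X q := by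
  constructor
  · rintro rfl; rw [opp_opp]
  · rintro rfl; rw [opp_opp]

open Classical in
/-- the chain through one face -/
noncomputable def ch (X : Tri τ V) (p : τ × Fin 4) (u : τ) (j : Fin 4) : ℝ :=
  (if (u, j) = p then 1 else 0) - (if (u, j) = opp X p then 1 else 0)

theorem ch_flow (X : Tri τ V) (p : τ × Fin 4) : X.Flow (ch X p) := by
  classical
  intro u j
  have h1 : (X.nb u j, X.pm u j j) = p ↔ (u, j) = opp X p := opp_eq_iff X (u, j) p
  have h2 : (X.nb u j, X.pm u j j) = opp X p ↔ (u, j) = p := by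
    have := opp_eq_iff X (u, j) (opp X p)
    rwa [opp_opp] at this
  unfold ch
  rw [if_congr h1 rfl rfl, if_congr h2 rfl rfl]
  ring

theorem ch_sum (X : Tri τ V) (p : τ × Fin 4) (u : τ) : ∑ j, ch X p u j =
    (@ite _ (u = p.1) (Classical.dec _) (1 : ℝ) 0) -
      (@ite _ (u = (opp X p).1) (Classical.dec _) (1 : ℝ) 0) := by
  classical
  have key : ∀ q : τ × Fin 4, ∑ j, (if (u, j) = q then (1 : ℝ) else 0) =
      @ite _ (u = q.1) (Classical.dec _) (1 : ℝ) 0 := by
    rintro ⟨t, i⟩
    by_cases hu : u = t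
    · subst hu
      simp
    · simp [hu]
  unfold ch
  rw [Finset.sum_sub_distrib]
  congr 1
  · convert key p
  · convert key (opp X p)

theorem ch_finite (X : Tri τ V) (p : τ × Fin 4) : {u | ∃ j, ch X p u j ≠ 0}.Finite := by
  refine (Set.toFinite ({p.1, (opp X p).1} : Set τ)).subset ?_
  rintro u ⟨j, hj⟩
  by_contra h
  simp only [Set.mem_insert_iff, Set.mem_singleton_iff, not_or] at h
  apply hj
  have h1 : (u, j) ≠ p := fun h' => h.1 (by rw [← h'])
  have h2 : (u, j) ≠ opp X p := fun h' => h.2 (by rw [← h'])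
  simp [ch, h1, h2]

end E1

open E1 in
theorem prE1 : PE1 := by
  classical
  intro τ V X hX t t'
  have h := hX.2 t t'
  induction h with
  | refl =>
    refine ⟨fun _ _ => 0, fun _ _ => by simp, by simp, fun u => by simp⟩
  | @tail b c _ hbc ih =>
    obtain ⟨i, hi⟩ := hbc
    obtain ⟨f, hf, hfin, hsum⟩ := ih
    refine ⟨fun u j => f u j + ch X (b, i) u j, ?_, ?_, ?_⟩
    · intro u j
      have h1 := hf u j
      have h2 := ch_flow X (b, i) u j
      simp only [h1, h2]; ring
    · refine (hfin.union (ch_finite X (b, i))).subset ?_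
      rintro u ⟨j, hj⟩
      by_contra hu
      simp only [Set.mem_union, Set.mem_ofPred_eq, not_or, not_exists, not_not] at hu
      exact hj (by show f u j + ch X (b, i) u j = 0; rw [hu.1 j, hu.2 j, add_zero])
    · intro u
      rw [Finset.sum_add_distrib, hsum, ch_sum]
      have h3 : (opp X (b, i)).1 = c := hi
      rw [h3]
      have h4 : (@ite _ (u = (b, i).1) (Classical.dec _) (1 : ℝ) 0) = if u = b then 1 else 0 := by
        congr
      have h5 : (@ite _ (u = c) (Classical.dec _) (1 : ℝ) 0) = if u = c then 1 else 0 := by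
        congr
      rw [h4, h5]
      rw [sub_add_sub_cancel]

end Pool.Agent.MP_343d73

end
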