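import Pool.Agent.Work.MP_343d73_gt.Defs

/-! Bundle of small proof modules (one section per former module). -/

section

set_option autoImplicit false

namespace Pool.Agent.MP_343d73

/-- E2 (uses A2 in addition) -/
theorem prE2 (h1 : PA1) (h2 : PA2) (h8 : PA8) (h9 : PA9) : PE2 := by
  intro σ G _ _ S hT hS a b hab hs1 hs2
  obtain ⟨v, hva, hvb⟩ := SetLike.not_le_iff_exists.1 hs1
  obtain ⟨u, hub, hua⟩ := SetLike.not_le_iff_exists.1 hs2
  rw [MulAction.mem_stabilizer_iff] at hva hvb hub hua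
  have hab1 : S.dist a b = 1 := SimpleGraph.dist_eq_one_iff_adj.2 hab
  have hba1 : S.dist b a = 1 := SimpleGraph.dist_eq_one_iff_adj.2 hab.symm
  have key := h9 S hT hS b a a b u v hab.symm
    (by unfold Far; simp [hba1]) hab (by unfold Far; simp [hab1]) hub hua hva hvb b
    (by unfold Beh; simp)
  refine ⟨u * v, fun r K => ⟨K + S.dist r b + 1, fun n hn => ?_⟩⟩
  obtain ⟨e1, e2⟩ := key n
  unfold Beh at e2
  rw [SimpleGraph.dist_self, add_zero, hba1, mul_one] at e1
  rw [hba1] at e2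
  have e3 : S.dist ((u * v) ^ n • r) ((u * v) ^ n • b) = S.dist r b := h8 S hS _ _ _
  have e4 := hT.1.dist_triangle (u := a) (v := (u * v) ^ n • r) (w := (u * v) ^ n • b)
  have e5 : S.dist b ((u * v) ^ n • b) = S.dist ((u * v) ^ n • b) b := SimpleGraph.dist_comm
  have e6 : S.dist a ((u * v) ^ n • b) = S.dist ((u * v) ^ n • b) a := SimpleGraph.dist_comm
  generalize (u * v) ^ n • r = x at *
  generalize (u * v) ^ n • b = y at *
  refine ⟨by omega, ?_⟩
  unfold Far
  rcases h1 S hT a b x hab with h | h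
  · exfalso
    have e7 := h2 S hT a b y x hab (by omega) (by omega)
    have e8 : S.dist y x = S.dist x y := SimpleGraph.dist_comm
    omega
  · simp only
    omega

end Pool.Agent.MP_343d73

end

section

set_option autoImplicit false

namespace Pool.Agent.MP_343d73

open scoped Classical in
theorem prE5 : PE5 := by
  intro τ V σ G _ _ _ _ C Y _ y0 ζ hflow hclosed hfin
  refine ⟨?_, ?_, ?_⟩
  · intro y t i
    unfold Ctx.per
    rw [← finsum_neg_distrib]
    refine finsum_congr fun k => ?_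
    by_cases h : k • y0 = y
    · rw [if_pos h, if_pos h]
      have h1 := hflow (k⁻¹ • t) i
      rw [C.deck.nb_smul, C.deck.pm_smul] at h1
      exact h1
    · rw [if_neg h, if_neg h, neg_zero]
  · intro y t
    unfold Ctx.per
    rw [← finsum_sum_comm]
    · rw [finsum_congr (g := fun _ => (0 : ℝ)), finsum_zero]
      intro k
      by_cases h : k • y0 = y
      · simp only [if_pos h]
        exact hclosed _
      · simp only [if_neg h]
        exact Finset.sum_const_zero
    · intro i _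
      by_cases hy : ∃ k0 : G, k0 • y0 = y
      · obtain ⟨k0, hk0⟩ := hy
        refine ((hfin (k0⁻¹ • t)).image fun k => k0 * k).subset ?_
        intro k hk
        rw [Function.mem_support] at hk
        have h1 : k • y0 = y := by
          by_contra hcon
          exact hk (if_neg hcon)
        rw [if_pos h1] at hk
        refine ⟨k0⁻¹ * k, ⟨?_, i, ?_⟩, by simp⟩
        · rw [mul_smul, h1, ← hk0, inv_smul_smul]
        · rw [mul_inv_rev, inv_inv, ← mul_smul]
          simpa using hk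
      · have : (Function.support fun k : G => if k • y0 = y then ζ (k⁻¹ • t) i else 0) = ∅ := by
          rw [Function.support_eq_empty_iff]
          funext k
          exact if_neg fun h => hy ⟨k, h⟩
        change (Function.support _).Finite
        rw [this]
        exact Set.finite_empty
  · intro g y t i
    unfold Ctx.per
    symm
    refine finsum_eq_of_bijective (fun k => g * k) (Group.mulLeft_bijective g) ?_
    intro k
    have h1 : (g * k) • y0 = g • y ↔ k • y0 = y := by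
      rw [mul_smul]
      exact ⟨fun h => MulAction.injective g h, fun h => by rw [h]⟩
    have h2 : (g * k)⁻¹ • g • t = k⁻¹ • t := by
      rw [mul_inv_rev, mul_smul, inv_smul_smul]
    simp only [h1, h2]

end Pool.Agent.MP_343d73

end

section

set_option autoImplicit false

namespace Pool.Agent.MP_343d73

open scoped Classical

namespace IE7

variable {τ V σ G : Type} [Group G] [MulAction G τ] [MulAction G V] [MulAction G σ]

lemma Wd_congr {X : Tri τ V} {c c' : V → ℝ} {b b' : τ → Fin 4 → Fin 4 → ℝ} {t t' : τ}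
    (hc : ∀ j, c (X.vx t j) = c' (X.vx t' j)) (hb : ∀ j k, b t j k = b' t' j k) (i : Fin 4) :
    X.Wd c b t i = X.Wd c' b' t' i := by
  simp only [Tri.Wd, Tri.cbar, d1, hc, hb]

lemma dist_smul (h8 : PA8) (C : Ctx τ V σ G) (g : G) (a b : σ) :
    C.S.dist (g • a) (g • b) = C.S.dist a b := h8 C.S C.adj_smul g a b

lemma far_smul (h8 : PA8) (C : Ctx τ V σ G) (g : G) (p : σ × σ) (r : σ) :
    Far C.S (g • p) (g • r) ↔ Far C.S p r := by
  unfold Far
  rw [Prod.smul_fst, Prod.smul_snd, dist_smul h8, dist_smul h8]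

lemma cE_smul (h8 : PA8) (C : Ctx τ V σ G) (g : G) (p : σ × σ) (v : V) :
    C.cE (g • p) (g • v) = C.cE p v := by
  unfold Ctx.cE
  rw [C.ph_smul, far_smul h8]

lemma img_smul (C : Ctx τ V σ G) (g : G) (t : τ) (j : Fin 4) :
    C.img (g • t) j = g • C.img t j := by
  unfold Ctx.img
  rw [C.deck.vx_smul, C.ph_smul]

lemma crossT_of_crossF (C : Ctx τ V σ G) {p : σ × σ} {t : τ} {i : Fin 4} (h : C.crossF p t i) :
    C.crossT p t := by
  obtain ⟨j, k, _, _, h1, h2⟩ := h
  exact ⟨j, k, h1, h2⟩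

lemma not_crossF_of_bd (C : Ctx τ V σ G) (p : σ × σ) {t : τ} {i : Fin 4} (h : C.X.Bd t i) :
    ¬ C.crossF p t i := by
  rintro ⟨j, k, hj, hk, h1, h2⟩
  apply h2
  have : C.img t k = C.img t j := C.ph_bd t i k j h hk hj
  rw [this]
  exact h1

lemma exists_ne (i : Fin 4) : ∃ j : Fin 4, j ≠ i := by
  refine ⟨i + 1, ?_⟩
  revert i
  decide

/-- the product vanishes on faces which do not cross -/
lemma Wd_zero (c4 : PC4) (C : Ctx τ V σ G) {b : τ → Fin 4 → Fin 4 → ℝ} (hb : C.X.IsC1 b)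
    {p : σ × σ} {t : τ} {i : Fin 4} (h : ¬ C.crossF p t i) : C.X.Wd (C.cE p) b t i = 0 := by
  obtain ⟨j0, hj0⟩ := exists_ne i
  apply c4 C.X b hb (C.cE p) (C.cE p (C.X.vx t j0)) t i
  intro j hj
  unfold Ctx.cE
  by_cases h1 : Far C.S p (C.ph (C.X.vx t j))
  · by_cases h2 : Far C.S p (C.ph (C.X.vx t j0))
    · rw [if_pos h1, if_pos h2]
    · exact absurd ⟨j, j0, hj, hj0, h1, h2⟩ h
  · by_cases h2 : Far C.S p (C.ph (C.X.vx t j0))
    · exact absurd ⟨j0, j, hj0, hj, h2, h1⟩ h
    · rw [if_neg h1, if_neg h2]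

/-- the product is antisymmetric on all faces -/
lemma Wd_flow (c2 : PC2) (c4 : PC4) (C : Ctx τ V σ G) {b : τ → Fin 4 → Fin 4 → ℝ}
    (hb : C.X.IsC1 b) (p : σ × σ) : C.X.Flow (C.X.Wd (C.cE p) b) := by
  intro t i
  by_cases h : C.X.Bd t i
  · rw [h.1, h.2, Wd_zero c4 C hb (not_crossF_of_bd C p h), neg_zero]
  · exact c2 C.X b hb (C.cE p) t i h

/-- a finite sum of invariant flows indexed by a `G`-set sums to zero over the orbits -/
lemma total_zero (b2 : PB2) (C : Ctx τ V σ G) {Z : Type} [MulAction G Z]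
    (F : Z → τ → Fin 4 → ℝ) (hflow : ∀ z, C.X.Flow (F z))
    (hinv : ∀ (g : G) z t i, F (g • z) (g • t) i = F z t i)
    (hfin : ∀ t i, (Function.support fun z => F z t i).Finite) :
    ∑ᶠ q : Quotient (MulAction.orbitRel G τ), ∑ᶠ z : Z, ∑ i, F z q.out i = 0 := by
  have h := b2 C.X C.deck (fun t i => ∑ᶠ z, F z t i) ?_ ?_ Set.univ ?_
  · rw [← h]
    apply finsum_congr
    intro q
    rw [if_pos (Set.mem_univ _)]
    rw [finsum_sum_comm]
    intro i _
    exact hfin _ i
  · intro g t i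
    have e1 : ∑ᶠ z, F z (g • t) i = ∑ᶠ z, F (g • z) (g • t) i :=
      (finsum_comp_equiv (MulAction.toPerm g) (f := fun z => F z (g • t) i)).symm
    show ∑ᶠ z, F z (g • t) i = ∑ᶠ z, F z t i
    rw [e1]
    apply finsum_congr
    intro z
    exact hinv g z t i
  · intro t i
    show ∑ᶠ z, F z (C.X.nb t i) (C.X.pm t i i) = - ∑ᶠ z, F z t i
    rw [← finsum_neg_distrib]
    apply finsum_congr
    intro z
    exact hflow z t i
  · intro t i _ h
    exact absurd (Set.mem_univ _) h

end IE7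

theorem prE7 (b2 : PB2) (c2 : PC2) (c3 : PC3) (c4 : PC4) (h8 : PA8) : PE7 := by
  intro τ V σ G _ _ _ _ C Z _ ed pr hed hpr hfin γ hγ hinv
  have hpr' : ∀ (g : G) z, pr (g • z) ↔ pr z := by
    intro g z
    constructor
    · intro h
      have := hpr g⁻¹ _ h
      rwa [inv_smul_smul] at this
    · exact hpr g z
  have h := IE7.total_zero b2 C
    (fun z t i => if pr z then C.X.Wd (C.cE (ed z)) (γ z) t i else 0) ?_ ?_ ?_
  · rw [← h]
    unfold Ctx.Phi
    apply finsum_congr
    intro q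
    apply finsum_congr
    intro z
    by_cases hz : pr z
    · simp only [if_pos hz]
      unfold Ctx.Nn
      exact c3 C.X (γ z) (hγ z hz) (C.cE (ed z)) q.out
    · simp only [if_neg hz]
      simp
  · intro z
    by_cases hz : pr z
    · simp only [if_pos hz]
      exact IE7.Wd_flow c2 c4 C (hγ z hz) (ed z)
    · simp only [if_neg hz]
      intro t i
      simp
  · intro g z t i
    simp only [hpr']
    by_cases hz : pr z
    · simp only [if_pos hz]
      apply IE7.Wd_congr
      · intro j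
        rw [C.deck.vx_smul, hed, IE7.cE_smul h8]
      · intro j k
        exact hinv g z t j k
    · simp only [if_neg hz]
  · intro t i
    apply (hfin t).subset
    intro z hz
    rw [Function.mem_support] at hz
    by_cases hpz : pr z
    · simp only [if_pos hpz] at hz
      refine ⟨hpz, ?_⟩
      by_contra hcr
      apply hz
      apply IE7.Wd_zero c4 C (hγ z hpz)
      intro hF
      exact hcr (IE7.crossT_of_crossF C hF)
    · simp only [if_neg hpz] at hz
      exact absurd rfl hz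

end Pool.Agent.MP_343d73

end

section

set_option autoImplicit false

namespace Pool.Agent.MP_343d73

namespace F1

/-- An equivariant choice, constant on the classes of an invariant equivalence relation. -/
theorem choice {G V σ : Type} [Group G] [MulAction G V] [MulAction G σ] (R : V → V → Prop)
    (hR : Equivalence R) (hG : ∀ (g : G) v w, R v w → R (g • v) (g • w))
    (ha : ∀ v, ∃ a : σ, ∀ g : G, R v (g • v) → g • a = a) :
    ∃ ph : V → σ, ∀ (h : G) v w, R (h • v) w → ph w = h • ph v := by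
  classical
  let E : Setoid V :=
    { r := fun v w => ∃ g : G, R (g • v) w
      iseqv :=
        { refl := fun v => ⟨1, by rw [one_smul]; exact hR.refl v⟩
          symm := by
            rintro v w ⟨g, hg⟩
            refine ⟨g⁻¹, ?_⟩
            have h1 := hG g⁻¹ _ _ hg
            rw [inv_smul_smul] at h1
            exact hR.symm h1
          trans := by
            rintro u v w ⟨g, hg⟩ ⟨h, hh⟩
            refine ⟨h * g, ?_⟩
            rw [mul_smul]
            exact hR.trans (hG h _ _ hg) hh } }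
  let rep : V → V := fun v => (Quotient.mk E v).out
  have hrep : ∀ v, ∃ g : G, R (g • rep v) v := fun v => Quotient.mk_out (s := E) v
  have hrep2 : ∀ v w, (∃ g : G, R (g • v) w) → rep v = rep w := by
    intro v w h
    have h1 : Quotient.mk E v = Quotient.mk E w := Quotient.sound h
    simp only [rep, h1]
  choose gg hgg using hrep
  choose a ha using ha
  refine ⟨fun v => gg v • a (rep v), ?_⟩
  intro h v w hvw
  have h1 : rep v = rep w := hrep2 v w ⟨h, hvw⟩
  have h2 : R ((h * gg v) • rep v) w := by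
    rw [mul_smul]
    exact hR.trans (hG h _ _ (hgg v)) hvw
  have h3 : R (gg w • rep v) w := by
    rw [h1]
    exact hgg w
  have h4 := hG (h * gg v)⁻¹ _ _ (hR.trans h2 (hR.symm h3))
  rw [inv_smul_smul, smul_smul] at h4
  have h5 := ha (rep v) _ h4
  have h6 : gg w • a (rep v) = (h * gg v) • a (rep v) := by
    have h7 := congrArg (fun x => (h * gg v) • x) h5
    simp only [smul_smul] at h7
    rw [mul_inv_cancel_left] at h7
    exact h7
  simp only
  rw [← h1, h6, mul_smul]

end F1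

theorem prF1 : PF1 := by
  intro τ V σ G _ _ _ _ X hdeck htoral hσ hfix
  obtain ⟨s0⟩ := hσ
  have hbd : ∀ (g : G) v w, X.BdRel v w → X.BdRel (g • v) (g • w) := by
    rintro g v w ⟨t, i, j, k, ⟨h1, h2⟩, hj, hk, rfl, rfl⟩
    refine ⟨g • t, i, j, k, ⟨?_, ?_⟩, hj, hk, hdeck.vx_smul g t j, hdeck.vx_smul g t k⟩
    · rw [hdeck.nb_smul, h1]
    · rw [hdeck.pm_smul, h2]
  have hG : ∀ (g : G) v w, Relation.EqvGen X.BdRel v w →
      Relation.EqvGen X.BdRel (g • v) (g • w) := by
    intro g v w h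
    induction h with
    | rel x y h => exact Relation.EqvGen.rel _ _ (hbd g x y h)
    | refl x => exact Relation.EqvGen.refl _
    | symm x y _ ih => exact Relation.EqvGen.symm _ _ ih
    | trans x y z _ _ ih1 ih2 => exact Relation.EqvGen.trans _ _ _ ih1 ih2
  have htriv : ∀ v w, Relation.EqvGen X.BdRel v w → v = w ∨
      ((∃ t i j, X.Bd t i ∧ j ≠ i ∧ X.vx t j = v) ∧ ∃ t i j, X.Bd t i ∧ j ≠ i ∧ X.vx t j = w) := by
    intro v w h
    induction h with
    | rel x y h =>
        obtain ⟨t, i, j, k, h1, hj, hk, h2, h3⟩ := h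
        exact Or.inr ⟨⟨t, i, j, h1, hj, h2⟩, ⟨t, i, k, h1, hk, h3⟩⟩
    | refl x => exact Or.inl rfl
    | symm x y _ ih =>
        rcases ih with h | h
        · exact Or.inl h.symm
        · exact Or.inr ⟨h.2, h.1⟩
    | trans x y z _ _ ih1 ih2 =>
        rcases ih1 with rfl | h1
        · exact ih2
        · rcases ih2 with rfl | h2
          · exact Or.inr h1
          · exact Or.inr ⟨h1.1, h2.2⟩
  obtain ⟨ph, hph⟩ := F1.choice (G := G) (σ := σ) (Relation.EqvGen X.BdRel)
    (Relation.EqvGen.is_equivalence _) hG (by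
      intro v
      by_cases hv : ∃ t i j, X.Bd t i ∧ j ≠ i ∧ X.vx t j = v
      · obtain ⟨t, i, j, h1, h2, rfl⟩ := hv
        obtain ⟨P, hP, hP2⟩ := htoral t i j h1 h2
        obtain ⟨a, ha⟩ := hfix P hP
        exact ⟨a, fun g hg => ha ((hP2 g).2 hg)⟩
      · refine ⟨s0, fun g hg => ?_⟩
        rcases htriv _ _ hg with h | h
        · rw [hdeck.free_vx g v h.symm, one_smul]
        · exact absurd h.1 hv)
  refine ⟨ph, fun g v => hph g v (g • v) (Relation.EqvGen.refl _), ?_⟩
  intro t i j k h hj hk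
  have h1 := hph 1 (X.vx t k) (X.vx t j) (by
    rw [one_smul]
    exact Relation.EqvGen.rel _ _ ⟨t, i, k, j, h, hk, hj, rfl, rfl⟩)
  rw [h1, one_smul]

end Pool.Agent.MP_343d73

end

section

set_option autoImplicit false

namespace Pool.Agent.MP_343d73

open scoped Classical

namespace ItemF2

variable {τ V σ G : Type} [Group G] [MulAction G τ] [MulAction G V] [MulAction G σ]

lemma Nn_sub (C : Ctx τ V σ G) (p : σ × σ) (e e' : τ → Fin 4 → ℝ) (t : τ) :
    C.Nn p (fun t i => e t i - e' t i) t = C.Nn p e t - C.Nn p e' t := by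
  simp only [Ctx.Nn, mul_sub, Finset.sum_sub_distrib]

lemma fin_stab (C : Ctx τ V σ G) (h8 : PA8) (p0 : σ × σ) (a : σ)
    (ha : ∀ k : G, k • p0 = p0 → k • a = a) (ζ : τ → Fin 4 → ℝ)
    (hζ : ∀ K : ℕ, {t | (∃ i, ζ t i ≠ 0) ∧ ∃ j, C.S.dist a (C.img t j) ≤ K}.Finite) (t : τ) :
    {k : G | k • p0 = p0 ∧ ∃ i, ζ (k⁻¹ • t) i ≠ 0}.Finite := by
  refine Set.Finite.of_finite_image (f := fun k : G => k⁻¹ • t)
    ((hζ (C.S.dist a (C.img t 0))).subset ?_) ?_
  · rintro u ⟨k, ⟨hk1, hk2⟩, rfl⟩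
    refine ⟨hk2, 0, ?_⟩
    have h1 : C.img (k⁻¹ • t) 0 = k⁻¹ • C.img t 0 := by
      simp only [Ctx.img, C.deck.vx_smul, C.ph_smul]
    have h2 : k⁻¹ • a = a := by
      rw [inv_smul_eq_iff]
      exact (ha k hk1).symm
    have h3 : C.S.dist a (C.img (k⁻¹ • t) 0) = C.S.dist a (C.img t 0) := by
      rw [h1]
      conv_lhs => rw [← h2]
      exact h8 C.S C.adj_smul k⁻¹ a (C.img t 0)
    exact h3.le
  · intro k _ k' _ hkk
    have hkk' : k⁻¹ • t = k'⁻¹ • t := hkk
    have : (k' * k⁻¹) • t = t := by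
      rw [mul_smul, hkk', smul_inv_smul]
    have h := C.deck.free_tet _ _ this
    have : k' = k := by
      rw [mul_inv_eq_one] at h
      exact h
    exact this.symm

/-- the flow for one representative -/
lemma exists_zeta (C : Ctx τ V σ G) (e3 : PE3) (e4 : PE4) (h8 : PA8) (p0 : σ × σ)
    (hadj : C.S.Adj p0.1 p0.2) : ∃ ζ : τ → Fin 4 → ℝ, C.X.Flow ζ ∧ Closed ζ ∧
    (∀ t, {k : G | k • p0 = p0 ∧ ∃ i, ζ (k⁻¹ • t) i ≠ 0}.Finite) ∧
    {t : τ | (∃ i, ζ t i ≠ 0) ∧ C.crossT p0 t}.Finite ∧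
    ∑ᶠ t, C.Nn p0 ζ t = 1 := by
  obtain ⟨⟨t0⟩, -⟩ := C.conn
  obtain ⟨ζ1, hf1, hd1, hK1, hF1⟩ := e3 C p0 hadj t0
  obtain ⟨ζ2, hf2, hd2, hK2, hF2⟩ := e3 C p0.swap hadj.symm t0
  have hfar : ∀ r, Far C.S p0 r → ¬ Far C.S p0.swap r := by
    intro r h1 h2
    simp only [Far, Prod.fst_swap, Prod.snd_swap] at h1 h2
    omega
  have hne : ∀ (t : τ), (∃ i, ζ1 t i - ζ2 t i ≠ 0) → (∃ i, ζ1 t i ≠ 0) ∨ (∃ i, ζ2 t i ≠ 0) := by
    rintro t ⟨i, hi⟩
    by_contra hcon
    push Not at hcon
    apply hi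
    rw [hcon.1 i, hcon.2 i, sub_zero]
  refine ⟨fun t i => ζ1 t i - ζ2 t i, ?_, ?_, ?_, ?_, ?_⟩
  · intro t i
    simp only
    rw [hf1 t i, hf2 t i]
    ring
  · intro t
    simp only [Finset.sum_sub_distrib]
    rw [hd1, hd2, sub_self]
  · intro t
    have hs1 := fin_stab C h8 p0 p0.1 (fun k hk => by
      have := congrArg Prod.fst hk
      simpa using this) ζ1 hK1 t
    have hs2 := fin_stab C h8 p0 p0.2 (fun k hk => by
      have := congrArg Prod.snd hk
      simpa using this) ζ2 hK2 t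
    refine (hs1.union hs2).subset ?_
    rintro k ⟨hk1, hk2⟩
    rcases hne _ hk2 with h | h
    · exact Or.inl ⟨hk1, h⟩
    · exact Or.inr ⟨hk1, h⟩
  · refine (hF1.union hF2).subset ?_
    rintro t ⟨ht, j, k, hj, hk⟩
    rcases hne _ ht with h | h
    · exact Or.inl ⟨h, k, hk⟩
    · exact Or.inr ⟨h, j, hfar _ hj⟩
  · obtain ⟨hs1, h1⟩ := e4 C ζ1 t0 p0 1 hf1 hd1 (by
      refine hF1.subset ?_
      rintro t ⟨ht, j, hj⟩
      refine ⟨ht, j, fun hfar' => hj ?_⟩
      simp only [Ctx.cE]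
      exact if_pos hfar')
    obtain ⟨hs2, h2⟩ := e4 C ζ2 t0 p0 0 hf2 hd2 (by
      refine hF2.subset ?_
      rintro t ⟨ht, j, hj⟩
      refine ⟨ht, j, fun hfar' => hj ?_⟩
      simp only [Ctx.cE]
      exact if_neg (fun h => hfar _ h hfar'))
    have : ∀ t, C.Nn p0 (fun t i => ζ1 t i - ζ2 t i) t = C.Nn p0 ζ1 t - C.Nn p0 ζ2 t :=
      fun t => Nn_sub C p0 ζ1 ζ2 t
    rw [finsum_congr this, finsum_sub_distrib hs1 hs2, h1, h2, sub_zero]

/-- the same for all pairs -/
lemma exists_zeta' (C : Ctx τ V σ G) (e3 : PE3) (e4 : PE4) (h8 : PA8) (p0 : σ × σ) :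
    ∃ ζ : τ → Fin 4 → ℝ, C.X.Flow ζ ∧ Closed ζ ∧
    (∀ t, {k : G | k • p0 = p0 ∧ ∃ i, ζ (k⁻¹ • t) i ≠ 0}.Finite) ∧
    (C.S.Adj p0.1 p0.2 → {t : τ | (∃ i, ζ t i ≠ 0) ∧ C.crossT p0 t}.Finite ∧
      ∑ᶠ t, C.Nn p0 ζ t = 1) := by
  by_cases hadj : C.S.Adj p0.1 p0.2
  · obtain ⟨ζ, h1, h2, h3, h4, h5⟩ := exists_zeta C e3 e4 h8 p0 hadj
    exact ⟨ζ, h1, h2, h3, fun _ => ⟨h4, h5⟩⟩
  · refine ⟨fun _ _ => 0, ?_, ?_, ?_, fun h => absurd h hadj⟩
    · intro t i
      simp
    · intro t
      simp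
    · intro t
      simp

end ItemF2

open ItemF2 in
theorem prF2 (e3 : PE3) (e4 : PE4) (e5 : PE5) (e6 : PE6) (_f1 : PHF1) (h8 : PA8) : PF2 := by
  intro τ V σ G _ _ _ _ C
  choose ζ hflow hclosed hstab hrest using exists_zeta' C e3 e4 h8
  have hcl : ∀ (g : G) (p : σ × σ), cl G (g • p) = cl G p := by
    intro g p
    exact Quotient.sound ⟨g, rfl⟩
  refine ⟨fun p t i => C.per (cl G p).out (ζ (cl G p).out) p t i, ?_, ?_, ?_, ?_⟩
  · intro p _
    exact (e5 C (cl G p).out (ζ (cl G p).out) (hflow _) (hclosed _) (hstab _)).1 p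
  · intro p _
    exact (e5 C (cl G p).out (ζ (cl G p).out) (hflow _) (hclosed _) (hstab _)).2.1 p
  · intro g p t i
    simp only
    rw [hcl g p]
    exact (e5 C (cl G p).out (ζ (cl G p).out) (hflow _) (hclosed _) (hstab _)).2.2 g p t i
  · intro p hp
    have hout : cl G ((cl G p).out) = cl G p := Quotient.out_eq _
    obtain ⟨g, hg⟩ : ∃ g : G, g • p = (cl G p).out := by
      have h : (MulAction.orbitRel G (σ × σ)).r ((cl G p).out) p := Quotient.exact hout
      exact h
    have hadj : C.S.Adj (cl G p).out.1 (cl G p).out.2 := by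
      rw [← hg]
      exact C.adj_smul g _ _ hp
    obtain ⟨hfin, hone⟩ := hrest (cl G p).out hadj
    have hmem : (cl G p).out ∈ MulAction.orbit G p := ⟨g, hg⟩
    have hPhi : C.Phi id (fun z => z ∈ MulAction.orbit G p)
        (fun p t i => C.per (cl G p).out (ζ (cl G p).out) p t i) =
        C.Phi id (fun z => z ∈ MulAction.orbit G p)
          (fun z => C.per (cl G p).out (ζ (cl G p).out) (id z)) := by
      unfold Ctx.Phi
      apply finsum_congr
      intro q
      apply finsum_congr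
      intro z
      by_cases hz : z ∈ MulAction.orbit G p
      · rw [if_pos hz, if_pos hz]
        have hzc : cl G z = cl G p := by
          obtain ⟨k, hk⟩ := hz
          rw [← hk]
          exact hcl k p
        have hfun : (fun (t : τ) (i : Fin 4) => C.per (cl G z).out (ζ (cl G z).out) z t i) =
            C.per (cl G p).out (ζ (cl G p).out) (id z) := by
          rw [hzc]
          rfl
        exact congrArg (fun e => C.Nn (id z) e q.out) hfun
      · rw [if_neg hz, if_neg hz]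
    rw [hPhi]
    have h6 := e6 C (Y := σ × σ) (Z := σ × σ) (cl G p).out (ζ (cl G p).out) id id
      (fun z => z ∈ MulAction.orbit G p) (hflow _) (hclosed _) (hstab _)
      (fun g z => rfl) (fun g z => rfl) (fun g z hz => by
        obtain ⟨k, hk⟩ := hz
        refine ⟨g * k, ?_⟩
        have hk' : k • p = z := hk
        change (g * k) • p = g • z
        rw [mul_smul, hk']) (by
        refine (hfin.image (fun t => (t, (cl G p).out))).subset ?_
        rintro ⟨t, z⟩ ⟨_, hz, h1, h2⟩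
        have hz' : z = (cl G p).out := hz
        subst hz'
        exact ⟨t, ⟨h1, h2⟩, rfl⟩)
    rw [h6, finsum_eq_single _ (cl G p).out]
    · rw [if_pos ⟨hmem, rfl⟩]
      exact hone
    · intro z hz
      exact if_neg (fun h => hz h.2)

end Pool.Agent.MP_343d73

end

section

set_option autoImplicit false

namespace Pool.Agent.MP_343d73

open scoped Classical

namespace F3

variable {τ V σ G : Type} [Group G] [MulAction G τ] [MulAction G V] [MulAction G σ]
  (C : Ctx τ V σ G)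

theorem cE_swap (h1 : PA1) (p : σ × σ) (hp : C.S.Adj p.1 p.2) (v : V) :
    C.cE p.swap v = 1 - C.cE p v := by
  have h := h1 C.S C.tree p.1 p.2 (C.ph v) hp
  unfold Ctx.cE Far
  simp only [Prod.fst_swap, Prod.snd_swap]
  by_cases hf : C.S.dist p.2 (C.ph v) < C.S.dist p.1 (C.ph v)
  · rw [if_pos hf, if_neg (by omega)]; norm_num
  · rw [if_neg hf, if_pos (by omega)]; norm_num

theorem Nn_swap (h1 : PA1) (p : σ × σ) (hp : C.S.Adj p.1 p.2) (e : τ → Fin 4 → ℝ)
    (he : Closed e) (t : τ) : C.Nn p.swap e t = - C.Nn p e t := by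
  unfold Ctx.Nn
  have : ∀ i, C.X.cbar (C.cE p.swap) t i * e t i = e t i - C.X.cbar (C.cE p) t i * e t i := by
    intro i
    unfold Tri.cbar
    rw [cE_swap C h1 p hp, cE_swap C h1 p hp, cE_swap C h1 p hp]
    ring
  simp only [this]
  rw [Finset.sum_sub_distrib, he t, zero_sub]

theorem adj_orbit (p z : σ × σ) (hp : C.S.Adj p.1 p.2) (hz : z ∈ MulAction.orbit G p) :
    C.S.Adj z.1 z.2 := by
  obtain ⟨g, rfl⟩ := hz
  exact C.adj_smul g _ _ hp

theorem swap_orbit (p z : σ × σ) : z.swap ∈ MulAction.orbit G p ↔ z ∈ MulAction.orbit G p.swap := by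
  constructor
  · rintro ⟨g, hg⟩
    refine ⟨g, ?_⟩
    have hg' : g • p = z.swap := hg
    show g • p.swap = z
    have : g • p.swap = (g • p).swap := rfl
    rw [this, hg', Prod.swap_swap]
  · rintro ⟨g, hg⟩
    refine ⟨g, ?_⟩
    have hg' : g • p.swap = z := hg
    show g • p = z.swap
    rw [← hg']
    rfl

end F3

open F3

theorem prF3 (f2 : PF2) (e8 : PE8) (f1 : PHF1) (h1 : PA1) : PF3 := by
  intro τ V σ G _ _ _ _ C
  obtain ⟨η, hflow, hclosed, hequi, hone⟩ := f2 C
  have hsm : ∀ (g : G) (p : σ × σ), (g • p).swap = g • p.swap := fun g p => rfl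
  refine ⟨fun p t i => (η p t i - η p.swap t i) / 2, ?_, ?_, ?_, ?_, ?_⟩
  · intro p hp t i
    have h1' := hflow p hp t i
    have h2' := hflow p.swap hp.symm t i
    simp only [h1', h2']
    ring
  · intro p hp t
    have h1' := hclosed p hp t
    have h2' := hclosed p.swap hp.symm t
    rw [← Finset.sum_div, Finset.sum_sub_distrib, h1', h2']
    norm_num
  · intro g p t i
    have h1' := hequi g p t i
    have h2' := hequi g p.swap t i
    simp only [hsm, h1', h2']
  · intro p hp t i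
    simp only [Prod.swap_swap]
    ring
  · intro p hp
    have hfin : ∀ t, {z : σ × σ | z ∈ MulAction.orbit G p ∧ C.crossT (id z) t}.Finite := by
      intro t
      apply (f1 C t).subset
      intro z hz
      exact ⟨adj_orbit C p z hp hz.1, hz.2⟩
    have hlin := e8 C (Z := σ × σ) id (fun z => z ∈ MulAction.orbit G p) hfin η
      (fun z => η z.swap) (fun z hz => hclosed z (adj_orbit C p z hp hz))
      (fun z hz => hclosed z.swap (adj_orbit C p z hp hz).symm) (1 / 2) (-1 / 2)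
    have hre : (fun (p : σ × σ) (t : τ) (i : Fin 4) => (η p t i - η p.swap t i) / 2) =
        fun z t i => 1 / 2 * η z t i + -1 / 2 * η z.swap t i := by
      funext z t i
      ring
    rw [hre, hlin, hone p hp]
    have hsw : C.Phi id (fun z => z ∈ MulAction.orbit G p) (fun z => η z.swap) = -1 := by
      have h0 := hone p.swap hp.symm
      rw [← h0]
      unfold Ctx.Phi
      rw [← finsum_neg_distrib]
      apply finsum_congr
      intro q
      rw [← finsum_neg_distrib, ← finsum_comp_equiv (Equiv.prodComm σ σ)]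
      apply finsum_congr
      intro z
      have e1 : (Equiv.prodComm σ σ) z = z.swap := rfl
      rw [e1]
      by_cases hz : z.swap ∈ MulAction.orbit G p
      · have hz' := (swap_orbit p z).1 hz
        rw [if_pos hz, if_pos hz']
        simp only [id, Prod.swap_swap]
        have hadj : C.S.Adj z.1 z.2 := (adj_orbit C p z.swap hp hz).symm
        exact Nn_swap C h1 z hadj _ (hclosed z hadj) _
      · have hz' : z ∉ MulAction.orbit G p.swap := fun h => hz ((swap_orbit p z).2 h)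
        rw [if_neg hz, if_neg hz', neg_zero]
    rw [hsw]
    norm_num

end Pool.Agent.MP_343d73

end

section

set_option autoImplicit false

namespace Pool.Agent.MP_343d73

namespace F4

open scoped Classical

variable {τ V σ G : Type} [Group G] [MulAction G τ] [MulAction G V] [MulAction G σ]

theorem dist_le (S : SimpleGraph σ) (hS : S.IsTree)
    (h : ∀ (g : G) a b, S.Adj a b → S.Adj (g • a) (g • b)) (g : G) (a b : σ) :
    S.dist (g • a) (g • b) ≤ S.dist a b := by
  obtain ⟨w, hw⟩ := hS.1.exists_walk_length_eq_dist a b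
  rw [← hw]
  let φ : S →g S := ⟨fun x => g • x, fun {x y} hxy => h g x y hxy⟩
  have h1 := SimpleGraph.dist_le (w.map φ)
  rw [SimpleGraph.Walk.length_map] at h1
  exact h1

theorem dist_smul (S : SimpleGraph σ) (hS : S.IsTree)
    (h : ∀ (g : G) a b, S.Adj a b → S.Adj (g • a) (g • b)) (g : G) (a b : σ) :
    S.dist (g • a) (g • b) = S.dist a b := by
  apply le_antisymm (dist_le S hS h g a b)
  have h1 := dist_le S hS h g⁻¹ (g • a) (g • b)
  rwa [inv_smul_smul, inv_smul_smul] at h1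

theorem lab_smul (C : Ctx τ V σ G) (g : G) (p l : σ × σ) (h : C.Lab p l) :
    C.Lab (g • p) (g • l) := by
  obtain ⟨h1, h2, h3, h4⟩ := h
  refine ⟨C.adj_smul g _ _ h1, ?_, ?_, ?_⟩
  · show C.S.dist (g • l.1) (g • p.1) = 2
    rw [dist_smul C.S C.tree C.adj_smul]
    exact h2
  · show C.S.dist (g • p.2) (g • l.2) = 2
    rw [dist_smul C.S C.tree C.adj_smul]
    exact h3
  · show C.S.dist (g • l.1) (g • l.2) = 5
    rw [dist_smul C.S C.tree C.adj_smul]
    exact h4

theorem lab_smul_iff (C : Ctx τ V σ G) (g : G) (p l : σ × σ) :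
    C.Lab p (g • l) ↔ C.Lab (g⁻¹ • p) l := by
  constructor
  · intro h
    have := lab_smul C g⁻¹ _ _ h
    rwa [inv_smul_smul] at this
  · intro h
    have := lab_smul C g _ _ h
    rwa [smul_inv_smul] at this

theorem lab_unique (C : Ctx τ V σ G) (h4 : PA4) (p p' l : σ × σ) (h : C.Lab p l)
    (h' : C.Lab p' l) : p = p' := by
  have key : ∀ p : σ × σ, C.Lab p l →
      (C.S.dist l.1 p.1 = 2 ∧ C.S.dist l.1 p.1 + C.S.dist p.1 l.2 = C.S.dist l.1 l.2) ∧
      (C.S.dist l.1 p.2 = 3 ∧ C.S.dist l.1 p.2 + C.S.dist p.2 l.2 = C.S.dist l.1 l.2) := by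
    intro p hp
    obtain ⟨a1, a2, a3, a4⟩ := hp
    have c := C.tree.1
    have b1 : C.S.dist p.1 p.2 = 1 := SimpleGraph.dist_eq_one_iff_adj.mpr a1
    have b2 := c.dist_triangle (u := p.1) (v := p.2) (w := l.2)
    have b3 := c.dist_triangle (u := l.1) (v := p.1) (w := l.2)
    have b4 := c.dist_triangle (u := l.1) (v := p.1) (w := p.2)
    have b5 := c.dist_triangle (u := l.1) (v := p.2) (w := l.2)
    omega
  obtain ⟨k1, k2⟩ := key p h
  obtain ⟨k1', k2'⟩ := key p' h'
  have e5 := h.2.2.2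
  have u1 := (h4 C.S C.tree l.1 l.2 2 (by omega)).unique k1 k1'
  have u2 := (h4 C.S C.tree l.1 l.2 3 (by omega)).unique k2 k2'
  exact Prod.ext u1 u2

theorem lab_swap (C : Ctx τ V σ G) (p l : σ × σ) (h : C.Lab p l) : C.Lab p.swap l.swap := by
  obtain ⟨h1, h2, h3, h4⟩ := h
  refine ⟨h1.symm, ?_, ?_, ?_⟩
  · show C.S.dist l.2 p.2 = 2
    rw [SimpleGraph.dist_comm]
    exact h3
  · show C.S.dist p.1 l.1 = 2
    rw [SimpleGraph.dist_comm]
    exact h2
  · show C.S.dist l.2 l.1 = 5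
    rw [SimpleGraph.dist_comm]
    exact h4

theorem isC1_smul (C : Ctx τ V σ G) (g : G) (f : τ → Fin 4 → Fin 4 → ℝ) (h : C.X.IsC1 f) :
    C.X.IsC1 (fun t => f (g⁻¹ • t)) := by
  refine ⟨fun t j k => h.1 _ j k, fun t i j k hj hk => ?_⟩
  have h1 := h.2 (g⁻¹ • t) i j k hj hk
  rw [C.deck.nb_smul, C.deck.pm_smul] at h1
  exact h1

end F4

open scoped Classical in
theorem prF4 (b5 : PB5) (h4 : PA4) : PF4 := by
  intro τ V σ G _ _ _ _ C hA η hη
  obtain ⟨F, hF1, hF2⟩ := b5 (G := G) (τ := τ) (Z := σ × σ) (α := Fin 4 → Fin 4 → ℝ)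
    (fun l f => (∀ p, C.Lab p l → C.X.IsC1 f ∧ ∀ t i, d1 f t i = η p t i)) (by
      intro g l f hf p hp
      rw [F4.lab_smul_iff] at hp
      obtain ⟨k1, k2⟩ := hf _ hp
      refine ⟨F4.isC1_smul C g f k1, fun t i => ?_⟩
      have h1 := k2 (g⁻¹ • t) i
      rw [hη.equi] at h1
      exact h1) (by
      intro l
      by_cases hl : ∃ p, C.Lab p l
      · obtain ⟨p, hp⟩ := hl
        obtain ⟨b, hb1, hb2⟩ := C.H2 (η p) (fun t i _ => hη.flow p hp.1 t i)
          (fun t => hη.closed p hp.1 t)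
        refine ⟨b, fun p' hp' => ?_, fun g hg t => ?_⟩
        · rw [← F4.lab_unique C h4 p p' l hp hp']
          exact ⟨hb1, hb2⟩
        · have hg1 : g • l.1 = l.1 := congrArg Prod.fst hg
          have hg2 : g • l.2 = l.2 := congrArg Prod.snd hg
          have := hA l.1 l.2 (le_of_eq hp.2.2.2.symm) g hg1 hg2
          rw [this, one_smul]
      · exact ⟨fun _ _ _ => 0, fun p hp => absurd ⟨p, hp⟩ hl, fun _ _ _ => rfl⟩)
  refine ⟨fun l t j k => (F l t j k - F l.swap t j k) / 2, ?_, ?_, ?_, ?_⟩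
  · intro p l hl
    obtain ⟨k1, k2⟩ := hF1 l p hl
    obtain ⟨k1', k2'⟩ := hF1 l.swap p.swap (F4.lab_swap C p l hl)
    refine ⟨fun t j k => ?_, fun t i j k hj hk => ?_⟩
    · show (F l t k j - F l.swap t k j) / 2 = -((F l t j k - F l.swap t j k) / 2)
      rw [k1.1 t j k, k1'.1 t j k]
      ring
    · show (F l _ _ _ - F l.swap _ _ _) / 2 = (F l t j k - F l.swap t j k) / 2
      rw [k1.2 t i j k hj hk, k1'.2 t i j k hj hk]
  · intro p l hl t i
    obtain ⟨k1, k2⟩ := hF1 l p hl
    obtain ⟨k1', k2'⟩ := hF1 l.swap p.swap (F4.lab_swap C p l hl)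
    have e1 := k2 t i
    have e2 := k2' t i
    rw [hη.swap p hl.1] at e2
    unfold d1 at e1 e2 ⊢
    linarith
  · intro g l t j k
    have e1 : (g • l).swap = g • l.swap := rfl
    simp only [e1, hF2]
  · intro p l hl t j k
    simp only [Prod.swap_swap]
    ring

end Pool.Agent.MP_343d73

end

section

set_option autoImplicit false

/-!
Item F5: comparison of closed flows at a vertex with the flows of flux one.
-/

namespace Pool.Agent.MP_343d73

open scoped Classical

noncomputable section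

namespace F5

variable {τ V σ : Type}

/-- extension of a function with an invariance property to an equivariant family on an orbit -/
theorem ext_orbit (b5 : PB5) {G τ Z α : Type} [Group G] [MulAction G τ] [MulAction G Z]
    (Q : Z → (τ → α) → Prop)
    (hQ : ∀ (g : G) z f, Q z f → Q (g • z) (fun t => f (g⁻¹ • t))) (p : Z) (f0 : τ → α)
    (h0 : Q p f0) (hinv : ∀ g : G, g • p = p → ∀ t, f0 (g • t) = f0 t) :
    ∃ F : Z → τ → α, (∀ z ∈ MulAction.orbit G p, Q z (F z)) ∧
      ∀ (g : G) z t, F (g • z) (g • t) = F z t := by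
  refine b5 (fun z f => z ∈ MulAction.orbit G p → Q z f) ?_ ?_
  · intro g z f hf hz
    refine hQ g z f (hf ?_)
    have := MulAction.mem_orbit_of_mem_orbit g⁻¹ hz
    rwa [inv_smul_smul] at this
  · intro z
    by_cases hz : z ∈ MulAction.orbit G p
    · obtain ⟨k, rfl⟩ := hz
      refine ⟨fun t => f0 (k⁻¹ • t), fun _ => hQ k p f0 h0, ?_⟩
      intro g hg t
      have h1 : (k⁻¹ * g * k) • p = p := by
        have : g • k • p = k • p := hg
        rw [mul_smul, mul_smul, this, inv_smul_smul]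
      have h2 := hinv _ h1 (k⁻¹ • t)
      show f0 (k⁻¹ • g • t) = f0 (k⁻¹ • t)
      rw [← h2, mul_smul, mul_smul, smul_inv_smul]
    · by_cases ht : Nonempty τ
      · exact ⟨fun _ => f0 ht.some, fun h => absurd h hz, fun _ _ _ => rfl⟩
      · exact ⟨f0, fun h => absurd h hz, fun _ _ t => (ht ⟨t⟩).elim⟩

/-- translates of 1-cochains -/
theorem isC1_smul {G : Type} [Group G] [MulAction G τ] [MulAction G V] {X : Tri τ V}
    (hX : X.IsDeck G) (g : G) {f : τ → Fin 4 → Fin 4 → ℝ} (hf : X.IsC1 f) :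
    X.IsC1 (fun t => f (g⁻¹ • t)) := by
  refine ⟨fun t j k => hf.1 _ j k, fun t i j k hj hk => ?_⟩
  have h := hf.2 (g⁻¹ • t) i j k hj hk
  rw [hX.nb_smul, hX.pm_smul] at h
  exact h

theorem phi_congr {G : Type} [Group G] [MulAction G τ] [MulAction G V] [MulAction G σ]
    (C : Ctx τ V σ G) {Z : Type} (ed : Z → σ × σ) (pr : Z → Prop) (Θ Θ' : Z → τ → Fin 4 → ℝ)
    (h : ∀ z, pr z → Θ z = Θ' z) : C.Phi ed pr Θ = C.Phi ed pr Θ' := by
  unfold Ctx.Phi
  refine finsum_congr fun q => finsum_congr fun z => ?_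
  by_cases hz : pr z
  · rw [if_pos hz, if_pos hz, h z hz]
  · rw [if_neg hz, if_neg hz]

theorem adj_smul_iff {G : Type} [Group G] [MulAction G τ] [MulAction G V] [MulAction G σ]
    (C : Ctx τ V σ G) (g : G) (a b : σ) : C.S.Adj (g • a) (g • b) ↔ C.S.Adj a b := by
  constructor
  · intro h
    have := C.adj_smul g⁻¹ _ _ h
    rwa [inv_smul_smul, inv_smul_smul] at this
  · exact C.adj_smul g a b

end F5

theorem prF5 (b5 : PB5) (d3 : PD3) (e7 : PE7) (e8 : PE8) (f1 : PHF1) (_h8 : PA8) : PF5 := by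
  intro τ V σ G _ _ _ _ C η hη M ηS lam hM hfl hcl heq hlam hPhi
  have hM' : ∀ (g : G) s, g • s ∈ M → s ∈ M := by
    intro g s hs
    have := hM g⁻¹ _ hs
    rwa [inv_smul_smul] at this
  suffices hh : ∃ F : σ × σ → τ → Fin 4 → Fin 4 → ℝ, (∀ z : σ × σ,
      z.1 ∈ M → C.S.Adj z.1 z.2 → C.X.IsC1 (F z) ∧
        ∀ t i, d1 (F z) t i = ηS z.1 t i - lam z * η z t i) ∧
      ∀ (g : G) z t, F (g • z) (g • t) = F z t by
    obtain ⟨γ, h1, h2⟩ := hh
    exact ⟨γ, ⟨hM, hfl, hcl, heq, hlam, fun p hp hp' => (h1 p hp hp').1,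
      fun p hp hp' => (h1 p hp hp').2, fun g p t j k => by rw [h2 g p t]⟩⟩
  refine b5 (G := G) (τ := τ) (Z := σ × σ) (α := Fin 4 → Fin 4 → ℝ)
    (fun z f => z.1 ∈ M → C.S.Adj z.1 z.2 → C.X.IsC1 f ∧
      ∀ t i, d1 f t i = ηS z.1 t i - lam z * η z t i) ?_ ?_
  · intro g z f hf hz hz'
    obtain ⟨h3, h4⟩ := hf (hM' g z.1 hz) ((F5.adj_smul_iff C g _ _).mp hz')
    refine ⟨F5.isC1_smul C.deck g h3, fun t i => ?_⟩
    have h5 := h4 (g⁻¹ • t) i
    have h6 : ηS (g • z).1 t i = ηS z.1 (g⁻¹ • t) i := by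
      have := heq g z.1 (g⁻¹ • t) i
      rwa [smul_inv_smul] at this
    have h7 : η (g • z) t i = η z (g⁻¹ • t) i := by
      have := hη.equi g z (g⁻¹ • t) i
      rwa [smul_inv_smul] at this
    rw [h6, h7, hlam g z, ← h5]
    rfl
  · intro p
    by_cases hp : p.1 ∈ M ∧ C.S.Adj p.1 p.2
    swap
    · exact ⟨fun _ _ _ => 0, fun h h' => absurd ⟨h, h'⟩ hp, fun _ _ _ => rfl⟩
    obtain ⟨hpM, hpA⟩ := hp
    have hfix : ∀ g : G, g ∈ MulAction.stabilizer G p.1 ⊓ MulAction.stabilizer G p.2 →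
        g • p = p := by
      intro g hg
      have h1 : g • p.1 = p.1 := hg.1
      have h2 : g • p.2 = p.2 := hg.2
      exact Prod.ext h1 h2
    obtain ⟨x, y, hxy, γ0, hc1, hinv, hd1⟩ := d3 C.X C.deck C.conn C.H1 C.H2
      (MulAction.stabilizer G p.1 ⊓ MulAction.stabilizer G p.2) (C.torus _ _ hpA) (ηS p.1) (η p)
      (hfl _ hpM) (hη.flow p hpA) (hcl _ hpM) (hη.closed p hpA)
      (by
        intro g hg t i
        have h1 : g • p.1 = p.1 := hg.1
        have := heq g p.1 t i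
        rwa [h1] at this)
      (by
        intro g hg t i
        have := hη.equi g p t i
        rwa [hfix g hg] at this)
    have hinv' : ∀ g : G, g • p = p → ∀ t, γ0 (g • t) = γ0 t := by
      intro g hg t
      funext j k
      refine hinv g ⟨?_, ?_⟩ t j k
      · exact congrArg Prod.fst hg
      · exact congrArg Prod.snd hg
    obtain ⟨F, hF1, hF2⟩ := F5.ext_orbit b5 (G := G)
      (fun (z : σ × σ) f => C.X.IsC1 f ∧ ∀ t i, d1 f t i = x * ηS z.1 t i + y * η z t i)
      (by
        intro g z f hf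
        refine ⟨F5.isC1_smul C.deck g hf.1, fun t i => ?_⟩
        have h5 := hf.2 (g⁻¹ • t) i
        have h6 : ηS (g • z).1 t i = ηS z.1 (g⁻¹ • t) i := by
          have := heq g z.1 (g⁻¹ • t) i
          rwa [smul_inv_smul] at this
        have h7 : η (g • z) t i = η z (g⁻¹ • t) i := by
          have := hη.equi g z (g⁻¹ • t) i
          rwa [smul_inv_smul] at this
        rw [h6, h7, ← h5]
        rfl) p γ0 ⟨hc1, hd1⟩ hinv'
    have horb : ∀ z ∈ MulAction.orbit G p, z.1 ∈ M ∧ C.S.Adj z.1 z.2 := by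
      rintro z ⟨g, rfl⟩
      exact ⟨hM g _ hpM, C.adj_smul g _ _ hpA⟩
    have hfin : ∀ t, {z : σ × σ | z ∈ MulAction.orbit G p ∧ C.crossT (id z) t}.Finite := by
      intro t
      refine (f1 C t).subset ?_
      rintro z ⟨hz, hz'⟩
      exact ⟨(horb z hz).2, hz'⟩
    have h7 := e7 C (Z := σ × σ) id (fun z => z ∈ MulAction.orbit G p) (fun g z => rfl)
      (fun g z hz => MulAction.mem_orbit_of_mem_orbit g hz) hfin F (fun z hz => (hF1 z hz).1)
      (fun g z t j k => by rw [hF2 g z t])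
    have h8 := e8 C (Z := σ × σ) id (fun z => z ∈ MulAction.orbit G p) hfin
      (fun z => ηS z.1) η (fun z hz => hcl _ (horb z hz).1)
      (fun z hz => hη.closed z (horb z hz).2) x y
    have h9 : C.Phi id (fun z => z ∈ MulAction.orbit G p) (fun z t i => d1 (F z) t i) =
        C.Phi id (fun z => z ∈ MulAction.orbit G p)
          (fun z t i => x * ηS z.1 t i + y * η z t i) := by
      refine F5.phi_congr C _ _ _ _ fun z hz => ?_
      funext t i
      exact (hF1 z hz).2 t i
    rw [h9, h8, hPhi p hpM hpA, hη.one p hpA, mul_one] at h7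
    have hx : x ≠ 0 := by
      intro hx
      rw [hx, zero_mul, zero_add] at h7
      rcases hxy with h | h
      · exact h hx
      · exact h h7
    refine ⟨fun t j k => x⁻¹ * γ0 t j k, fun _ _ => ⟨⟨?_, ?_⟩, ?_⟩, ?_⟩
    · intro t j k
      simp only [hc1.1 t j k]
      ring
    · intro t i j k hj hk
      simp only [hc1.2 t i j k hj hk]
    · intro t i
      have h10 := hd1 t i
      have h11 : d1 (fun t j k => x⁻¹ * γ0 t j k) t i = x⁻¹ * d1 γ0 t i := by
        unfold d1; ring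
      rw [h11, h10]
      have hy : y = - (x * lam p) := by linarith
      rw [hy]
      field_simp
      ring
    · intro g hg t
      funext j k
      show x⁻¹ * γ0 (g • t) j k = x⁻¹ * γ0 t j k
      rw [hinv' g hg t]

end

end Pool.Agent.MP_343d73

end

section

set_option autoImplicit false

namespace Pool.Agent.MP_343d73

open scoped Classical

namespace F6

variable {τ V σ G : Type} [Group G] [MulAction G τ] [MulAction G V] [MulAction G σ]
  (C : Ctx τ V σ G)

theorem far_iff (h6 : PA6) (s0 b b1 r : σ) (hb : C.S.Adj s0 b) (hb1 : C.S.Adj s0 b1)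
    (hf : Far C.S (s0, b1) r) : Far C.S (s0, b) r ↔ b = b1 := by
  constructor
  · intro h
    have hne : s0 ≠ r := by
      rintro rfl
      unfold Far at hf
      simp at hf
    exact (h6 C.S C.tree s0 r hne).unique ⟨hb, h⟩ ⟨hb1, hf⟩
  · rintro rfl
    exact hf

theorem adj_orbit (p z : σ × σ) (hp : C.S.Adj p.1 p.2) (hz : z ∈ MulAction.orbit G p) :
    C.S.Adj z.1 z.2 := by
  obtain ⟨g, rfl⟩ := hz
  exact C.adj_smul g _ _ hp

theorem img_smul (g : G) (t : τ) (j : Fin 4) : C.img (g • t) j = g • C.img t j := by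
  unfold Ctx.img
  rw [C.deck.vx_smul, C.ph_smul]

end F6

open F6

theorem prF6 (e3 : PE3) (e4 : PE4) (e5 : PE5) (e6 : PE6) (f1 : PHF1) (h6 : PA6) (h8 : PA8) :
    PF6 := by
  intro τ V σ G _ _ _ _ C s0 b1 b2 hb1 hb2 hne
  obtain ⟨t0⟩ := C.conn.1
  obtain ⟨ζ1, hfl1, hdiv1, hK1, hfar1⟩ := e3 C (s0, b1) hb1 t0
  obtain ⟨ζ2, hfl2, hdiv2, hK2, hfar2⟩ := e3 C (s0, b2) hb2 t0
  set ζ : τ → Fin 4 → ℝ := fun t i => ζ1 t i - ζ2 t i with hζ
  have hfl : C.X.Flow ζ := by
    intro t i
    simp only [hζ, hfl1 t i, hfl2 t i]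
    ring
  have hcl : Closed ζ := by
    intro t
    simp only [hζ, Finset.sum_sub_distrib, hdiv1, hdiv2, sub_self]
  have hnz : ∀ t, (∃ i, ζ t i ≠ 0) → (∃ i, ζ1 t i ≠ 0) ∨ (∃ i, ζ2 t i ≠ 0) := by
    rintro t ⟨i, hi⟩
    by_contra hcon
    rw [not_or] at hcon
    obtain ⟨hc1, hc2⟩ := hcon
    push Not at hc1 hc2
    apply hi
    simp only [hζ, hc1, hc2, sub_self]
  have hloc : ∀ t, {k : G | k • s0 = s0 ∧ ∃ i, ζ (k⁻¹ • t) i ≠ 0}.Finite := by
    intro t
    have hfin := (hK1 (C.S.dist s0 (C.img t 0))).union (hK2 (C.S.dist s0 (C.img t 0)))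
    apply Set.Finite.of_injOn (f := fun k : G => k⁻¹ • t) _ _ hfin
    · rintro k ⟨hk, hi⟩
      have hd : C.S.dist s0 (C.img (k⁻¹ • t) 0) ≤ C.S.dist s0 (C.img t 0) := by
        rw [img_smul]
        have := h8 C.S C.adj_smul k s0 (k⁻¹ • C.img t 0)
        rw [hk, smul_inv_smul] at this
        omega
      rcases hnz _ hi with h | h
      · left; exact ⟨h, 0, hd⟩
      · right; exact ⟨h, 0, hd⟩
    · intro k _ k' _ hkk
      have hkk' : k⁻¹ • t = k'⁻¹ • t := hkk
      have : (k' * k⁻¹) • t = t := by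
        rw [mul_smul, hkk', smul_inv_smul]
      have h1 := C.deck.free_tet _ _ this
      exact (mul_inv_eq_one.1 h1).symm
  obtain ⟨p1, p2, p3⟩ := e5 C s0 ζ hfl hcl hloc
  refine ⟨C.per s0 ζ, p1, p2, p3, ?_⟩
  intro p _ hp
  have hnc : ∀ (b bb : σ) (ξ : τ → Fin 4 → ℝ) (t : τ), C.S.Adj s0 b → C.S.Adj s0 bb →
      (∀ j, Far C.S (s0, bb) (C.img t j)) → ¬ C.crossT (s0, b) t := by
    rintro b bb ξ t hb hbb hall ⟨j, k, hj, hk⟩
    rw [far_iff C h6 s0 b bb _ hb hbb (hall j)] at hj
    rw [far_iff C h6 s0 b bb _ hb hbb (hall k)] at hk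
    exact hk hj
  have hfin : {tz : τ × (σ × σ) | tz.2 ∈ MulAction.orbit G p ∧ tz.2.1 = s0 ∧
      (∃ i, ζ tz.1 i ≠ 0) ∧ C.crossT (id tz.2) tz.1}.Finite := by
    have hF := hfar1.union hfar2
    apply (hF.biUnion fun t _ => (f1 C t).image (fun z => (t, z))).subset
    rintro ⟨t, z⟩ ⟨hz, hz1, hi, hcr⟩
    simp only at hz hz1 hi hcr
    have hadj := adj_orbit C p z hp hz
    have hz' : z = (s0, z.2) := Prod.ext hz1 rfl
    have hcr' : C.crossT (s0, z.2) t := by rw [← hz']; exact hcr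
    have hadj' : C.S.Adj s0 z.2 := by rw [← hz1]; exact hadj
    simp only [Set.mem_iUnion]
    refine ⟨t, ?_, z, ⟨hadj, hcr⟩, rfl⟩
    rcases hnz t hi with h | h
    · left
      refine ⟨h, ?_⟩
      by_contra hcon
      push Not at hcon
      exact hnc z.2 b1 ζ1 t hadj' hb1 hcon hcr'
    · right
      refine ⟨h, ?_⟩
      by_contra hcon
      push Not at hcon
      exact hnc z.2 b2 ζ2 t hadj' hb2 hcon hcr'
  rw [e6 C s0 ζ Prod.fst id (fun z => z ∈ MulAction.orbit G p) hfl hcl hloc (fun _ _ => rfl)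
    (fun _ _ => rfl) (fun g z hz => by obtain ⟨k, rfl⟩ := hz; exact ⟨g * k, mul_smul g k p⟩) hfin]
  have hval : ∀ b, C.S.Adj s0 b → ∑ᶠ t, C.Nn (s0, b) ζ t =
      (if b = b1 then 1 else 0) - (if b = b2 then 1 else 0) := by
    intro b hb
    have q1 := e4 C ζ1 t0 (s0, b) (if b = b1 then 1 else 0) hfl1 hdiv1 (by
      apply hfar1.subset
      rintro t ⟨hi, j, hj⟩
      refine ⟨hi, j, ?_⟩
      intro hfj
      apply hj
      have := far_iff C h6 s0 b b1 _ hb hb1 hfj
      show (if Far C.S (s0, b) (C.ph (C.X.vx t j)) then (1 : ℝ) else 0) = _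
      have h' : (Far C.S (s0, b) (C.ph (C.X.vx t j))) = (b = b1) := propext this
      simp only [h'])
    have q2 := e4 C ζ2 t0 (s0, b) (if b = b2 then 1 else 0) hfl2 hdiv2 (by
      apply hfar2.subset
      rintro t ⟨hi, j, hj⟩
      refine ⟨hi, j, ?_⟩
      intro hfj
      apply hj
      have := far_iff C h6 s0 b b2 _ hb hb2 hfj
      show (if Far C.S (s0, b) (C.ph (C.X.vx t j)) then (1 : ℝ) else 0) = _
      have h' : (Far C.S (s0, b) (C.ph (C.X.vx t j))) = (b = b2) := propext this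
      simp only [h'])
    rw [← q1.2, ← q2.2, ← finsum_sub_distrib q1.1 q2.1]
    apply finsum_congr
    intro t
    unfold Ctx.Nn
    rw [← Finset.sum_sub_distrib]
    apply Finset.sum_congr rfl
    intro i _
    simp only [hζ]
    ring
  have hterm : ∀ z : σ × σ, (if z ∈ MulAction.orbit G p ∧ z.1 = s0 then
      ∑ᶠ t, C.Nn (id z) ζ t else 0) =
      (if z = (s0, b1) then (if p ∈ MulAction.orbit G (s0, b1) then (1 : ℝ) else 0) else 0) -
      (if z = (s0, b2) then (if p ∈ MulAction.orbit G (s0, b2) then (1 : ℝ) else 0) else 0) := by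
    intro z
    by_cases hz : z ∈ MulAction.orbit G p ∧ z.1 = s0
    · rw [if_pos hz]
      have hadj := adj_orbit C p z hp hz.1
      have hz' : z = (s0, z.2) := Prod.ext hz.2 rfl
      have hadj' : C.S.Adj s0 z.2 := by rw [← hz.2]; exact hadj
      have hv := hval z.2 hadj'
      rw [← hz'] at hv
      show ∑ᶠ t, C.Nn z ζ t = _
      rw [hv]
      congr 1
      · by_cases h : z.2 = b1
        · rw [if_pos h, if_pos (by rw [hz', h]), if_pos]
          rw [MulAction.mem_orbit_symm, ← h, ← hz']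
          exact hz.1
        · rw [if_neg h, if_neg]
          intro h'
          exact h (by rw [h'])
      · by_cases h : z.2 = b2
        · rw [if_pos h, if_pos (by rw [hz', h]), if_pos]
          rw [MulAction.mem_orbit_symm, ← h, ← hz']
          exact hz.1
        · rw [if_neg h, if_neg]
          intro h'
          exact h (by rw [h'])
    · rw [if_neg hz]
      have e1 : (if z = (s0, b1) then (if p ∈ MulAction.orbit G (s0, b1) then (1 : ℝ) else 0)
          else 0) = 0 := by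
        by_cases h : z = (s0, b1)
        · rw [if_pos h, if_neg]
          intro h'
          apply hz
          rw [h]
          exact ⟨MulAction.mem_orbit_symm.1 h', rfl⟩
        · rw [if_neg h]
      have e2 : (if z = (s0, b2) then (if p ∈ MulAction.orbit G (s0, b2) then (1 : ℝ) else 0)
          else 0) = 0 := by
        by_cases h : z = (s0, b2)
        · rw [if_pos h, if_neg]
          intro h'
          apply hz
          rw [h]
          exact ⟨MulAction.mem_orbit_symm.1 h', rfl⟩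
        · rw [if_neg h]
      rw [e1, e2, sub_zero]
  rw [finsum_congr hterm, finsum_sub_distrib, finsum_eq_single _ (s0, b1),
    finsum_eq_single _ (s0, b2)]
  · rw [if_pos rfl, if_pos rfl]
  · intro z hz; rw [if_neg hz]
  · intro z hz; rw [if_neg hz]
  · apply (Set.finite_singleton (s0, b1)).subset
    intro z hz
    by_contra h
    exact hz (if_neg h)
  · apply (Set.finite_singleton (s0, b2)).subset
    intro z hz
    by_contra h
    exact hz (if_neg h)

end Pool.Agent.MP_343d73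

end

section

set_option autoImplicit false

namespace Pool.Agent.MP_343d73

open scoped Classical

theorem tw_small {U : Type} (Γ : SimpleGraph U) (k : ℕ) (B : Finset U) (hB : ∀ q, q ∈ B)
    (hc : B.card ≤ k + 1) : TreewidthLE Γ k := by
  refine ⟨1, ⊥, fun _ => B, SimpleGraph.IsTree.of_subsingleton, fun _ => hc, fun q => ⟨0, hB q⟩,
    fun q q' _ => ⟨0, hB q, hB q'⟩, ?_⟩
  intro q a b
  have : a = b := Subtype.ext (Subsingleton.elim _ _)
  rw [this]

theorem cl_smul' {α G : Type} [Group G] [MulAction G α] (g : G) (a : α) :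
    cl G (g • a) = cl G a := by
  apply Quotient.sound
  exact ⟨g, rfl⟩

theorem final (hF1 : PF1) (hF3 : PF3) (hF4 : PF4) (hH2 : PH2) (hH3 : PH3) (hH10 : PH10)
    (hI1 : PI1) (hI2 : PI2) (hI3 : PI3) (hJ5 : PJ5) (hK2 : PK2) (hK4 : PK4) (hK5 : PK5) :
    Final := by
  intro τ V σ G _ _ _ _ X S hdeck hconn hH1 hHH2 htor hS k htw
  have hne : Nonempty σ := hS.tree.connected.nonempty
  by_cases hcase : ∃ u v, S.Adj u v ∧
      (¬ ∃ b1 b2 b3, S.Adj u b1 ∧ S.Adj u b2 ∧ S.Adj u b3 ∧ b1 ≠ b2 ∧ b1 ≠ b3 ∧ b2 ≠ b3) ∧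
      (¬ ∃ b1 b2 b3, S.Adj v b1 ∧ S.Adj v b2 ∧ S.Adj v b3 ∧ b1 ≠ b2 ∧ b1 ≠ b3 ∧ b2 ≠ b3)
  · obtain ⟨u, v, huv, hu, hv⟩ := hcase
    have h := hK5 (G := G) S hS u v huv hu hv
    apply tw_small (quotGraph G S) _ {cl G u, cl G v}
    · intro q
      rcases h q with h | h <;> simp [h]
    · exact le_trans Finset.card_le_two (by omega)
  by_cases hedge : ∀ a b, ¬ S.Adj a b
  · have hsub : ∀ a b : σ, a = b := by
      intro a b
      obtain ⟨w⟩ := hS.tree.connected.preconnected a b
      cases w with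
      | nil => rfl
      | cons h _ => exact absurd h (hedge _ _)
    obtain ⟨a0⟩ := hne
    apply tw_small (quotGraph G S) _ {cl G a0}
    · intro q
      induction q using Quotient.inductionOn with
      | h a => rw [hsub a a0]; simp
    · simp
  push Not at hedge
  obtain ⟨a0, b0, hab0⟩ := hedge
  obtain ⟨ph, hph, hbd⟩ := hF1 (σ := σ) X hdeck htor hne hS.enclosing
  let C : Ctx τ V σ G :=
    { X := X, S := S, ph := ph, deck := hdeck, conn := hconn, H1 := hH1, H2 := hHH2,
      tree := hS.tree, adj_smul := hS.adj_smul, torus := hS.torus, proper := hS.proper,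
      ph_smul := hph, ph_bd := hbd }
  have hval : ∀ u v, S.Adj u v →
      (∃ b1 b2 b3, S.Adj u b1 ∧ S.Adj u b2 ∧ S.Adj u b3 ∧ b1 ≠ b2 ∧ b1 ≠ b3 ∧ b2 ≠ b3) ∨
      (∃ b1 b2 b3, S.Adj v b1 ∧ S.Adj v b2 ∧ S.Adj v b3 ∧ b1 ≠ b2 ∧ b1 ≠ b3 ∧ b2 ≠ b3) := by
    intro u v huv
    by_contra hcon
    rw [not_or] at hcon
    exact hcase ⟨u, v, huv, hcon.1, hcon.2⟩
  have hacyl : C.Acyl := hK4 S hS (fun s b1 b2 b3 => hK2 C s b1 b2 b3) hval
  obtain ⟨η, hη⟩ := hF3 C
  obtain ⟨β, hβ⟩ := hF4 C hacyl η hη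
  obtain ⟨-, -, hws, hwg, -⟩ := hH2 C η β hη hβ
  obtain ⟨-, -, hwc⟩ := hI2 C η β hη hβ
  have hfin : Finite (Quotient (MulAction.orbitRel G τ)) := hdeck.cocompact
  have hnbr : ∀ a : σ, ∃ b, S.Adj a b := by
    intro a
    by_cases h : a = a0
    · exact ⟨b0, h ▸ hab0⟩
    · obtain ⟨w⟩ := hS.tree.connected.preconnected a a0
      cases w with
      | nil => exact absurd rfl h
      | cons h' _ => exact ⟨_, h'⟩
  have key := hJ5 (Q := Quotient (MulAction.orbitRel G τ)) (U := Quotient (MulAction.orbitRel G σ))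
    (E := {p : σ × σ // S.Adj p.1 p.2}) (X.dualGraph G) (quotGraph G S)
    (fun e v => cl G e.1.1 = v ∨ cl G e.1.2 = v)
    (fun e q => C.wt η β e.1 q.out)
    (fun q => {v | ∃ s, cl G s = v ∧ C.Core s q.out}) 320 k ?_ ?_ ?_ ?_ ?_ ?_ ?_ htw
  · have h4 : 4 * (320 * (k + 1)) = 1280 * (k + 1) := by ring
    rw [h4] at key
    exact key
  · intro e v q hinc hv
    apply hwc e.1 q.out e.2
    rcases hinc with h | h
    · left
      intro g hg
      exact hv ⟨g • e.1.1, by rw [cl_smul', h], hg⟩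
    · right
      intro g hg
      exact hv ⟨g • e.1.2, by rw [cl_smul', h], hg⟩
  · intro e
    exact hH3 C η β hη hβ e.1 e.2
  · intro v A hA e e' he he'
    obtain ⟨s0, hs0⟩ : ∃ s0 : σ, cl G s0 = v := ⟨v.out, Quotient.out_eq v⟩
    have hFr : C.Front A (MulAction.orbit G s0) := by
      apply hI3 C s0 A
      intro q hq q' hq' hadj
      rcases hA q hq q' hq' hadj with h | h
      · left
        intro g hg
        exact h ⟨g • s0, by rw [cl_smul', hs0], hg⟩
      · right
        intro g hg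
        exact h ⟨g • s0, by rw [cl_smul', hs0], hg⟩
    have hred : ∀ f : {p : σ × σ // S.Adj p.1 p.2}, (cl G f.1.1 = v ∨ cl G f.1.2 = v) →
        ∃ b, S.Adj s0 b ∧ ∀ t, C.wt η β f.1 t = C.wt η β (s0, b) t := by
      have aux : ∀ p : σ × σ, S.Adj p.1 p.2 → cl G p.1 = v →
          ∃ b, S.Adj s0 b ∧ ∀ t, C.wt η β p t = C.wt η β (s0, b) t := by
        intro p hp hpv
        rw [← hs0] at hpv
        obtain ⟨g, hg⟩ := Quotient.exact hpv
        have hg' : g • s0 = p.1 := hg
        refine ⟨g⁻¹ • p.2, ?_, ?_⟩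
        · have := hS.adj_smul g⁻¹ p.1 p.2 hp
          rwa [← hg', inv_smul_smul] at this
        · intro t
          rw [← hwg g⁻¹ p t]
          congr 1
          ext1
          · show g⁻¹ • p.1 = s0
            rw [← hg', inv_smul_smul]
          · rfl
      intro f hf
      rcases hf with hf | hf
      · exact aux f.1 f.2 hf
      · obtain ⟨b, hb, hb'⟩ := aux f.1.swap f.2.symm hf
        exact ⟨b, hb, fun t => by rw [← hws f.1 t f.2]; exact hb' t⟩
    obtain ⟨b, hb, hb'⟩ := hred e he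
    obtain ⟨b', hbb, hbb'⟩ := hred e' he'
    have := hH10 C hacyl η β hη hβ s0 b b' hb hbb A hFr
    simp only [hb', hbb']
    exact this
  · intro v v' hvv
    rw [quotGraph, SimpleGraph.fromRel_adj] at hvv
    obtain ⟨-, ⟨a, b, hab, ha, hb⟩ | ⟨a, b, hab, ha, hb⟩⟩ := hvv
    · exact ⟨⟨(a, b), hab⟩, Or.inl ha, Or.inr hb⟩
    · exact ⟨⟨(a, b), hab⟩, Or.inr hb, Or.inl ha⟩
  · intro v
    obtain ⟨b, hb⟩ := hnbr v.out
    exact ⟨⟨(v.out, b), hb⟩, Or.inl (Quotient.out_eq v)⟩
  · exact ⟨cl G a0⟩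
  · intro q
    obtain ⟨h1, h2⟩ := hI1 C q.out
    have himg : {v | ∃ s, cl G s = v ∧ C.Core s q.out} = cl G '' {s | C.Core s q.out} := by
      ext v
      constructor
      · rintro ⟨s, rfl, hs⟩
        exact ⟨s, hs, rfl⟩
      · rintro ⟨s, hs, rfl⟩
        exact ⟨s, rfl, hs⟩
    rw [himg]
    exact ⟨h1.image _, le_trans (Set.ncard_image_le h1) h2⟩

end Pool.Agent.MP_343d73

end

section

set_option autoImplicit false

namespace Pool.Agent.MP_343d73

open scoped Classical

namespace H1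

variable {τ V σ G : Type} [Group G] [MulAction G τ] [MulAction G V] [MulAction G σ]
  (C : Ctx τ V σ G)

theorem ne_a (i : Fin 4) : fa i ≠ i := by fin_cases i <;> decide
theorem ne_b (i : Fin 4) : fb i ≠ i := by fin_cases i <;> decide
theorem ne_c (i : Fin 4) : fc i ≠ i := by fin_cases i <;> decide

/-- an image behind `l.1` is not far -/
theorem not_far_of_beh (h1 : PA1) (p l : σ × σ) (hl : C.Lab p l) (r : σ)
    (hr : Beh C.S l.1 l.2 r) : ¬ Far C.S p r := by
  obtain ⟨ha, hl1, hl2, hl3⟩ := hl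
  unfold Beh at hr
  unfold Far
  have t1 := C.tree.connected.dist_triangle (u := r) (v := l.1) (w := p.1)
  have t2 := C.tree.connected.dist_triangle (u := r) (v := p.2) (w := l.2)
  have c1 := C.S.dist_comm (u := r) (v := p.1)
  have c2 := C.S.dist_comm (u := r) (v := p.2)
  omega

theorem far_of_beh (h1 : PA1) (p l : σ × σ) (hl : C.Lab p l) (r : σ)
    (hr : Beh C.S l.2 l.1 r) : Far C.S p r := by
  obtain ⟨ha, hl1, hl2, hl3⟩ := hl
  unfold Beh at hr
  unfold Far
  have t1 := C.tree.connected.dist_triangle (u := r) (v := l.2) (w := p.2)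
  have t2 := C.tree.connected.dist_triangle (u := r) (v := p.1) (w := l.1)
  have c1 := C.S.dist_comm (u := r) (v := p.1)
  have c2 := C.S.dist_comm (u := r) (v := p.2)
  have c3 := C.S.dist_comm (u := l.1) (v := p.1)
  have c4 := C.S.dist_comm (u := l.2) (v := p.2)
  have c5 := C.S.dist_comm (u := l.1) (v := l.2)
  omega

/-- a point behind `l.1` determines `l.1` -/
theorem fst_unique (h1 : PA1) (h4 : PA4) (p l : σ × σ) (hl : C.Lab p l) (r : σ)
    (hr : Beh C.S l.1 l.2 r) :
    C.S.dist p.1 l.1 = 2 ∧ C.S.dist p.1 l.1 + C.S.dist l.1 r = C.S.dist p.1 r := by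
  obtain ⟨ha, hl1, hl2, hl3⟩ := hl
  unfold Beh at hr
  have t1 := C.tree.connected.dist_triangle (u := r) (v := p.1) (w := l.2)
  have t2 := C.tree.connected.dist_triangle (u := p.1) (v := p.2) (w := l.2)
  have t3 := C.tree.connected.dist_triangle (u := p.1) (v := l.1) (w := r)
  have e : C.S.dist p.1 p.2 = 1 := SimpleGraph.dist_eq_one_iff_adj.2 ha
  have c1 := C.S.dist_comm (u := r) (v := p.1)
  have c3 := C.S.dist_comm (u := l.1) (v := p.1)
  have c4 := C.S.dist_comm (u := l.1) (v := r)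
  omega

theorem snd_unique (h1 : PA1) (h4 : PA4) (p l : σ × σ) (hl : C.Lab p l) (r : σ)
    (hr : Beh C.S l.2 l.1 r) :
    C.S.dist p.2 l.2 = 2 ∧ C.S.dist p.2 l.2 + C.S.dist l.2 r = C.S.dist p.2 r := by
  obtain ⟨ha, hl1, hl2, hl3⟩ := hl
  unfold Beh at hr
  have t1 := C.tree.connected.dist_triangle (u := r) (v := p.2) (w := l.1)
  have t2 := C.tree.connected.dist_triangle (u := p.2) (v := p.1) (w := l.1)
  have t3 := C.tree.connected.dist_triangle (u := p.2) (v := l.2) (w := r)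
  have e : C.S.dist p.1 p.2 = 1 := SimpleGraph.dist_eq_one_iff_adj.2 ha
  have c0 := C.S.dist_comm (u := p.2) (v := p.1)
  have c1 := C.S.dist_comm (u := r) (v := p.2)
  have c3 := C.S.dist_comm (u := l.1) (v := p.1)
  have c4 := C.S.dist_comm (u := l.2) (v := r)
  have c5 := C.S.dist_comm (u := l.1) (v := l.2)
  omega

theorem label_unique (h1 : PA1) (h4 : PA4) (p l l' : σ × σ) (t : τ) (i : Fin 4)
    (hF : C.FF p l t i) (hF' : C.FF p l' t i) : l = l' := by
  obtain ⟨hl, ⟨j, k, hj, hk, hfj, hfk⟩, hflat⟩ := hF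
  obtain ⟨hl', -, hflat'⟩ := hF'
  ext1
  · have a1 : Beh C.S l.1 l.2 (C.img t k) := by
      rcases hflat k hk with h | h
      · exact h
      · exact absurd (far_of_beh C h1 p l hl _ h) hfk
    have a2 : Beh C.S l'.1 l'.2 (C.img t k) := by
      rcases hflat' k hk with h | h
      · exact h
      · exact absurd (far_of_beh C h1 p l' hl' _ h) hfk
    have b1 := fst_unique C h1 h4 p l hl _ a1
    have b2 := fst_unique C h1 h4 p l' hl' _ a2
    exact (h4 C.S C.tree p.1 (C.img t k) 2 (by omega)).unique b1 b2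
  · have a1 : Beh C.S l.2 l.1 (C.img t j) := by
      rcases hflat j hj with h | h
      · exact absurd hfj (not_far_of_beh C h1 p l hl _ h)
      · exact h
    have a2 : Beh C.S l'.2 l'.1 (C.img t j) := by
      rcases hflat' j hj with h | h
      · exact absurd hfj (not_far_of_beh C h1 p l' hl' _ h)
      · exact h
    have b1 := snd_unique C h1 h4 p l hl _ a1
    have b2 := snd_unique C h1 h4 p l' hl' _ a2
    exact (h4 C.S C.tree p.2 (C.img t j) 2 (by omega)).unique b1 b2

end H1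

open H1

theorem prH1 (h1 : PA1) (h4 : PA4) (c3 : PC3) (c4 : PC4) : PH1 := by
  intro τ V σ G _ _ _ _ C η β hη hβ p t hp
  constructor
  · intro hc
    have hconst : ∃ x : ℝ, ∀ j, C.cE p (C.X.vx t j) = x := by
      by_cases h : ∃ j, Far C.S p (C.img t j)
      · obtain ⟨j, hj⟩ := h
        refine ⟨1, fun k => ?_⟩
        have hk : Far C.S p (C.img t k) := by
          by_contra hk
          exact hc ⟨j, k, hj, hk⟩
        exact if_pos hk
      · push Not at h
        exact ⟨0, fun k => if_neg (h k)⟩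
    obtain ⟨x, hx⟩ := hconst
    unfold Ctx.om Ctx.Nn
    have e1 : ∑ i, C.X.cbar (C.cE p) t i * η p t i = 0 := by
      have : ∀ i, C.X.cbar (C.cE p) t i * η p t i = x * η p t i := by
        intro i
        unfold Tri.cbar
        rw [hx, hx, hx]
        ring
      simp only [this]
      rw [← Finset.mul_sum, hη.closed p hp t, mul_zero]
    have e2 : ∑ i, ∑ᶠ l : σ × σ, (if C.FF p l t i then C.X.Wd (C.cE p) (β l) t i else 0) = 0 := by
      apply Finset.sum_eq_zero
      intro i _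
      apply finsum_eq_zero_of_forall_eq_zero
      intro l
      rw [if_neg]
      rintro ⟨-, ⟨j, k, hj, hk, hfj, hfk⟩, -⟩
      exact hc ⟨j, k, hfj, hfk⟩
    rw [e1, e2, sub_zero]
  · intro l hl
    unfold Ctx.om Ctx.Nn
    have hβc := hβ.c1 p l hl.1
    have hprim := hβ.prim p l hl.1
    have e1 : ∑ i, C.X.cbar (C.cE p) t i * η p t i = ∑ i, C.X.Wd (C.cE p) (β l) t i := by
      rw [← c3 C.X (β l) hβc (C.cE p) t]
      apply Finset.sum_congr rfl
      intro i _
      rw [hprim t i]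
    rw [e1, sub_eq_zero]
    apply Finset.sum_congr rfl
    intro i _
    by_cases hcr : C.crossF p t i
    · have hFF : C.FF p l t i := ⟨hl.1, hcr, fun j _ => hl.2.2 j⟩
      rw [finsum_eq_single _ l]
      · rw [if_pos hFF]
      · intro l' hl'
        rw [if_neg]
        intro hF'
        exact hl' (label_unique C h1 h4 p l' l t i hF' hFF)
    · have : ∑ᶠ l : σ × σ, (if C.FF p l t i then C.X.Wd (C.cE p) (β l) t i else 0) = 0 := by
        apply finsum_eq_zero_of_forall_eq_zero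
        intro l
        rw [if_neg]
        rintro ⟨-, h, -⟩
        exact hcr h
      rw [this]
      by_cases h : ∃ j, j ≠ i ∧ Far C.S p (C.img t j)
      · obtain ⟨j, hj, hfj⟩ := h
        apply c4 C.X (β l) hβc (C.cE p) 1
        intro k hk
        have hk' : Far C.S p (C.img t k) := by
          by_contra hk'
          exact hcr ⟨j, k, hj, hk, hfj, hk'⟩
        exact if_pos hk'
      · push Not at h
        apply c4 C.X (β l) hβc (C.cE p) 0
        intro k hk
        exact if_neg (h k hk)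

end Pool.Agent.MP_343d73

end

section

set_option autoImplicit false

/-!
H2: equivariance and symmetry of the corrected flux density and of the weights.
-/

namespace Pool.Agent.MP_343d73

namespace ItemH2

variable {τ V σ G : Type} [Group G] [MulAction G τ] [MulAction G V] [MulAction G σ]
  (C : Ctx τ V σ G)

lemma img_smul (g : G) (t : τ) (j : Fin 4) : C.img (g • t) j = g • C.img t j := by
  unfold Ctx.img
  rw [C.deck.vx_smul, C.ph_smul]

lemma far_smul (h8 : PA8) (g : G) (p : σ × σ) (r : σ) : Far C.S (g • p) (g • r) ↔ Far C.S p r := by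
  unfold Far
  rw [Prod.smul_fst, Prod.smul_snd, h8 C.S C.adj_smul, h8 C.S C.adj_smul]

lemma beh_smul (h8 : PA8) (g : G) (x y r : σ) :
    Beh C.S (g • x) (g • y) (g • r) ↔ Beh C.S x y r := by
  unfold Beh
  rw [h8 C.S C.adj_smul, h8 C.S C.adj_smul, h8 C.S C.adj_smul]

lemma adj_smul_iff (g : G) (a b : σ) : C.S.Adj (g • a) (g • b) ↔ C.S.Adj a b := by
  constructor
  · intro h
    have := C.adj_smul g⁻¹ _ _ h
    rwa [inv_smul_smul, inv_smul_smul] at this
  · exact C.adj_smul g a b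

lemma cE_smul (h8 : PA8) (g : G) (p : σ × σ) (v : V) : C.cE (g • p) (g • v) = C.cE p v := by
  unfold Ctx.cE
  rw [C.ph_smul]
  by_cases h : Far C.S p (C.ph v)
  · rw [if_pos h, if_pos ((far_smul C h8 g p _).2 h)]
  · rw [if_neg h, if_neg (fun h' => h ((far_smul C h8 g p _).1 h'))]

lemma cbar_smul (h8 : PA8) (g : G) (p : σ × σ) (t : τ) (i : Fin 4) :
    C.X.cbar (C.cE (g • p)) (g • t) i = C.X.cbar (C.cE p) t i := by
  unfold Tri.cbar
  simp only [C.deck.vx_smul, cE_smul C h8]

lemma Wd_smul (h8 : PA8) (g : G) (p : σ × σ) (b b' : τ → Fin 4 → Fin 4 → ℝ)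
    (hb : ∀ t j k, b' (g • t) j k = b t j k) (t : τ) (i : Fin 4) :
    C.X.Wd (C.cE (g • p)) b' (g • t) i = C.X.Wd (C.cE p) b t i := by
  unfold Tri.Wd
  rw [cbar_smul C h8]
  unfold d1
  simp only [C.deck.vx_smul, cE_smul C h8, hb]

lemma crossF_smul (h8 : PA8) (g : G) (p : σ × σ) (t : τ) (i : Fin 4) :
    C.crossF (g • p) (g • t) i ↔ C.crossF p t i := by
  unfold Ctx.crossF
  simp only [img_smul, far_smul C h8]

lemma crossT_smul (h8 : PA8) (g : G) (p : σ × σ) (t : τ) :
    C.crossT (g • p) (g • t) ↔ C.crossT p t := by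
  unfold Ctx.crossT
  simp only [img_smul, far_smul C h8]

lemma Lab_smul (h8 : PA8) (g : G) (p l : σ × σ) : C.Lab (g • p) (g • l) ↔ C.Lab p l := by
  unfold Ctx.Lab
  simp only [Prod.smul_fst, Prod.smul_snd, h8 C.S C.adj_smul, adj_smul_iff]

lemma flatR_smul (h8 : PA8) (g : G) (l : σ × σ) (r : σ) :
    C.flatR (g • l) (g • r) ↔ C.flatR l r := by
  unfold Ctx.flatR
  simp only [Prod.smul_fst, Prod.smul_snd, beh_smul C h8]

lemma FF_smul (h8 : PA8) (g : G) (p l : σ × σ) (t : τ) (i : Fin 4) :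
    C.FF (g • p) (g • l) (g • t) i ↔ C.FF p l t i := by
  unfold Ctx.FF
  simp only [Lab_smul C h8, crossF_smul C h8, img_smul, flatR_smul C h8]

lemma FT_smul (h8 : PA8) (g : G) (p l : σ × σ) (t : τ) :
    C.FT (g • p) (g • l) (g • t) ↔ C.FT p l t := by
  unfold Ctx.FT
  simp only [Lab_smul C h8, crossT_smul C h8, img_smul, flatR_smul C h8]

open scoped Classical in
lemma om_smul (h8 : PA8) (η : σ × σ → τ → Fin 4 → ℝ) (β : σ × σ → τ → Fin 4 → Fin 4 → ℝ)
    (hη : C.EtaFam η) (hβ : C.BetaFam η β) (g : G) (p : σ × σ) (t : τ) :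
    C.om η β (g • p) (g • t) = C.om η β p t := by
  unfold Ctx.om
  congr 1
  · unfold Ctx.Nn
    refine Finset.sum_congr rfl fun i _ => ?_
    rw [cbar_smul C h8, hη.equi]
  · refine Finset.sum_congr rfl fun i _ => ?_
    rw [← finsum_comp_equiv (MulAction.toPerm g)]
    refine finsum_congr fun l => ?_
    rw [MulAction.toPerm_apply]
    by_cases h : C.FF p l t i
    · rw [if_pos h, if_pos ((FF_smul C h8 g p l t i).2 h)]
      exact Wd_smul C h8 g p _ _ (fun t j k => hβ.equi g l t j k) t i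
    · rw [if_neg h, if_neg (fun h' => h ((FF_smul C h8 g p l t i).1 h'))]

/-! ### swap -/

lemma not_far_iff (h1 : PA1) {p : σ × σ} (hp : C.S.Adj p.1 p.2) (r : σ) :
    Far C.S p.swap r ↔ ¬ Far C.S p r := by
  unfold Far
  have := h1 C.S C.tree p.1 p.2 r hp
  simp only [Prod.fst_swap, Prod.snd_swap]
  omega

lemma cE_swap (h1 : PA1) {p : σ × σ} (hp : C.S.Adj p.1 p.2) (v : V) :
    C.cE p.swap v = 1 - C.cE p v := by
  unfold Ctx.cE
  by_cases h : Far C.S p (C.ph v)
  · rw [if_pos h, if_neg (fun h' => (not_far_iff C h1 hp _).1 h' h), sub_self]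
  · rw [if_neg h, if_pos ((not_far_iff C h1 hp _).2 h), sub_zero]

lemma crossF_swap (h1 : PA1) {p : σ × σ} (hp : C.S.Adj p.1 p.2) (t : τ) (i : Fin 4) :
    C.crossF p.swap t i ↔ C.crossF p t i := by
  unfold Ctx.crossF
  simp only [not_far_iff C h1 hp, not_not]
  constructor
  · rintro ⟨j, k, h1, h2, h3, h4⟩
    exact ⟨k, j, h2, h1, h4, h3⟩
  · rintro ⟨j, k, h1, h2, h3, h4⟩
    exact ⟨k, j, h2, h1, h4, h3⟩

lemma crossT_swap (h1 : PA1) {p : σ × σ} (hp : C.S.Adj p.1 p.2) (t : τ) :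
    C.crossT p.swap t ↔ C.crossT p t := by
  unfold Ctx.crossT
  simp only [not_far_iff C h1 hp, not_not]
  constructor
  · rintro ⟨j, k, h3, h4⟩
    exact ⟨k, j, h4, h3⟩
  · rintro ⟨j, k, h3, h4⟩
    exact ⟨k, j, h4, h3⟩

lemma Lab_swap (p l : σ × σ) : C.Lab p.swap l.swap ↔ C.Lab p l := by
  unfold Ctx.Lab
  simp only [Prod.fst_swap, Prod.snd_swap]
  rw [C.S.adj_comm, SimpleGraph.dist_comm (u := l.2) (v := p.2),
    SimpleGraph.dist_comm (u := p.1) (v := l.1), SimpleGraph.dist_comm (u := l.2) (v := l.1)]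
  tauto

lemma flatR_swap (l : σ × σ) (r : σ) : C.flatR l.swap r ↔ C.flatR l r := by
  unfold Ctx.flatR
  simp only [Prod.fst_swap, Prod.snd_swap]
  exact or_comm

lemma FF_swap (h1 : PA1) {p : σ × σ} (hp : C.S.Adj p.1 p.2) (l : σ × σ) (t : τ) (i : Fin 4) :
    C.FF p.swap l.swap t i ↔ C.FF p l t i := by
  unfold Ctx.FF
  simp only [Lab_swap, crossF_swap C h1 hp, flatR_swap]

lemma cbar_swap (h1 : PA1) {p : σ × σ} (hp : C.S.Adj p.1 p.2) (t : τ) (i : Fin 4) :
    C.X.cbar (C.cE p.swap) t i = 1 - C.X.cbar (C.cE p) t i := by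
  unfold Tri.cbar
  simp only [cE_swap C h1 hp]
  ring

open scoped Classical in
lemma om_swap (h1 : PA1) (η : σ × σ → τ → Fin 4 → ℝ) (β : σ × σ → τ → Fin 4 → Fin 4 → ℝ)
    (hη : C.EtaFam η) (hβ : C.BetaFam η β) (p : σ × σ) (t : τ) (hp : C.S.Adj p.1 p.2) :
    C.om η β p.swap t = C.om η β p t := by
  unfold Ctx.om
  congr 1
  · unfold Ctx.Nn
    have h3 := hη.closed p hp t
    have h4 : ∀ i, C.X.cbar (C.cE p.swap) t i * η p.swap t i =
        C.X.cbar (C.cE p) t i * η p t i - η p t i := by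
      intro i
      rw [cbar_swap C h1 hp, hη.swap p hp]
      ring
    rw [Finset.sum_congr rfl fun i _ => h4 i, Finset.sum_sub_distrib, h3, sub_zero]
  · refine Finset.sum_congr rfl fun i _ => ?_
    rw [← finsum_comp_equiv (Equiv.prodComm σ σ)]
    refine finsum_congr fun l => ?_
    rw [Equiv.prodComm_apply]
    by_cases h : C.FF p l t i
    · rw [if_pos h, if_pos ((FF_swap C h1 hp l t i).2 h)]
      have hb := hβ.swap p l h.1
      unfold Tri.Wd
      rw [cbar_swap C h1 hp]
      unfold d1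
      simp only [cE_swap C h1 hp, hb]
      ring
    · rw [if_neg h, if_neg (fun h' => h ((FF_swap C h1 hp l t i).1 h'))]

end ItemH2

open ItemH2

open scoped Classical in
theorem prH2 (h1 : PA1) (h8 : PA8) : PH2 := by
  intro τ V σ G _ _ _ _ C η β hη hβ
  refine ⟨fun g p t => om_smul C h8 η β hη hβ g p t, fun p t hp => om_swap C h1 η β hη hβ p t hp,
    ?_, ?_, ?_⟩
  · intro p t hp
    unfold Ctx.wt
    rw [← finsum_comp_equiv (Equiv.prodComm σ σ)]
    refine finsum_congr fun z => ?_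
    rw [Equiv.prodComm_apply]
    by_cases h : z ∈ MulAction.orbit G p
    · obtain ⟨g, rfl⟩ := h
      rw [if_pos, if_pos ⟨g, rfl⟩]
      · refine om_swap C h1 η β hη hβ _ t ?_
        exact C.adj_smul g _ _ hp
      · exact ⟨g, rfl⟩
    · rw [if_neg h, if_neg]
      rintro ⟨g, hg⟩
      apply h
      refine ⟨g, ?_⟩
      have := congrArg Prod.swap hg
      rw [Prod.swap_swap] at this
      rw [← this]
      rfl
  · intro g p t
    unfold Ctx.wt
    rw [MulAction.orbit_smul]
  · intro g p t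
    unfold Ctx.wt
    rw [← finsum_comp_equiv (MulAction.toPerm g)]
    refine finsum_congr fun z => ?_
    rw [MulAction.toPerm_apply]
    have hm : g • z ∈ MulAction.orbit G p ↔ z ∈ MulAction.orbit G p := by
      constructor
      · rintro ⟨k, hk⟩
        refine ⟨g⁻¹ * k, ?_⟩
        simp only at hk ⊢
        rw [mul_smul, hk, inv_smul_smul]
      · rintro ⟨k, rfl⟩
        exact ⟨g * k, mul_smul g k p⟩
    by_cases h : z ∈ MulAction.orbit G p
    · rw [if_pos h, if_pos (hm.2 h)]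
      exact om_smul C h8 η β hη hβ g z t
    · rw [if_neg h, if_neg (fun h' => h (hm.1 h'))]

end Pool.Agent.MP_343d73

end

section

set_option autoImplicit false

namespace Pool.Agent.MP_343d73

open scoped Classical

namespace H5

variable {τ V σ G : Type} [Group G] [MulAction G τ] [MulAction G V] [MulAction G σ]
  (C : Ctx τ V σ G)

theorem const_of_not_cross (p : σ × σ) (t : τ) (h : ¬ C.crossT p t) :
    ∃ x : ℝ, ∀ j, C.cE p (C.X.vx t j) = x := by
  by_cases h1 : ∃ j, Far C.S p (C.img t j)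
  · refine ⟨1, fun j => ?_⟩
    obtain ⟨j0, hj0⟩ := h1
    have h2 : Far C.S p (C.img t j) := by
      by_contra h3
      exact h ⟨j0, j, hj0, h3⟩
    exact if_pos h2
  · refine ⟨0, fun j => ?_⟩
    push Not at h1
    exact if_neg (h1 j)

theorem Nn_zero (p : σ × σ) (t : τ) (h : ¬ C.crossT p t) (e : τ → Fin 4 → ℝ)
    (he : Closed e) : C.Nn p e t = 0 := by
  obtain ⟨x, hx⟩ := const_of_not_cross C p t h
  unfold Ctx.Nn
  have h1 : ∀ i, C.X.cbar (C.cE p) t i = x := by
    intro i
    unfold Tri.cbar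
    rw [hx, hx, hx]
    ring
  simp_rw [h1]
  rw [← Finset.mul_sum, he t, mul_zero]

theorem not_FF (p l : σ × σ) (t : τ) (i : Fin 4) (h : ¬ C.crossT p t) : ¬ C.FF p l t i := by
  rintro ⟨-, ⟨j, k, -, -, h1, h2⟩, -⟩
  exact h ⟨j, k, h1, h2⟩

end H5

open H5 in
theorem prH5 (c3 : PC3) (c4 : PC4) (f1 : PHF1) : PH5 := by
  intro τ V σ G _ _ _ _ C η β M ηS lam γ hη hβ hS t
  have hF : {p : σ × σ | C.S.Adj p.1 p.2 ∧ C.crossT p t}.Finite := f1 C t
  let T2 : σ × σ → ℝ := fun p => if p.1 ∈ M ∧ C.S.Adj p.1 p.2 then C.Nn p (ηS p.1) t else 0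
  let R : Fin 4 → σ × σ → ℝ := fun i p => if p.1 ∈ M ∧ C.S.Adj p.1 p.2 then
    C.X.Wd (C.cE p) (γ p) t i +
    lam p * ∑ᶠ l : σ × σ, (if C.FF p l t i then C.X.Wd (C.cE p) (β l) t i else 0) else 0
  have hRR : ∀ i, C.RR M β lam γ t i = ∑ᶠ p, R i p := fun i => rfl
  have hT2 : Function.support T2 ⊆ hF.toFinset := by
    intro p hp
    rw [Set.Finite.coe_toFinset]
    by_cases hc : p.1 ∈ M ∧ C.S.Adj p.1 p.2
    · refine ⟨hc.2, ?_⟩
      by_contra h
      apply hp
      change (if p.1 ∈ M ∧ C.S.Adj p.1 p.2 then C.Nn p (ηS p.1) t else 0) = 0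
      rw [if_pos hc, Nn_zero C p t h _ (hS.closed p.1 hc.1)]
    · exact absurd (if_neg hc) hp
  have hR : ∀ i, Function.support (R i) ⊆ hF.toFinset := by
    intro i p hp
    rw [Set.Finite.coe_toFinset]
    by_cases hc : p.1 ∈ M ∧ C.S.Adj p.1 p.2
    · refine ⟨hc.2, ?_⟩
      by_contra h
      apply hp
      obtain ⟨x, hx⟩ := const_of_not_cross C p t h
      change (if p.1 ∈ M ∧ C.S.Adj p.1 p.2 then C.X.Wd (C.cE p) (γ p) t i +
        lam p * ∑ᶠ l : σ × σ, (if C.FF p l t i then C.X.Wd (C.cE p) (β l) t i else 0) else 0) = 0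
      rw [if_pos hc, c4 C.X (γ p) (hS.c1 p hc.1 hc.2) (C.cE p) x t i (fun j _ => hx j)]
      simp only [if_neg (not_FF C p _ t i h), finsum_zero, mul_zero, add_zero]
    · exact absurd (if_neg hc) hp
  have hterm : ∀ p : σ × σ, (if p.1 ∈ M ∧ C.S.Adj p.1 p.2 then lam p * C.om η β p t else 0) =
      T2 p - ∑ i, R i p := by
    intro p
    change _ = (if p.1 ∈ M ∧ C.S.Adj p.1 p.2 then C.Nn p (ηS p.1) t else 0) -
      ∑ i, (if p.1 ∈ M ∧ C.S.Adj p.1 p.2 then C.X.Wd (C.cE p) (γ p) t i +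
        lam p * ∑ᶠ l : σ × σ, (if C.FF p l t i then C.X.Wd (C.cE p) (β l) t i else 0) else 0)
    by_cases hc : p.1 ∈ M ∧ C.S.Adj p.1 p.2
    · simp only [if_pos hc]
      rw [Finset.sum_add_distrib, ← c3 C.X (γ p) (hS.c1 p hc.1 hc.2) (C.cE p) t,
        ← Finset.mul_sum]
      have h1 : ∑ i, C.X.cbar (C.cE p) t i * d1 (γ p) t i =
          C.Nn p (ηS p.1) t - lam p * C.Nn p (η p) t := by
        unfold Ctx.Nn
        rw [Finset.mul_sum, ← Finset.sum_sub_distrib]
        refine Finset.sum_congr rfl fun i _ => ?_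
        rw [hS.prim p hc.1 hc.2]
        ring
      rw [h1]
      unfold Ctx.om
      ring
    · simp only [if_neg hc, Finset.sum_const_zero, sub_zero]
  simp_rw [hterm, hRR]
  rw [finsum_eq_sum_of_support_subset T2 hT2]
  simp_rw [fun i => finsum_eq_sum_of_support_subset (R i) (hR i)]
  rw [finsum_eq_sum_of_support_subset (s := hF.toFinset), Finset.sum_sub_distrib,
    Finset.sum_comm]
  intro p hp
  by_contra h
  apply hp
  have h1 : T2 p = 0 := by
    by_contra h2
    exact h (hT2 h2)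
  have h3 : ∀ i, R i p = 0 := by
    intro i
    by_contra h2
    exact h (hR i h2)
  change T2 p - ∑ i, R i p = 0
  rw [h1]
  simp [h3]

end Pool.Agent.MP_343d73

end

section

set_option autoImplicit false

namespace Pool.Agent.MP_343d73

open scoped Classical

namespace H6

variable {τ V σ G : Type} [Group G] [MulAction G τ] [MulAction G V] [MulAction G σ]
  (C : Ctx τ V σ G)

theorem img_nb (t : τ) (i j : Fin 4) (hj : j ≠ i) :
    C.img (C.X.nb t i) (C.X.pm t i j) = C.img t j := by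
  unfold Ctx.img
  rw [C.X.vx_nb t i j hj]

theorem ne_symm_apply {t : τ} {i j : Fin 4} (h : j ≠ C.X.pm t i i) :
    (C.X.pm t i).symm j ≠ i := by
  intro h1
  apply h
  have h2 := congrArg (C.X.pm t i) h1
  rwa [Equiv.apply_symm_apply] at h2

theorem img_nb' (t : τ) (i j : Fin 4) (hj : j ≠ C.X.pm t i i) :
    C.img (C.X.nb t i) j = C.img t ((C.X.pm t i).symm j) := by
  rw [← img_nb C t i _ (ne_symm_apply C hj), Equiv.apply_symm_apply]

theorem crossF_nb (p : σ × σ) (t : τ) (i : Fin 4) :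
    C.crossF p (C.X.nb t i) (C.X.pm t i i) ↔ C.crossF p t i := by
  constructor
  · rintro ⟨j, k, hj, hk, h1, h2⟩
    rw [img_nb' C t i j hj] at h1
    rw [img_nb' C t i k hk] at h2
    exact ⟨_, _, ne_symm_apply C hj, ne_symm_apply C hk, h1, h2⟩
  · rintro ⟨j, k, hj, hk, h1, h2⟩
    refine ⟨C.X.pm t i j, C.X.pm t i k, fun h => hj ((C.X.pm t i).injective h),
      fun h => hk ((C.X.pm t i).injective h), ?_, ?_⟩
    · rw [img_nb C t i j hj]; exact h1
    · rw [img_nb C t i k hk]; exact h2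

theorem FF_nb (p l : σ × σ) (t : τ) (i : Fin 4) :
    C.FF p l (C.X.nb t i) (C.X.pm t i i) ↔ C.FF p l t i := by
  unfold Ctx.FF
  rw [crossF_nb]
  have h : (∀ j, j ≠ C.X.pm t i i → C.flatR l (C.img (C.X.nb t i) j)) ↔
      ∀ j, j ≠ i → C.flatR l (C.img t j) := by
    constructor
    · intro h j hj
      have h1 := h (C.X.pm t i j) (fun h => hj ((C.X.pm t i).injective h))
      rwa [img_nb C t i j hj] at h1
    · intro h j hj
      rw [img_nb' C t i j hj]
      exact h _ (ne_symm_apply C hj)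
  rw [h]

theorem far_smul (h8 : PA8) (g : G) (p : σ × σ) (r : σ) :
    Far C.S (g • p) (g • r) ↔ Far C.S p r := by
  unfold Far
  change C.S.dist (g • p.2) (g • r) < C.S.dist (g • p.1) (g • r) ↔ _
  rw [h8 C.S C.adj_smul, h8 C.S C.adj_smul]

theorem img_smul (g : G) (t : τ) (j : Fin 4) : C.img (g • t) j = g • C.img t j := by
  unfold Ctx.img
  rw [C.deck.vx_smul, C.ph_smul]

theorem adj_smul_iff (g : G) (a b : σ) : C.S.Adj (g • a) (g • b) ↔ C.S.Adj a b := by
  constructor
  · intro h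
    have h1 := C.adj_smul g⁻¹ _ _ h
    rwa [inv_smul_smul, inv_smul_smul] at h1
  · exact C.adj_smul g a b

theorem beh_smul (h8 : PA8) (g : G) (x y r : σ) :
    Beh C.S (g • x) (g • y) (g • r) ↔ Beh C.S x y r := by
  unfold Beh
  rw [h8 C.S C.adj_smul, h8 C.S C.adj_smul, h8 C.S C.adj_smul]

theorem crossF_smul (h8 : PA8) (g : G) (p : σ × σ) (t : τ) (i : Fin 4) :
    C.crossF (g • p) (g • t) i ↔ C.crossF p t i := by
  unfold Ctx.crossF
  simp_rw [img_smul C g, far_smul C h8]

theorem FF_smul (h8 : PA8) (g : G) (p l : σ × σ) (t : τ) (i : Fin 4) :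
    C.FF (g • p) (g • l) (g • t) i ↔ C.FF p l t i := by
  unfold Ctx.FF
  rw [crossF_smul C h8]
  have h1 : C.Lab (g • p) (g • l) ↔ C.Lab p l := by
    unfold Ctx.Lab
    change C.S.Adj (g • p.1) (g • p.2) ∧ C.S.dist (g • l.1) (g • p.1) = 2 ∧
      C.S.dist (g • p.2) (g • l.2) = 2 ∧ C.S.dist (g • l.1) (g • l.2) = 5 ↔ _
    rw [adj_smul_iff, h8 C.S C.adj_smul, h8 C.S C.adj_smul, h8 C.S C.adj_smul]
  have h2 : ∀ j, C.flatR (g • l) (C.img (g • t) j) ↔ C.flatR l (C.img t j) := by
    intro j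
    rw [img_smul]
    unfold Ctx.flatR
    change Beh C.S (g • l.1) (g • l.2) _ ∨ Beh C.S (g • l.2) (g • l.1) _ ↔ _
    rw [beh_smul C h8, beh_smul C h8]
  rw [h1]
  simp_rw [h2]

theorem Wd_smul (h8 : PA8) (g : G) (p : σ × σ) (b b' : τ → Fin 4 → Fin 4 → ℝ) (t : τ) (i : Fin 4)
    (hb : ∀ t j k, b' (g • t) j k = b t j k) :
    C.X.Wd (C.cE (g • p)) b' (g • t) i = C.X.Wd (C.cE p) b t i := by
  have hc : ∀ j, C.cE (g • p) (C.X.vx (g • t) j) = C.cE p (C.X.vx t j) := by
    intro j
    unfold Ctx.cE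
    rw [C.deck.vx_smul, C.ph_smul]
    simp only [far_smul C h8]
  unfold Tri.Wd Tri.cbar d1
  simp only [hc, hb]

end H6

open H6 in
theorem prH6 (c2 : PC2) (c4 : PC4) (_f1 : PHF1) (h8 : PA8) : PH6 := by
  intro τ V σ G _ _ _ _ C η β M ηS lam γ hη hβ hS
  constructor
  · intro t i
    by_cases hb : C.X.Bd t i
    · -- boundary face
      have h0 : C.RR M β lam γ t i = 0 := by
        unfold Ctx.RR
        refine finsum_eq_zero_of_forall_eq_zero fun p => ?_
        by_cases hc : p.1 ∈ M ∧ C.S.Adj p.1 p.2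
        · rw [if_pos hc]
          have hx : ∃ x : ℝ, ∀ j, j ≠ i → C.cE p (C.X.vx t j) = x := by
            refine ⟨C.cE p (C.X.vx t (fa i)), fun j hj => ?_⟩
            unfold Ctx.cE
            rw [C.ph_bd t i j (fa i) hb hj (by fin_cases i <;> decide)]
          obtain ⟨x, hx⟩ := hx
          rw [c4 C.X (γ p) (hS.c1 p hc.1 hc.2) (C.cE p) x t i hx]
          have hFF : ∀ l, ¬ C.FF p l t i := by
            rintro l ⟨-, ⟨j, k, hj, hk, h1, h2⟩, -⟩
            apply h2
            have h3 : C.img t k = C.img t j := C.ph_bd t i k j hb hk hj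
            rw [h3]
            exact h1
          simp only [if_neg (hFF _), finsum_zero, mul_zero, add_zero]
        · rw [if_neg hc]
      obtain ⟨hb1, hb2⟩ := hb
      rw [hb1, hb2, h0, neg_zero]
    · unfold Ctx.RR
      rw [← finsum_neg_distrib]
      refine finsum_congr fun p => ?_
      by_cases hc : p.1 ∈ M ∧ C.S.Adj p.1 p.2
      · rw [if_pos hc, if_pos hc, c2 C.X (γ p) (hS.c1 p hc.1 hc.2) (C.cE p) t i hb]
        have h1 : (∑ᶠ l : σ × σ, (if C.FF p l (C.X.nb t i) (C.X.pm t i i) then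
            C.X.Wd (C.cE p) (β l) (C.X.nb t i) (C.X.pm t i i) else 0)) =
            - ∑ᶠ l : σ × σ, (if C.FF p l t i then C.X.Wd (C.cE p) (β l) t i else 0) := by
          rw [← finsum_neg_distrib]
          refine finsum_congr fun l => ?_
          by_cases hl : C.FF p l t i
          · rw [if_pos hl, if_pos ((FF_nb C p l t i).mpr hl),
              c2 C.X (β l) (hβ.c1 p l hl.1) (C.cE p) t i hb]
          · rw [if_neg hl, if_neg (fun h => hl ((FF_nb C p l t i).mp h)), neg_zero]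
        rw [h1]
        ring
      · rw [if_neg hc, if_neg hc, neg_zero]
  · intro g t i
    unfold Ctx.RR
    have e := (MulAction.toPerm g : Equiv.Perm (σ × σ))
    rw [← finsum_comp_equiv (MulAction.toPerm g : Equiv.Perm (σ × σ))]
    refine finsum_congr fun p => ?_
    have hM : (g • p).1 ∈ M ↔ p.1 ∈ M := by
      constructor
      · intro h
        have h1 := hS.inv g⁻¹ _ h
        change g⁻¹ • (g • p.1) ∈ M at h1
        rwa [inv_smul_smul] at h1
      · exact fun h => hS.inv g _ h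
    have hA : C.S.Adj (g • p).1 (g • p).2 ↔ C.S.Adj p.1 p.2 := adj_smul_iff C g p.1 p.2
    simp only [MulAction.toPerm_apply, hM, hA]
    congr 1
    rw [Wd_smul C h8 g p (γ p) (γ (g • p)) t i (fun t j k => hS.gequi g p t j k), hS.lam_inv]
    congr 2
    rw [← finsum_comp_equiv (MulAction.toPerm g : Equiv.Perm (σ × σ))]
    refine finsum_congr fun l => ?_
    simp only [MulAction.toPerm_apply, FF_smul C h8]
    rw [Wd_smul C h8 g p (β l) (β (g • l)) t i (fun t j k => hβ.equi g l t j k)]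

end Pool.Agent.MP_343d73

end

section

set_option autoImplicit false

/-!
HF1, HF2: finitely many edges and geodesics cross a tetrahedron.
-/

namespace Pool.Agent.MP_343d73

/-- HF1 (uses A1 in addition) -/
theorem prHF1 (h1 : PA1) (h2 : PA2) (h3 : PA3) : PHF1 := by
  intro τ V σ G _ _ _ _ C t
  have cm : ∀ x y, C.S.dist x y = C.S.dist y x := fun x y => SimpleGraph.dist_comm
  refine Set.Finite.subset (Set.finite_iUnion fun j : Fin 4 => Set.finite_iUnion fun k : Fin 4 =>
    (h3 C.S C.tree (C.img t j) (C.img t k)).prod (h3 C.S C.tree (C.img t j) (C.img t k))) ?_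
  rintro p ⟨hadj, j, k, hj, hk⟩
  simp only [Set.mem_iUnion, Set.mem_prod, Set.mem_ofPred_eq]
  refine ⟨j, k, ?_⟩
  unfold Far at hj hk
  have e1 := h1 C.S C.tree p.1 p.2 (C.img t k) hadj
  have e2 := h1 C.S C.tree p.1 p.2 (C.img t j) hadj
  have e3 := h2 C.S C.tree p.1 p.2 (C.img t j) (C.img t k) hadj hj (by omega)
  have e4 := cm (C.img t j) p.1
  have e5 := cm (C.img t j) p.2
  exact ⟨by omega, by omega⟩

theorem prHF2 (h3 : PA3) (h7 : PA7) : PHF2 := by
  intro τ V σ G _ _ _ _ C t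
  have cm : ∀ x y, C.S.dist x y = C.S.dist y x := fun x y => SimpleGraph.dist_comm
  refine Set.Finite.subset (Set.finite_iUnion fun j : Fin 4 => Set.finite_iUnion fun k : Fin 4 =>
    (h3 C.S C.tree (C.img t j) (C.img t k)).prod (h3 C.S C.tree (C.img t j) (C.img t k))) ?_
  rintro P ⟨hne, j, k, hj, hk⟩
  simp only [Set.mem_iUnion, Set.mem_prod, Set.mem_ofPred_eq]
  refine ⟨j, k, ?_⟩
  have e3 := h7 C.S C.tree P.1 P.2 _ _ hne hj hk
  unfold Beh at hj hk
  have e4 := cm (C.img t k) P.1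
  have e5 := cm (C.img t k) P.2
  have e6 := cm P.2 P.1
  exact ⟨by omega, by omega⟩

end Pool.Agent.MP_343d73

end

section

set_option autoImplicit false

/-!
HF3: a long geodesic is crossed by finitely many tetrahedra.
-/

namespace Pool.Agent.MP_343d73

theorem prHF3 (h8 : PA8) (f2 : PHF2) : PHF3 := by
  intro τ V σ G _ _ _ _ C hac P hP
  have hPne : ∀ g : G, (g • P).1 ≠ (g • P).2 := by
    intro g h
    rw [Prod.smul_fst, Prod.smul_snd] at h
    have h2 : P.1 = P.2 := by
      have := congrArg (fun x => g⁻¹ • x) h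
      simpa using this
    rw [h2, SimpleGraph.dist_self] at hP
    omega
  have := C.deck.cocompact
  -- for each representative finitely many translates
  have hq : ∀ q : Quotient (MulAction.orbitRel G τ), {g : G | ∃ j k,
      Beh C.S P.1 P.2 (C.img (g • q.out) j) ∧ Beh C.S P.2 P.1 (C.img (g • q.out) k)}.Finite := by
    intro q
    refine Set.Finite.of_finite_image (f := fun g : G => g⁻¹ • P) ?_ ?_
    · refine (f2 C q.out).subset ?_
      rintro _ ⟨g, ⟨j, k, hj, hk⟩, rfl⟩
      refine ⟨hPne _, j, k, ?_, ?_⟩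
      · have himg : C.img q.out j = g⁻¹ • C.img (g • q.out) j := by
          unfold Ctx.img
          rw [C.deck.vx_smul, C.ph_smul, inv_smul_smul]
        rw [himg]
        unfold Beh at hj ⊢
        simp only [Prod.smul_fst, Prod.smul_snd]
        rw [h8 C.S C.adj_smul, h8 C.S C.adj_smul, h8 C.S C.adj_smul]
        exact hj
      · have himg : C.img q.out k = g⁻¹ • C.img (g • q.out) k := by
          unfold Ctx.img
          rw [C.deck.vx_smul, C.ph_smul, inv_smul_smul]
        rw [himg]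
        unfold Beh at hk ⊢
        simp only [Prod.smul_fst, Prod.smul_snd]
        rw [h8 C.S C.adj_smul, h8 C.S C.adj_smul, h8 C.S C.adj_smul]
        exact hk
    · intro g _ g' _ hgg
      simp only at hgg
      have h1 : (g * g'⁻¹) • P.1 = P.1 := by
        have := congrArg (fun x => g • x.1) hgg
        simp only [Prod.smul_fst] at this
        rw [smul_inv_smul, ← mul_smul] at this
        exact this.symm
      have h2 : (g * g'⁻¹) • P.2 = P.2 := by
        have := congrArg (fun x => g • x.2) hgg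
        simp only [Prod.smul_snd] at this
        rw [smul_inv_smul, ← mul_smul] at this
        exact this.symm
      exact mul_inv_eq_one.1 (hac _ _ hP _ h1 h2)
  refine Set.Finite.subset (Set.finite_iUnion fun q : Quotient (MulAction.orbitRel G τ) =>
    (hq q).image fun g => g • q.out) ?_
  rintro t ⟨j, k, hj, hk⟩
  obtain ⟨g, hg⟩ : (cl G t).out ∈ MulAction.orbit G t :=
    MulAction.orbitRel_apply.1 (Quotient.exact (Quotient.out_eq _))
  have ht : g⁻¹ • (cl G t).out = t := by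
    rw [← hg]
    simp
  rw [Set.mem_iUnion]
  refine ⟨cl G t, g⁻¹, ?_, ht⟩
  refine ⟨j, k, ?_, ?_⟩
  · rw [ht]
    exact hj
  · rw [ht]
    exact hk

end Pool.Agent.MP_343d73

end
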