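import Pool.Agent.Work.MP_343d73_gt.Defs
import Pool.Agent.Work.MP_343d73_gt.Core2

/-! Bundle of small proof modules (one section per former module). -/

section

set_option autoImplicit false

/-!
Facts about the points `C.pt P n` of a geodesic and about flat images; used in H7, H8, H9.
-/

namespace Pool.Agent.MP_343d73

open scoped Classical
noncomputable section

namespace HPt

variable {τ V σ G : Type} [Group G] [MulAction G τ] [MulAction G V] [MulAction G σ]
  (C : Ctx τ V σ G)

theorem tri (a b c : σ) : C.S.dist a c ≤ C.S.dist a b + C.S.dist b c :=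
  C.tree.connected.dist_triangle

theorem dc (a b : σ) : C.S.dist a b = C.S.dist b a := SimpleGraph.dist_comm

theorem pt_spec (h4 : PA4) (P : σ × σ) (n : ℕ) (hn : n ≤ C.S.dist P.1 P.2) :
    C.S.dist P.1 (C.pt P n) = n ∧
      C.S.dist P.1 (C.pt P n) + C.S.dist (C.pt P n) P.2 = C.S.dist P.1 P.2 := by
  have h : ∃ r, C.S.dist P.1 r = n ∧ C.S.dist P.1 r + C.S.dist r P.2 = C.S.dist P.1 P.2 :=
    (h4 C.S C.tree P.1 P.2 n hn).exists
  unfold Ctx.pt
  rw [dif_pos h]
  exact h.choose_spec

theorem pt_eq (h4 : PA4) (P : σ × σ) (n : ℕ) (r : σ) (h1 : C.S.dist P.1 r = n)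
    (h2 : C.S.dist P.1 r + C.S.dist r P.2 = C.S.dist P.1 P.2) : C.pt P n = r := by
  have hn : n ≤ C.S.dist P.1 P.2 := by omega
  exact (h4 C.S C.tree P.1 P.2 n hn).unique (pt_spec C h4 P n hn) ⟨h1, h2⟩

theorem pt_big (P : σ × σ) (n : ℕ) (hn : C.S.dist P.1 P.2 < n) : C.pt P n = P.1 := by
  unfold Ctx.pt
  rw [dif_neg]
  rintro ⟨r, h1, h2⟩
  omega

/-- distance between two points of the geodesic -/
theorem pt_dist (h4 : PA4) (P : σ × σ) (m n : ℕ) (hmn : m ≤ n) (hn : n ≤ C.S.dist P.1 P.2) :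
    C.S.dist (C.pt P m) (C.pt P n) = n - m := by
  obtain ⟨hn1, hn2⟩ := pt_spec C h4 P n hn
  obtain ⟨r, ⟨hr1, hr2⟩, -⟩ := h4 C.S C.tree P.1 (C.pt P n) m (by omega)
  have h3 := tri C r (C.pt P n) P.2
  have h4' := tri C P.1 r P.2
  have hr : C.pt P m = r := pt_eq C h4 P m r hr1 (by omega)
  rw [hr]
  omega

theorem pt_dist' (h4 : PA4) (P : σ × σ) (m n : ℕ) (hmn : m ≤ n) (hn : n ≤ C.S.dist P.1 P.2) :
    C.S.dist (C.pt P n) (C.pt P m) = n - m := by
  rw [dc]
  exact pt_dist C h4 P m n hmn hn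

theorem pt_adj (h4 : PA4) (P : σ × σ) (n : ℕ) (hn : n + 1 ≤ C.S.dist P.1 P.2) :
    C.S.Adj (C.pt P n) (C.pt P (n + 1)) := by
  rw [← SimpleGraph.dist_eq_one_iff_adj, pt_dist C h4 P n (n + 1) (by omega) hn]
  omega

theorem pt_zero (h4 : PA4) (P : σ × σ) : C.pt P 0 = P.1 :=
  pt_eq C h4 P 0 P.1 (by simp) (by simp)

theorem pt_end (h4 : PA4) (P : σ × σ) (n : ℕ) (hn : C.S.dist P.1 P.2 = n) : C.pt P n = P.2 :=
  pt_eq C h4 P n P.2 hn (by simp)

theorem pt_swap (h4 : PA4) (P : σ × σ) (m n : ℕ) (hmn : m + n = C.S.dist P.1 P.2) :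
    C.pt P.swap n = C.pt P m := by
  obtain ⟨h1, h2⟩ := pt_spec C h4 P m (by omega)
  have e1 := dc C P.1 P.2
  have e2 := dc C P.1 (C.pt P m)
  have e3 := dc C (C.pt P m) P.2
  apply pt_eq C h4 P.swap n (C.pt P m)
  · show C.S.dist P.2 (C.pt P m) = n
    omega
  · show C.S.dist P.2 (C.pt P m) + C.S.dist (C.pt P m) P.1 = C.S.dist P.2 P.1
    omega

theorem dist_smul (h8 : PA8) (g : G) (a b : σ) : C.S.dist (g • a) (g • b) = C.S.dist a b :=
  h8 C.S C.adj_smul g a b

theorem pt_smul (h4 : PA4) (h8 : PA8) (g : G) (P : σ × σ) (n : ℕ) :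
    C.pt (g • P) n = g • C.pt P n := by
  by_cases hn : n ≤ C.S.dist P.1 P.2
  · obtain ⟨h1, h2⟩ := pt_spec C h4 P n hn
    apply pt_eq C h4 (g • P) n (g • C.pt P n)
    · show C.S.dist (g • P.1) (g • C.pt P n) = n
      rw [dist_smul C h8, h1]
    · show C.S.dist (g • P.1) (g • C.pt P n) + C.S.dist (g • C.pt P n) (g • P.2) =
        C.S.dist (g • P.1) (g • P.2)
      rw [dist_smul C h8, dist_smul C h8, dist_smul C h8, h2]
  · rw [pt_big C P n (by omega), pt_big C (g • P) n]
    · rfl
    · show C.S.dist (g • P.1) (g • P.2) < n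
      rw [dist_smul C h8]
      omega

/-- distances from a point behind `P.1` -/
theorem beh1 (h4 : PA4) (P : σ × σ) (n : ℕ) (hn : n ≤ C.S.dist P.1 P.2) (r : σ)
    (h : Beh C.S P.1 P.2 r) : C.S.dist r (C.pt P n) = C.S.dist r P.1 + n := by
  obtain ⟨h1, h2⟩ := pt_spec C h4 P n hn
  have h3 := tri C r (C.pt P n) P.2
  have h4' := tri C r P.1 (C.pt P n)
  unfold Beh at h
  omega

/-- distances from a point behind `P.2` -/
theorem beh2 (h4 : PA4) (P : σ × σ) (n : ℕ) (hn : n ≤ C.S.dist P.1 P.2) (r : σ)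
    (h : Beh C.S P.2 P.1 r) : C.S.dist r (C.pt P n) + n = C.S.dist r P.2 + C.S.dist P.1 P.2 := by
  obtain ⟨h1, h2⟩ := pt_spec C h4 P n hn
  have h3 := tri C r (C.pt P n) P.1
  have h4' := tri C r P.2 (C.pt P n)
  have e1 := dc C P.1 P.2
  have e2 := dc C P.1 (C.pt P n)
  have e3 := dc C (C.pt P n) P.2
  unfold Beh at h
  omega

theorem flatR_swap (P : σ × σ) (r : σ) : C.flatR P.swap r ↔ C.flatR P r := or_comm

theorem beh_smul (h8 : PA8) (g : G) (x y r : σ) :
    Beh C.S (g • x) (g • y) (g • r) ↔ Beh C.S x y r := by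
  unfold Beh
  rw [dist_smul C h8, dist_smul C h8, dist_smul C h8]

theorem img_smul (g : G) (t : τ) (j : Fin 4) : C.img (g • t) j = g • C.img t j := by
  unfold Ctx.img
  rw [C.deck.vx_smul, C.ph_smul]

theorem flatR_smul (h8 : PA8) (g : G) (P : σ × σ) (r : σ) :
    C.flatR (g • P) (g • r) ↔ C.flatR P r := by
  unfold Ctx.flatR
  exact or_congr (beh_smul C h8 g _ _ _) (beh_smul C h8 g _ _ _)

theorem far_smul (h8 : PA8) (g : G) (p : σ × σ) (r : σ) :
    Far C.S (g • p) (g • r) ↔ Far C.S p r := by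
  unfold Far
  show C.S.dist (g • p.2) (g • r) < C.S.dist (g • p.1) (g • r) ↔ _
  rw [dist_smul C h8, dist_smul C h8]

theorem crossF_smul (h8 : PA8) (g : G) (p : σ × σ) (t : τ) (i : Fin 4) :
    C.crossF (g • p) (g • t) i ↔ C.crossF p t i := by
  unfold Ctx.crossF
  simp only [img_smul, far_smul C h8]

theorem cE_smul (h8 : PA8) (g : G) (p : σ × σ) (v : V) : C.cE (g • p) (g • v) = C.cE p v := by
  unfold Ctx.cE
  rw [C.ph_smul]
  simp only [far_smul C h8]

theorem F6_smul (h4 : PA4) (h8 : PA8) (g : G) (P : σ × σ) (t : τ) (i : Fin 4) :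
    C.F6 (g • P) (g • t) i ↔ C.F6 P t i := by
  unfold Ctx.F6
  have h1 : C.S.dist (g • P).1 (g • P).2 = C.S.dist P.1 P.2 := dist_smul C h8 g _ _
  have h2 : (C.pt (g • P) 3, C.pt (g • P) 4) = g • (C.pt P 3, C.pt P 4) := by
    rw [pt_smul C h4 h8, pt_smul C h4 h8]
    rfl
  rw [h1, h2, crossF_smul C h8]
  simp only [img_smul, flatR_smul C h8]

/-- the vertices of a face -/
theorem fa_ne (i : Fin 4) : fa i ≠ i := by fin_cases i <;> decide
theorem fb_ne (i : Fin 4) : fb i ≠ i := by fin_cases i <;> decide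
theorem fc_ne (i : Fin 4) : fc i ≠ i := by fin_cases i <;> decide

theorem face_cases (i j : Fin 4) (h : j ≠ i) : j = fa i ∨ j = fb i ∨ j = fc i := by
  revert i j
  decide

/-- the label of the middle edge `(pt P 3, pt P 4)` of a frontier face crossed by `P` -/
theorem lab_right (h4 : PA4) (P : σ × σ) (hP : C.S.dist P.1 P.2 = 6) (l : σ × σ) (r r' : σ)
    (hl : C.Lab (C.pt P 3, C.pt P 4) l) (hr : Beh C.S P.1 P.2 r) (hr' : Beh C.S P.2 P.1 r')
    (hfr : C.flatR l r) (hfr' : C.flatR l r') : l = (C.pt P 1, P.2) := by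
  obtain ⟨-, hl1, hl2, hl3⟩ := hl
  simp only at hl1 hl2
  have a1 := beh1 C h4 P 1 (by omega) r hr
  have a3 := beh1 C h4 P 3 (by omega) r hr
  have a4 := beh1 C h4 P 4 (by omega) r hr
  have b3 := beh2 C h4 P 3 (by omega) r' hr'
  have b4 := beh2 C h4 P 4 (by omega) r' hr'
  have d13 := pt_dist C h4 P 1 3 (by omega) (by omega)
  have d34 := pt_dist C h4 P 3 4 (by omega) (by omega)
  have d43 := pt_dist' C h4 P 3 4 (by omega) (by omega)
  obtain ⟨s4, s4'⟩ := pt_spec C h4 P 4 (by omega)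
  have e1 := dc C l.1 (C.pt P 3)
  have e2 := dc C l.2 (C.pt P 4)
  have e3 := dc C l.1 l.2
  -- r is behind l.1
  have hr1 : C.S.dist r l.2 = C.S.dist r l.1 + C.S.dist l.1 l.2 := by
    rcases hfr with h | h
    · exact h
    · exfalso
      unfold Beh at h
      have t1 := tri C r l.2 (C.pt P 4)
      have t2 := tri C r (C.pt P 3) l.1
      omega
  have hr2 : C.S.dist r' l.1 = C.S.dist r' l.2 + C.S.dist l.2 l.1 := by
    rcases hfr' with h | h
    · exfalso
      unfold Beh at h
      have t1 := tri C r' l.1 (C.pt P 3)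
      have t2 := tri C r' (C.pt P 4) l.2
      omega
    · exact h
  -- l.1 is at distance 2 from pt P 3 on the geodesic to r
  have t1 := tri C r (C.pt P 4) l.2
  have t2 := tri C r l.1 (C.pt P 3)
  have t3 := tri C r' (C.pt P 3) l.1
  have t4 := tri C r' l.2 (C.pt P 4)
  have t5 := tri C r' (C.pt P 4) P.2
  have t6 := tri C r' P.2 (C.pt P 4)
  have f1 : l.1 = C.pt P 1 := by
    apply (h4 C.S C.tree r (C.pt P 3) (C.S.dist r l.1) (by omega)).unique
    · exact ⟨rfl, by omega⟩
    · exact ⟨by omega, by omega⟩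
  have e4 := dc C P.2 (C.pt P 4)
  have f2 : l.2 = P.2 := by
    apply (h4 C.S C.tree r' (C.pt P 4) (C.S.dist r' l.2) (by omega)).unique
    · exact ⟨rfl, by omega⟩
    · exact ⟨by omega, by omega⟩
  exact Prod.ext f1 f2

/-- behind `P.1` means not far, behind `P.2` means far, for the middle edges -/
theorem far2 (h4 : PA4) (P : σ × σ) (n : ℕ) (hn : n + 1 ≤ C.S.dist P.1 P.2) (r : σ)
    (hr : Beh C.S P.2 P.1 r) : Far C.S (C.pt P n, C.pt P (n + 1)) r := by
  have b3 := beh2 C h4 P n (by omega) r hr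
  have b4 := beh2 C h4 P (n + 1) (by omega) r hr
  unfold Far
  simp only
  rw [dc C (C.pt P n), dc C (C.pt P (n + 1))]
  omega

theorem far1 (h4 : PA4) (P : σ × σ) (n : ℕ) (hn : n + 1 ≤ C.S.dist P.1 P.2) (r : σ)
    (hr : Beh C.S P.1 P.2 r) : ¬ Far C.S (C.pt P n, C.pt P (n + 1)) r := by
  have b3 := beh1 C h4 P n (by omega) r hr
  have b4 := beh1 C h4 P (n + 1) (by omega) r hr
  unfold Far
  simp only
  rw [dc C (C.pt P n), dc C (C.pt P (n + 1))]
  omega

end HPt

end

end Pool.Agent.MP_343d73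

end

section

set_option autoImplicit false

namespace Pool.Agent.MP_343d73

namespace I1

/-- two points on a geodesic -/
theorem dist_pts (h4 : PA4) {σ : Type} (S : SimpleGraph σ) (hS : S.IsTree) (x y : σ) (m n : ℕ)
    (hmn : m ≤ n) (pm pn : σ) (e1 : S.dist x pm = m)
    (e2 : S.dist x pm + S.dist pm y = S.dist x y) (e3 : S.dist x pn = n)
    (e4 : S.dist x pn + S.dist pn y = S.dist x y) : S.dist pm pn = n - m := by
  obtain ⟨r, ⟨hr1, hr2⟩, -⟩ := h4 S hS x pn m (by omega)
  have t1 := hS.1.dist_triangle (u := r) (v := pn) (w := y)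
  have t2 := hS.1.dist_triangle (u := x) (v := r) (w := y)
  have hr3 : S.dist x r + S.dist r y = S.dist x y := by omega
  have hr4 : r = pm := by
    obtain ⟨r0, _, hr0⟩ := h4 S hS x y m (by omega)
    rw [hr0 r ⟨hr1, hr3⟩, hr0 pm ⟨e1, e2⟩]
  rw [← hr4]
  omega

/-- the position of a core vertex -/
def Pos {σ : Type} (S : SimpleGraph σ) (im : Fin 4 → σ) (x : Fin 4 × Fin 4 × Fin 4 × Fin 5)
    (s : σ) : Prop :=
  S.dist (im x.1) s + S.dist s (im x.2.1) = S.dist (im x.1) (im x.2.1) ∧
    2 * (S.dist (im x.1) s : ℤ) = S.dist (im x.1) (im x.2.1) + S.dist (im x.1) (im x.2.2.1)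
      - S.dist (im x.2.1) (im x.2.2.1) + 2 * ((x.2.2.2 : ℕ) - 2)

end I1

open I1 in
theorem prI1 (h1 : PA1) (h2 : PA2) (h4 : PA4) (h5 : PA5) (_h7 : PA7) : PI1 := by
  classical
  intro τ V σ G _ _ _ _ C t
  have hS := C.tree
  have hpos : ∀ s, C.Core s t → ∃ x, Pos C.S (C.img t) x s := by
    intro s hs
    rcases hs with ⟨j, hj⟩ | ⟨b, hadj, ⟨j, i, hj, hi⟩, hnot⟩
    · refine ⟨(j, j, j, 2), ?_⟩
      unfold Pos
      simp only [hj, SimpleGraph.dist_self]
      simp
    · by_contra hcon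
      push Not at hcon
      apply hnot
      have hj' : C.S.dist b (C.img t j) < C.S.dist s (C.img t j) := hj
      have hi' : C.S.dist s (C.img t i) < C.S.dist b (C.img t i) := by
        have hi2 : ¬ C.S.dist b (C.img t i) < C.S.dist s (C.img t i) := hi
        rcases h1 C.S hS s b (C.img t i) hadj with h | h <;> omega
      have e1 := h2 C.S hS s b (C.img t j) (C.img t i) hadj hj' hi'
      have e2 : C.S.dist (C.img t j) (C.img t i) = C.S.dist (C.img t i) (C.img t j) :=
        SimpleGraph.dist_comm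
      have e3 : C.S.dist (C.img t j) b = C.S.dist b (C.img t j) := SimpleGraph.dist_comm
      have e4 : C.S.dist s (C.img t i) = C.S.dist (C.img t i) s := SimpleGraph.dist_comm
      have e5 : C.S.dist s (C.img t j) = C.S.dist b (C.img t j) + 1 := by
        rcases h1 C.S hS s b (C.img t j) hadj with h | h <;> omega
      have e6 : C.S.dist b (C.img t i) = C.S.dist s (C.img t i) + 1 := by
        rcases h1 C.S hS s b (C.img t i) hadj with h | h <;> omega
      have e7 : C.S.dist b (C.img t i) = C.S.dist (C.img t i) b := SimpleGraph.dist_comm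
      set u := C.img t i with hu
      set v := C.img t j with hv
      set D := C.S.dist u s with hD
      -- the projections
      have hproj := fun k => h5 C.S hS u v (C.img t k)
      choose c hc1 hc2 using hproj
      have hm : ∀ k, 2 * (C.S.dist u (c k) : ℤ) = C.S.dist u v + C.S.dist u (C.img t k)
          - C.S.dist v (C.img t k) := by
        intro k
        have q1 := hc2 k u (by simp)
        have q2 := hc2 k v (by simp)
        have q3 := hc1 k
        have q4 : C.S.dist (c k) u = C.S.dist u (c k) := SimpleGraph.dist_comm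
        have q5 : C.S.dist (C.img t k) u = C.S.dist u (C.img t k) := SimpleGraph.dist_comm
        have q6 : C.S.dist (C.img t k) v = C.S.dist v (C.img t k) := SimpleGraph.dist_comm
        omega
      have hm2 : ∀ k, C.S.dist u (c k) + 2 ≤ D ∨ D + 3 ≤ C.S.dist u (c k) := by
        intro k
        by_contra hk
        push Not at hk
        obtain ⟨o, ho⟩ : ∃ o : Fin 5, (o : ℕ) + C.S.dist u (c k) = D + 2 :=
          ⟨⟨D + 2 - C.S.dist u (c k), by omega⟩, by simp only; omega⟩
        refine hcon (i, j, k, o) ?_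
        change C.S.dist u s + C.S.dist s v = C.S.dist u v ∧
          2 * (C.S.dist u s : ℤ) = C.S.dist u v + C.S.dist u (C.img t k)
            - C.S.dist v (C.img t k) + 2 * (((o : ℕ) : ℤ) - 2)
        refine ⟨by omega, ?_⟩
        have := hm k
        omega
      have hmi : C.S.dist u (c i) = 0 := by
        have q1 := hc2 i u (by simp)
        rw [← hu, SimpleGraph.dist_self] at q1
        omega
      have hmj : C.S.dist u (c j) = C.S.dist u v := by
        have q1 := hc2 j v (by simp)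
        have q2 := hc1 j
        rw [← hv, SimpleGraph.dist_self] at q1
        omega
      have hD2 : 2 ≤ D := by
        rcases hm2 i with h | h <;> omega
      have hL : D + 3 ≤ C.S.dist u v := by
        rcases hm2 j with h | h <;> omega
      obtain ⟨x, ⟨hx1, hx2⟩, -⟩ := h4 C.S hS u v (D - 2) (by omega)
      obtain ⟨y, ⟨hy1, hy2⟩, -⟩ := h4 C.S hS u v (D + 3) (by omega)
      have dxy : C.S.dist x y = 5 := by
        rw [dist_pts h4 C.S hS u v (D - 2) (D + 3) (by omega) x y hx1 hx2 hy1 hy2]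
        omega
      have dxs : C.S.dist x s = 2 := by
        rw [dist_pts h4 C.S hS u v (D - 2) D (by omega) x s hx1 hx2 rfl (by omega)]
        omega
      have dby : C.S.dist b y = 2 := by
        rw [dist_pts h4 C.S hS u v (D + 1) (D + 3) (by omega) b y (by omega) (by omega) hy1 hy2]
        omega
      refine ⟨(x, y), ⟨hadj, dxs, dby, dxy⟩, ⟨j, i, hj, hi⟩, ?_⟩
      intro k
      have q1 := hc2 k x hx2
      have q2 := hc2 k y hy2
      rcases hm2 k with h | h
      · left
        unfold Beh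
        simp only
        have q3 := dist_pts h4 C.S hS u v (C.S.dist u (c k)) (D - 2) (by omega) (c k) x rfl (hc1 k)
          hx1 hx2
        have q4 := dist_pts h4 C.S hS u v (C.S.dist u (c k)) (D + 3) (by omega) (c k) y rfl (hc1 k)
          hy1 hy2
        omega
      · right
        unfold Beh
        simp only
        have q3 := dist_pts h4 C.S hS u v (D - 2) (C.S.dist u (c k)) (by omega) x (c k) hx1 hx2
          rfl (hc1 k)
        have q4 := dist_pts h4 C.S hS u v (D + 3) (C.S.dist u (c k)) (by omega) y (c k) hy1 hy2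
          rfl (hc1 k)
        have q5 : C.S.dist y x = C.S.dist x y := SimpleGraph.dist_comm
        have q6 : C.S.dist (c k) x = C.S.dist x (c k) := SimpleGraph.dist_comm
        have q7 : C.S.dist (c k) y = C.S.dist y (c k) := SimpleGraph.dist_comm
        omega
  have huniq : ∀ x s s', Pos C.S (C.img t) x s → Pos C.S (C.img t) x s' → s = s' := by
    rintro ⟨i, j, k, o⟩ s s' ⟨p1, p2⟩ ⟨q1, q2⟩
    simp only at p1 p2 q1 q2
    have e1 : C.S.dist (C.img t i) s = C.S.dist (C.img t i) s' := by omega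
    obtain ⟨r, _, hr⟩ := h4 C.S hS (C.img t i) (C.img t j) (C.S.dist (C.img t i) s) (by omega)
    rw [hr s ⟨rfl, p1⟩, hr s' ⟨e1.symm, q1⟩]
  let f : Fin 4 × Fin 4 × Fin 4 × Fin 5 → σ := fun x =>
    if h : ∃ s, Pos C.S (C.img t) x s then h.choose else C.img t 0
  have hsub : {s | C.Core s t} ⊆ Set.range f := by
    intro s hs
    obtain ⟨x, hx⟩ := hpos s hs
    refine ⟨x, ?_⟩
    have hex : ∃ s, Pos C.S (C.img t) x s := ⟨s, hx⟩
    simp only [f, dif_pos hex]
    exact huniq x _ _ hex.choose_spec hx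
  refine ⟨(Set.finite_range f).subset hsub, ?_⟩
  refine (Set.ncard_le_ncard hsub (Set.finite_range f)).trans ?_
  rw [← Set.image_univ]
  refine (Set.ncard_image_le (Set.toFinite _)).trans ?_
  rw [Set.ncard_univ]
  simp

end Pool.Agent.MP_343d73

end

section

set_option autoImplicit false

namespace Pool.Agent.MP_343d73

namespace J1

/-- the tree with parent function `p` -/
def tr {n : ℕ} (p : Fin n → Fin n) : SimpleGraph (Fin n) :=
  SimpleGraph.fromRel fun i j => 0 < i.val ∧ p i = j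

theorem adj_parent {n : ℕ} (p : Fin n → Fin n) (hp : ∀ i : Fin n, 0 < i.val → p i < i) (i : Fin n)
    (hi : 0 < i.val) : (tr p).Adj i (p i) := by
  unfold tr
  rw [SimpleGraph.fromRel_adj]
  exact ⟨(hp i hi).ne', Or.inl ⟨hi, rfl⟩⟩

theorem reach_zero {n : ℕ} (p : Fin n → Fin n) (hp : ∀ i : Fin n, 0 < i.val → p i < i)
    (h0 : 0 < n) : ∀ i : Fin n, (tr p).Reachable i ⟨0, h0⟩ := by
  intro i
  induction i using WellFoundedLT.induction with
  | ind i ih =>
    by_cases hi : 0 < i.val
    · exact (adj_parent p hp i hi).reachable.trans (ih (p i) (hp i hi))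
    · have : i = ⟨0, h0⟩ := Fin.ext (by simp; omega)
      rw [this]

theorem isTree_tr {n : ℕ} (p : Fin n → Fin n) (hp : ∀ i : Fin n, 0 < i.val → p i < i)
    (h0 : 0 < n) : (tr p).IsTree := by
  classical
  have hc : (tr p).Connected := by
    have : Nonempty (Fin n) := ⟨⟨0, h0⟩⟩
    refine SimpleGraph.Connected.mk fun i j => ?_
    exact (reach_zero p hp h0 i).trans (reach_zero p hp h0 j).symm
  rw [SimpleGraph.isTree_iff_connected_and_card]
  refine ⟨hc, le_antisymm ?_ ?_⟩
  · have hsub : (tr p).edgeSet ⊆ (fun i : Fin n => s(i, p i)) '' {i | 0 < i.val} := by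
      intro e he
      induction e with
      | _ i j =>
        rw [SimpleGraph.mem_edgeSet] at he
        unfold tr at he
        rw [SimpleGraph.fromRel_adj] at he
        rcases he.2 with ⟨h1, h2⟩ | ⟨h1, h2⟩
        · exact ⟨i, h1, by simp [h2]⟩
        · exact ⟨j, h1, by simp [h2, Sym2.eq_swap]⟩
    have h1 : Nat.card (tr p).edgeSet ≤ Nat.card {i : Fin n | 0 < i.val} := by
      rw [Nat.card_coe_set_eq, Nat.card_coe_set_eq]
      exact (Set.ncard_le_ncard hsub (Set.toFinite _)).trans (Set.ncard_image_le (Set.toFinite _))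
    have h2 : Nat.card {i : Fin n | 0 < i.val} < Nat.card (Fin n) := by
      rw [Nat.card_coe_set_eq]
      have : {i : Fin n | 0 < i.val} ⊂ Set.univ := by
        refine Set.ssubset_univ_iff.2 ?_
        intro h
        have := Set.mem_univ (⟨0, h0⟩ : Fin n)
        rw [← h] at this
        simp at this
      have := Set.ncard_lt_ncard this (Set.toFinite _)
      rwa [Set.ncard_univ] at this
    omega
  · exact hc.card_vert_le_card_edgeSet_add_one

end J1

open J1 in
theorem prJ1 : PJ1 := by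
  intro Q D k n B h0 hcard hcov hedge hrip
  classical
  have hex : ∀ i : Fin n, ∃ p : Fin n, 0 < i.val → p < i ∧
      ∀ q ∈ B i, (∃ j < i, q ∈ B j) → q ∈ B p := by
    intro i
    by_cases hi : 0 < i.val
    · obtain ⟨p, hp, h⟩ := hrip i hi
      exact ⟨p, fun _ => ⟨hp, h⟩⟩
    · exact ⟨i, fun h => absurd h hi⟩
  choose p hp using hex
  refine ⟨n, tr p, B, isTree_tr p (fun i hi => (hp i hi).1) h0, hcard, hcov, hedge, ?_⟩
  intro q
  obtain ⟨t0, ht0⟩ := hcov q
  have hex2 : ∃ m : Fin n, q ∈ B m ∧ ∀ i, q ∈ B i → m ≤ i := by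
    obtain ⟨m, hm, hmin⟩ := WellFounded.has_min (wellFounded_lt (α := Fin n)) {i | q ∈ B i}
      ⟨t0, ht0⟩
    exact ⟨m, hm, fun i hi => not_lt.1 (hmin i hi)⟩
  obtain ⟨m, hm, hmin⟩ := hex2
  have key : ∀ i : Fin n, ∀ hi : q ∈ B i,
      ((tr p).induce {t | q ∈ B t}).Reachable ⟨i, hi⟩ ⟨m, hm⟩ := by
    intro i
    induction i using WellFoundedLT.induction with
    | ind i ih =>
      intro hi
      by_cases him : i = m
      · subst him
        exact SimpleGraph.Reachable.refl _
      · have hlt : m < i := lt_of_le_of_ne (hmin i hi) (Ne.symm him)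
        have hpos : 0 < i.val := lt_of_le_of_lt (Nat.zero_le _) hlt
        obtain ⟨h1, h2⟩ := hp i hpos
        have h3 : q ∈ B (p i) := h2 q hi ⟨m, hlt, hm⟩
        refine SimpleGraph.Reachable.trans ?_ (ih (p i) h1 h3)
        refine SimpleGraph.Adj.reachable ?_
        exact adj_parent p (fun i hi => (hp i hi).1) i hpos
  intro a b
  exact (key a.1 a.2).trans (key b.1 b.2).symm

end Pool.Agent.MP_343d73

end

section

set_option autoImplicit false

namespace Pool.Agent.MP_343d73

namespace J2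

open scoped Classical

/-- lists of bags with the running intersection property -/
inductive RIP {Q : Type} : List (Finset Q) → Prop
  | single (b : Finset Q) : RIP [b]
  | snoc (L : List (Finset Q)) (b : Finset Q) : RIP L →
      (∃ p ∈ L, ∀ q ∈ b, (∃ c ∈ L, q ∈ c) → q ∈ p) → RIP (L ++ [b])

theorem RIP.ne_nil {Q : Type} {L : List (Finset Q)} (h : RIP L) : L ≠ [] := by
  cases h <;> simp

theorem RIP.append {Q : Type} {A L : List (Finset Q)} (hA : RIP A) (hL : RIP L) :
    ∀ b0 : Finset Q, L.head? = some b0 → (∃ p ∈ A, ∀ q ∈ b0, (∃ c ∈ A, q ∈ c) → q ∈ p) →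
    (∀ b ∈ L, ∀ q ∈ b, (∃ c ∈ A, q ∈ c) → q ∈ b0) → RIP (A ++ L) := by
  induction hL with
  | single b =>
    intro b0 hb0 h1 h2
    simp only [List.head?_cons, Option.some.injEq] at hb0
    subst hb0
    exact RIP.snoc A b hA h1
  | snoc L b hL hp ih =>
    intro b0 hb0 h1 h2
    have hne := hL.ne_nil
    have hb0' : L.head? = some b0 := by
      cases L with
      | nil => exact absurd rfl hne
      | cons a L => simpa using hb0
    have h3 := ih b0 hb0' h1 (fun c hc => h2 c (List.mem_append_left _ hc))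
    rw [← List.append_assoc]
    refine RIP.snoc _ b h3 ?_
    obtain ⟨p, hpL, hp⟩ := hp
    refine ⟨p, List.mem_append_right _ hpL, ?_⟩
    rintro q hq ⟨c, hc, hqc⟩
    rcases List.mem_append.1 hc with hc | hc
    · have h4 := h2 b (by simp) q hq ⟨c, hc, hqc⟩
      refine hp q hq ⟨b0, ?_, h4⟩
      exact List.mem_of_mem_head? hb0'
    · exact hp q hq ⟨c, hc, hqc⟩

theorem RIP.index {Q : Type} {L : List (Finset Q)} (h : RIP L) :
    ∀ i (hi : i < L.length), 0 < i → ∃ p, ∃ hp : p < i, ∀ q ∈ L[i],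
      (∃ j, ∃ hj : j < i, q ∈ L[j]) → q ∈ L[p] := by
  induction h with
  | single b =>
    intro i hi h0
    simp at hi
    omega
  | snoc L b hL hp ih =>
    intro i hi h0
    by_cases h : i < L.length
    · obtain ⟨p, hp, h1⟩ := ih i h h0
      refine ⟨p, hp, ?_⟩
      intro q hq
      rintro ⟨j, hj, hqj⟩
      rw [List.getElem_append_left (by omega)] at hq hqj ⊢
      exact h1 q hq ⟨j, hj, hqj⟩
    · have hi' : i = L.length := by
        simp at hi
        omega
      subst hi'
      obtain ⟨p, hpL, hp⟩ := hp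
      obtain ⟨k, hk, rfl⟩ := List.mem_iff_getElem.1 hpL
      refine ⟨k, hk, ?_⟩
      intro q hq
      rintro ⟨j, hj, hqj⟩
      rw [List.getElem_append_left (by omega)] at hqj ⊢
      rw [List.getElem_append_right (le_refl _)] at hq
      simp only [Nat.sub_self, List.getElem_cons_zero] at hq
      exact hp q hq ⟨_, List.getElem_mem _, hqj⟩

/-- the properties of the list of bags for the set `U` -/
structure Good {Q : Type} (D : SimpleGraph Q) (N : ℕ) (U W : Finset Q)
    (L : List (Finset Q)) : Prop where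
  rip : RIP L
  card : ∀ b ∈ L, b.card ≤ 4 * N
  sub : ∀ b ∈ L, b ⊆ U
  head : ∃ b0, L.head? = some b0 ∧ W ⊆ b0
  cov : ∀ q ∈ U, ∃ b ∈ L, q ∈ b
  edge : ∀ q ∈ U, ∀ q' ∈ U, D.Adj q q' → ∃ b ∈ L, q ∈ b ∧ q' ∈ b

/-- the graph `D` with the edges inside a set -/
def inn {Q : Type} (D : SimpleGraph Q) (Z : Set Q) : SimpleGraph Q where
  Adj a b := D.Adj a b ∧ a ∈ Z ∧ b ∈ Z
  symm := ⟨fun _ _ h => ⟨h.1.symm, h.2.2, h.2.1⟩⟩
  loopless := ⟨fun _ h => D.loopless.irrefl _ h.1⟩

theorem inn_mem {Q : Type} (D : SimpleGraph Q) (Z : Set Q) (a b : Q)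
    (h : (inn D Z).Reachable a b) (ha : a ∈ Z) : b ∈ Z := by
  obtain ⟨w⟩ := h
  induction w with
  | nil => exact ha
  | cons hadj _ ih => exact ih hadj.2.2

theorem inn_preconnected {Q : Type} (D : SimpleGraph Q) (Z : Set Q) (a : Q) :
    (D.induce {b | (inn D Z).Reachable a b}).Preconnected := by
  have key : ∀ b c : Q, ∀ w : (inn D Z).Walk b c, ∀ hb : (inn D Z).Reachable a b,
      ∀ hc : (inn D Z).Reachable a c,
      (D.induce {b | (inn D Z).Reachable a b}).Reachable ⟨b, hb⟩ ⟨c, hc⟩ := by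
    intro b c w
    induction w with
    | nil => intro hb hc; exact SimpleGraph.Reachable.refl _
    | cons hadj w ih =>
      intro hb hc
      have h1 := hb.trans hadj.reachable
      refine SimpleGraph.Reachable.trans ?_ (ih h1 hc)
      refine SimpleGraph.Adj.reachable ?_
      exact hadj.1
  intro x y
  obtain ⟨w⟩ := x.2.symm.trans y.2
  exact key _ _ w _ _

theorem main {Q : Type} [Finite Q] (D : SimpleGraph Q) (N : ℕ) (hN : 0 < N)
    (hsep : ∀ W : Finset Q, ∃ X : Finset Q, X.card ≤ N ∧ ∀ K : Set Q, (∀ q ∈ K, q ∉ X) →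
      (D.induce K).Preconnected → 2 * ((W : Set Q) ∩ K).ncard ≤ W.card) :
    ∀ m : ℕ, ∀ U : Finset Q, U.card ≤ m → ∀ W ⊆ U, W.card ≤ 3 * N → ∃ L, Good D N U W L := by
  have : Fintype Q := Fintype.ofFinite Q
  intro m
  induction m with
  | zero =>
    intro U hU W hW _
    refine ⟨[U], RIP.single U, ?_, ?_, ⟨U, rfl, hW⟩, ?_, ?_⟩
    · intro b hb
      rw [List.mem_singleton.1 hb]
      omega
    · intro b hb
      rw [List.mem_singleton.1 hb]
    · intro q hq
      exact ⟨U, by simp, hq⟩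
    · intro q hq q' hq' _
      exact ⟨U, by simp, hq, hq'⟩
  | succ m ihm =>
    intro U hU W0 hW0 hW0c
    by_cases hsmall : U.card ≤ 4 * N
    · refine ⟨[U], RIP.single U, ?_, ?_, ⟨U, rfl, hW0⟩, ?_, ?_⟩
      · intro b hb
        rw [List.mem_singleton.1 hb]
        omega
      · intro b hb
        rw [List.mem_singleton.1 hb]
      · intro q hq
        exact ⟨U, by simp, hq⟩
      · intro q hq q' hq' _
        exact ⟨U, by simp, hq, hq'⟩
    · push Not at hsmall
      obtain ⟨W, hW0W, hWU, hWc⟩ := Finset.exists_subsuperset_card_eq hW0 hW0c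
        (by omega : 3 * N ≤ U.card)
      obtain ⟨X0, hX0c, hX0⟩ := hsep W
      set X : Finset Q := X0 ∩ U with hX
      have hXc : X.card ≤ N := (Finset.card_le_card Finset.inter_subset_left).trans hX0c
      have hXU : X ⊆ U := Finset.inter_subset_right
      set Z : Set Q := {q | q ∈ U ∧ q ∉ X} with hZ
      let comp : Q → Finset Q := fun q => Finset.univ.filter fun b => (inn D Z).Reachable q b
      have hcomp_mem : ∀ q b, b ∈ comp q ↔ (inn D Z).Reachable q b := by
        intro q b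
        simp [comp]
      have hcomp_self : ∀ q, q ∈ comp q := fun q => (hcomp_mem q q).2 (SimpleGraph.Reachable.refl _)
      have hcomp_sub : ∀ q ∈ Z, ∀ b ∈ comp q, b ∈ Z := by
        intro q hq b hb
        exact inn_mem D Z q b ((hcomp_mem q b).1 hb) hq
      have hcomp_eq : ∀ q q' b, b ∈ comp q → b ∈ comp q' → comp q = comp q' := by
        intro q q' b hb hb'
        rw [hcomp_mem] at hb hb'
        ext c
        rw [hcomp_mem, hcomp_mem]
        constructor
        · intro h
          exact hb'.trans (hb.symm.trans h)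
        · intro h
          exact hb.trans (hb'.symm.trans h)
      -- the components
      set CC : Finset (Finset Q) := (U \ X).image comp with hCC
      have hUX : ∀ q, q ∈ U \ X ↔ q ∈ Z := by
        intro q
        simp [hZ]
      have hCC_sub : ∀ K ∈ CC, ∀ b ∈ K, b ∈ Z := by
        intro K hK b hb
        obtain ⟨q, hq, rfl⟩ := Finset.mem_image.1 hK
        exact hcomp_sub q ((hUX q).1 hq) b hb
      have hCC_disj : ∀ K ∈ CC, ∀ K' ∈ CC, ∀ b, b ∈ K → b ∈ K' → K = K' := by
        intro K hK K' hK' b hb hb'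
        obtain ⟨q, hq, rfl⟩ := Finset.mem_image.1 hK
        obtain ⟨q', hq', rfl⟩ := Finset.mem_image.1 hK'
        exact hcomp_eq q q' b hb hb'
      have hCC_half : ∀ K ∈ CC, 2 * (W ∩ K).card ≤ 3 * N := by
        intro K hK
        have hK' := hK
        obtain ⟨q, hq, hqK⟩ := Finset.mem_image.1 hK
        have h1 := hX0 (K : Set Q) (by
          intro b hb hbX
          have h2 := hCC_sub K hK' b hb
          exact h2.2 (Finset.mem_inter.2 ⟨hbX, h2.1⟩)) (by
          have h3 := inn_preconnected D Z q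
          have h4 : {b | (inn D Z).Reachable q b} = (K : Set Q) := by
            ext b
            rw [← hqK]
            simp [comp]
          rwa [h4] at h3)
        rw [← Finset.coe_inter, Set.ncard_coe_finset, hWc] at h1
        exact h1
      -- the lists of the components
      have hloc : ∀ K ∈ CC, ∃ L, Good D N (K ∪ X) ((W ∩ K) ∪ X) L := by
        intro K hK
        refine ihm (K ∪ X) ?_ _ ?_ ?_
        · have h1 : K ∪ X ⊆ U := by
            refine Finset.union_subset (fun b hb => (hCC_sub K hK b hb).1) hXU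
          have h2 : K ∪ X ⊂ U := by
            refine Finset.ssubset_iff_subset_ne.2 ⟨h1, ?_⟩
            intro h3
            have h4 : W ⊆ (W ∩ K) ∪ X := by
              intro b hb
              have : b ∈ K ∪ X := by
                rw [h3]
                exact hWU hb
              rcases Finset.mem_union.1 this with h5 | h5
              · exact Finset.mem_union_left _ (Finset.mem_inter.2 ⟨hb, h5⟩)
              · exact Finset.mem_union_right _ h5
            have h5 := (Finset.card_le_card h4).trans (Finset.card_union_le _ _)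
            have h6 := hCC_half K hK
            omega
          have := Finset.card_lt_card h2
          omega
        · exact Finset.union_subset_union_left Finset.inter_subset_right
        · have h5 := Finset.card_union_le (W ∩ K) X
          have h6 := hCC_half K hK
          omega
      have hind : ∀ S : Finset (Finset Q), S ⊆ CC → ∃ M : List (Finset Q),
          RIP ((W ∪ X) :: M) ∧ (∀ b ∈ M, b.card ≤ 4 * N) ∧ (∀ b ∈ M, ∃ K ∈ S, b ⊆ K ∪ X) ∧
          (∀ K ∈ S, ∀ q ∈ K, ∃ b ∈ M, q ∈ b) ∧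
          (∀ K ∈ S, ∀ q ∈ K ∪ X, ∀ q' ∈ K ∪ X, D.Adj q q' → ∃ b ∈ M, q ∈ b ∧ q' ∈ b) := by
        intro S
        induction S using Finset.induction_on with
        | empty =>
          intro _
          exact ⟨[], RIP.single _, by simp, by simp, by simp, by simp⟩
        | insert K S hKS ih =>
          intro hsub
          obtain ⟨M, h1, h2, h3, h4, h5⟩ := ih ((Finset.subset_insert K S).trans hsub)
          have hK : K ∈ CC := hsub (Finset.mem_insert_self K S)
          obtain ⟨L, hL⟩ := hloc K hK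
          obtain ⟨b0, hb0, hWb0⟩ := hL.head
          have hb0L : b0 ∈ L := List.mem_of_mem_head? hb0
          -- earlier bags meet `K ∪ X` inside the first bag
          have hmeet : ∀ q ∈ K ∪ X, (∃ c ∈ (W ∪ X) :: M, q ∈ c) → q ∈ (W ∩ K) ∪ X := by
            rintro q hq ⟨c, hc, hqc⟩
            by_cases hqX : q ∈ X
            · exact Finset.mem_union_right _ hqX
            · have hqK : q ∈ K := (Finset.mem_union.1 hq).resolve_right hqX
              rcases List.mem_cons.1 hc with rfl | hc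
              · have := (Finset.mem_union.1 hqc).resolve_right hqX
                exact Finset.mem_union_left _ (Finset.mem_inter.2 ⟨this, hqK⟩)
              · obtain ⟨K', hK', hcK'⟩ := h3 c hc
                have h6 := (Finset.mem_union.1 (hcK' hqc)).resolve_right hqX
                have h7 := hCC_disj K hK K' (hsub (Finset.mem_insert_of_mem hK')) q hqK h6
                rw [h7] at hKS
                exact absurd hK' hKS
          refine ⟨M ++ L, ?_, ?_, ?_, ?_, ?_⟩
          · rw [← List.cons_append]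
            refine RIP.append h1 hL.rip b0 hb0 ⟨W ∪ X, by simp, ?_⟩ ?_
            · intro q hq h6
              have h7 := hmeet q (hL.sub b0 hb0L hq) h6
              rcases Finset.mem_union.1 h7 with h8 | h8
              · exact Finset.mem_union_left _ (Finset.mem_inter.1 h8).1
              · exact Finset.mem_union_right _ h8
            · intro b hb q hq h6
              exact hWb0 (hmeet q (hL.sub b hb hq) h6)
          · intro b hb
            rcases List.mem_append.1 hb with hb | hb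
            · exact h2 b hb
            · exact hL.card b hb
          · intro b hb
            rcases List.mem_append.1 hb with hb | hb
            · obtain ⟨K', hK', h6⟩ := h3 b hb
              exact ⟨K', Finset.mem_insert_of_mem hK', h6⟩
            · exact ⟨K, Finset.mem_insert_self K S, hL.sub b hb⟩
          · intro K' hK' q hq
            rcases Finset.mem_insert.1 hK' with rfl | hK'
            · obtain ⟨b, hb, hqb⟩ := hL.cov q (Finset.mem_union_left _ hq)
              exact ⟨b, List.mem_append_right _ hb, hqb⟩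
            · obtain ⟨b, hb, hqb⟩ := h4 K' hK' q hq
              exact ⟨b, List.mem_append_left _ hb, hqb⟩
          · intro K' hK' q hq q' hq' hadj
            rcases Finset.mem_insert.1 hK' with rfl | hK'
            · obtain ⟨b, hb, hqb⟩ := hL.edge q hq q' hq' hadj
              exact ⟨b, List.mem_append_right _ hb, hqb⟩
            · obtain ⟨b, hb, hqb⟩ := h5 K' hK' q hq q' hq' hadj
              exact ⟨b, List.mem_append_left _ hb, hqb⟩
      obtain ⟨M, h1, h2, h3, h4, h5⟩ := hind CC (Finset.Subset.refl _)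
      refine ⟨(W ∪ X) :: M, h1, ?_, ?_, ⟨W ∪ X, rfl, hW0W.trans Finset.subset_union_left⟩, ?_, ?_⟩
      · intro b hb
        rcases List.mem_cons.1 hb with rfl | hb
        · have := Finset.card_union_le W X
          omega
        · exact h2 b hb
      · intro b hb
        rcases List.mem_cons.1 hb with rfl | hb
        · exact Finset.union_subset hWU hXU
        · obtain ⟨K, hK, h6⟩ := h3 b hb
          exact h6.trans (Finset.union_subset (fun b hb => (hCC_sub K hK b hb).1) hXU)
      · intro q hq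
        by_cases hqX : q ∈ X
        · exact ⟨W ∪ X, by simp, Finset.mem_union_right _ hqX⟩
        · have hqZ : q ∈ U \ X := Finset.mem_sdiff.2 ⟨hq, hqX⟩
          obtain ⟨b, hb, hqb⟩ := h4 (comp q) (Finset.mem_image_of_mem _ hqZ) q (hcomp_self q)
          exact ⟨b, List.mem_cons_of_mem _ hb, hqb⟩
      · have hwl : ∀ q ∈ U, ∀ q' ∈ U, D.Adj q q' → q ∉ X →
            ∃ b ∈ (W ∪ X) :: M, q ∈ b ∧ q' ∈ b := by
          intro q hq q' hq' hadj hqX
          have hqZ : q ∈ U \ X := Finset.mem_sdiff.2 ⟨hq, hqX⟩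
          have h6 : q' ∈ comp q ∪ X := by
            by_cases hq'X : q' ∈ X
            · exact Finset.mem_union_right _ hq'X
            · refine Finset.mem_union_left _ ((hcomp_mem q q').2 ?_)
              refine SimpleGraph.Adj.reachable ?_
              exact ⟨hadj, ⟨hq, hqX⟩, ⟨hq', hq'X⟩⟩
          obtain ⟨b, hb, hqb⟩ := h5 (comp q) (Finset.mem_image_of_mem _ hqZ) q
            (Finset.mem_union_left _ (hcomp_self q)) q' h6 hadj
          exact ⟨b, List.mem_cons_of_mem _ hb, hqb⟩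
        intro q hq q' hq' hadj
        by_cases hqX : q ∈ X
        · by_cases hq'X : q' ∈ X
          · exact ⟨W ∪ X, by simp, Finset.mem_union_right _ hqX, Finset.mem_union_right _ hq'X⟩
          · obtain ⟨b, hb, h6, h7⟩ := hwl q' hq' q hq hadj.symm hq'X
            exact ⟨b, hb, h7, h6⟩
        · exact hwl q hq q' hq' hadj hqX

end J2

open J2 in
theorem prJ2 (j1 : PJ1) : PJ2 := by
  intro Q _ D N hne hsep
  classical
  have : Fintype Q := Fintype.ofFinite Q
  have hN : 0 < N := by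
    obtain ⟨q⟩ := hne
    obtain ⟨X, hX, h⟩ := hsep {q}
    by_contra h0
    have hX0 : X = ∅ := Finset.card_eq_zero.1 (by omega)
    subst hX0
    have h1 := h {q} (by simp) (by
      intro a b
      have : a = b := Subsingleton.elim _ _
      rw [this])
    simp at h1
  obtain ⟨L, hL⟩ := main D N hN hsep _ Finset.univ le_rfl ∅ (Finset.empty_subset _) (by simp)
  have hlen : 0 < L.length := List.length_pos_iff.2 hL.rip.ne_nil
  refine j1 D (4 * N) L.length (fun i => L.get i) hlen ?_ ?_ ?_ ?_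
  · intro t
    exact (hL.card _ (List.get_mem L t)).trans (Nat.le_succ _)
  · intro q
    obtain ⟨b, hb, hqb⟩ := hL.cov q (Finset.mem_univ q)
    obtain ⟨i, hi⟩ := List.get_of_mem hb
    exact ⟨i, by rw [hi]; exact hqb⟩
  · intro q q' hadj
    obtain ⟨b, hb, hqb⟩ := hL.edge q (Finset.mem_univ q) q' (Finset.mem_univ q') hadj
    obtain ⟨i, hi⟩ := List.get_of_mem hb
    exact ⟨i, by rw [hi]; exact hqb⟩
  · intro i hi
    obtain ⟨p, hp, h⟩ := hL.rip.index i.val i.isLt hi
    refine ⟨⟨p, hp.trans i.isLt⟩, hp, ?_⟩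
    rintro q hq ⟨j, hj, hqj⟩
    exact h q hq ⟨j.val, hj, hqj⟩

end Pool.Agent.MP_343d73

end

section

set_option autoImplicit false

namespace Pool.Agent.MP_343d73

open scoped Classical in
theorem prJ3 : PJ3 := by
  intro n R hR F h1 h2
  have e1 : ∑ t, ∑ t', (if R.Adj t t' then F t t' else 0) = (n : ℝ) := by
    rw [Finset.sum_congr rfl fun t _ => h1 t]
    simp
  have e2 : ∑ t, ∑ t', (if R.Adj t t' then F t' t else 0) = (n : ℝ) := by
    rw [Finset.sum_comm, ← e1]
    refine Finset.sum_congr rfl fun t _ => Finset.sum_congr rfl fun t' _ => ?_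
    by_cases h : R.Adj t t'
    · rw [if_pos h, if_pos h.symm]
    · rw [if_neg h, if_neg fun h' => h h'.symm]
  have e3 : ∑ t, ∑ t', (if R.Adj t t' then (1 : ℝ) else 0) = n + n := by
    rw [← e1]
    nth_rewrite 2 [e1]
    rw [← e2, ← Finset.sum_add_distrib]
    refine Finset.sum_congr rfl fun t _ => ?_
    rw [← Finset.sum_add_distrib]
    refine Finset.sum_congr rfl fun t' _ => ?_
    by_cases h : R.Adj t t'
    · rw [if_pos h, if_pos h, if_pos h, h2 t t' h]
    · rw [if_neg h, if_neg h, if_neg h, add_zero]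
  have e4 : ∑ t, ∑ t', (if R.Adj t t' then (1 : ℝ) else 0) = ((∑ t, R.degree t : ℕ) : ℝ) := by
    rw [Nat.cast_sum]
    refine Finset.sum_congr rfl fun t _ => ?_
    rw [Finset.sum_boole]
    congr 1
    rw [← SimpleGraph.card_neighborFinset_eq_degree]
    congr 1
    ext t'
    simp
  rw [SimpleGraph.sum_degrees_eq_twice_card_edges] at e4
  have e5 := hR.card_edgeFinset
  rw [Fintype.card_fin] at e5
  rw [e3] at e4
  have e6 : ((R.edgeFinset.card + 1 : ℕ) : ℝ) = n := by rw [e5]
  push_cast at e4 e6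
  linarith

end Pool.Agent.MP_343d73

end

section

set_option autoImplicit false

namespace Pool.Agent.MP_343d73

namespace J4

/-- a walk in an induced graph from a point with `P` to a point without `P` has a crossing edge -/
theorem crossing {n : ℕ} (R : SimpleGraph (Fin n)) (Z : Set (Fin n)) (P : Fin n → Prop)
    (x y : Z) (w : (R.induce Z).Walk x y) :
    P x.1 → ¬ P y.1 → ∃ a ∈ Z, ∃ b ∈ Z, R.Adj a b ∧ P a ∧ ¬ P b := by
  induction w with
  | nil => intro h1 h2; exact absurd h1 h2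
  | @cons u v _ hadj w ih =>
    intro h1 h2
    by_cases hv : P v.1
    · exact ih hv h2
    · exact ⟨u.1, u.2, v.1, v.2, hadj, h1, hv⟩

/-- a set of nodes with preconnected induced graph, which meets both sides of an edge, contains
both ends -/
theorem both_ends (h1 : PA1) (h2 : PA2) {n : ℕ} (R : SimpleGraph (Fin n)) (hR : R.IsTree)
    (Z : Set (Fin n)) (hZ : (R.induce Z).Preconnected) (t t' : Fin n) (hadj : R.Adj t t')
    (u u' : Fin n) (hu : u ∈ Z) (hu' : u' ∈ Z) (h3 : R.dist t' u < R.dist t u)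
    (h4 : ¬ R.dist t' u' < R.dist t u') : t ∈ Z ∧ t' ∈ Z := by
  obtain ⟨w⟩ := hZ ⟨u, hu⟩ ⟨u', hu'⟩
  obtain ⟨a, ha, b, hb, hab, hPa, hPb⟩ := crossing R Z (fun x => R.dist t' x < R.dist t x) _ _ w
    h3 h4
  have h5 : R.dist t b < R.dist t' b := by
    rcases h1 R hR t t' b hadj with h | h <;> omega
  have h6 := h2 R hR t t' a b hadj hPa h5
  have h7 : R.dist a b = 1 := SimpleGraph.dist_eq_one_iff_adj.2 hab
  have h8 : R.dist a t' = 0 := by omega
  have h9 : R.dist t b = 0 := by omega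
  have e1 : a = t' := (hR.1 a t').dist_eq_zero_iff.1 h8
  have e2 : t = b := (hR.1 t b).dist_eq_zero_iff.1 h9
  rw [e2, ← e1]
  exact ⟨hb, ha⟩

end J4

open J4 in
theorem prJ4 (h1 : PA1) (h2 : PA2) (h6 : PA6) : PJ4 := by
  intro Q D n R B hR hcov hedge hpre
  refine ⟨?_, ?_, ?_, ?_⟩
  · intro t q hq
    obtain ⟨u0, hu0⟩ := hcov q
    have hne : t ≠ u0 := by
      rintro rfl
      exact hq hu0
    obtain ⟨b, ⟨hb1, hb2⟩, hb3⟩ := h6 R hR t u0 hne
    refine ⟨b, ⟨hb1, ?_⟩, ?_⟩
    · intro u hu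
      by_contra hcon
      have := both_ends h1 h2 R hR {t | q ∈ B t} (hpre q) t b hb1 u0 u hu0 hu hb2 hcon
      exact hq this.1
    · rintro b' ⟨hb1', hb2'⟩
      exact hb3 b' ⟨hb1', hb2' u0 hu0⟩
  · intro t t' q hadj hq hside
    have := hside t hq
    rw [SimpleGraph.dist_self] at this
    omega
  · intro t t' q hadj hnot
    obtain ⟨u0, hu0⟩ := hcov q
    have hnn : ∀ u, ¬ (R.dist t' u < R.dist t u ∧ R.dist t u < R.dist t' u) := fun u h => by omega
    rcases h1 R hR t t' u0 hadj with h | h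
    · right
      refine ⟨?_, ?_⟩
      · intro hs
        have := hs u0 hu0
        omega
      · intro u hu
        by_contra hcon
        have h3 : R.dist t' u < R.dist t u := by
          rcases h1 R hR t t' u hadj with h | h <;> omega
        exact hnot (both_ends h1 h2 R hR {t | q ∈ B t} (hpre q) t t' hadj u u0 hu hu0 h3
          (by omega))
    · left
      refine ⟨?_, ?_⟩
      · intro u hu
        by_contra hcon
        exact hnot (both_ends h1 h2 R hR {t | q ∈ B t} (hpre q) t t' hadj u0 u hu0 hu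
          (by omega) hcon)
      · intro hs
        have := hs u0 hu0
        omega
  · intro t t' q q' hadj hD hq hq'
    obtain ⟨u, hu, hu'⟩ := hedge q q' hD
    have h3 := hq u hu
    have h4 : ∃ u2, q' ∈ B u2 ∧ ¬ R.dist t' u2 < R.dist t u2 := by
      by_contra hcon
      push Not at hcon
      exact hq' fun v hv => hcon v hv
    obtain ⟨u2, hu2, h5⟩ := h4
    exact both_ends h1 h2 R hR {t | q' ∈ B t} (hpre q') t t' hadj u u2 hu' hu2 h3 h5

end Pool.Agent.MP_343d73

end

section

set_option autoImplicit false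

namespace Pool.Agent.MP_343d73

namespace J5

/-- a function of edges which is constant at every vertex is constant on a connected set -/
theorem const_on {U E : Type} (Γ : SimpleGraph U) (inc : E → U → Prop)
    (hd : ∀ v v', Γ.Adj v v' → ∃ e, inc e v ∧ inc e v') (s : E → ℝ) (K : Set U)
    (hs : ∀ v ∈ K, ∀ e e', inc e v → inc e' v → s e = s e')
    (x y : K) (w : (Γ.induce K).Walk x y) :
    ∀ e e', inc e x.1 → inc e' y.1 → s e = s e' := by
  induction w with
  | nil => intro e e' h1 h2; exact hs _ (Subtype.prop _) e e' h1 h2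
  | @cons u v _ hadj w ih =>
    intro e e' h1 h2
    obtain ⟨e1, h3, h4⟩ := hd u.1 v.1 hadj
    rw [hs u.1 u.2 e e1 h1 h3]
    exact ih e1 e' h4 h2

end J5

open J5 in
open scoped Classical in
theorem prJ5 (j2 : PJ2) (j3 : PJ3) (j4 : PJ4) : PJ5 := by
  intro Q U E _ D Γ inc w Xp N0 k ha hb hc hd he hU hf htw
  have : Fintype Q := Fintype.ofFinite Q
  have hfinU : Finite U := by
    have h1 : (⋃ q, Xp q) = Set.univ := by
      refine Set.eq_univ_of_forall fun v => ?_
      obtain ⟨e, hev⟩ := he v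
      by_contra hcon
      rw [Set.mem_iUnion] at hcon
      push Not at hcon
      have h2 : ∑ᶠ q, w e q = 0 := by
        rw [finsum_congr fun q => ha e v q hev (hcon q)]
        exact finsum_zero
      rw [hb e] at h2
      exact one_ne_zero h2
    rw [← Set.finite_univ_iff, ← h1]
    exact Set.finite_iUnion fun q => (hf q).1
  obtain ⟨n, R, B, hR, hBc, hcov, hedge, hpre⟩ := htw
  obtain ⟨J1, J2, J3, J4⟩ := j4 D n R B hR hcov hedge hpre
  refine j2 Γ (N0 * (k + 1)) hU ?_
  intro W
  by_contra hcon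
  push Not at hcon
  -- the separators attached to the bags
  have hX : ∀ t : Fin n, ((B t).biUnion fun q => (hf q).1.toFinset).card ≤ N0 * (k + 1) := by
    intro t
    refine Finset.card_biUnion_le.trans ?_
    have h1 : ∀ q ∈ B t, (hf q).1.toFinset.card ≤ N0 := by
      intro q _
      rw [← Set.ncard_eq_toFinset_card _ (hf q).1]
      exact (hf q).2
    refine (Finset.sum_le_card_nsmul _ _ _ h1).trans ?_
    rw [smul_eq_mul, mul_comm]
    exact Nat.mul_le_mul_left _ (hBc t)
  choose K hKX hKc hKW using fun t => hcon _ (hX t)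
  have hKXp : ∀ t, ∀ v ∈ K t, ∀ q ∈ B t, v ∉ Xp q := by
    intro t v hv q hq hvq
    refine hKX t v hv ?_
    rw [Finset.mem_biUnion]
    exact ⟨q, hq, by simpa using hvq⟩
  have hmeet : ∀ t t', ∃ z, z ∈ K t ∧ z ∈ K t' := by
    intro t t'
    by_contra h0
    push Not at h0
    have h1 : Disjoint ((W : Set U) ∩ K t) ((W : Set U) ∩ K t') := by
      rw [Set.disjoint_left]
      rintro z ⟨_, hz⟩ ⟨_, hz'⟩
      exact h0 z hz hz'
    have h2 := Set.ncard_union_eq h1 (Set.toFinite _) (Set.toFinite _)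
    have h3 : ((W : Set U) ∩ K t ∪ (W : Set U) ∩ K t').ncard ≤ (W : Set U).ncard := by
      refine Set.ncard_le_ncard ?_ (Set.toFinite _)
      intro z hz
      rcases hz with hz | hz
      · exact hz.1
      · exact hz.1
    rw [Set.ncard_coe_finset] at h3
    have h4 := hKW t
    have h5 := hKW t'
    omega
  have hKne : ∀ t, ∃ v, v ∈ K t := fun t => by
    obtain ⟨z, hz, _⟩ := hmeet t t
    exact ⟨z, hz⟩
  choose v0 hv0 using hKne
  choose e0 he0 using fun t => he (v0 t)
  set Sm : E → Set Q → ℝ := fun e A => ∑ᶠ q, (if q ∈ A then w e q else 0) with hSm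
  have hSm' : ∀ e A, Sm e A = ∑ q, (if q ∈ A then w e q else 0) := fun e A =>
    finsum_eq_sum_of_fintype _
  have hloc : ∀ t t', R.Adj t t' → ∀ v, (v ∈ K t ∨ v ∈ K t') → ∀ e e', inc e v → inc e' v →
      Sm e (sideSet R B t t') = Sm e' (sideSet R B t t') := by
    intro t t' hadj v hv e e' h1 h2
    refine hc v (sideSet R B t t') ?_ e e' h1 h2
    intro q hq q' hq' hD
    obtain ⟨h3, h4⟩ := J4 t t' q q' hadj hD hq hq'
    right
    rcases hv with hv | hv
    · exact hKXp t v hv q' h3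
    · exact hKXp t' v hv q' h4
  have hconst : ∀ t t', R.Adj t t' → ∀ v, (v ∈ K t ∨ v ∈ K t') → ∀ e, inc e v →
      Sm e (sideSet R B t t') = Sm (e0 t) (sideSet R B t t') := by
    intro t t' hadj
    have h1 : ∀ v ∈ K t, ∀ e, inc e v →
        Sm e (sideSet R B t t') = Sm (e0 t) (sideSet R B t t') := by
      intro v hv e hev
      obtain ⟨p⟩ := hKc t ⟨v, hv⟩ ⟨v0 t, hv0 t⟩
      exact const_on Γ inc hd (fun e => Sm e (sideSet R B t t')) (K t)
        (fun v hv e e' h1 h2 => hloc t t' hadj v (Or.inl hv) e e' h1 h2) _ _ p e (e0 t) hev (he0 t)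
    intro v hv e hev
    rcases hv with hv | hv
    · exact h1 v hv e hev
    · obtain ⟨z, hz, hz'⟩ := hmeet t t'
      obtain ⟨ez, hez⟩ := he z
      rw [← h1 z hz ez hez]
      obtain ⟨p⟩ := hKc t' ⟨v, hv⟩ ⟨z, hz'⟩
      exact const_on Γ inc hd (fun e => Sm e (sideSet R B t t')) (K t')
        (fun v hv e e' h1 h2 => hloc t t' hadj v (Or.inr hv) e e' h1 h2) _ _ p e ez hev hez
  refine j3 n R hR (fun t t' => Sm (e0 t) (sideSet R B t t')) ?_ ?_
  · intro t
    have h1 : ∀ t', (if R.Adj t t' then Sm (e0 t) (sideSet R B t t') else 0) =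
        ∑ q, (if R.Adj t t' ∧ q ∈ sideSet R B t t' then w (e0 t) q else 0) := by
      intro t'
      by_cases h : R.Adj t t'
      · rw [if_pos h, hSm']
        refine Finset.sum_congr rfl fun q _ => ?_
        by_cases h2 : q ∈ sideSet R B t t'
        · rw [if_pos h2, if_pos ⟨h, h2⟩]
        · rw [if_neg h2, if_neg fun h3 => h2 h3.2]
      · rw [if_neg h]
        symm
        exact Finset.sum_eq_zero fun q _ => if_neg fun h3 => h h3.1
    rw [Finset.sum_congr rfl fun t' _ => h1 t', Finset.sum_comm, ← hb (e0 t),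
      finsum_eq_sum_of_fintype]
    refine Finset.sum_congr rfl fun q _ => ?_
    by_cases hq : q ∈ B t
    · have h2 : w (e0 t) q = 0 := ha _ _ q (he0 t) (hKXp t _ (hv0 t) q hq)
      rw [h2]
      exact Finset.sum_eq_zero fun t' _ => by rw [ite_self]
    · obtain ⟨t1, ⟨h2, h3⟩, h4⟩ := J1 t q hq
      rw [Finset.sum_eq_single t1]
      · rw [if_pos ⟨h2, h3⟩]
      · intro t' _ hne
        exact if_neg fun h5 => hne (h4 t' h5)
      · intro h5
        exact absurd (Finset.mem_univ _) h5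
  · intro t t' hadj
    obtain ⟨z, hz, hz'⟩ := hmeet t t'
    obtain ⟨ez, hez⟩ := he z
    rw [← hconst t t' hadj z (Or.inl hz) ez hez, ← hconst t' t hadj.symm z (Or.inl hz') ez hez,
      hSm', hSm', ← Finset.sum_add_distrib, ← hb ez, finsum_eq_sum_of_fintype]
    refine Finset.sum_congr rfl fun q _ => ?_
    by_cases hq : q ∈ B t ∧ q ∈ B t'
    · have h2 : w ez q = 0 := ha _ _ q hez (hKXp t _ hz q hq.1)
      rw [h2]
      simp
    · rcases J3 t t' q hadj hq with ⟨h2, h3⟩ | ⟨h2, h3⟩
      · rw [if_pos h2, if_neg h3, add_zero]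
      · rw [if_neg h2, if_pos h3, zero_add]

end Pool.Agent.MP_343d73

end

section

set_option autoImplicit false

namespace Pool.Agent.MP_343d73

theorem prK1 : PK1 := by
  intro G _ P Q hP hQ hPQ
  obtain ⟨eP⟩ := hP
  obtain ⟨eQ⟩ := hQ
  -- the inclusion in coordinates
  let inc : Multiplicative (ℤ × ℤ) →* Multiplicative (ℤ × ℤ) :=
    (eQ.toMonoidHom.comp (Subgroup.inclusion hPQ)).comp eP.symm.toMonoidHom
  have hinc : Function.Injective inc := by
    refine Function.Injective.comp (g := fun x => eQ (Subgroup.inclusion hPQ x)) ?_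
      eP.symm.injective
    exact eQ.injective.comp (Subgroup.inclusion_injective hPQ)
  let ψ : (ℤ × ℤ) →ₗ[ℤ] (ℤ × ℤ) := (MonoidHom.toAdditive inc).toIntLinearMap
  have hψ : Function.Injective ψ := hinc
  have hrank : Module.finrank ℤ (LinearMap.range ψ) = Module.finrank ℤ (ℤ × ℤ) :=
    (LinearEquiv.ofInjective ψ hψ).symm.finrank_eq
  have hfin : Finite ((ℤ × ℤ) ⧸ LinearMap.range ψ) :=
    Submodule.finiteQuotientOfFreeOfRankEq _ hrank
  let g : Q →* Multiplicative ((ℤ × ℤ) ⧸ LinearMap.range ψ) :=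
    (AddMonoidHom.toMultiplicative (LinearMap.range ψ).mkQ.toAddMonoidHom).comp eQ.toMonoidHom
  have hfin2 : Finite (Multiplicative ((ℤ × ℤ) ⧸ LinearMap.range ψ)) := hfin
  have hker : g.ker = P.subgroupOf Q := by
    ext x
    rw [MonoidHom.mem_ker, Subgroup.mem_subgroupOf]
    have h1 : g x = 1 ↔ (LinearMap.range ψ).mkQ (Multiplicative.toAdd (eQ x)) = 0 := Iff.rfl
    rw [h1, Submodule.mkQ_apply, Submodule.Quotient.mk_eq_zero, LinearMap.mem_range]
    constructor
    · rintro ⟨z, hz⟩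
      have h2 : eQ (Subgroup.inclusion hPQ (eP.symm (Multiplicative.ofAdd z))) = eQ x := hz
      have h3 := eQ.injective h2
      rw [← h3]
      exact (eP.symm (Multiplicative.ofAdd z)).2
    · intro hx
      refine ⟨Multiplicative.toAdd (eP ⟨x, hx⟩), ?_⟩
      change eQ (Subgroup.inclusion hPQ (eP.symm (eP ⟨x, hx⟩))) = eQ x
      rw [MulEquiv.symm_apply_apply]
      rfl
  rw [← hker]
  exact Subgroup.finiteIndex_ker g

end Pool.Agent.MP_343d73

end

section

set_option autoImplicit false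

namespace Pool.Agent.MP_343d73

namespace K3

theorem comm_of_isZ2 {G : Type} [Group G] (P : Subgroup G) (hP : IsZ2 P) (x y : G) (hx : x ∈ P)
    (hy : y ∈ P) : Commute x y := by
  obtain ⟨e⟩ := hP
  have h1 : (⟨x, hx⟩ : P) * ⟨y, hy⟩ = ⟨y, hy⟩ * ⟨x, hx⟩ := by
    apply e.injective
    rw [map_mul, map_mul, mul_comm]
  exact congrArg Subtype.val h1

theorem torsion_of_isZ2 {G : Type} [Group G] (P : Subgroup G) (hP : IsZ2 P) (x : G) (hx : x ∈ P)
    (hx1 : x ≠ 1) (n : ℤ) (hn : x ^ n = 1) : n = 0 := by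
  obtain ⟨e⟩ := hP
  have h1 : (⟨x, hx⟩ : P) ^ n = 1 := Subtype.ext (by simpa using hn)
  have h2 : (e ⟨x, hx⟩) ^ n = 1 := by
    rw [← map_zpow, h1, map_one]
  have h3 : n • (Multiplicative.toAdd (e ⟨x, hx⟩)) = 0 := h2
  rcases smul_eq_zero.1 h3 with h4 | h4
  · exact h4
  · exfalso
    apply hx1
    have h5 : e ⟨x, hx⟩ = 1 := h4
    have h6 : (⟨x, hx⟩ : P) = 1 := (MulEquiv.map_eq_one_iff e).1 h5
    exact congrArg Subtype.val h6

end K3

open K3 in
theorem prK3 (_h1 : PA1) (_h2 : PA2) (h8 : PA8) (h9 : PA9) : PK3 := by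
  intro σ G _ _ S hS x0 y y1 z z1 x1 a01 a11 f1 _ a21 a22 f2 _ n1 n2 c c1 c2 c3 c4
  by_contra hc
  obtain ⟨a, ha, ha1⟩ := SetLike.not_le_iff_exists.1 n1
  obtain ⟨b, hb, hb1⟩ := SetLike.not_le_iff_exists.1 n2
  rw [MulAction.mem_stabilizer_iff] at ha1 hb1
  have ha' := Subgroup.mem_inf.1 ha
  have hb' := Subgroup.mem_inf.1 hb
  rw [MulAction.mem_stabilizer_iff, MulAction.mem_stabilizer_iff] at ha' hb'
  have hcy : c ∈ MulAction.stabilizer G y ⊓ MulAction.stabilizer G x0 :=
    Subgroup.mem_inf.2 ⟨c2, c1⟩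
  have hcz : c ∈ MulAction.stabilizer G z ⊓ MulAction.stabilizer G x1 :=
    Subgroup.mem_inf.2 ⟨c3, c4⟩
  have hy2 := hS.torus y x0 a01.symm
  have hz2 := hS.torus z x1 a21
  have hca : Commute a c := comm_of_isZ2 _ hy2 a c ha hcy
  have hcb : Commute b c := comm_of_isZ2 _ hz2 b c hb hcz
  have hch : Commute (a * b) c := hca.mul_left hcb
  have hdist : 0 < S.dist y z := by
    unfold Far at f1
    simp only at f1
    omega
  have key : ∀ m : ℕ, S.dist y ((a * b) ^ m • y) = 2 * m * S.dist y z := by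
    intro m
    have := (h9 S hS.tree hS.adj_smul y z y1 z1 a b a11 f1 a22 f2 ha'.1 ha1 hb'.1 hb1 y
      (by unfold Beh; simp) m).1
    rw [this]
    simp
  have key2 : ∀ m : ℤ, (a * b) ^ m • y = y → m = 0 := by
    intro m hm
    have hnat : ∀ k : ℕ, (a * b) ^ k • y = y → k = 0 := by
      intro k hk
      have h3 := key k
      rw [hk, SimpleGraph.dist_self] at h3
      by_contra hk0
      have : 0 < 2 * k * S.dist y z := by positivity
      omega
    rcases Int.natAbs_eq m with h | h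
    · rw [h, zpow_natCast] at hm
      have := hnat _ hm
      omega
    · rw [h, zpow_neg, zpow_natCast] at hm
      have h3 : (a * b) ^ m.natAbs • y = y := by
        rw [inv_smul_eq_iff] at hm
        exact hm.symm
      have := hnat _ h3
      omega
  -- the subgroup generated by `a b` and `c`
  let φ : Multiplicative (ℤ × ℤ) →* G :=
    { toFun := fun x => (a * b) ^ (Multiplicative.toAdd x).1 * c ^ (Multiplicative.toAdd x).2
      map_one' := by simp
      map_mul' := by
        intro x x'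
        rw [toAdd_mul, Prod.fst_add, Prod.snd_add, zpow_add, zpow_add]
        have h3 := (hch.zpow_zpow (Multiplicative.toAdd x').1 (Multiplicative.toAdd x).2).eq
        rw [mul_assoc, mul_assoc]
        congr 1
        rw [← mul_assoc, ← mul_assoc, h3] }
  have hφ : Function.Injective φ := by
    rw [injective_iff_map_eq_one]
    intro x hx
    have hx' : (a * b) ^ (Multiplicative.toAdd x).1 * c ^ (Multiplicative.toAdd x).2 = 1 := hx
    have hcn : c ^ (Multiplicative.toAdd x).2 • y = y := by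
      have : c ^ (Multiplicative.toAdd x).2 ∈ MulAction.stabilizer G y :=
        Subgroup.zpow_mem _ (MulAction.mem_stabilizer_iff.2 c2) _
      exact this
    have h3 : (a * b) ^ (Multiplicative.toAdd x).1 • y = y := by
      have h4 : ((a * b) ^ (Multiplicative.toAdd x).1 * c ^ (Multiplicative.toAdd x).2) • y = y := by
        rw [hx', one_smul]
      rwa [mul_smul, hcn] at h4
    have h4 := key2 _ h3
    rw [h4, zpow_zero, one_mul] at hx'
    have h5 := torsion_of_isZ2 _ hy2 c hcy hc _ hx'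
    exact Prod.ext h4 h5
  obtain ⟨r, hr⟩ := hS.enclosing φ.range ⟨(MonoidHom.ofInjective hφ).symm⟩
  have hr1 : a * b ∈ MulAction.stabilizer G r := by
    refine hr ⟨Multiplicative.ofAdd (1, 0), ?_⟩
    change (a * b) ^ (1 : ℤ) * c ^ (0 : ℤ) = a * b
    simp
  have hr2 : ∀ m : ℕ, (a * b) ^ m • r = r := by
    intro m
    exact Subgroup.pow_mem _ hr1 m
  have h3 := key (S.dist y r + 1)
  have h4 := hS.tree.1.dist_triangle (u := y) (v := r)
    (w := (a * b) ^ (S.dist y r + 1) • y)
  have h5 := h8 S hS.adj_smul ((a * b) ^ (S.dist y r + 1)) r y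
  rw [hr2] at h5
  have h6 : S.dist r y = S.dist y r := SimpleGraph.dist_comm
  rw [h5, h6] at h4
  have h7 : 2 * (S.dist y r + 1) ≤ 2 * (S.dist y r + 1) * S.dist y z :=
    Nat.le_mul_of_pos_right _ hdist
  omega

end Pool.Agent.MP_343d73

end

section

set_option autoImplicit false

namespace Pool.Agent.MP_343d73

namespace K4

/-- two points on a geodesic -/
theorem dist_pts (h4 : PA4) {σ : Type} (S : SimpleGraph σ) (hS : S.IsTree) (x y : σ) (m n : ℕ)
    (hmn : m ≤ n) (pm pn : σ) (e1 : S.dist x pm = m)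
    (e2 : S.dist x pm + S.dist pm y = S.dist x y) (e3 : S.dist x pn = n)
    (e4 : S.dist x pn + S.dist pn y = S.dist x y) : S.dist pm pn = n - m := by
  obtain ⟨r, ⟨hr1, hr2⟩, -⟩ := h4 S hS x pn m (by omega)
  have t1 := hS.1.dist_triangle (u := r) (v := pn) (w := y)
  have t2 := hS.1.dist_triangle (u := x) (v := r) (w := y)
  have hr3 : S.dist x r + S.dist r y = S.dist x y := by omega
  have hr4 : r = pm := by
    obtain ⟨r0, _, hr0⟩ := h4 S hS x y m (by omega)
    rw [hr0 r ⟨hr1, hr3⟩, hr0 pm ⟨e1, e2⟩]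
  rw [← hr4]
  omega

end K4

open K4 in
theorem prK4 (_h1 : PA1) (_h2 : PA2) (h4 : PA4) (h8 : PA8) (k3 : PK3) : PK4 := by
  intro σ G _ _ S hS hK2 hval x y hxy g hgx hgy
  have hex : ∀ n : ℕ, ∃ r, n ≤ S.dist x y → S.dist x r = n ∧
      S.dist x r + S.dist r y = S.dist x y := by
    intro n
    by_cases hn : n ≤ S.dist x y
    · obtain ⟨r, hr, -⟩ := h4 S hS.tree x y n hn
      exact ⟨r, fun _ => hr⟩
    · exact ⟨x, fun h => absurd h hn⟩
  choose p hp using hex
  have hfix : ∀ n, n ≤ 5 → g • p n = p n := by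
    intro n hn
    obtain ⟨r, _, hr⟩ := h4 S hS.tree x y n (by omega)
    obtain ⟨e1, e2⟩ := hp n (by omega)
    have e3 := h8 S hS.adj_smul g x (p n)
    have e4 := h8 S hS.adj_smul g (p n) y
    rw [hgx] at e3
    rw [hgy] at e4
    rw [hr (p n) ⟨e1, e2⟩]
    refine Eq.trans ?_ (hr (g • p n) ⟨by omega, by omega⟩)
    rw [hr (p n) ⟨e1, e2⟩]
  have hd : ∀ m n, m ≤ n → n ≤ 5 → S.dist (p m) (p n) = n - m := by
    intro m n hmn hn
    obtain ⟨e1, e2⟩ := hp m (by omega)
    obtain ⟨e3, e4⟩ := hp n (by omega)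
    exact dist_pts h4 S hS.tree x y m n hmn (p m) (p n) e1 e2 e3 e4
  have hadj : ∀ n, n + 1 ≤ 5 → S.Adj (p n) (p (n + 1)) := by
    intro n hn
    refine SimpleGraph.dist_eq_one_iff_adj.1 ?_
    rw [hd n (n + 1) (by omega) hn]
    omega
  -- non-inclusion at a branching point
  have hnon : ∀ u a b, S.Adj u a → S.Adj u b → a ≠ b →
      (∃ b1 b2 b3, S.Adj u b1 ∧ S.Adj u b2 ∧ S.Adj u b3 ∧ b1 ≠ b2 ∧ b1 ≠ b3 ∧ b2 ≠ b3) →
      ¬ MulAction.stabilizer G u ⊓ MulAction.stabilizer G a ≤ MulAction.stabilizer G b := by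
    rintro u a b ha hb hab ⟨b1, b2, b3, h1, h2, h3, h12, h13, h23⟩
    have : ∃ d, S.Adj u d ∧ a ≠ d ∧ b ≠ d := by
      by_contra hcon
      push Not at hcon
      have q1 := hcon b1 h1
      have q2 := hcon b2 h2
      have q3 := hcon b3 h3
      by_cases r1 : a = b1
      · by_cases r2 : a = b2
        · exact h12 (r1.symm.trans r2)
        · have r3 := q2 r2
          by_cases r4 : a = b3
          · exact h13 (r1.symm.trans r4)
          · exact h23 (r3.symm.trans (q3 r4))
      · have r3 := q1 r1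
        by_cases r2 : a = b2
        · by_cases r4 : a = b3
          · exact h23 (r2.symm.trans r4)
          · exact h13 (r3.symm.trans (q3 r4))
        · exact h12 (r3.symm.trans (q2 r2))
    obtain ⟨d, hd1, hd2, hd3⟩ := this
    exact hK2 u a b d ha hb hd1 hab hd2 hd3
  have hne : ∀ m n, m < n → n ≤ 5 → p m ≠ p n := by
    intro m n hmn hn h
    have := hd m n hmn.le hn
    rw [h, SimpleGraph.dist_self] at this
    omega
  have main : ∀ i j, 1 ≤ i → i < j → j + 1 ≤ 5 →
      (∃ b1 b2 b3, S.Adj (p i) b1 ∧ S.Adj (p i) b2 ∧ S.Adj (p i) b3 ∧ b1 ≠ b2 ∧ b1 ≠ b3 ∧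
        b2 ≠ b3) →
      (∃ b1 b2 b3, S.Adj (p j) b1 ∧ S.Adj (p j) b2 ∧ S.Adj (p j) b3 ∧ b1 ≠ b2 ∧ b1 ≠ b3 ∧
        b2 ≠ b3) → g = 1 := by
    intro i j hi hij hj hbi hbj
    obtain ⟨i', rfl⟩ : ∃ i', i = i' + 1 := ⟨i - 1, by omega⟩
    obtain ⟨j', rfl⟩ : ∃ j', j = j' + 1 := ⟨j - 1, by omega⟩
    refine k3 S hS (p i') (p (i' + 1)) (p (i' + 1 + 1)) (p (j' + 1)) (p j') (p (j' + 1 + 1))
      (hadj i' (by omega)) (hadj (i' + 1) (by omega)) ?_ ?_ (hadj (j' + 1) (by omega))
      (hadj j' (by omega)).symm ?_ ?_ ?_ ?_ g (hfix _ (by omega)) (hfix _ (by omega))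
      (hfix _ (by omega)) (hfix _ (by omega))
    · unfold Far
      simp only
      rw [hd (i' + 1 + 1) (j' + 1) (by omega) (by omega), hd (i' + 1) (j' + 1) (by omega) (by omega)]
      omega
    · unfold Far
      simp only
      rw [SimpleGraph.dist_comm (u := p (i' + 1 + 1)), SimpleGraph.dist_comm (u := p (i' + 1)),
        hd i' (i' + 1 + 1) (by omega) (by omega), hd i' (i' + 1) (by omega) (by omega)]
      omega
    · unfold Far
      simp only
      rw [SimpleGraph.dist_comm (u := p j'), SimpleGraph.dist_comm (u := p (j' + 1)),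
        hd (i' + 1) j' (by omega) (by omega), hd (i' + 1) (j' + 1) (by omega) (by omega)]
      omega
    · unfold Far
      simp only
      rw [hd j' (j' + 1 + 1) (by omega) (by omega), hd (j' + 1) (j' + 1 + 1) (by omega) (by omega)]
      omega
    · exact hnon _ _ _ (hadj i' (by omega)).symm (hadj (i' + 1) (by omega))
        (hne _ _ (by omega) (by omega)) hbi
    · exact hnon _ _ _ (hadj (j' + 1) (by omega)) (hadj j' (by omega)).symm
        (hne _ _ (by omega) (by omega)).symm hbj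
  rcases hval (p 1) (p 2) (hadj 1 (by omega)) with h1 | h1
  · rcases hval (p 3) (p 4) (hadj 3 (by omega)) with h3 | h3
    · exact main 1 3 (by omega) (by omega) (by omega) h1 h3
    · exact main 1 4 (by omega) (by omega) (by omega) h1 h3
  · rcases hval (p 3) (p 4) (hadj 3 (by omega)) with h3 | h3
    · exact main 2 3 (by omega) (by omega) (by omega) h1 h3
    · exact main 2 4 (by omega) (by omega) (by omega) h1 h3

end Pool.Agent.MP_343d73

end

section

set_option autoImplicit false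

namespace Pool.Agent.MP_343d73

namespace K5

theorem nb_orbit {σ G : Type} [Group G] [MulAction G σ] (S : SimpleGraph σ) (hS : IsJSJTree G S)
    (u v : σ) (hadj : S.Adj u v)
    (hu : ¬ ∃ b1 b2 b3, S.Adj u b1 ∧ S.Adj u b2 ∧ S.Adj u b3 ∧ b1 ≠ b2 ∧ b1 ≠ b3 ∧ b2 ≠ b3)
    (x b : σ) (hx : x ∈ MulAction.orbit G u) (hxb : S.Adj x b) : b ∈ MulAction.orbit G v := by
  obtain ⟨g, hg1, hg2⟩ := SetLike.not_le_iff_exists.1 (hS.proper u v hadj)
  rw [MulAction.mem_stabilizer_iff] at hg1 hg2
  obtain ⟨h, rfl⟩ := hx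
  have h1 : S.Adj u (h⁻¹ • b) := by
    have := hS.adj_smul h⁻¹ _ _ hxb
    simpa using this
  have h2 : S.Adj u (g • v) := by
    have := hS.adj_smul g _ _ hadj
    rwa [hg1] at this
  have h3 : h⁻¹ • b ∈ MulAction.orbit G v := by
    by_contra hcon
    refine hu ⟨h⁻¹ • b, v, g • v, h1, hadj, h2, ?_, ?_, fun h => hg2 h.symm⟩
    · intro h4
      exact hcon (by rw [h4]; exact MulAction.mem_orbit_self v)
    · intro h4
      exact hcon (by rw [h4]; exact MulAction.mem_orbit v g)
  obtain ⟨k, hk⟩ := h3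
  refine ⟨h * k, ?_⟩
  simp only [mul_smul]
  simp only at hk
  rw [hk, smul_inv_smul]

end K5

open K5 in
theorem prK5 : PK5 := by
  intro σ G _ _ S hS u v hadj hu hv q
  have hwalk : ∀ x y : σ, S.Walk x y → (x ∈ MulAction.orbit G u ∨ x ∈ MulAction.orbit G v) →
      (y ∈ MulAction.orbit G u ∨ y ∈ MulAction.orbit G v) := by
    intro x y w
    induction w with
    | nil => exact id
    | cons h _ ih =>
      intro hx
      refine ih ?_
      rcases hx with hx | hx
      · exact Or.inr (nb_orbit S hS u v hadj hu _ _ hx h)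
      · exact Or.inl (nb_orbit S hS v u hadj.symm hv _ _ hx h)
  obtain ⟨r, rfl⟩ := Quotient.exists_rep q
  obtain ⟨w⟩ := hS.tree.1 u r
  rcases hwalk u r w (Or.inl (MulAction.mem_orbit_self u)) with h | h
  · left
    exact Quotient.sound (MulAction.orbitRel_apply.2 h)
  · right
    exact Quotient.sound (MulAction.orbitRel_apply.2 h)

end Pool.Agent.MP_343d73

end

section

set_option autoImplicit false

/-!
Lemmas on `cbar`, `cE`, `Nn` used by the items E4, E6, E8, H10.
-/

namespace Pool.Agent.MP_343d73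

namespace Lem43

theorem cbar_eq {τ V : Type} (X : Tri τ V) (c : V → ℝ) (t : τ) (i : Fin 4) :
    X.cbar c t i = (∑ j ∈ Finset.univ.erase i, c (X.vx t j)) / 3 := by
  unfold Tri.cbar
  congr 1
  have h : (Finset.univ.erase i : Finset (Fin 4)) = {fa i, fb i, fc i} := by
    fin_cases i <;> decide
  rw [h]
  have h1 : fa i ∉ ({fb i, fc i} : Finset (Fin 4)) := by fin_cases i <;> decide
  have h2 : fb i ∉ ({fc i} : Finset (Fin 4)) := by fin_cases i <;> decide
  rw [Finset.sum_insert h1, Finset.sum_insert h2, Finset.sum_singleton, add_assoc]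

/-- both sides of a face have the same average -/
theorem cbar_nb {τ V : Type} (X : Tri τ V) (c : V → ℝ) (t : τ) (i : Fin 4) :
    X.cbar c (X.nb t i) (X.pm t i i) = X.cbar c t i := by
  rw [cbar_eq, cbar_eq]
  congr 1
  symm
  refine Finset.sum_bij (fun j _ => X.pm t i j) ?_ ?_ ?_ ?_
  · intro j hj
    rw [Finset.mem_erase] at hj ⊢
    exact ⟨fun h => hj.1 ((X.pm t i).injective h), Finset.mem_univ _⟩
  · intro j _ j' _ h
    exact (X.pm t i).injective h
  · intro j hj
    refine ⟨(X.pm t i).symm j, ?_, by simp⟩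
    rw [Finset.mem_erase] at hj ⊢
    exact ⟨fun h => hj.1 ((X.pm t i).symm_apply_eq.1 h), Finset.mem_univ _⟩
  · intro j hj
    rw [Finset.mem_erase] at hj
    rw [X.vx_nb t i j hj.1]

theorem cbar_const {τ V : Type} (X : Tri τ V) (c : V → ℝ) (x : ℝ) (t : τ) (i : Fin 4)
    (h : ∀ j, c (X.vx t j) = x) : X.cbar c t i = x := by
  unfold Tri.cbar
  rw [h, h, h]
  ring

variable {τ V σ G : Type} [Group G] [MulAction G τ] [MulAction G V] [MulAction G σ]
  (C : Ctx τ V σ G)

theorem Nn_zero (p : σ × σ) (e : τ → Fin 4 → ℝ) (t : τ) (he : ∑ i, e t i = 0)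
    (hc : ¬ C.crossT p t) : C.Nn p e t = 0 := by
  have h1 : ∀ j, C.cE p (C.X.vx t j) = C.cE p (C.X.vx t 0) := by
    intro j
    unfold Ctx.cE
    by_cases h : Far C.S p (C.ph (C.X.vx t j))
    · by_cases h0 : Far C.S p (C.ph (C.X.vx t 0))
      · rw [if_pos h, if_pos h0]
      · exact absurd ⟨j, 0, h, h0⟩ hc
    · by_cases h0 : Far C.S p (C.ph (C.X.vx t 0))
      · exact absurd ⟨0, j, h0, h⟩ hc
      · rw [if_neg h, if_neg h0]
  unfold Ctx.Nn
  rw [Finset.sum_congr rfl fun i _ => by
    rw [cbar_const C.X (C.cE p) (C.cE p (C.X.vx t 0)) t i h1], ← Finset.mul_sum, he, mul_zero]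

theorem Far_smul (h8 : PA8) (g : G) (p : σ × σ) (r : σ) :
    Far C.S (g • p) (g • r) ↔ Far C.S p r := by
  unfold Far
  rw [Prod.smul_snd, Prod.smul_fst, h8 C.S C.adj_smul, h8 C.S C.adj_smul]

open scoped Classical in
theorem cE_smul (h8 : PA8) (g : G) (p : σ × σ) (v : V) : C.cE (g • p) (g • v) = C.cE p v := by
  unfold Ctx.cE
  rw [C.ph_smul]
  exact if_congr (Far_smul C h8 g p (C.ph v)) rfl rfl

theorem cbar_smul (h8 : PA8) (g : G) (p : σ × σ) (t : τ) (i : Fin 4) :
    C.X.cbar (C.cE (g • p)) (g • t) i = C.X.cbar (C.cE p) t i := by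
  unfold Tri.cbar
  simp only [C.deck.vx_smul, cE_smul C h8]

/-- equivariance of the flux density -/
theorem Nn_smul (h8 : PA8) (g : G) (p : σ × σ) (e e' : τ → Fin 4 → ℝ) (t : τ)
    (h : ∀ i, e' (g • t) i = e t i) : C.Nn (g • p) e' (g • t) = C.Nn p e t := by
  unfold Ctx.Nn
  refine Finset.sum_congr rfl fun i _ => ?_
  rw [cbar_smul C h8, h]

theorem cl_smul {α : Type} [MulAction G α] (k : G) (t : α) : cl G (k • t) = cl G t :=
  Quotient.sound (MulAction.orbitRel_apply.2 ⟨k, rfl⟩)

theorem exists_smul_out {α : Type} [MulAction G α] (t : α) : ∃ k : G, k • (cl G t).out = t := by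
  obtain ⟨k, hk⟩ : (cl G t).out ∈ MulAction.orbit G t :=
    MulAction.orbitRel_apply.1 (Quotient.exact (Quotient.out_eq _))
  refine ⟨k⁻¹, ?_⟩
  rw [← hk]
  simp

end Lem43

end Pool.Agent.MP_343d73

end

section

set_option autoImplicit false

/-!
R1: a simply connected triangulation has vanishing first cohomology.
-/

namespace Pool.Agent.MP_343d73

variable {τ V : Type}

/-- extended rotation -/
def rotE (X : Tri τ V) (p : τ × Equiv.Perm (Fin 4)) : τ × Equiv.Perm (Fin 4) :=
  (X.nb p.1 (p.2 0), X.pm p.1 (p.2 0) * p.2 * Equiv.swap 0 1)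

/-- the state of an extended state -/
def stE (p : τ × Equiv.Perm (Fin 4)) : τ × Fin 4 × Fin 4 := (p.1, p.2 0, p.2 1)

theorem stE_rotE (X : Tri τ V) (p : τ × Equiv.Perm (Fin 4)) :
    stE (rotE X p) = X.rot (stE p) := by
  simp [stE, rotE, Tri.rot]

theorem stE_iter (X : Tri τ V) (p : τ × Equiv.Perm (Fin 4)) (n : ℕ) :
    stE ((rotE X)^[n] p) = X.rot^[n] (stE p) := by
  induction n with
  | zero => rfl
  | succ n ih => rw [Function.iterate_succ_apply', Function.iterate_succ_apply', stE_rotE, ih]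

theorem rotE_mul (X : Tri τ V) (t : τ) (ρ : Equiv.Perm (Fin 4)) :
    rotE X (t, ρ * Equiv.swap 2 3) = ((rotE X (t, ρ)).1, (rotE X (t, ρ)).2 * Equiv.swap 2 3) := by
  have h0 : (ρ * (Equiv.swap 2 3 : Equiv.Perm (Fin 4))) 0 = ρ 0 := by
    rw [Equiv.Perm.mul_apply]
    congr 1
  have hc : (Equiv.swap 2 3 : Equiv.Perm (Fin 4)) * Equiv.swap 0 1 =
      Equiv.swap 0 1 * Equiv.swap 2 3 := by decide
  simp only [rotE, h0]
  refine Prod.ext rfl ?_
  show X.pm t (ρ 0) * (ρ * Equiv.swap 2 3) * Equiv.swap 0 1 =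
    X.pm t (ρ 0) * ρ * Equiv.swap 0 1 * Equiv.swap 2 3
  rw [mul_assoc, mul_assoc, hc, mul_assoc, mul_assoc]

theorem rotE_iter_mul (X : Tri τ V) (t : τ) (ρ : Equiv.Perm (Fin 4)) (n : ℕ) :
    (rotE X)^[n] (t, ρ * Equiv.swap 2 3) =
      (((rotE X)^[n] (t, ρ)).1, ((rotE X)^[n] (t, ρ)).2 * Equiv.swap 2 3) := by
  induction n with
  | zero => rfl
  | succ n ih =>
    rw [Function.iterate_succ_apply', Function.iterate_succ_apply', ih, rotE_mul]

theorem exists_perm01 : ∀ i j : Fin 4, i ≠ j → ∃ ρ : Equiv.Perm (Fin 4), ρ 0 = i ∧ ρ 1 = j := by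
  decide

theorem perm_fix01 : ∀ σ : Equiv.Perm (Fin 4), σ 0 = 0 → σ 1 = 1 → σ = 1 ∨ σ = Equiv.swap 2 3 := by
  decide

theorem perm_agree (ρ ρ' : Equiv.Perm (Fin 4)) (h0 : ρ 0 = ρ' 0) (h1 : ρ 1 = ρ' 1) :
    ρ' = ρ ∨ ρ' = ρ * Equiv.swap 2 3 := by
  rcases perm_fix01 (ρ⁻¹ * ρ') (by simp [← h0]) (by simp [← h1]) with h | h
  · left
    rw [inv_mul_eq_iff_eq_mul] at h
    simpa using h
  · right
    rw [inv_mul_eq_iff_eq_mul] at h
    exact h

/-- turning twice around an edge is the identity -/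
theorem rotE_two (X : Tri τ V) (p : τ × Equiv.Perm (Fin 4)) (n : ℕ)
    (h : X.rot^[n] (stE p) = stE p) : (rotE X)^[n] ((rotE X)^[n] p) = p := by
  obtain ⟨t, ρ⟩ := p
  have h1 := stE_iter X (t, ρ) n
  rw [h] at h1
  rcases hq : (rotE X)^[n] (t, ρ) with ⟨t', ρ'⟩
  rw [hq] at h1
  simp only [stE, Prod.mk.injEq] at h1
  obtain ⟨h1, h2, h3⟩ := h1
  subst h1
  rcases perm_agree ρ ρ' h2.symm h3.symm with h4 | h4
  · rw [h4] at hq ⊢
    exact hq
  · rw [h4, rotE_iter_mul, hq, h4]
    ext1
    · rfl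
    · show ρ * Equiv.swap 2 3 * Equiv.swap 2 3 = ρ
      rw [mul_assoc, Equiv.swap_mul_self, mul_one]

theorem fa_ne : ∀ i : Fin 4, fa i ≠ i := by decide

theorem closed_tet (b : τ → Fin 4 → Fin 4 → ℝ) (ha : ∀ t j k, b t k j = - b t j k)
    (hd : ∀ t i, d1 b t i = 0) (t : τ) (j k : Fin 4) : b t j k = b t 0 k - b t 0 j := by
  have h0 := hd t 0
  have h1 := hd t 1
  have h2 := hd t 2
  have h3 := hd t 3
  simp only [d1, fa, fb, fc, Matrix.cons_val] at h0 h1 h2 h3
  have a00 := ha t 0 0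
  have a11 := ha t 1 1
  have a22 := ha t 2 2
  have a33 := ha t 3 3
  have a01 := ha t 0 1
  have a02 := ha t 0 2
  have a03 := ha t 0 3
  have a12 := ha t 1 2
  have a13 := ha t 1 3
  have a23 := ha t 2 3
  fin_cases j <;> fin_cases k <;> simp only [Fin.zero_eta, Fin.mk_one, Fin.reduceFinMk] <;> linarith

theorem prR1 : PR1 := by
  intro τ V X hX b hb hd
  obtain ⟨hconn, hsc⟩ := hX
  obtain ⟨ha, hglue⟩ := hb
  -- local primitives
  set h : τ → Fin 4 → ℝ := fun t j => b t 0 j with hh
  have hbt : ∀ t j k, b t j k = h t k - h t j := fun t j k => closed_tet b ha hd t j k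
  set lam : τ → Fin 4 → ℝ := fun t i => h (X.nb t i) (X.pm t i (fa i)) - h t (fa i) with hlam
  have key : ∀ t i j, j ≠ i → h (X.nb t i) (X.pm t i j) - h t j = lam t i := by
    intro t i j hj
    have h1 := hglue t i (fa i) j (fa_ne i) hj
    rw [hbt, hbt] at h1
    simp only [hlam]
    linarith
  have hF : ∀ p : τ × Equiv.Perm (Fin 4), h (rotE X p).1 ((rotE X p).2 2) - h p.1 (p.2 2) =
      lam p.1 (p.2 0) := by
    intro p
    have h1 : (rotE X p).2 2 = X.pm p.1 (p.2 0) (p.2 2) := by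
      simp only [rotE, Equiv.Perm.mul_apply]
      congr 2
    rw [h1]
    exact key p.1 (p.2 0) (p.2 2) (fun h => by simpa using p.2.injective h)
  have hT : ∀ (p : τ × Equiv.Perm (Fin 4)) (n : ℕ),
      ((List.range n).map fun l => Multiplicative.ofAdd
        (lam (X.turn p.1 (p.2 0) (p.2 1) l).1 (X.turn p.1 (p.2 0) (p.2 1) l).2)).prod =
      Multiplicative.ofAdd (h ((rotE X)^[n] p).1 (((rotE X)^[n] p).2 2) - h p.1 (p.2 2)) := by
    intro p n
    induction n with
    | zero => simp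
    | succ n ih =>
      rw [List.range_succ, List.map_append, List.prod_append, ih]
      simp only [List.map_cons, List.map_nil, List.prod_cons, List.prod_nil, mul_one]
      rw [← ofAdd_add, Function.iterate_succ_apply']
      congr 1
      have h1 := hF ((rotE X)^[n] p)
      have h2 := stE_iter X p n
      have h3 : X.turn p.1 (p.2 0) (p.2 1) n =
          (((rotE X)^[n] p).1, ((rotE X)^[n] p).2 0) := by
        have h4 : X.rot^[n] (p.1, p.2 0, p.2 1) = stE ((rotE X)^[n] p) := h2.symm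
        simp only [Tri.turn, h4, stE]
      rw [h3]
      simp only
      linarith
  have hff := hsc (Multiplicative ℝ) (fun t i => Multiplicative.ofAdd (lam t i)) ?_ ?_ ?_
  · -- the vertex function
    obtain ⟨f, hf⟩ := hff
    have hf' : ∀ t i, lam t i = Multiplicative.toAdd (f (X.nb t i)) - Multiplicative.toAdd (f t) := by
      intro t i
      have h1 := congrArg Multiplicative.toAdd (hf t i)
      rw [toAdd_ofAdd, toAdd_mul, toAdd_inv] at h1
      linarith
    have hinv : ∀ p q : τ × Fin 4, Relation.EqvGen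
        (fun p q : τ × Fin 4 => ∃ i, p.2 ≠ i ∧ q = (X.nb p.1 i, X.pm p.1 i p.2)) p q →
        h p.1 p.2 - Multiplicative.toAdd (f p.1) = h q.1 q.2 - Multiplicative.toAdd (f q.1) := by
      intro p q hpq
      induction hpq with
      | rel p q hpq =>
        obtain ⟨i, hi, rfl⟩ := hpq
        have h1 := key p.1 i p.2 hi
        have h2 := hf' p.1 i
        simp only
        linarith
      | refl p => rfl
      | symm p q _ ih => exact ih.symm
      | trans p q r _ _ ih1 ih2 => exact ih1.trans ih2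
    choose tv iv hv using X.vx_surj
    refine ⟨fun v => h (tv v) (iv v) - Multiplicative.toAdd (f (tv v)), ?_⟩
    have hval : ∀ t j, h (tv (X.vx t j)) (iv (X.vx t j)) - Multiplicative.toAdd (f (tv (X.vx t j))) =
        h t j - Multiplicative.toAdd (f t) := by
      intro t j
      exact hinv _ _ (X.vx_eq _ _ _ _ (hv (X.vx t j)))
    intro t j k
    simp only
    rw [hval, hval, hbt]
    ring
  · -- antisymmetry
    intro t i
    rw [← ofAdd_neg]
    congr 1
    have h1 : X.pm t i (fa i) ≠ X.pm t i i := fun h => fa_ne i ((X.pm t i).injective h)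
    have h2 := key (X.nb t i) (X.pm t i i) (X.pm t i (fa i)) h1
    have h3 : (X.pm t i)⁻¹ (X.pm t i (fa i)) = fa i := by simp
    rw [X.nb_nb, X.pm_pm, h3] at h2
    rw [← h2]
    simp only [hlam]
    ring
  · -- boundary faces
    intro t i hbd
    have h1 := X.bdry t i hbd.1 hbd.2
    simp only [hlam, hbd.1, h1, Equiv.Perm.one_apply, sub_self, ofAdd_zero]
  · -- around an edge
    intro t i j n hij hn
    obtain ⟨ρ, h0, h1⟩ := exists_perm01 i j hij
    have e1 := hT (t, ρ) n
    simp only [h0, h1] at e1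
    have hst : stE (t, ρ) = (t, i, j) := by simp only [stE, h0, h1]
    have hst' : stE ((rotE X)^[n] (t, ρ)) = (t, i, j) := by rw [stE_iter, hst, hn]
    have e2 := hT ((rotE X)^[n] (t, ρ)) n
    have h2 := rotE_two X (t, ρ) n (by rw [hst, hn])
    rcases hq : (rotE X)^[n] (t, ρ) with ⟨t', ρ'⟩
    rw [hq] at e1 e2 h2 hst'
    simp only [stE, Prod.mk.injEq] at hst'
    obtain ⟨h3, h4, h5⟩ := hst'
    subst h3
    simp only [h4, h5] at e2
    rw [h2] at e2
    simp only at e1 e2
    have e3 := e1.symm.trans e2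
    have e4 := congrArg Multiplicative.toAdd e3
    rw [toAdd_ofAdd, toAdd_ofAdd] at e4
    rw [e1, ofAdd_eq_one]
    linarith

end Pool.Agent.MP_343d73

end

section

set_option autoImplicit false

/-!
R2: faces of a surface that are seen from the same side bound the same two pieces.
-/

namespace Pool.Agent.MP_343d73

variable {τ V : Type}

/-- the same face seen from the other side -/
def opF (X : Tri τ V) (a : τ × Fin 4) : τ × Fin 4 := (X.nb a.1 a.2, X.pm a.1 a.2 a.2)

theorem opF_opF (X : Tri τ V) (a : τ × Fin 4) : opF X (opF X a) = a := by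
  obtain ⟨t, i⟩ := a
  simp only [opF]
  rw [X.nb_nb, X.pm_pm]
  simp

/-- turning around the same edge in the other direction -/
def revS (p : τ × Fin 4 × Fin 4) : τ × Fin 4 × Fin 4 := (p.1, p.2.2, p.2.1)

theorem rot_rev_rot (X : Tri τ V) (p : τ × Fin 4 × Fin 4) :
    X.rot (revS (X.rot p)) = revS p := by
  obtain ⟨t, i, j⟩ := p
  simp only [Tri.rot, revS]
  rw [X.nb_nb, X.pm_pm]
  simp

theorem iter_rev_iter (X : Tri τ V) (p : τ × Fin 4 × Fin 4) (l : ℕ) :
    X.rot^[l] (revS (X.rot^[l] p)) = revS p := by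
  induction l with
  | zero => rfl
  | succ l ih =>
    rw [Function.iterate_succ_apply, Function.iterate_succ_apply', rot_rev_rot, ih]

theorem iter_rev (X : Tri τ V) (p : τ × Fin 4 × Fin 4) (n l : ℕ) (hl : l ≤ n)
    (hn : X.rot^[n] p = p) : X.rot^[l] (revS p) = revS (X.rot^[n - l] p) := by
  have h1 : X.rot^[l] (X.rot^[n - l] p) = p := by
    rw [← Function.iterate_add_apply, Nat.add_sub_cancel' hl, hn]
  have h2 := iter_rev_iter X (X.rot^[n - l] p) l
  rw [h1] at h2
  exact h2

theorem turn_rev (X : Tri τ V) (t : τ) (i j : Fin 4) (n l : ℕ) (hl : l < n)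
    (hn : X.rot^[n] (t, i, j) = (t, i, j)) :
    X.turn t j i l = opF X (X.turn t i j (n - 1 - l)) := by
  have h1 := iter_rev X (t, i, j) n l hl.le hn
  have h2 : n - l = (n - 1 - l) + 1 := by omega
  rw [h2, Function.iterate_succ_apply'] at h1
  have h3 : revS (t, i, j) = (t, j, i) := rfl
  rw [h3] at h1
  simp only [Tri.turn, h1]
  rfl

theorem turn_shift (X : Tri τ V) (t : τ) (i j : Fin 4) (l : ℕ) :
    X.turn (X.nb t i) (X.pm t i j) (X.pm t i i) l = X.turn t i j (l + 1) := by
  simp only [Tri.turn, Function.iterate_succ_apply]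
  rfl

theorem mem_opF {X : Tri τ V} {D : Set (τ × Fin 4)} (hD : X.IsSurface D) (a : τ × Fin 4) :
    opF X a ∈ D ↔ a ∈ D := by
  constructor
  · intro h
    have := hD.glue _ _ h
    have h2 := opF_opF X a
    rw [← h2]
    exact this
  · intro h
    exact hD.glue _ _ h

/-- the data of a side step -/
theorem sideStep_exists {X : Tri τ V} {D : Set (τ × Fin 4)} (hD : X.IsSurface D) (t : τ)
    (i j : Fin 4) (n m : ℕ) (h : (t, i) ∈ D) (hj : j ≠ i) (hm : 0 < m) (hmn : m < n)
    (hn : X.rot^[n] (t, i, j) = (t, i, j)) (hin : ∀ l, l < n → (X.turn t i j l ∈ D ↔ l = 0 ∨ l = m)) :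
    (X.turn t j i (n - 1 - m) = opF X (X.turn t i j m)) ∧
    (∀ l', l' < n - 1 - m → X.turn t j i l' ∉ D) ∧ opF X (X.turn t i j m) ∈ D ∧
    X.SideStep D (t, i) (opF X (X.turn t i j m)) := by
  have h1 : X.turn t j i (n - 1 - m) = opF X (X.turn t i j m) := by
    rw [turn_rev X t i j n (n - 1 - m) (by omega) hn]
    congr 2
    omega
  have h2 : ∀ l', l' < n - 1 - m → X.turn t j i l' ∉ D := by
    intro l' hl'
    rw [turn_rev X t i j n l' (by omega) hn, mem_opF hD, hin _ (by omega)]
    omega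
  have h3 : opF X (X.turn t i j m) ∈ D := by
    rw [mem_opF hD, hin m hmn]
    exact Or.inr rfl
  exact ⟨h1, h2, h3, h, h3, j, n - 1 - m, hj, h1.symm, h2⟩

theorem sideStep_char {X : Tri τ V} {D : Set (τ × Fin 4)} (hD : X.IsSurface D)
    {a b : τ × Fin 4} (hab : X.SideStep D a b) : ∃ j m n, j ≠ a.2 ∧ 0 < m ∧ m < n ∧
    X.rot^[n] (a.1, a.2, j) = (a.1, a.2, j) ∧
    (∀ l, l < n → (X.turn a.1 a.2 j l ∈ D ↔ l = 0 ∨ l = m)) ∧ b = opF X (X.turn a.1 a.2 j m) := by
  obtain ⟨t, i⟩ := a
  obtain ⟨haD, hbD, j, l, hj, hb, hl⟩ := hab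
  simp only at hj hb hl ⊢
  obtain ⟨n, m, hm, hmn, hn, -, hin⟩ := hD.two t i j haD hj
  have hin' : ∀ l, l < n → (X.turn t i j l ∈ D ↔ l = 0 ∨ l = m) := fun l hl => (hin l hl).2
  obtain ⟨h1, h2, h3, -⟩ := sideStep_exists hD t i j n m haD hj hm hmn hn hin'
  refine ⟨j, m, n, hj, hm, hmn, hn, hin', ?_⟩
  have hle : l = n - 1 - m := by
    rcases lt_trichotomy l (n - 1 - m) with h | h | h
    · exact absurd (hb ▸ hbD) (h2 l h)
    · exact h
    · exact absurd (h1 ▸ h3) (hl _ h)
  rw [hb, hle, h1]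

theorem sideStep_op {X : Tri τ V} {D : Set (τ × Fin 4)} (hD : X.IsSurface D)
    {a b : τ × Fin 4} (hab : X.SideStep D a b) : X.SideStep D (opF X a) (opF X b) := by
  obtain ⟨j, m, n, hj, hm, hmn, hn, hin, hb⟩ := sideStep_char hD hab
  refine ⟨(mem_opF hD a).2 hab.1, (mem_opF hD b).2 hab.2.1, X.pm a.1 a.2 j, m - 1, ?_, ?_, ?_⟩
  · intro h
    exact hj ((X.pm a.1 a.2).injective h)
  · show opF X b = X.turn (X.nb a.1 a.2) (X.pm a.1 a.2 j) (X.pm a.1 a.2 a.2) (m - 1)
    rw [turn_shift, hb, opF_opF]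
    congr 1
    omega
  · intro l' hl'
    show X.turn (X.nb a.1 a.2) (X.pm a.1 a.2 j) (X.pm a.1 a.2 a.2) l' ∉ D
    rw [turn_shift, hin _ (by omega)]
    omega

theorem piece_turn {X : Tri τ V} {D : Set (τ × Fin 4)} (t : τ) (i j : Fin 4) (l : ℕ)
    (h : ∀ l', l' < l → X.turn t i j l' ∉ D) : X.PieceRel D t (X.turn t i j l).1 := by
  induction l with
  | zero => exact Relation.EqvGen.refl _
  | succ l ih =>
    refine Relation.EqvGen.trans _ _ _ (ih fun l' hl' => h l' (by omega)) ?_
    refine Relation.EqvGen.rel _ _ ⟨(X.turn t i j l).2, h l (by omega), ?_⟩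
    simp only [Tri.turn, Function.iterate_succ_apply']
    rfl

theorem sideStep_piece {X : Tri τ V} {D : Set (τ × Fin 4)} {a b : τ × Fin 4}
    (hab : X.SideStep D a b) : X.PieceRel D a.1 b.1 := by
  obtain ⟨haD, hbD, j, l, hj, hb, hl⟩ := hab
  rw [hb]
  exact piece_turn _ _ _ _ hl

theorem sideRel_all {X : Tri τ V} {D : Set (τ × Fin 4)} (hD : X.IsSurface D)
    {a b : τ × Fin 4} (hab : X.SideRel D a b) : (a ∈ D ↔ b ∈ D) ∧
    X.PieceRel D a.1 b.1 ∧ X.PieceRel D (X.nb a.1 a.2) (X.nb b.1 b.2) ∧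
    X.SideRel D (opF X a) (opF X b) := by
  induction hab with
  | rel a b h =>
    exact ⟨⟨fun _ => h.2.1, fun _ => h.1⟩, sideStep_piece h, sideStep_piece (sideStep_op hD h),
      Relation.EqvGen.rel _ _ (sideStep_op hD h)⟩
  | refl a =>
    exact ⟨Iff.rfl, Relation.EqvGen.refl _, Relation.EqvGen.refl _, Relation.EqvGen.refl _⟩
  | symm a b _ ih =>
    exact ⟨ih.1.symm, Relation.EqvGen.symm _ _ ih.2.1, Relation.EqvGen.symm _ _ ih.2.2.1,
      Relation.EqvGen.symm _ _ ih.2.2.2⟩
  | trans a b c _ _ ih1 ih2 =>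
    exact ⟨ih1.1.trans ih2.1, Relation.EqvGen.trans _ _ _ ih1.2.1 ih2.2.1,
      Relation.EqvGen.trans _ _ _ ih1.2.2.1 ih2.2.2.1,
      Relation.EqvGen.trans _ _ _ ih1.2.2.2 ih2.2.2.2⟩

theorem surfRel_all {X : Tri τ V} {D : Set (τ × Fin 4)} (hD : X.IsSurface D)
    {a b : τ × Fin 4} (hab : X.SurfRel D a b) :
    X.SideRel D a b ∨ X.SideRel D (opF X a) b := by
  induction hab with
  | rel a b h =>
    rcases h with h | ⟨-, h⟩
    · exact Or.inl (Relation.EqvGen.rel _ _ h)
    · right
      have h' : b = opF X a := h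
      rw [h']
      exact Relation.EqvGen.refl _
  | refl a => exact Or.inl (Relation.EqvGen.refl _)
  | symm a b _ ih =>
    rcases ih with ih | ih
    · exact Or.inl (Relation.EqvGen.symm _ _ ih)
    · right
      have h1 := (sideRel_all hD ih).2.2.2
      rw [opF_opF] at h1
      exact Relation.EqvGen.symm _ _ h1
  | trans a b c _ _ ih1 ih2 =>
    rcases ih1 with ih1 | ih1 <;> rcases ih2 with ih2 | ih2
    · exact Or.inl (Relation.EqvGen.trans _ _ _ ih1 ih2)
    · exact Or.inr (Relation.EqvGen.trans _ _ _ (sideRel_all hD ih1).2.2.2 ih2)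
    · exact Or.inr (Relation.EqvGen.trans _ _ _ ih1 ih2)
    · left
      have h1 := (sideRel_all hD ih1).2.2.2
      rw [opF_opF] at h1
      exact Relation.EqvGen.trans _ _ _ h1 ih2

theorem prR2 : PR2 := by
  intro τ V X D hD
  refine ⟨fun a b ha hab => ?_, fun a b _ hab => surfRel_all hD hab⟩
  obtain ⟨h1, h2, h3, h4⟩ := sideRel_all hD hab
  exact ⟨h1.1 ha, h2, h3, h4⟩

end Pool.Agent.MP_343d73

end

section

set_option autoImplicit false

namespace Pool.Agent.MP_343d73

theorem prR6 : PR6 := by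
  rintro Q Q' D D' ⟨e⟩ k ⟨n, R, B, hR, hcard, hcov, hadj, hconn⟩
  have hmem : ∀ t q', q' ∈ (B t).map e.toEquiv.toEmbedding ↔ e.symm q' ∈ B t := by
    intro t q'
    rw [Finset.mem_map]
    constructor
    · rintro ⟨q, hq, rfl⟩
      have h : e.symm (e.toEquiv.toEmbedding q) = q := e.symm_apply_apply q
      rw [h]
      exact hq
    · intro h
      exact ⟨e.symm q', h, e.apply_symm_apply q'⟩
  refine ⟨n, R, fun t => (B t).map e.toEquiv.toEmbedding, hR, ?_, ?_, ?_, ?_⟩
  · intro t
    rw [Finset.card_map]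
    exact hcard t
  · intro q
    obtain ⟨t, ht⟩ := hcov (e.symm q)
    exact ⟨t, (hmem t q).mpr ht⟩
  · intro q q' h
    obtain ⟨t, h1, h2⟩ := hadj (e.symm q) (e.symm q') (e.symm.map_adj_iff.mpr h)
    exact ⟨t, (hmem t q).mpr h1, (hmem t q').mpr h2⟩
  · intro q
    have h : {t | q ∈ (B t).map e.toEquiv.toEmbedding} = {t | e.symm q ∈ B t} := by
      ext t
      exact hmem t q
    rw [h]
    exact hconn _

end Pool.Agent.MP_343d73

end

section

set_option autoImplicit false

namespace Pool.Agent.MP_343d73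

namespace E3

variable {τ V σ G : Type} [Group G] [MulAction G τ] [MulAction G V] [MulAction G σ]
  (C : Ctx τ V σ G)

theorem img_smul (g : G) (t : τ) (j : Fin 4) : C.img (g • t) j = g • C.img t j := by
  unfold Ctx.img
  rw [C.deck.vx_smul, C.ph_smul]

end E3

open E3 in
open scoped Classical in
theorem prE3 (e1 : PE1) (e2 : PE2) (_h8 : PA8) : PE3 := by
  intro τ V σ G _ _ _ _ C p hadj t0
  obtain ⟨h, hh⟩ := e2 C.S C.tree C.adj_smul p.1 p.2 hadj (C.proper _ _ hadj)
    (C.proper _ _ hadj.symm)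
  obtain ⟨c, hcflow, hcfin, hcdiv⟩ := e1 C.X C.conn t0 (h • t0)
  -- few powers return
  have hret : ∀ u t : τ, {n : ℕ | h ^ n • u = t}.Finite := by
    intro u t
    obtain ⟨n0, hn0⟩ := hh (C.img u 0) (C.S.dist p.1 (C.img t 0) + 1)
    refine (Set.finite_lt_nat n0).subset ?_
    intro n hn
    by_contra hcon
    have h1 := (hn0 n (not_lt.1 hcon)).1
    have h2 : h ^ n • u = t := hn
    rw [← img_smul, h2] at h1
    omega
  have hfew : ∀ t : τ, {n : ℕ | ∃ i, c ((h ^ n)⁻¹ • t) i ≠ 0}.Finite := by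
    intro t
    refine (hcfin.biUnion fun u _ => hret u t).subset ?_
    intro n hn
    rw [Set.mem_iUnion₂]
    exact ⟨(h ^ n)⁻¹ • t, hn, smul_inv_smul _ _⟩
  have hsupp : ∀ t i, (Function.support fun n : ℕ => c ((h ^ n)⁻¹ • t) i).Finite := by
    intro t i
    exact (hfew t).subset fun n hn => ⟨i, hn⟩
  have hex : ∀ t, (∃ i, ∑ᶠ n : ℕ, c ((h ^ n)⁻¹ • t) i ≠ 0) →
      ∃ n : ℕ, ∃ u, (∃ i, c u i ≠ 0) ∧ h ^ n • u = t := by
    rintro t ⟨i, hi⟩
    by_contra hcon
    push Not at hcon
    apply hi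
    rw [finsum_congr (g := fun _ => (0 : ℝ)), finsum_zero]
    intro n
    by_contra h0
    exact hcon n ((h ^ n)⁻¹ • t) ⟨i, h0⟩ (smul_inv_smul _ _)
  refine ⟨fun t i => ∑ᶠ n : ℕ, c ((h ^ n)⁻¹ • t) i, ?_, ?_, ?_, ?_⟩
  · intro t i
    simp only
    rw [← finsum_neg_distrib]
    refine finsum_congr fun n => ?_
    have h1 := hcflow ((h ^ n)⁻¹ • t) i
    rw [C.deck.nb_smul, C.deck.pm_smul] at h1
    exact h1
  · intro u
    simp only
    rw [← finsum_sum_comm _ _ fun i _ => hsupp u i]
    set a : ℕ → ℝ := fun n => if h ^ n • t0 = u then 1 else 0 with ha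
    have h1 : ∀ n : ℕ, ∑ i, c ((h ^ n)⁻¹ • u) i = a n - a (n + 1) := by
      intro n
      rw [hcdiv]
      simp only [ha]
      have q1 : (h ^ n)⁻¹ • u = t0 ↔ h ^ n • t0 = u := by
        rw [inv_smul_eq_iff, eq_comm]
      have q2 : (h ^ n)⁻¹ • u = h • t0 ↔ h ^ (n + 1) • t0 = u := by
        rw [inv_smul_eq_iff, pow_succ, mul_smul, eq_comm]
      simp only [q1, q2]
    rw [finsum_congr h1]
    obtain ⟨N, hN⟩ : ∃ N : ℕ, ∀ n, N ≤ n → a n = 0 := by
      obtain ⟨N, hN⟩ := (hret t0 u).bddAbove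
      refine ⟨N + 1, fun n hn => if_neg fun h2 => ?_⟩
      have := hN h2
      omega
    rw [finsum_eq_sum_of_support_subset (s := Finset.range N), Finset.sum_range_sub', hN N le_rfl,
      sub_zero]
    · simp only [ha, pow_zero, one_smul]
      by_cases h2 : t0 = u
      · rw [if_pos h2, if_pos h2.symm]
      · rw [if_neg h2, if_neg fun h3 => h2 h3.symm]
    · intro n hn
      rw [Finset.coe_range, Set.mem_Iio]
      by_contra hcon
      apply hn
      simp only
      rw [hN n (by omega), hN (n + 1) (by omega), sub_zero]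
  · intro K
    have hfinK : ∀ u j, {n : ℕ | C.S.dist p.1 (h ^ n • C.img u j) ≤ K}.Finite := by
      intro u j
      obtain ⟨n0, hn0⟩ := hh (C.img u j) (K + 1)
      refine (Set.finite_lt_nat n0).subset ?_
      intro n hn
      by_contra hcon
      have h1 := (hn0 n (not_lt.1 hcon)).1
      have h2 : C.S.dist p.1 (h ^ n • C.img u j) ≤ K := hn
      omega
    refine (hcfin.biUnion fun u _ => Set.finite_iUnion fun j : Fin 4 =>
      (hfinK u j).image fun n => h ^ n • u).subset ?_
    rintro t ⟨ht, j, hj⟩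
    obtain ⟨n, u, hu, rfl⟩ := hex t ht
    rw [Set.mem_iUnion₂]
    refine ⟨u, hu, ?_⟩
    rw [Set.mem_iUnion]
    refine ⟨j, n, ?_, rfl⟩
    rw [img_smul] at hj
    exact hj
  · have hfinK : ∀ u j, {n : ℕ | ¬ Far C.S p (h ^ n • C.img u j)}.Finite := by
      intro u j
      obtain ⟨n0, hn0⟩ := hh (C.img u j) 0
      refine (Set.finite_lt_nat n0).subset ?_
      intro n hn
      by_contra hcon
      exact hn (hn0 n (not_lt.1 hcon)).2
    refine (hcfin.biUnion fun u _ => Set.finite_iUnion fun j : Fin 4 =>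
      (hfinK u j).image fun n => h ^ n • u).subset ?_
    rintro t ⟨ht, j, hj⟩
    obtain ⟨n, u, hu, rfl⟩ := hex t ht
    rw [Set.mem_iUnion₂]
    refine ⟨u, hu, ?_⟩
    rw [Set.mem_iUnion]
    refine ⟨j, n, ?_, rfl⟩
    rw [img_smul] at hj
    exact hj

end Pool.Agent.MP_343d73

end
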