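import Pool.Agent.Work.MP_343d73_gt.Defs
import Pool.Agent.Work.MP_343d73_gt.Bd.B03
import Pool.Agent.Work.MP_343d73_gt.Bd.B02
import Pool.Agent.Work.MP_343d73_gt.Bd.B01
import Pool.Agent.Work.MP_343d73_gt.H9

/-! Bundle of small proof modules (one section per former module). -/

section

set_option autoImplicit false

namespace Pool.Agent.MP_343d73

open scoped Classical in
theorem prE4 (b4 : PB4) : PE4 := by
  intro τ V σ G _ _ _ _ C ζ t0 p x hflow hdiv hfin
  set w : τ → Fin 4 → ℝ := fun t i => (C.X.cbar (C.cE p) t i - x) * ζ t i with hw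
  have hwflow : C.X.Flow w := by
    intro t i
    simp only [hw]
    rw [Lem43.cbar_nb, hflow t i]
    ring
  have hwfin : {t | ∃ i, w t i ≠ 0}.Finite := by
    refine hfin.subset ?_
    rintro t ⟨i, hi⟩
    simp only [hw] at hi
    refine ⟨⟨i, right_ne_zero_of_mul hi⟩, ?_⟩
    by_contra hcon
    push Not at hcon
    apply left_ne_zero_of_mul hi
    rw [Lem43.cbar_const C.X (C.cE p) x t i hcon, sub_self]
  have h1 := b4 C.X w hwflow hwfin Set.univ
  simp only [Set.mem_univ, and_self, if_true] at h1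
  have h2 : ∀ t, C.Nn p ζ t = (∑ i, w t i) + if t = t0 then x else 0 := by
    intro t
    have h3 : ∑ i, w t i = C.Nn p ζ t - x * ∑ i, ζ t i := by
      simp only [hw, Ctx.Nn]
      rw [Finset.mul_sum, ← Finset.sum_sub_distrib]
      exact Finset.sum_congr rfl fun i _ => by ring
    rw [h3, hdiv t]
    by_cases h : t = t0
    · simp [h]
    · simp [h]
  have hs1 : (Function.support fun t => ∑ i, w t i).Finite := by
    refine hwfin.subset ?_
    intro t ht
    by_contra hcon
    apply ht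
    refine Finset.sum_eq_zero fun i _ => ?_
    by_contra h
    exact hcon ⟨i, h⟩
  have hs2 : (Function.support fun t => if t = t0 then x else (0 : ℝ)).Finite := by
    refine (Set.finite_singleton t0).subset ?_
    intro t ht
    by_contra hcon
    exact ht (if_neg hcon)
  constructor
  · refine (hs1.union hs2).subset ?_
    intro t ht
    by_contra hcon
    rw [Set.mem_union, not_or, Function.notMem_support, Function.notMem_support] at hcon
    apply ht
    rw [h2 t, hcon.1, hcon.2, add_zero]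
  · rw [finsum_congr h2, finsum_add_distrib hs1 hs2, h1, zero_add]
    rw [finsum_eq_single _ t0 fun t ht => if_neg ht, if_pos rfl]

end Pool.Agent.MP_343d73

end

section

set_option autoImplicit false

namespace Pool.Agent.MP_343d73

open scoped Classical in
theorem prE6 (b1 : PB1) (h8 : PA8) : PE6 := by
  intro τ V σ G _ _ _ _ C Y Z _ _ y0 ζ Yf ed pr hflow hclosed hfin hYf hed hpr hfin2
  set F : τ × Z → ℝ := fun x => if pr x.2 ∧ Yf x.2 = y0 then C.Nn (ed x.2) ζ x.1 else 0 with hF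
  have hFsupp : (Function.support F).Finite := by
    refine hfin2.subset ?_
    rintro ⟨t, z⟩ hx
    rw [Function.mem_support] at hx
    have h1 : pr z ∧ Yf z = y0 := by
      by_contra h
      exact hx (if_neg h)
    have h2 : C.Nn (ed z) ζ t ≠ 0 := by
      intro h
      apply hx
      simp only [hF]
      rw [h, ite_self]
    refine ⟨h1.1, h1.2, ?_, ?_⟩
    · by_contra hcon
      push Not at hcon
      apply h2
      unfold Ctx.Nn
      exact Finset.sum_eq_zero fun i _ => by rw [hcon i, mul_zero]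
    · by_contra hcon
      exact h2 (Lem43.Nn_zero C (ed z) ζ t (hclosed t) hcon)
  -- finiteness of the periodisation
  have hper : ∀ (y : Y) (t : τ) (i : Fin 4),
      (Function.support fun k : G => if k • y0 = y then ζ (k⁻¹ • t) i else 0).Finite := by
    intro y t i
    by_cases hy : ∃ k0 : G, k0 • y0 = y
    · obtain ⟨k0, hk0⟩ := hy
      refine ((hfin (k0⁻¹ • t)).image fun k => k0 * k).subset ?_
      intro k hk
      rw [Function.mem_support] at hk
      have h1 : k • y0 = y := by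
        by_contra hcon
        exact hk (if_neg hcon)
      rw [if_pos h1] at hk
      refine ⟨k0⁻¹ * k, ⟨?_, i, ?_⟩, by simp⟩
      · rw [mul_smul, h1, ← hk0, inv_smul_smul]
      · rw [mul_inv_rev, inv_inv, ← mul_smul]
        simpa using hk
    · have : (Function.support fun k : G => if k • y0 = y then ζ (k⁻¹ • t) i else 0) = ∅ := by
        rw [Function.support_eq_empty_iff]
        funext k
        exact if_neg fun h => hy ⟨k, h⟩
      rw [this]
      exact Set.finite_empty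
  have hprinv : ∀ (g : G) (z : Z), pr (g • z) ↔ pr z := by
    intro g z
    refine ⟨fun h => ?_, hpr g z⟩
    have := hpr g⁻¹ _ h
    rwa [inv_smul_smul] at this
  -- step 1
  have step1 : ∀ (t : τ) (z : Z),
      (if pr z then C.Nn (ed z) (C.per y0 ζ (Yf z)) t else 0) =
        ∑ᶠ k : G, F (k⁻¹ • t, k⁻¹ • z) := by
    intro t z
    by_cases hz : pr z
    · rw [if_pos hz]
      unfold Ctx.Nn Ctx.per
      have h1 : ∀ i, C.X.cbar (C.cE (ed z)) t i *
          ∑ᶠ k : G, (if k • y0 = Yf z then ζ (k⁻¹ • t) i else 0) =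
          ∑ᶠ k : G, C.X.cbar (C.cE (ed z)) t i * (if k • y0 = Yf z then ζ (k⁻¹ • t) i else 0) :=
        fun i => mul_finsum _ _
      rw [Finset.sum_congr rfl fun i _ => h1 i, ← finsum_sum_comm]
      · refine finsum_congr fun k => ?_
        have h2 : (pr (k⁻¹ • z) ∧ Yf (k⁻¹ • z) = y0) ↔ k • y0 = Yf z := by
          rw [hprinv, hYf]
          constructor
          · rintro ⟨_, h⟩
            rw [← h, smul_inv_smul]
          · intro h
            exact ⟨hz, by rw [← h, inv_smul_smul]⟩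
        simp only [hF]
        by_cases h : k • y0 = Yf z
        · rw [if_pos (h2.2 h)]
          unfold Ctx.Nn
          refine Finset.sum_congr rfl fun i _ => ?_
          rw [if_pos h, hed, Lem43.cbar_smul C h8]
        · rw [if_neg fun h' => h (h2.1 h')]
          exact Finset.sum_eq_zero fun i _ => by rw [if_neg h, mul_zero]
      · intro i _
        refine (hper (Yf z) t i).subset ?_
        intro k hk
        exact right_ne_zero_of_mul hk
    · rw [if_neg hz]
      symm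
      rw [finsum_congr (g := fun _ => (0 : ℝ)), finsum_zero]
      intro k
      exact if_neg fun h => hz ((hprinv k⁻¹ z).1 h.1)
  -- step 2
  have step2 : ∀ t : τ, (∑ᶠ z : Z, ∑ᶠ k : G, F (k⁻¹ • t, k⁻¹ • z)) =
      ∑ᶠ k : G, ∑ᶠ z : Z, F (k⁻¹ • t, z) := by
    intro t
    have hinj : Function.Injective fun x : Z × G => ((x.2⁻¹ • t, x.2⁻¹ • x.1) : τ × Z) := by
      rintro ⟨z, k⟩ ⟨z', k'⟩ h
      have h1 : k⁻¹ • t = k'⁻¹ • t := (Prod.mk.inj h).1
      have h2 : k⁻¹ • z = k'⁻¹ • z' := (Prod.mk.inj h).2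
      have h3 : (k' * k⁻¹) • t = t := by
        rw [mul_smul, h1, smul_inv_smul]
      have h4 : k' = k := mul_inv_eq_one.1 (C.deck.free_tet _ _ h3)
      subst h4
      rw [MulAction.injective _ h2]
    have hinj2 : Function.Injective fun x : G × Z => ((x.1⁻¹ • t, x.2) : τ × Z) := by
      rintro ⟨k, z⟩ ⟨k', z'⟩ h
      have h1 : k⁻¹ • t = k'⁻¹ • t := (Prod.mk.inj h).1
      have h2 : z = z' := (Prod.mk.inj h).2
      have h3 : (k' * k⁻¹) • t = t := by
        rw [mul_smul, h1, smul_inv_smul]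
      have h4 : k' = k := mul_inv_eq_one.1 (C.deck.free_tet _ _ h3)
      rw [h4, h2]
    have e1 := finsum_curry (fun x : Z × G => F (x.2⁻¹ • t, x.2⁻¹ • x.1))
      (Set.Finite.subset (Set.Finite.preimage hinj.injOn hFsupp) fun x hx => hx)
    have e2 := finsum_curry (fun x : G × Z => F (x.1⁻¹ • t, x.2))
      (Set.Finite.subset (Set.Finite.preimage hinj2.injOn hFsupp) fun x hx => hx)
    rw [← e1, ← e2]
    refine finsum_eq_of_bijective (fun x : Z × G => (x.2, x.2⁻¹ • x.1)) ⟨?_, ?_⟩ fun x => rfl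
    · rintro ⟨z, k⟩ ⟨z', k'⟩ h
      have h1 : k = k' := (Prod.mk.inj h).1
      have h2 : k⁻¹ • z = k'⁻¹ • z' := (Prod.mk.inj h).2
      subst h1
      rw [MulAction.injective _ h2]
    · rintro ⟨k, z⟩
      exact ⟨(k • z, k), by simp⟩
  -- step 3
  have hH : (Function.support fun t : τ => ∑ᶠ z : Z, F (t, z)).Finite := by
    refine (hFsupp.image Prod.fst).subset ?_
    intro t ht
    by_contra hcon
    apply ht
    have : ∀ z, F (t, z) = 0 := by
      intro z
      by_contra h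
      exact hcon ⟨(t, z), h, rfl⟩
    simp only [this, finsum_zero]
  have step3 := b1 C.deck.free_tet C.deck.cocompact (fun t : τ => ∑ᶠ z : Z, F (t, z)) hH
  have step4 : (∑ᶠ t : τ, ∑ᶠ z : Z, F (t, z)) = ∑ᶠ z : Z, ∑ᶠ t : τ, F (t, z) := by
    have e1 := finsum_curry F hFsupp
    have e2 := finsum_curry (fun x : Z × τ => F (x.2, x.1))
      (Set.Finite.subset (Set.Finite.preimage
        (f := fun x : Z × τ => ((x.2, x.1) : τ × Z))
        (Function.Injective.injOn (by
          rintro ⟨z, t⟩ ⟨z', t'⟩ h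
          exact Prod.ext (Prod.mk.inj h).2 (Prod.mk.inj h).1)) hFsupp) fun x hx => hx)
    rw [← e1, ← e2]
    refine finsum_eq_of_bijective (fun x : τ × Z => (x.2, x.1)) ⟨?_, ?_⟩ fun x => rfl
    · rintro ⟨z, t⟩ ⟨z', t'⟩ h
      exact Prod.ext (Prod.mk.inj h).2 (Prod.mk.inj h).1
    · rintro ⟨z, t⟩
      exact ⟨(t, z), rfl⟩
  unfold Ctx.Phi
  have h1 : ∀ q : Quotient (MulAction.orbitRel G τ),
      (∑ᶠ z : Z, if pr z then C.Nn (ed z) (C.per y0 ζ (Yf z)) q.out else 0) =
        ∑ᶠ k : G, ∑ᶠ z : Z, F (k⁻¹ • q.out, z) := by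
    intro q
    rw [← step2]
    exact finsum_congr fun z => step1 q.out z
  rw [finsum_congr h1, step3, step4]
  refine finsum_congr fun z => ?_
  simp only [hF]
  by_cases h : pr z ∧ Yf z = y0
  · simp only [if_pos h]
  · simp only [if_neg h]
    exact finsum_zero

end Pool.Agent.MP_343d73

end

section

set_option autoImplicit false

namespace Pool.Agent.MP_343d73

open scoped Classical in
theorem prE8 : PE8 := by
  intro τ V σ G _ _ _ _ C Z ed pr hfin Θ Θ' hΘ hΘ' x y
  have hQ : Finite (Quotient (MulAction.orbitRel G τ)) := C.deck.cocompact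
  have hlin : ∀ z t, C.Nn (ed z) (fun t i => x * Θ z t i + y * Θ' z t i) t =
      x * C.Nn (ed z) (Θ z) t + y * C.Nn (ed z) (Θ' z) t := by
    intro z t
    unfold Ctx.Nn
    rw [Finset.mul_sum, Finset.mul_sum, ← Finset.sum_add_distrib]
    exact Finset.sum_congr rfl fun i _ => by ring
  have hs : ∀ (Ξ : Z → τ → Fin 4 → ℝ), (∀ z, pr z → Closed (Ξ z)) → ∀ t,
      (Function.support fun z => if pr z then C.Nn (ed z) (Ξ z) t else 0).Finite := by
    intro Ξ hΞ t
    refine (hfin t).subset ?_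
    intro z hz
    rw [Function.mem_support] at hz
    have h1 : pr z := by
      by_contra h
      exact hz (if_neg h)
    rw [if_pos h1] at hz
    refine ⟨h1, ?_⟩
    by_contra h
    exact hz (Lem43.Nn_zero C (ed z) (Ξ z) t (hΞ z h1 t) h)
  unfold Ctx.Phi
  rw [mul_finsum, mul_finsum,
    ← finsum_add_distrib (Set.toFinite _) (Set.toFinite _)]
  refine finsum_congr fun q => ?_
  rw [mul_finsum, mul_finsum, ← finsum_add_distrib]
  · refine finsum_congr fun z => ?_
    by_cases h : pr z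
    · rw [if_pos h, if_pos h, if_pos h, hlin]
    · rw [if_neg h, if_neg h, if_neg h]
      ring
  · refine (hs Θ hΘ q.out).subset ?_
    intro z hz
    exact right_ne_zero_of_mul hz
  · refine (hs Θ' hΘ' q.out).subset ?_
    intro z hz
    exact right_ne_zero_of_mul hz

end Pool.Agent.MP_343d73

end

section

set_option autoImplicit false

namespace Pool.Agent.MP_343d73

namespace H10

open scoped Classical

variable {τ V σ G : Type} [Group G] [MulAction G τ] [MulAction G V] [MulAction G σ]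
  (C : Ctx τ V σ G)

/-- two points on a geodesic -/
theorem dist_pts (h4 : PA4) {σ : Type} (S : SimpleGraph σ) (hS : S.IsTree) (x y : σ) (m n : ℕ)
    (hmn : m ≤ n) (pm pn : σ) (e1 : S.dist x pm = m)
    (e2 : S.dist x pm + S.dist pm y = S.dist x y) (e3 : S.dist x pn = n)
    (e4 : S.dist x pn + S.dist pn y = S.dist x y) : S.dist pm pn = n - m := by
  obtain ⟨r, ⟨hr1, hr2⟩, -⟩ := h4 S hS x pn m (by omega)
  have t1 := hS.1.dist_triangle (u := r) (v := pn) (w := y)
  have t2 := hS.1.dist_triangle (u := x) (v := r) (w := y)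
  have hr3 : S.dist x r + S.dist r y = S.dist x y := by omega
  have hr4 : r = pm := by
    obtain ⟨r0, _, hr0⟩ := h4 S hS x y m (by omega)
    rw [hr0 r ⟨hr1, hr3⟩, hr0 pm ⟨e1, e2⟩]
  rw [← hr4]
  omega

theorem pt_spec (h4 : PA4) (P : σ × σ) (n : ℕ) (hn : n ≤ C.S.dist P.1 P.2) :
    C.S.dist P.1 (C.pt P n) = n ∧
      C.S.dist P.1 (C.pt P n) + C.S.dist (C.pt P n) P.2 = C.S.dist P.1 P.2 := by
  obtain ⟨r, hr, -⟩ := h4 C.S C.tree P.1 P.2 n hn
  have hex : ∃ r, C.S.dist P.1 r = n ∧ C.S.dist P.1 r + C.S.dist r P.2 = C.S.dist P.1 P.2 :=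
    ⟨r, hr⟩
  unfold Ctx.pt
  rw [dif_pos hex]
  exact hex.choose_spec

theorem pt_smul (h4 : PA4) (h8 : PA8) (g : G) (P : σ × σ) (n : ℕ) :
    C.pt (g • P) n = g • C.pt P n := by
  have hd : ∀ a b, C.S.dist (g • a) (g • b) = C.S.dist a b := h8 C.S C.adj_smul g
  by_cases hn : n ≤ C.S.dist P.1 P.2
  · have e1 := pt_spec C h4 P n hn
    have e2 := pt_spec C h4 (g • P) n (by
      rw [Prod.smul_fst, Prod.smul_snd, hd]
      exact hn)
    obtain ⟨r, _, hr⟩ := h4 C.S C.tree (g • P).1 (g • P).2 n (by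
      rw [Prod.smul_fst, Prod.smul_snd, hd]
      exact hn)
    rw [hr _ e2]
    symm
    refine hr _ ?_
    have e3 : C.S.dist (g • P.1) (g • C.pt P n) = n ∧
        C.S.dist (g • P.1) (g • C.pt P n) + C.S.dist (g • C.pt P n) (g • P.2) =
          C.S.dist (g • P.1) (g • P.2) := by
      rw [hd, hd, hd]
      exact e1
    exact e3
  · have e1 : ∀ P : σ × σ, ¬ n ≤ C.S.dist P.1 P.2 → C.pt P n = P.1 := by
      intro P hP
      unfold Ctx.pt
      rw [dif_neg]
      rintro ⟨r, h1, h2⟩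
      apply hP
      omega
    rw [e1 P hn, e1 (g • P) (by rw [Prod.smul_fst, Prod.smul_snd, hd]; exact hn)]
    rfl

omit [MulAction G τ] [MulAction G V] in
theorem mem_orb (g : G) {α : Type} [MulAction G α] (p p' : α) :
    g • p ∈ MulAction.orbit G p' ↔ p ∈ MulAction.orbit G p' := by
  constructor
  · rintro ⟨k, hk⟩
    refine ⟨g⁻¹ * k, ?_⟩
    have e : (g⁻¹ * k) • p' = p := by
      rw [mul_smul]
      have e2 : k • p' = g • p := hk
      rw [e2, inv_smul_smul]
    exact e
  · rintro ⟨k, hk⟩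
    refine ⟨g * k, ?_⟩
    have e : (g * k) • p' = g • p := by
      rw [mul_smul]
      have e2 : k • p' = p := hk
      rw [e2]
    exact e

theorem isC1_add {X : Tri τ V} (b b' : τ → Fin 4 → Fin 4 → ℝ) (x : ℝ) (hb : X.IsC1 b)
    (hb' : X.IsC1 b') : X.IsC1 fun t j k => b t j k + x * b' t j k := by
  refine ⟨fun t j k => ?_, fun t i j k hj hk => ?_⟩
  · simp only
    rw [hb.1, hb'.1]
    ring
  · simp only
    rw [hb.2 t i j k hj hk, hb'.2 t i j k hj hk]

theorem d1_add (b b' : τ → Fin 4 → Fin 4 → ℝ) (x : ℝ) (t : τ) (i : Fin 4) :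
    d1 (fun t j k => b t j k + x * b' t j k) t i = d1 b t i + x * d1 b' t i := by
  unfold d1
  ring

end H10

open H10 in
open scoped Classical in
theorem prH10 (b2 : PB2) (f5 : PF5) (f6 : PF6) (_h2 : PH2) (h4 : PH4) (h5 : PH5) (h6 : PH6)
    (h7 : PH7) (h9 : PH9) (f1 : PHF1) (hh1 : PH1) (a4 : PA4) (a8 : PA8) : PH10 := by
  intro τ V σ G _ _ _ _ C hac η β hη hβ s0 b1 c1 hadj1 hadj2 A hfront
  by_cases hbc : b1 = c1
  · rw [hbc]
  have hQ : Finite (Quotient (MulAction.orbitRel G τ)) := C.deck.cocompact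
  obtain ⟨ηS, hS1, hS2, hS3, hS4⟩ := f6 C s0 b1 c1 hadj1 hadj2 hbc
  set lam : σ × σ → ℝ := fun p => (if p ∈ MulAction.orbit G (s0, b1) then 1 else 0) -
    (if p ∈ MulAction.orbit G (s0, c1) then 1 else 0) with hlam
  set M : Set σ := MulAction.orbit G s0 with hM
  have hMinv : ∀ (g : G) s, s ∈ M → g • s ∈ M := fun g s hs => (mem_orb g s s0).2 hs
  have horb : ∀ (g : G) (p p' : σ × σ), g • p ∈ MulAction.orbit G p' ↔ p ∈ MulAction.orbit G p' :=
    fun g p p' => mem_orb g p p'
  have hlaminv : ∀ (g : G) p, lam (g • p) = lam p := by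
    intro g p
    simp only [hlam, horb]
  obtain ⟨γ, hγ⟩ := f5 C η hη M ηS lam hMinv (fun s _ => hS1 s) (fun s _ => hS2 s) hS3 hlaminv hS4
  -- edges of the two orbits
  have hin : ∀ b, C.S.Adj s0 b → ∀ z ∈ MulAction.orbit G (s0, b), z.1 ∈ M ∧ C.S.Adj z.1 z.2 := by
    rintro b hb z ⟨g, rfl⟩
    exact ⟨MulAction.mem_orbit s0 g, C.adj_smul g _ _ hb⟩
  have hsuppom : ∀ b, C.S.Adj s0 b → ∀ t, (Function.support fun z : σ × σ =>
      if z ∈ MulAction.orbit G (s0, b) then C.om η β z t else 0).Finite := by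
    intro b hb t
    refine (f1 C t).subset ?_
    intro z hz
    rw [Function.mem_support] at hz
    have h1 : z ∈ MulAction.orbit G (s0, b) := by
      by_contra h
      exact hz (if_neg h)
    rw [if_pos h1] at hz
    have h2 := hin b hb z h1
    refine ⟨h2.2, ?_⟩
    by_contra h
    exact hz ((hh1 C η β hη hβ z t h2.2).1 h)
  have key : ∀ t, C.wt η β (s0, b1) t - C.wt η β (s0, c1) t =
      ∑ᶠ p : σ × σ, (if p.1 ∈ M ∧ C.S.Adj p.1 p.2 then C.Nn p (ηS p.1) t else 0) -
        ∑ i, C.RR M β lam γ t i := by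
    intro t
    rw [← h5 C η β M ηS lam γ hη hβ hγ t]
    unfold Ctx.wt
    rw [← finsum_sub_distrib (hsuppom b1 hadj1 t) (hsuppom c1 hadj2 t)]
    refine finsum_congr fun z => ?_
    simp only [hlam]
    by_cases p1 : z ∈ MulAction.orbit G (s0, b1)
    · rw [if_pos p1, if_pos p1, if_pos (hin b1 hadj1 z p1)]
      by_cases p2 : z ∈ MulAction.orbit G (s0, c1)
      · rw [if_pos p2, if_pos p2]
        ring
      · rw [if_neg p2, if_neg p2]
        ring
    · rw [if_neg p1, if_neg p1]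
      by_cases p2 : z ∈ MulAction.orbit G (s0, c1)
      · rw [if_pos p2, if_pos p2, if_pos (hin c1 hadj2 z p2)]
        ring
      · rw [if_neg p2, if_neg p2, sub_zero, zero_mul, ite_self]
  -- the frontier function
  obtain ⟨hRflow, hRinv⟩ := h6 C η β M ηS lam γ hη hβ hγ
  have hclnb : ∀ (g : G) t i, cl G (C.X.nb (g • t) i) = cl G (C.X.nb t i) := by
    intro g t i
    rw [C.deck.nb_smul]
    exact Lem43.cl_smul g _
  have hin2 := b2 C.X C.deck (fun t i => if cl G t ∈ A ∧ cl G (C.X.nb t i) ∈ A then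
    C.RR M β lam γ t i else 0) (by
      intro g t i
      rw [hclnb, Lem43.cl_smul, hRinv]) (by
      intro t i
      simp only
      rw [C.X.nb_nb, hRflow t i]
      by_cases q1 : cl G t ∈ A
      · by_cases q2 : cl G (C.X.nb t i) ∈ A
        · rw [if_pos ⟨q2, q1⟩, if_pos ⟨q1, q2⟩]
        · rw [if_neg fun h => q2 h.1, if_neg fun h => q2 h.2, neg_zero]
      · rw [if_neg fun h => q1 h.2, if_neg fun h => q1 h.1, neg_zero]) A (by
      intro t i _ q2
      exact if_neg fun h => q2 h.2)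
  -- the primitives
  have hkapequi : ∀ (g : G) P t j k, C.kap β lam γ (g • P) (g • t) j k = C.kap β lam γ P t j k := by
    intro g P t j k
    unfold Ctx.kap
    rw [pt_smul C a4 a8, pt_smul C a4 a8, pt_smul C a4 a8]
    have q1 := hγ.gequi g (C.pt P 3, C.pt P 4) t j k
    have q2 := hlaminv g (C.pt P 3, C.pt P 4)
    have q3 := hβ.equi g (C.pt P 1, P.2) t j k
    rw [Prod.smul_mk] at q1 q2 q3
    rw [q1, q2, Prod.smul_snd, q3]
  have hkap : ∀ P : σ × σ, C.S.dist P.1 P.2 = 6 → C.pt P 3 ∈ M → C.X.IsC1 (C.kap β lam γ P) ∧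
      ∀ t i, d1 (C.kap β lam γ P) t i = ηS (C.pt P 3) t i := by
    intro P hP hPM
    obtain ⟨u1, u2⟩ := pt_spec C a4 P 1 (by omega)
    obtain ⟨v1, v2⟩ := pt_spec C a4 P 3 (by omega)
    obtain ⟨w1, w2⟩ := pt_spec C a4 P 4 (by omega)
    have d34 := dist_pts a4 C.S C.tree P.1 P.2 3 4 (by omega) _ _ v1 v2 w1 w2
    have d13 := dist_pts a4 C.S C.tree P.1 P.2 1 3 (by omega) _ _ u1 u2 v1 v2
    have hadj : C.S.Adj (C.pt P 3) (C.pt P 4) := SimpleGraph.dist_eq_one_iff_adj.1 (by omega)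
    have hLab : C.Lab (C.pt P 3, C.pt P 4) (C.pt P 1, P.2) := by
      refine ⟨hadj, ?_, ?_, ?_⟩
      · simp only
        omega
      · simp only
        omega
      · simp only
        omega
    have q1 := hγ.c1 (C.pt P 3, C.pt P 4) hPM hadj
    have q2 := hβ.c1 _ _ hLab
    refine ⟨isC1_add _ _ _ q1 q2, ?_⟩
    intro t i
    have q3 := hγ.prim (C.pt P 3, C.pt P 4) hPM hadj t i
    have q4 := hβ.prim _ _ hLab t i
    have q5 : d1 (C.kap β lam γ P) t i = d1 (γ (C.pt P 3, C.pt P 4)) t i +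
        lam (C.pt P 3, C.pt P 4) * d1 (β (C.pt P 1, P.2)) t i := d1_add _ _ _ t i
    rw [q5, q3, q4]
    ring
  have hout := h9 C hac A M hfront hMinv ηS (C.kap β lam γ) hkapequi hkap
  have hmain := h4 C η M ηS lam γ hγ A hfront
  -- assembly
  have hRR : ∑ᶠ q : Quotient (MulAction.orbitRel G τ), (if q ∈ A then
      ∑ i, C.RR M β lam γ q.out i else 0) = 0 := by
    have e1 : ∀ q : Quotient (MulAction.orbitRel G τ), (if q ∈ A then
        ∑ i, C.RR M β lam γ q.out i else 0) =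
        (if q ∈ A then ∑ i, (if cl G q.out ∈ A ∧ cl G (C.X.nb q.out i) ∈ A then
          C.RR M β lam γ q.out i else 0) else 0) +
        (if q ∈ A then
          ∑ i, (if cl G (C.X.nb q.out i) ∈ A then 0 else
            ∑ᶠ P : σ × σ, if C.F6 P q.out i ∧ C.pt P 3 ∈ M then
              C.X.Wd (C.cE (C.pt P 3, C.pt P 4)) (C.kap β lam γ P) q.out i else 0) else 0) := by
      intro q
      by_cases hq : q ∈ A
      · rw [if_pos hq, if_pos hq, if_pos hq, ← Finset.sum_add_distrib]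
        refine Finset.sum_congr rfl fun i _ => ?_
        have hcl : cl G q.out = q := Quotient.out_eq q
        by_cases q2 : cl G (C.X.nb q.out i) ∈ A
        · rw [if_pos ⟨by rw [hcl]; exact hq, q2⟩, if_pos q2, add_zero]
        · rw [if_neg fun h => q2 h.2, if_neg q2, zero_add]
          exact h7 C η β M ηS lam γ hη hβ hγ A hfront q.out i (by rw [hcl]; exact hq) q2
      · rw [if_neg hq, if_neg hq, if_neg hq, add_zero]
    rw [finsum_congr e1, finsum_add_distrib (Set.toFinite _) (Set.toFinite _), hin2, hout, add_zero]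
  have hfinal : ∑ᶠ q : Quotient (MulAction.orbitRel G τ),
      ((if q ∈ A then C.wt η β (s0, b1) q.out else 0) -
        (if q ∈ A then C.wt η β (s0, c1) q.out else 0)) = 0 := by
    have e1 : ∀ q : Quotient (MulAction.orbitRel G τ),
        ((if q ∈ A then C.wt η β (s0, b1) q.out else 0) -
          (if q ∈ A then C.wt η β (s0, c1) q.out else 0)) =
        (if q ∈ A then ∑ᶠ p : σ × σ, (if p.1 ∈ M ∧ C.S.Adj p.1 p.2 then
          C.Nn p (ηS p.1) q.out else 0) else 0) -
        (if q ∈ A then ∑ i, C.RR M β lam γ q.out i else 0) := by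
      intro q
      by_cases hq : q ∈ A
      · rw [if_pos hq, if_pos hq, if_pos hq, if_pos hq, key]
      · rw [if_neg hq, if_neg hq, if_neg hq, if_neg hq]
    rw [finsum_congr e1, finsum_sub_distrib (Set.toFinite _) (Set.toFinite _), hmain, hRR, sub_zero]
  rw [finsum_sub_distrib (Set.toFinite _) (Set.toFinite _)] at hfinal
  linarith

end Pool.Agent.MP_343d73

end

section

set_option autoImplicit false

namespace Pool.Agent.MP_343d73

open scoped Classical

namespace IH3

variable {τ V σ G : Type} [Group G] [MulAction G τ] [MulAction G V] [MulAction G σ]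

lemma img_nb (C : Ctx τ V σ G) (t : τ) (i j : Fin 4) (hj : j ≠ i) :
    C.img (C.X.nb t i) (C.X.pm t i j) = C.img t j := by
  unfold Ctx.img
  rw [C.X.vx_nb t i j hj]

lemma crossF_nb_of (C : Ctx τ V σ G) (p : σ × σ) (t : τ) (i : Fin 4) (h : C.crossF p t i) :
    C.crossF p (C.X.nb t i) (C.X.pm t i i) := by
  obtain ⟨j, k, hj, hk, h1, h2⟩ := h
  refine ⟨C.X.pm t i j, C.X.pm t i k, ?_, ?_, ?_, ?_⟩
  · intro h
    exact hj ((C.X.pm t i).injective h)
  · intro h
    exact hk ((C.X.pm t i).injective h)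
  · rw [img_nb C t i j hj]
    exact h1
  · rw [img_nb C t i k hk]
    exact h2

lemma nb_nb_eq (X : Tri τ V) (t : τ) (i : Fin 4) : X.nb (X.nb t i) (X.pm t i i) = t :=
  X.nb_nb t i

lemma pm_pm_eq (X : Tri τ V) (t : τ) (i : Fin 4) :
    X.pm (X.nb t i) (X.pm t i i) (X.pm t i i) = i := by
  rw [X.pm_pm]
  simp

lemma crossF_nb (C : Ctx τ V σ G) (p : σ × σ) (t : τ) (i : Fin 4) :
    C.crossF p (C.X.nb t i) (C.X.pm t i i) ↔ C.crossF p t i := by
  constructor
  · intro h
    have h1 := crossF_nb_of C p _ _ h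
    rwa [nb_nb_eq, pm_pm_eq] at h1
  · exact crossF_nb_of C p t i

lemma flat_nb_of (C : Ctx τ V σ G) (l : σ × σ) (t : τ) (i : Fin 4)
    (h : ∀ j, j ≠ i → C.flatR l (C.img t j)) :
    ∀ j, j ≠ C.X.pm t i i → C.flatR l (C.img (C.X.nb t i) j) := by
  intro j hj
  obtain ⟨j', rfl⟩ := (C.X.pm t i).surjective j
  have hj' : j' ≠ i := by
    intro h
    exact hj (by rw [h])
  rw [img_nb C t i j' hj']
  exact h j' hj'

lemma flat_nb (C : Ctx τ V σ G) (l : σ × σ) (t : τ) (i : Fin 4) :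
    (∀ j, j ≠ C.X.pm t i i → C.flatR l (C.img (C.X.nb t i) j)) ↔
      ∀ j, j ≠ i → C.flatR l (C.img t j) := by
  constructor
  · intro h
    have h1 := flat_nb_of C l _ _ h
    rw [pm_pm_eq, nb_nb_eq] at h1
    exact h1
  · exact flat_nb_of C l t i

lemma FF_nb (C : Ctx τ V σ G) (p l : σ × σ) (t : τ) (i : Fin 4) :
    C.FF p l (C.X.nb t i) (C.X.pm t i i) ↔ C.FF p l t i := by
  unfold Ctx.FF
  rw [crossF_nb, flat_nb]

lemma adj_smul_iff (C : Ctx τ V σ G) (g : G) (a b : σ) :
    C.S.Adj (g • a) (g • b) ↔ C.S.Adj a b := by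
  constructor
  · intro h
    have := C.adj_smul g⁻¹ _ _ h
    rwa [inv_smul_smul, inv_smul_smul] at this
  · exact C.adj_smul g a b

lemma crossF_smul (h8 : PA8) (C : Ctx τ V σ G) (g : G) (p : σ × σ) (t : τ) (i : Fin 4) :
    C.crossF (g • p) (g • t) i ↔ C.crossF p t i := by
  unfold Ctx.crossF
  simp only [IE7.img_smul, IE7.far_smul h8]

lemma crossT_smul (h8 : PA8) (C : Ctx τ V σ G) (g : G) (p : σ × σ) (t : τ) :
    C.crossT (g • p) (g • t) ↔ C.crossT p t := by
  unfold Ctx.crossT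
  simp only [IE7.img_smul, IE7.far_smul h8]

lemma beh_smul (h8 : PA8) (C : Ctx τ V σ G) (g : G) (x y r : σ) :
    Beh C.S (g • x) (g • y) (g • r) ↔ Beh C.S x y r := by
  unfold Beh
  simp only [IE7.dist_smul h8]

lemma flatR_smul (h8 : PA8) (C : Ctx τ V σ G) (g : G) (l : σ × σ) (r : σ) :
    C.flatR (g • l) (g • r) ↔ C.flatR l r := by
  unfold Ctx.flatR
  simp only [Prod.smul_fst, Prod.smul_snd, beh_smul h8]

lemma lab_smul (h8 : PA8) (C : Ctx τ V σ G) (g : G) (p l : σ × σ) :
    C.Lab (g • p) (g • l) ↔ C.Lab p l := by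
  unfold Ctx.Lab
  simp only [Prod.smul_fst, Prod.smul_snd, IE7.dist_smul h8, adj_smul_iff]

lemma FF_smul (h8 : PA8) (C : Ctx τ V σ G) (g : G) (p l : σ × σ) (t : τ) (i : Fin 4) :
    C.FF (g • p) (g • l) (g • t) i ↔ C.FF p l t i := by
  unfold Ctx.FF
  simp only [lab_smul h8, crossF_smul h8, IE7.img_smul, flatR_smul h8]

/-- the flux density vanishes on tetrahedra which do not cross -/
lemma Nn_zero (C : Ctx τ V σ G) {p : σ × σ} {t : τ} {e : τ → Fin 4 → ℝ} (he : ∑ i, e t i = 0)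
    (h : ¬ C.crossT p t) : C.Nn p e t = 0 := by
  have hc : ∀ j, C.cE p (C.X.vx t j) = C.cE p (C.X.vx t 0) := by
    intro j
    unfold Ctx.cE
    by_cases h1 : Far C.S p (C.ph (C.X.vx t j))
    · by_cases h2 : Far C.S p (C.ph (C.X.vx t 0))
      · rw [if_pos h1, if_pos h2]
      · exact absurd ⟨j, 0, h1, h2⟩ h
    · by_cases h2 : Far C.S p (C.ph (C.X.vx t 0))
      · exact absurd ⟨0, j, h2, h1⟩ h
      · rw [if_neg h1, if_neg h2]
  unfold Ctx.Nn
  have hb : ∀ i, C.X.cbar (C.cE p) t i = C.cE p (C.X.vx t 0) := by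
    intro i
    unfold Tri.cbar
    rw [hc (fa i), hc (fb i), hc (fc i)]
    ring
  simp only [hb]
  rw [← Finset.mul_sum, he, mul_zero]

end IH3

theorem prH3 (b2 : PB2) (c2 : PC2) (c4 : PC4) (f1 : PHF1) (h8 : PA8) : PH3 := by
  intro τ V σ G _ _ _ _ C η β hη hβ p hp
  have : Finite (Quotient (MulAction.orbitRel G τ)) := C.deck.cocompact
  have horb : ∀ z, z ∈ MulAction.orbit G p → C.S.Adj z.1 z.2 := by
    rintro z ⟨g, rfl⟩
    show C.S.Adj (g • p).1 (g • p).2
    rw [Prod.smul_fst, Prod.smul_snd]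
    exact C.adj_smul g _ _ hp
  have hfin : ∀ t, {z | z ∈ MulAction.orbit G p ∧ C.crossT z t}.Finite := by
    intro t
    apply (f1 C t).subset
    rintro z ⟨h1, h2⟩
    exact ⟨horb z h1, h2⟩
  set F : σ × σ → τ → Fin 4 → ℝ := fun z t i => if z ∈ MulAction.orbit G p then
    ∑ᶠ l : σ × σ, (if C.FF z l t i then C.X.Wd (C.cE z) (β l) t i else 0) else 0 with hF
  have hFfin : ∀ t i, (Function.support fun z => F z t i).Finite := by
    intro t i
    apply (hfin t).subset
    intro z hz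
    rw [Function.mem_support] at hz
    by_cases hzo : z ∈ MulAction.orbit G p
    · refine ⟨hzo, ?_⟩
      by_contra hcr
      apply hz
      simp only [hF, if_pos hzo]
      rw [finsum_eq_zero_of_forall_eq_zero]
      intro l
      rw [if_neg]
      intro h
      exact hcr (IE7.crossT_of_crossF C h.2.1)
    · simp only [hF, if_neg hzo] at hz
      exact absurd rfl hz
  have hzero := IE7.total_zero b2 C F ?_ ?_ hFfin
  · have h1 := hη.one p hp
    unfold Ctx.Phi at h1
    rw [← h1]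
    have key : ∀ t : τ, C.wt η β p t = (∑ᶠ z : σ × σ, if z ∈ MulAction.orbit G p then
        C.Nn z (η z) t else 0) - ∑ᶠ z : σ × σ, ∑ i, F z t i := by
      intro t
      unfold Ctx.wt
      rw [← finsum_sub_distrib]
      · apply finsum_congr
        intro z
        by_cases hz : z ∈ MulAction.orbit G p
        · simp only [if_pos hz, hF, Ctx.om]
        · simp only [if_neg hz, hF]
          simp
      · apply (hfin t).subset
        intro z hz
        rw [Function.mem_support] at hz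
        by_cases hzo : z ∈ MulAction.orbit G p
        · refine ⟨hzo, ?_⟩
          by_contra hcr
          apply hz
          rw [if_pos hzo]
          exact IH3.Nn_zero C (hη.closed z (horb z hzo) t) hcr
        · rw [if_neg hzo] at hz
          exact absurd rfl hz
      · apply (Set.finite_iUnion fun i => hFfin t i).subset
        intro z hz
        rw [Function.mem_support] at hz
        obtain ⟨i, _, hi⟩ := Finset.exists_ne_zero_of_sum_ne_zero hz
        exact Set.mem_iUnion.2 ⟨i, hi⟩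
    have e1 : ∀ q : Quotient (MulAction.orbitRel G τ), C.wt η β p q.out =
        (∑ᶠ z : σ × σ, if z ∈ MulAction.orbit G p then C.Nn z (η z) q.out else 0) -
          ∑ᶠ z : σ × σ, ∑ i, F z q.out i := fun q => key q.out
    rw [finsum_congr e1, finsum_sub_distrib (Set.toFinite _) (Set.toFinite _), hzero, sub_zero]
    rfl
  · intro z t i
    by_cases hz : z ∈ MulAction.orbit G p
    · simp only [hF, if_pos hz]
      rw [← finsum_neg_distrib]
      apply finsum_congr
      intro l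
      by_cases hl : C.FF z l t i
      · rw [if_pos ((IH3.FF_nb C z l t i).2 hl), if_pos hl]
        exact IE7.Wd_flow c2 c4 C (hβ.c1 z l hl.1) z t i
      · rw [if_neg (fun h => hl ((IH3.FF_nb C z l t i).1 h)), if_neg hl, neg_zero]
    · simp only [hF, if_neg hz, neg_zero]
  · intro g z t i
    have hzg : g • z ∈ MulAction.orbit G p ↔ z ∈ MulAction.orbit G p := by
      constructor
      · rintro ⟨k, hk⟩
        refine ⟨g⁻¹ * k, ?_⟩
        show (g⁻¹ * k) • p = z
        rw [mul_smul]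
        have hk' : k • p = g • z := hk
        rw [hk', inv_smul_smul]
      · rintro ⟨k, rfl⟩
        exact ⟨g * k, mul_smul g k p⟩
    by_cases hz : z ∈ MulAction.orbit G p
    · simp only [hF, if_pos hz, if_pos (hzg.2 hz)]
      have e1 : (∑ᶠ l : σ × σ, if C.FF (g • z) l (g • t) i then
          C.X.Wd (C.cE (g • z)) (β l) (g • t) i else 0) =
          ∑ᶠ l : σ × σ, if C.FF (g • z) (g • l) (g • t) i then
            C.X.Wd (C.cE (g • z)) (β (g • l)) (g • t) i else 0 :=
        (finsum_comp_equiv (MulAction.toPerm g) (f := fun l => if C.FF (g • z) l (g • t) i then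
          C.X.Wd (C.cE (g • z)) (β l) (g • t) i else 0)).symm
      rw [e1]
      apply finsum_congr
      intro l
      rw [if_congr (IH3.FF_smul h8 C g z l t i) rfl rfl]
      by_cases hl : C.FF z l t i
      · rw [if_pos hl, if_pos hl]
        apply IE7.Wd_congr
        · intro j
          rw [C.deck.vx_smul, IE7.cE_smul h8]
        · intro j k
          exact hβ.equi g l t j k
      · rw [if_neg hl, if_neg hl]
    · simp only [hF, if_neg hz, if_neg (fun h => hz (hzg.1 h))]

end Pool.Agent.MP_343d73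

end

section

set_option autoImplicit false

/-!
H7: the frontier function in terms of geodesics of length six.
-/

namespace Pool.Agent.MP_343d73

open scoped Classical
noncomputable section

namespace H7

open HPt

variable {τ V σ G : Type} [Group G] [MulAction G τ] [MulAction G V] [MulAction G σ]
  (C : Ctx τ V σ G)

theorem ends (h4 : PA4) (P : σ × σ) (t : τ) (i : Fin 4) (h6 : C.F6 P t i) :
    ∃ j k, j ≠ i ∧ k ≠ i ∧ Beh C.S P.1 P.2 (C.img t j) ∧ Beh C.S P.2 P.1 (C.img t k) := by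
  obtain ⟨hP, hfl, j, k, hj, hk, hfj, hfk⟩ := h6
  refine ⟨k, j, hk, hj, ?_, ?_⟩
  · rcases hfl k hk with h | h
    · exact h
    · exact absurd (far2 C h4 P 3 (by omega) _ h) hfk
  · rcases hfl j hj with h | h
    · exact absurd hfj (far1 C h4 P 3 (by omega) _ h)
    · exact h

/-- the label of a face which is flat for `P` -/
theorem lab_F6 (h4 : PA4) (P : σ × σ) (t : τ) (i : Fin 4) (h6 : C.F6 P t i) :
    C.FF (C.pt P 3, C.pt P 4) (C.pt P 1, P.2) t i := by
  have hP := h6.1
  obtain ⟨s4, s4'⟩ := pt_spec C h4 P 4 (by omega)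
  obtain ⟨s1, s1'⟩ := pt_spec C h4 P 1 (by omega)
  refine ⟨⟨pt_adj C h4 P 3 (by omega), ?_, ?_, ?_⟩, h6.2.2, fun j hj => ?_⟩
  · exact pt_dist C h4 P 1 3 (by omega) (by omega)
  · show C.S.dist (C.pt P 4) P.2 = 2
    omega
  · show C.S.dist (C.pt P 1) P.2 = 5
    omega
  · have e := dc C P.2 (C.pt P 1)
    rcases h6.2.1 j hj with h | h
    · left
      have a := beh1 C h4 P 1 (by omega) _ h
      unfold Beh at h ⊢
      simp only
      omega
    · right
      have a := beh2 C h4 P 1 (by omega) _ h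
      unfold Beh at h ⊢
      simp only
      omega

theorem inj (h4 : PA4) (P Q : σ × σ) (t : τ) (i : Fin 4) (hP : C.F6 P t i) (hQ : C.F6 Q t i)
    (h : (C.pt P 3, C.pt P 4) = (C.pt Q 3, C.pt Q 4)) : P = Q := by
  obtain ⟨j, k, hj, hk, hjb, hkb⟩ := ends C h4 P t i hP
  have hF := lab_F6 C h4 Q t i hQ
  rw [← h] at hF
  have hl := lab_right C h4 P hP.1 _ _ _ hF.1 hjb hkb (hF.2.2 j hj) (hF.2.2 k hk)
  have e2 : Q.2 = P.2 := (Prod.mk.inj hl).2
  have p3 : C.pt P 3 = C.pt Q 3 := congrArg Prod.fst h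
  have p4 : C.pt P 4 = C.pt Q 4 := congrArg Prod.snd h
  have e1 : P.1 = Q.1 := by
    have a3 := beh1 C h4 P 3 (by rw [hP.1]; omega) _ hjb
    have hjb' : Beh C.S Q.1 Q.2 (C.img t j) := by
      rcases hQ.2.1 j hj with h' | h'
      · exact h'
      · exfalso
        have f1 := far1 C h4 P 3 (by rw [hP.1]; omega) _ hjb
        have f2 := far2 C h4 Q 3 (by rw [hQ.1]; omega) _ h'
        rw [p3, show C.pt P (3 + 1) = C.pt Q (3 + 1) from p4] at f1
        exact f1 f2
    have b3 := beh1 C h4 Q 3 (by rw [hQ.1]; omega) _ hjb'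
    obtain ⟨s3, -⟩ := pt_spec C h4 P 3 (by rw [hP.1]; omega)
    obtain ⟨q3, -⟩ := pt_spec C h4 Q 3 (by rw [hQ.1]; omega)
    rw [← p3] at b3 q3
    apply (h4 C.S C.tree (C.img t j) (C.pt P 3) (C.S.dist (C.img t j) P.1) (by omega)).unique
    · exact ⟨rfl, by omega⟩
    · exact ⟨by omega, by omega⟩
  exact Prod.ext e1 e2.symm

/-- a crossing edge at a vertex of `M` on a frontier face comes from a geodesic of length six -/
theorem surj (h4 : PA4) (A : Set (Quotient (MulAction.orbitRel G τ))) (M : Set σ)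
    (hF : C.Front A M) (t : τ) (i : Fin 4) (h1 : cl G t ∈ A) (h2 : cl G (C.X.nb t i) ∉ A)
    (p : σ × σ) (hM : p.1 ∈ M) (hadj : C.S.Adj p.1 p.2) (hcr : C.crossF p t i) :
    ∃ P, C.F6 P t i ∧ C.pt P 3 = p.1 ∧ C.pt P 4 = p.2 := by
  obtain ⟨s, b⟩ := p
  simp only at hM hadj ⊢
  obtain ⟨-, hF2⟩ := hF t i h1 h2 s hM
  obtain ⟨l, ⟨-, l1, l2, l3⟩, -, hfl⟩ := hF2 b hadj hcr
  simp only at l1 l2
  have hsb : C.S.dist s b = 1 := SimpleGraph.dist_eq_one_iff_adj.2 hadj
  have ls : C.S.dist s l.2 = 3 := by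
    have t1 := tri C l.1 s l.2
    have t2 := tri C s b l.2
    omega
  -- the neighbour of s towards l.1
  obtain ⟨b', ⟨b1, b2⟩, -⟩ := h4 C.S C.tree l.1 s 1 (by omega)
  have e1 := dc C b' s
  have hb'2 : C.S.dist b' l.2 = 4 := by
    have t1 := tri C l.1 b' l.2
    have t2 := tri C b' s l.2
    omega
  have hadj' : C.S.Adj s b' := by
    rw [← SimpleGraph.dist_eq_one_iff_adj]
    omega
  have el := dc C l.1 l.2
  have els := dc C l.2 s
  have els' := dc C l.1 s
  have elb := dc C l.2 b'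
  have elb' := dc C l.1 b'
  have elbb := dc C l.2 b
  have elbb' := dc C l.1 b
  have hlb : C.S.dist l.1 b = 3 := by
    have t1 := tri C l.1 s b
    have t2 := tri C l.1 b l.2
    omega
  -- positions of the images
  have hpos : ∀ m, m ≠ i → (C.S.dist (C.img t m) s = C.S.dist (C.img t m) l.1 + 2 ∧
      C.S.dist (C.img t m) b = C.S.dist (C.img t m) l.1 + 3 ∧
      C.S.dist (C.img t m) b' = C.S.dist (C.img t m) l.1 + 1 ∧
      C.S.dist (C.img t m) l.2 = C.S.dist (C.img t m) l.1 + 5) ∨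
      (C.S.dist (C.img t m) s = C.S.dist (C.img t m) l.2 + 3 ∧
      C.S.dist (C.img t m) b = C.S.dist (C.img t m) l.2 + 2 ∧
      C.S.dist (C.img t m) b' = C.S.dist (C.img t m) l.2 + 4 ∧
      C.S.dist (C.img t m) l.1 = C.S.dist (C.img t m) l.2 + 5) := by
    intro m hm
    rcases hfl m hm with h | h
    · left
      unfold Beh at h
      have t1 := tri C (C.img t m) s l.2
      have t2 := tri C (C.img t m) l.1 s
      have t3 := tri C (C.img t m) b' l.2
      have t4 := tri C (C.img t m) l.1 b'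
      have t5 := tri C (C.img t m) b l.2
      have t6 := tri C (C.img t m) l.1 b
      omega
    · right
      unfold Beh at h
      have t1 := tri C (C.img t m) s l.1
      have t2 := tri C (C.img t m) l.2 s
      have t3 := tri C (C.img t m) b' l.1
      have t4 := tri C (C.img t m) l.2 b'
      have t5 := tri C (C.img t m) b l.1
      have t6 := tri C (C.img t m) l.2 b
      omega
  obtain ⟨j, k, hj, hk, hfj, hfk⟩ := hcr
  unfold Far at hfj hfk
  simp only at hfj hfk
  rw [dc C b, dc C s] at hfj hfk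
  have hcr' : C.crossF (s, b') t i := by
    refine ⟨k, j, hk, hj, ?_, ?_⟩
    · unfold Far
      simp only
      rw [dc C b', dc C s]
      rcases hpos k hk with h | h <;> omega
    · unfold Far
      simp only
      rw [dc C b', dc C s]
      rcases hpos j hj with h | h <;> omega
  obtain ⟨l', ⟨-, m1, m2, m3⟩, -, hfl'⟩ := hF2 b' hadj' hcr'
  simp only at m1 m2
  have hsb' : C.S.dist s b' = 1 := SimpleGraph.dist_eq_one_iff_adj.2 hadj'
  have ms : C.S.dist s l'.2 = 3 := by
    have t1 := tri C l'.1 s l'.2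
    have t2 := tri C s b' l'.2
    omega
  have em := dc C l'.1 l'.2
  have ems := dc C l'.2 s
  have ems' := dc C l'.1 s
  have emb := dc C l'.2 b'
  have emb' := dc C l'.1 b'
  have hmb : C.S.dist l'.1 b' = 3 := by
    have t1 := tri C l'.1 s b'
    have t2 := tri C l'.1 b' l'.2
    omega
  have hpos' : ∀ m, m ≠ i → (C.S.dist (C.img t m) s = C.S.dist (C.img t m) l'.1 + 2 ∧
      C.S.dist (C.img t m) b' = C.S.dist (C.img t m) l'.1 + 3 ∧
      C.S.dist (C.img t m) l'.2 = C.S.dist (C.img t m) l'.1 + 5) ∨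
      (C.S.dist (C.img t m) s = C.S.dist (C.img t m) l'.2 + 3 ∧
      C.S.dist (C.img t m) b' = C.S.dist (C.img t m) l'.2 + 2 ∧
      C.S.dist (C.img t m) l'.1 = C.S.dist (C.img t m) l'.2 + 5) := by
    intro m hm
    rcases hfl' m hm with h | h
    · left
      unfold Beh at h
      have t1 := tri C (C.img t m) s l'.2
      have t2 := tri C (C.img t m) l'.1 s
      have t5 := tri C (C.img t m) b' l'.2
      have t6 := tri C (C.img t m) l'.1 b'
      omega
    · right
      unfold Beh at h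
      have t1 := tri C (C.img t m) s l'.1
      have t2 := tri C (C.img t m) l'.2 s
      have t5 := tri C (C.img t m) b' l'.1
      have t6 := tri C (C.img t m) l'.2 b'
      omega
  have hPd : C.S.dist l'.2 l.2 = 6 := by
    have t1 := tri C l'.2 s l.2
    have t2 := tri C (C.img t k) l'.2 l.2
    have q1 := hpos k hk
    have q2 := hpos' k hk
    omega
  have hPd' := dc C l'.2 l.2
  have p3 : C.pt (l'.2, l.2) 3 = s := by
    apply pt_eq C h4 (l'.2, l.2) 3 s
    · show C.S.dist l'.2 s = 3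
      omega
    · show C.S.dist l'.2 s + C.S.dist s l.2 = C.S.dist l'.2 l.2
      omega
  have hbl : C.S.dist l'.2 b = 4 := by
    have t1 := tri C l'.2 s b
    have t2 := tri C l'.2 b l.2
    omega
  have p4 : C.pt (l'.2, l.2) 4 = b := by
    apply pt_eq C h4 (l'.2, l.2) 4 b
    · show C.S.dist l'.2 b = 4
      omega
    · show C.S.dist l'.2 b + C.S.dist b l.2 = C.S.dist l'.2 l.2
      omega
  refine ⟨(l'.2, l.2), ⟨hPd, fun m hm => ?_, ?_⟩, p3, p4⟩
  · unfold Ctx.flatR Beh
    simp only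
    have q1 := hpos m hm
    have q2 := hpos' m hm
    omega
  · rw [p3, p4]
    refine ⟨j, k, hj, hk, ?_, ?_⟩
    · unfold Far
      simp only
      rw [dc C b, dc C s]
      exact hfj
    · unfold Far
      simp only
      rw [dc C b, dc C s]
      exact hfk

theorem Wd_zero (c4 : PC4) (p : σ × σ) (t : τ) (i : Fin 4) (hn : ¬ C.crossF p t i)
    (b : τ → Fin 4 → Fin 4 → ℝ) (hb : C.X.IsC1 b) : C.X.Wd (C.cE p) b t i = 0 := by
  by_cases hall : ∀ j, j ≠ i → Far C.S p (C.img t j)
  · apply c4 C.X b hb (C.cE p) 1 t i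
    intro j hj
    unfold Ctx.cE
    exact if_pos (hall j hj)
  · push Not at hall
    obtain ⟨k, hk, hfk⟩ := hall
    apply c4 C.X b hb (C.cE p) 0 t i
    intro j hj
    unfold Ctx.cE
    apply if_neg
    intro hfj
    exact hn ⟨j, k, hj, hk, hfj, hfk⟩

end H7

open HPt H7 in
/-- H7 -/
theorem prH7 (h4 : PA4) (c4 : PC4) : PH7 := by
  intro τ V σ G _ _ _ _ C η β M ηS lam γ hη hβ hS A hF t i h1 h2
  have hL : C.RR M β lam γ t i = ∑ᶠ p ∈ {p : σ × σ | p.1 ∈ M ∧ C.S.Adj p.1 p.2 ∧ C.crossF p t i},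
      (C.X.Wd (C.cE p) (γ p) t i +
        lam p * ∑ᶠ l : σ × σ, (if C.FF p l t i then C.X.Wd (C.cE p) (β l) t i else 0)) := by
    unfold Ctx.RR
    rw [finsum_mem_def]
    apply finsum_congr
    intro p
    by_cases hp : p.1 ∈ M ∧ C.S.Adj p.1 p.2
    · by_cases hc : C.crossF p t i
      · rw [if_pos hp, Set.indicator_of_mem]
        exact ⟨hp.1, hp.2, hc⟩
      · rw [if_pos hp, Set.indicator_of_notMem, Wd_zero C c4 p t i hc (γ p) (hS.c1 p hp.1 hp.2)]
        · have : ∀ l, (if C.FF p l t i then C.X.Wd (C.cE p) (β l) t i else 0) = 0 := by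
            intro l
            exact if_neg (fun h => hc h.2.1)
          simp [this]
        · exact fun h => hc h.2.2
    · rw [if_neg hp, Set.indicator_of_notMem]
      exact fun h => hp ⟨h.1, h.2.1⟩
  have hR : ∑ᶠ P : σ × σ, (if C.F6 P t i ∧ C.pt P 3 ∈ M then
      C.X.Wd (C.cE (C.pt P 3, C.pt P 4)) (C.kap β lam γ P) t i else 0) =
      ∑ᶠ P ∈ {P : σ × σ | C.F6 P t i ∧ C.pt P 3 ∈ M},
        C.X.Wd (C.cE (C.pt P 3, C.pt P 4)) (C.kap β lam γ P) t i := by
    rw [finsum_mem_def]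
    apply finsum_congr
    intro P
    by_cases hP : C.F6 P t i ∧ C.pt P 3 ∈ M
    · rw [if_pos hP, Set.indicator_of_mem]
      exact hP
    · rw [if_neg hP, Set.indicator_of_notMem]
      exact hP
  rw [hL, hR]
  symm
  apply finsum_mem_eq_of_bijOn (fun P => (C.pt P 3, C.pt P 4))
  · refine ⟨?_, ?_, ?_⟩
    · rintro P ⟨h6, hM⟩
      exact ⟨hM, pt_adj C h4 P 3 (by rw [h6.1]; omega), h6.2.2⟩
    · rintro P ⟨hP, -⟩ Q ⟨hQ, -⟩ h
      exact inj C h4 P Q t i hP hQ h
    · rintro p ⟨hM, hadj, hcr⟩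
      obtain ⟨P, h6, p3, p4⟩ := surj C h4 A M hF t i h1 h2 p hM hadj hcr
      refine ⟨P, ⟨h6, by rw [p3]; exact hM⟩, ?_⟩
      show (C.pt P 3, C.pt P 4) = p
      rw [p3, p4]
  · rintro P ⟨h6, hM⟩
    obtain ⟨j, k, hj, hk, hjb, hkb⟩ := ends C h4 P t i h6
    have hfin : ∑ᶠ l : σ × σ, (if C.FF (C.pt P 3, C.pt P 4) l t i then
        C.X.Wd (C.cE (C.pt P 3, C.pt P 4)) (β l) t i else 0) =
        C.X.Wd (C.cE (C.pt P 3, C.pt P 4)) (β (C.pt P 1, P.2)) t i := by
      rw [finsum_eq_single _ (C.pt P 1, P.2)]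
      · exact if_pos (lab_F6 C h4 P t i h6)
      · intro l hl
        apply if_neg
        intro hff
        exact hl (lab_right C h4 P h6.1 l _ _ hff.1 hjb hkb (hff.2.2 j hj) (hff.2.2 k hk))
    show _ = C.X.Wd (C.cE (C.pt P 3, C.pt P 4)) (γ (C.pt P 3, C.pt P 4)) t i +
        lam (C.pt P 3, C.pt P 4) * _
    rw [hfin]
    unfold Tri.Wd Tri.cbar d1 Ctx.kap
    ring

end

end Pool.Agent.MP_343d73

end

section

set_option autoImplicit false

/-!
H8: the sum over the frontier faces which are flat for one geodesic of length six vanishes.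
-/

namespace Pool.Agent.MP_343d73

open scoped Classical
noncomputable section

namespace H8

open HPt

variable {τ V σ G : Type} [Group G] [MulAction G τ] [MulAction G V] [MulAction G σ]
  (C : Ctx τ V σ G)

/-- on a frontier face, a flat crossing edge makes the whole face flat -/
theorem flat_face (h4 : PA4) (A : Set (Quotient (MulAction.orbitRel G τ))) (M : Set σ)
    (hF : C.Front A M) (P : σ × σ) (hP : C.S.dist P.1 P.2 = 6) (hM : C.pt P 3 ∈ M) (t : τ)
    (i : Fin 4) (h1 : cl G t ∈ A) (h2 : cl G (C.X.nb t i) ∉ A) (j k : Fin 4) (hj : j ≠ i)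
    (hk : k ≠ i) (hjb : Beh C.S P.1 P.2 (C.img t j)) (hkb : Beh C.S P.2 P.1 (C.img t k)) :
    C.F6 P t i := by
  have hadj := pt_adj C h4 P 3 (by omega)
  have hadj' := pt_adj C h4 P 2 (by omega)
  have hcr : C.crossF (C.pt P 3, C.pt P 4) t i :=
    ⟨k, j, hk, hj, far2 C h4 P 3 (by omega) _ hkb, far1 C h4 P 3 (by omega) _ hjb⟩
  obtain ⟨hF1, hF2⟩ := hF t i h1 h2 _ hM
  obtain ⟨l, hl, -, hfl⟩ := hF2 _ hadj hcr
  have hl1 := lab_right C h4 P hP l _ _ hl hjb hkb (hfl j hj) (hfl k hk)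
  -- the other side
  have hPs : C.S.dist P.swap.1 P.swap.2 = 6 := by
    show C.S.dist P.2 P.1 = 6
    rw [dc]; exact hP
  have q3 : C.pt P.swap 3 = C.pt P 3 := pt_swap C h4 P 3 3 (by omega)
  have q4 : C.pt P.swap 4 = C.pt P 2 := pt_swap C h4 P 2 4 (by omega)
  have q1 : C.pt P.swap 1 = C.pt P 5 := pt_swap C h4 P 5 1 (by omega)
  have hcr' : C.crossF (C.pt P 3, C.pt P 2) t i := by
    rw [← q3, ← q4]
    exact ⟨j, k, hj, hk, far2 C h4 P.swap 3 (by omega) _ hjb,
      far1 C h4 P.swap 3 (by omega) _ hkb⟩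
  obtain ⟨l', hl', -, hfl'⟩ := hF2 _ hadj'.symm hcr'
  rw [← q3, ← q4] at hl'
  have hl1' := lab_right C h4 P.swap hPs l' _ _ hl' hkb hjb (hfl' k hk) (hfl' j hj)
  rw [q1] at hl1'
  change l' = (C.pt P 5, P.1) at hl1'
  subst hl1 hl1'
  refine ⟨hP, fun m hm => ?_, hcr⟩
  have g1 := hfl m hm
  have g2 := hfl' m hm
  unfold Ctx.flatR Beh at g1 g2 ⊢
  simp only at g1 g2
  generalize C.img t m = r at g1 g2 ⊢
  obtain ⟨s1, s1'⟩ := pt_spec C h4 P 1 (by omega)
  obtain ⟨s5, s5'⟩ := pt_spec C h4 P 5 (by omega)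
  have d15 := pt_dist C h4 P 1 5 (by omega) (by omega)
  have e1 := dc C P.1 (C.pt P 1)
  have e2 := dc C P.1 (C.pt P 5)
  have e3 := dc C P.2 (C.pt P 1)
  have e4 := dc C P.2 (C.pt P 5)
  have e5 := dc C P.1 P.2
  have e6 := dc C (C.pt P 1) (C.pt P 5)
  have t1 := tri C r P.1 (C.pt P 1)
  have t2 := tri C r (C.pt P 1) P.1
  have t3 := tri C r (C.pt P 5) P.2
  have t4 := tri C r P.2 (C.pt P 5)
  have t5 := tri C r (C.pt P 1) (C.pt P 5)
  have t6 := tri C r (C.pt P 5) (C.pt P 1)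
  have t7 := tri C r P.1 P.2
  have t8 := tri C r P.2 P.1
  omega

/-- the 1-cochain of the proof -/
def psi (P : σ × σ) (h : V → ℝ) (t : τ) (j k : Fin 4) : ℝ :=
  if C.flatR P (C.img t j) ∧ C.flatR P (C.img t k) then
    (h (C.X.vx t k) + h (C.X.vx t j)) * (C.cE (C.pt P 3, C.pt P 4) (C.X.vx t k) -
      C.cE (C.pt P 3, C.pt P 4) (C.X.vx t j)) / 2 else 0

theorem psi_C1 (P : σ × σ) (h : V → ℝ) : C.X.IsC1 (psi C P h) := by
  refine ⟨fun t j k => ?_, fun t i j k hj hk => ?_⟩
  · unfold psi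
    by_cases hf : C.flatR P (C.img t j) ∧ C.flatR P (C.img t k)
    · rw [if_pos hf, if_pos hf.symm]
      ring
    · rw [if_neg hf, if_neg (fun h => hf h.symm)]
      simp
  · unfold psi Ctx.img
    rw [C.X.vx_nb t i j hj, C.X.vx_nb t i k hk]

theorem psi_ne (h4 : PA4) (P : σ × σ) (hP : C.S.dist P.1 P.2 = 6) (h : V → ℝ) (t : τ)
    (j k : Fin 4) (hne : psi C P h t j k ≠ 0) :
    (Beh C.S P.1 P.2 (C.img t j) ∧ Beh C.S P.2 P.1 (C.img t k)) ∨
      (Beh C.S P.1 P.2 (C.img t k) ∧ Beh C.S P.2 P.1 (C.img t j)) := by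
  unfold psi at hne
  split_ifs at hne with hf
  · obtain ⟨h1, h2⟩ := hf
    rcases h1 with h1 | h1
    · rcases h2 with h2 | h2
      · exfalso
        apply hne
        have e1 := far1 C h4 P 3 (by omega) _ h1
        have e2 := far1 C h4 P 3 (by omega) _ h2
        unfold Ctx.img at e1 e2
        unfold Ctx.cE
        rw [if_neg e1, if_neg e2]
        simp
      · exact Or.inl ⟨h1, h2⟩
    · rcases h2 with h2 | h2
      · exact Or.inr ⟨h2, h1⟩
      · exfalso
        apply hne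
        have e1 := far2 C h4 P 3 (by omega) _ h1
        have e2 := far2 C h4 P 3 (by omega) _ h2
        unfold Ctx.img at e1 e2
        unfold Ctx.cE
        rw [if_pos e1, if_pos e2]
        simp
  · exact absurd rfl hne

theorem E_ne (h4 : PA4) (P : σ × σ) (hP : C.S.dist P.1 P.2 = 6) (h : V → ℝ) (t : τ)
    (i : Fin 4) (hne : d1 (psi C P h) t i ≠ 0) : ∃ j k, j ≠ i ∧ k ≠ i ∧
      Beh C.S P.1 P.2 (C.img t j) ∧ Beh C.S P.2 P.1 (C.img t k) := by
  by_contra hcon
  push Not at hcon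
  apply hne
  unfold d1
  have key : ∀ j k, j ≠ i → k ≠ i → psi C P h t j k = 0 := by
    intro j k hj hk
    by_contra h0
    rcases psi_ne C h4 P hP h t j k h0 with h1 | h1
    · exact hcon j k hj hk h1.1 h1.2
    · exact hcon k j hk hj h1.1 h1.2
  rw [key _ _ (fa_ne i) (fb_ne i), key _ _ (fb_ne i) (fc_ne i), key _ _ (fc_ne i) (fa_ne i)]
  simp

theorem E_bd (P : σ × σ) (h : V → ℝ) (t : τ) (i : Fin 4) (hb : C.X.Bd t i) :
    d1 (psi C P h) t i = 0 := by
  have key : ∀ j k, j ≠ i → k ≠ i → psi C P h t j k = 0 := by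
    intro j k hj hk
    have e := C.ph_bd t i j k hb hj hk
    unfold psi Ctx.cE
    rw [e]
    simp
  unfold d1
  rw [key _ _ (fa_ne i) (fb_ne i), key _ _ (fb_ne i) (fc_ne i), key _ _ (fc_ne i) (fa_ne i)]
  simp

theorem E_flow (c1 : PC1) (P : σ × σ) (h : V → ℝ) : C.X.Flow (d1 (psi C P h)) := by
  intro t i
  by_cases hb : C.X.Bd t i
  · have e := E_bd C P h t i hb
    obtain ⟨b1, b2⟩ := hb
    rw [b1, b2, e]
    simp
  · exact (c1 C.X _ (psi_C1 C P h)).1 t i hb

theorem E_flat (c5 : PC5) (P : σ × σ) (h : V → ℝ) (t : τ) (i : Fin 4) (h6 : C.F6 P t i) :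
    C.X.Wd (C.cE (C.pt P 3, C.pt P 4)) (fun t j k => h (C.X.vx t k) - h (C.X.vx t j)) t i =
      d1 (psi C P h) t i := by
  rw [c5 C.X (C.cE (C.pt P 3, C.pt P 4)) h t i]
  have key : ∀ j k, j ≠ i → k ≠ i → psi C P h t j k =
      (h (C.X.vx t k) + h (C.X.vx t j)) * (C.cE (C.pt P 3, C.pt P 4) (C.X.vx t k) -
      C.cE (C.pt P 3, C.pt P 4) (C.X.vx t j)) / 2 := by
    intro j k hj hk
    unfold psi
    rw [if_pos ⟨h6.2.1 j hj, h6.2.1 k hk⟩]
  unfold d1
  rw [key _ _ (fa_ne i) (fb_ne i), key _ _ (fb_ne i) (fc_ne i), key _ _ (fc_ne i) (fa_ne i)]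

end H8

/-- H8 -/
theorem prH8 (b4 : PB4) (c1 : PC1) (c5 : PC5) (f3 : PHF3) (h4 : PA4) : PH8 := by
  intro τ V σ G _ _ _ _ C hac A M hF P hP hM h
  have hfin : {t | ∃ i, d1 (H8.psi C P h) t i ≠ 0}.Finite := by
    apply (f3 C hac P (by omega)).subset
    rintro t ⟨i, hi⟩
    obtain ⟨j, k, -, -, h1, h2⟩ := H8.E_ne C h4 P hP h t i hi
    exact ⟨j, k, h1, h2⟩
  have hB := b4 C.X (d1 (H8.psi C P h)) (H8.E_flow C c1 P h) hfin {t | cl G t ∈ A}
  have key : ∀ t, ∑ i, (if cl G t ∈ A ∧ cl G (C.X.nb t i) ∉ A ∧ C.F6 P t i then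
      C.X.Wd (C.cE (C.pt P 3, C.pt P 4)) (fun t j k => h (C.X.vx t k) - h (C.X.vx t j)) t i
      else 0) = - ∑ i, (if t ∈ {t | cl G t ∈ A} ∧ C.X.nb t i ∈ {t | cl G t ∈ A} then
        d1 (H8.psi C P h) t i else 0) := by
    intro t
    have hz : ∑ i, (if cl G t ∈ A then d1 (H8.psi C P h) t i else 0) = 0 := by
      by_cases hA : cl G t ∈ A
      · simp only [hA, if_true]
        exact (c1 C.X _ (H8.psi_C1 C P h)).2 t
      · simp [hA]
    have hsum : ∀ i, (if cl G t ∈ A ∧ cl G (C.X.nb t i) ∉ A ∧ C.F6 P t i then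
        C.X.Wd (C.cE (C.pt P 3, C.pt P 4)) (fun t j k => h (C.X.vx t k) - h (C.X.vx t j)) t i
        else 0) = (if cl G t ∈ A then d1 (H8.psi C P h) t i else 0) -
        (if t ∈ {t | cl G t ∈ A} ∧ C.X.nb t i ∈ {t | cl G t ∈ A} then
        d1 (H8.psi C P h) t i else 0) := by
      intro i
      simp only [Set.mem_ofPred_eq]
      by_cases hA : cl G t ∈ A
      · by_cases hB' : cl G (C.X.nb t i) ∈ A
        · simp [hA, hB']
        · by_cases h6 : C.F6 P t i
          · rw [if_pos ⟨hA, hB', h6⟩, if_pos hA, if_neg (fun h => hB' h.2), sub_zero]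
            exact H8.E_flat C c5 P h t i h6
          · rw [if_neg (fun h => h6 h.2.2), if_pos hA, if_neg (fun h => hB' h.2), sub_zero]
            by_contra h0
            obtain ⟨j, k, hj, hk, h1, h2⟩ := H8.E_ne C h4 P hP h t i (fun h => h0 h.symm)
            exact h6 (H8.flat_face C h4 A M hF P hP hM t i hA hB' j k hj hk h1 h2)
      · simp [hA]
    rw [Finset.sum_congr rfl (fun i _ => hsum i), Finset.sum_sub_distrib, hz, zero_sub]
  rw [finsum_congr key, finsum_neg_distrib, hB, neg_zero]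

end

end Pool.Agent.MP_343d73

end

section

set_option autoImplicit false

/-!
I2, I3: weights and frontier condition in terms of core vertices.
-/

namespace Pool.Agent.MP_343d73

namespace ItemI2

open ItemH2

variable {τ V σ G : Type} [Group G] [MulAction G τ] [MulAction G V] [MulAction G σ]
  (C : Ctx τ V σ G)

lemma core_smul (h8 : PA8) (g : G) (s : σ) (t : τ) : C.Core (g • s) (g • t) ↔ C.Core s t := by
  unfold Ctx.Core
  refine or_congr ?_ ?_
  · refine exists_congr fun j => ?_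
    rw [img_smul, smul_left_cancel_iff]
  · constructor
    · rintro ⟨b, hb1, hb2, hb3⟩
      refine ⟨g⁻¹ • b, ?_, ?_, ?_⟩
      · rw [← adj_smul_iff C g, smul_inv_smul]
        exact hb1
      · rw [← crossT_smul C h8 g]
        have : g • (s, g⁻¹ • b) = (g • s, b) := by
          ext <;> simp
        rw [this]
        exact hb2
      · rintro ⟨l, hl⟩
        apply hb3
        refine ⟨g • l, ?_⟩
        have : (g • s, b) = g • (s, g⁻¹ • b) := by
          ext <;> simp
        rw [this, FT_smul C h8]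
        exact hl
    · rintro ⟨b, hb1, hb2, hb3⟩
      refine ⟨g • b, ?_, ?_, ?_⟩
      · rw [adj_smul_iff C g]
        exact hb1
      · have : (g • s, g • b) = g • (s, b) := rfl
        rw [this, crossT_smul C h8 g]
        exact hb2
      · rintro ⟨l, hl⟩
        apply hb3
        refine ⟨g⁻¹ • l, ?_⟩
        rw [← FT_smul C h8 g, smul_inv_smul]
        exact hl

/-- the weight vanishes if the first end is not a core vertex -/
lemma om_zero (hh1 : PH1) (η β) (hη : C.EtaFam η) (hβ : C.BetaFam η β) (p : σ × σ) (t : τ)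
    (hp : C.S.Adj p.1 p.2) (hc : ¬ C.Core p.1 t) : C.om η β p t = 0 := by
  obtain ⟨h1, h2⟩ := hh1 C η β hη hβ p t hp
  by_cases hx : C.crossT p t
  · by_cases hl : ∃ l, C.FT p l t
    · obtain ⟨l, hl⟩ := hl
      exact h2 l hl
    · exact absurd (Or.inr ⟨p.2, hp, hx, hl⟩) hc
  · exact h1 hx

end ItemI2

open ItemH2 ItemI2

open scoped Classical in
theorem prI2 (h1 : PA1) (h8 : PA8) (hh1 : PH1) : PI2 := by
  intro τ V σ G _ _ _ _ C η β hη hβ
  have key : ∀ p t, C.S.Adj p.1 p.2 → ¬ C.Core p.1 t ∨ ¬ C.Core p.2 t → C.om η β p t = 0 := by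
    rintro p t hp (hc | hc)
    · exact om_zero C hh1 η β hη hβ p t hp hc
    · rw [← om_swap C h1 η β hη hβ p t hp]
      exact om_zero C hh1 η β hη hβ p.swap t hp.symm hc
  refine ⟨core_smul C h8, key, ?_⟩
  intro p t hp hc
  unfold Ctx.wt
  refine finsum_eq_zero_of_forall_eq_zero fun z => ?_
  by_cases h : z ∈ MulAction.orbit G p
  · rw [if_pos h]
    obtain ⟨g, rfl⟩ := h
    refine key _ t (C.adj_smul g _ _ hp) ?_
    rcases hc with hc | hc
    · exact Or.inl (hc g)
    · exact Or.inr (hc g)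
  · rw [if_neg h]

theorem prI3 (h8 : PA8) : PI3 := by
  intro τ V σ G _ _ _ _ C s0 A hA t i ht ht' s hs
  obtain ⟨g0, rfl⟩ := hs
  have hne : cl G t ≠ cl G (C.X.nb t i) := by
    intro h
    rw [h] at ht
    exact ht' ht
  have hadj : (C.X.dualGraph G).Adj (cl G t) (cl G (C.X.nb t i)) := by
    unfold Tri.dualGraph
    rw [SimpleGraph.fromRel_adj]
    exact ⟨hne, Or.inl ⟨t, i, rfl, rfl⟩⟩
  have hout : ∀ u : τ, (∀ g : G, ¬ C.Core (g • s0) (cl G u).out) → ¬ C.Core (g0 • s0) u := by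
    intro u hu hcore
    obtain ⟨g, hg⟩ : (cl G u).out ∈ MulAction.orbit G u :=
      MulAction.orbitRel_apply.1 (Quotient.exact (Quotient.out_eq _))
    apply hu (g * g0)
    rw [← hg, mul_smul]
    exact (core_smul C h8 g _ _).2 hcore
  rcases hA _ ht _ ht' hadj with h | h
  · have hc := hout t h
    refine ⟨fun j _ hj => hc (Or.inl ⟨j, hj⟩), fun b hb hx => ?_⟩
    have hxT : C.crossT (g0 • s0, b) t := by
      obtain ⟨j, k, -, -, hj, hk⟩ := hx
      exact ⟨j, k, hj, hk⟩
    by_contra hcon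
    apply hc
    refine Or.inr ⟨b, hb, hxT, ?_⟩
    rintro ⟨l, hl⟩
    exact hcon ⟨l, hl.1, hx, fun j _ => hl.2.2 j⟩
  · have hc := hout _ h
    have himg : ∀ j, j ≠ i → C.img (C.X.nb t i) (C.X.pm t i j) = C.img t j := by
      intro j hj
      unfold Ctx.img
      rw [C.X.vx_nb t i j hj]
    refine ⟨fun j hj hjs => hc (Or.inl ⟨C.X.pm t i j, (himg j hj).trans hjs⟩), fun b hb hx => ?_⟩
    have hxT : C.crossT (g0 • s0, b) (C.X.nb t i) := by
      obtain ⟨j, k, hji, hki, hj, hk⟩ := hx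
      refine ⟨C.X.pm t i j, C.X.pm t i k, ?_, ?_⟩
      · rw [himg j hji]
        exact hj
      · rw [himg k hki]
        exact hk
    by_contra hcon
    apply hc
    refine Or.inr ⟨b, hb, hxT, ?_⟩
    rintro ⟨l, hl⟩
    refine hcon ⟨l, hl.1, hx, fun j hj => ?_⟩
    rw [← himg j hj]
    exact hl.2.2 _

end Pool.Agent.MP_343d73

end

section

set_option autoImplicit false

/-!
Item K2: edge groups of different edges at a vertex with three neighbours.
-/

namespace Pool.Agent.MP_343d73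

open scoped Classical

noncomputable section

namespace K2

variable {τ V σ G : Type} [Group G] [MulAction G τ] [MulAction G V] [MulAction G σ]

/-- a ray from `t0` beyond the edge from `s` to `c` -/
structure Ray (C : Ctx τ V σ G) (s c : σ) (t0 : τ) (ζ : τ → Fin 4 → ℝ) : Prop where
  fl : C.X.Flow ζ
  dv : ∀ u, ∑ i, ζ u i = if u = t0 then 1 else 0
  K : ∀ K : ℕ, {t | (∃ i, ζ t i ≠ 0) ∧ ∃ j, C.S.dist s (C.img t j) ≤ K}.Finite
  far : {t | (∃ i, ζ t i ≠ 0) ∧ ∃ j, ¬ Far C.S (s, c) (C.img t j)}.Finite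

/-- difference -/
def dif (ζ ζ' : τ → Fin 4 → ℝ) (t : τ) (i : Fin 4) : ℝ := ζ t i - ζ' t i

theorem dif_ne {ζ ζ' : τ → Fin 4 → ℝ} {t : τ} (h : ∃ i, dif ζ ζ' t i ≠ 0) :
    (∃ i, ζ t i ≠ 0) ∨ ∃ i, ζ' t i ≠ 0 := by
  obtain ⟨i, hi⟩ := h
  by_cases h1 : ζ t i = 0
  · right
    refine ⟨i, fun h2 => hi ?_⟩
    simp [dif, h1, h2]
  · exact Or.inl ⟨i, h1⟩

theorem dif_flow {X : Tri τ V} {ζ ζ' : τ → Fin 4 → ℝ} (h : X.Flow ζ) (h' : X.Flow ζ') :
    X.Flow (dif ζ ζ') := by
  intro t i
  unfold dif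
  rw [h t i, h' t i]; ring

theorem dif_closed (C : Ctx τ V σ G) {s c c' : σ} {t0 : τ} {ζ ζ' : τ → Fin 4 → ℝ}
    (h : Ray C s c t0 ζ) (h' : Ray C s c' t0 ζ') : Closed (dif ζ ζ') := by
  intro t
  unfold dif
  rw [Finset.sum_sub_distrib, h.dv, h'.dv, sub_self]

/-- a flow with `k • z0 = z0` translates is locally finite -/
theorem fin_stab (a8 : PA8) (C : Ctx τ V σ G) (s b1 b2 : σ) (ζ : τ → Fin 4 → ℝ)
    (h : ∀ K : ℕ, {t | (∃ i, ζ t i ≠ 0) ∧ ∃ j, C.S.dist s (C.img t j) ≤ K}.Finite) (t : τ) :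
    {k : G | k • (s, b1, b2) = (s, b1, b2) ∧ ∃ i, ζ (k⁻¹ • t) i ≠ 0}.Finite := by
  have hinj : Function.Injective (fun k : G => k⁻¹ • t) := by
    intro k k' hk
    have h1 : k⁻¹ • t = k'⁻¹ • t := hk
    have h2 : (k' * k⁻¹) • t = t := by rw [mul_smul, h1, smul_inv_smul]
    have h3 := C.deck.free_tet _ _ h2
    exact (mul_inv_eq_one.mp h3).symm
  refine ((h (C.S.dist s (C.img t 0))).preimage hinj.injOn).subset ?_
  rintro k ⟨hk, hk'⟩
  refine ⟨hk', 0, ?_⟩
  have h1 : k • s = s := congrArg Prod.fst hk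
  have h2 : C.img (k⁻¹ • t) 0 = k⁻¹ • C.img t 0 := by
    unfold Ctx.img
    rw [C.deck.vx_smul, C.ph_smul]
  have h3 := a8 C.S C.adj_smul k s (k⁻¹ • C.img t 0)
  rw [h1, smul_inv_smul] at h3
  rw [h2]
  exact h3.ge

theorem fin_stab_dif (a8 : PA8) (C : Ctx τ V σ G) (s b1 b2 : σ) {c c' : σ} {t0 : τ}
    {ζ ζ' : τ → Fin 4 → ℝ} (h : Ray C s c t0 ζ) (h' : Ray C s c' t0 ζ') (t : τ) :
    {k : G | k • (s, b1, b2) = (s, b1, b2) ∧ ∃ i, dif ζ ζ' (k⁻¹ • t) i ≠ 0}.Finite := by
  refine ((fin_stab a8 C s b1 b2 ζ h.K t).union (fin_stab a8 C s b1 b2 ζ' h'.K t)).subset ?_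
  rintro k ⟨h1, h2⟩
  rcases dif_ne h2 with h3 | h3
  · exact Or.inl ⟨h1, h3⟩
  · exact Or.inr ⟨h1, h3⟩

/-- the two sides of different edges at `s` are disjoint -/
theorem far_far (a6 : PA6) (C : Ctx τ V σ G) {s a c r : σ} (ha : C.S.Adj s a)
    (hc : C.S.Adj s c) (h1 : Far C.S (s, a) r) (h2 : Far C.S (s, c) r) : a = c := by
  have hne : s ≠ r := by
    intro h
    rw [← h] at h1
    unfold Far at h1
    simp at h1
  obtain ⟨b, -, hb⟩ := a6 C.S C.tree s r hne
  exact (hb a ⟨ha, h1⟩).trans (hb c ⟨hc, h2⟩).symm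

/-- the flux of a ray towards `c` through the edge towards `a` -/
theorem flux (a6 : PA6) (e4 : PE4) (C : Ctx τ V σ G) {s a c : σ} (ha : C.S.Adj s a)
    (hc : C.S.Adj s c) {t0 : τ} {ζ : τ → Fin 4 → ℝ} (h : Ray C s c t0 ζ) :
    (Function.support (C.Nn (s, a) ζ)).Finite ∧
      ∑ᶠ t, C.Nn (s, a) ζ t = if a = c then 1 else 0 := by
  refine e4 C ζ t0 (s, a) (if a = c then 1 else 0) h.fl h.dv (h.far.subset ?_)
  rintro t ⟨h1, j, hj⟩
  refine ⟨h1, j, ?_⟩
  intro hF
  apply hj
  unfold Ctx.cE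
  by_cases hac : a = c
  · rw [if_pos hac, hac]
    exact if_pos hF
  · rw [if_neg hac, if_neg]
    intro hF'
    exact hac (far_far a6 C ha hc hF' hF)

theorem fin_cross (a6 : PA6) (C : Ctx τ V σ G) {s a c : σ} (ha : C.S.Adj s a)
    (hc : C.S.Adj s c) {t0 : τ} {ζ : τ → Fin 4 → ℝ} (h : Ray C s c t0 ζ) :
    {t | (∃ i, ζ t i ≠ 0) ∧ C.crossT (s, a) t}.Finite := by
  refine h.far.subset ?_
  rintro t ⟨h1, j, k, hj, hk⟩
  refine ⟨h1, ?_⟩
  by_cases hac : a = c
  · exact ⟨k, hac ▸ hk⟩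
  · exact ⟨j, fun hF => hac (far_far a6 C ha hc hj hF)⟩

theorem phi_per (a6 : PA6) (a8 : PA8) (e4 : PE4) (e6 : PE6) (C : Ctx τ V σ G) (s b1 b2 : σ)
    {a c c' : σ} (ha : C.S.Adj s a) (hc : C.S.Adj s c) (hc' : C.S.Adj s c') {t0 : τ}
    {ζ ζ' : τ → Fin 4 → ℝ} (h : Ray C s c t0 ζ) (h' : Ray C s c' t0 ζ')
    (ed : σ × σ × σ → σ × σ) (hed : ∀ (g : G) z, ed (g • z) = g • ed z)
    (hed0 : ed (s, b1, b2) = (s, a)) :
    C.Phi ed (fun z => z ∈ MulAction.orbit G (s, b1, b2))
      (fun z => C.per (s, b1, b2) (dif ζ ζ') z) =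
        (if a = c then 1 else 0) - (if a = c' then 1 else 0) := by
  have h1 := e6 C (Y := σ × σ × σ) (Z := σ × σ × σ) (s, b1, b2) (dif ζ ζ') id ed
    (fun z => z ∈ MulAction.orbit G (s, b1, b2)) (dif_flow h.fl h'.fl) (dif_closed C h h')
    (fin_stab_dif a8 C s b1 b2 h h') (fun g z => rfl) hed
    (fun g z hz => MulAction.mem_orbit_of_mem_orbit g hz) (by
      have h2 := ((fin_cross a6 C ha hc h).union (fin_cross a6 C ha hc' h')).prod
        (Set.finite_singleton (s, b1, b2))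
      refine h2.subset ?_
      rintro ⟨t, z⟩ ⟨-, h4, h5, h6⟩
      simp only [id] at h4
      subst h4
      simp only [hed0] at h6
      refine ⟨?_, rfl⟩
      rcases dif_ne h5 with h7 | h7
      · exact Or.inl ⟨h7, h6⟩
      · exact Or.inr ⟨h7, h6⟩)
  rw [finsum_eq_single _ (s, b1, b2) (by
    intro z hz
    rw [if_neg]
    rintro ⟨-, h3⟩
    exact hz h3), if_pos ⟨MulAction.mem_orbit_self _, rfl⟩, hed0] at h1
  have h3 : ∀ t, C.Nn (s, a) (dif ζ ζ') t = C.Nn (s, a) ζ t - C.Nn (s, a) ζ' t := by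
    intro t
    unfold Ctx.Nn dif
    rw [← Finset.sum_sub_distrib]
    exact Finset.sum_congr rfl fun i _ => by ring
  obtain ⟨h4, h5⟩ := flux a6 e4 C ha hc h
  obtain ⟨h6, h7⟩ := flux a6 e4 C ha hc' h'
  rw [← h5, ← h7, ← finsum_sub_distrib h4 h6]
  exact Eq.trans h1 (finsum_congr h3)

end K2

theorem prK2 (k1 : PK1) (b5 : PB5) (d3 : PD3) (e3 : PE3) (e4 : PE4) (e5 : PE5) (e6 : PE6)
    (e7 : PE7) (e8 : PE8) (f1 : PHF1) (a6 : PA6) (a8 : PA8) : PK2 := by
  intro τ V σ G _ _ _ _ C s b1 b2 b3 h1 h2 h3 h12 h13 h23 hle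
  obtain ⟨t0⟩ := C.conn.1
  obtain ⟨ζ1, hz1⟩ : ∃ ζ, K2.Ray C s b1 t0 ζ := by
    obtain ⟨ζ, a1, a2, a3, a4⟩ := e3 C (s, b1) h1 t0
    exact ⟨ζ, a1, a2, a3, a4⟩
  obtain ⟨ζ2, hz2⟩ : ∃ ζ, K2.Ray C s b2 t0 ζ := by
    obtain ⟨ζ, a1, a2, a3, a4⟩ := e3 C (s, b2) h2 t0
    exact ⟨ζ, a1, a2, a3, a4⟩
  obtain ⟨ζ3, hz3⟩ : ∃ ζ, K2.Ray C s b3 t0 ζ := by
    obtain ⟨ζ, a1, a2, a3, a4⟩ := e3 C (s, b3) h3 t0
    exact ⟨ζ, a1, a2, a3, a4⟩
  obtain ⟨u1, u2, u3⟩ := e5 C (Y := σ × σ × σ) (s, b1, b2) (K2.dif ζ1 ζ3)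
    (K2.dif_flow hz1.fl hz3.fl) (K2.dif_closed C hz1 hz3) (K2.fin_stab_dif a8 C s b1 b2 hz1 hz3)
  obtain ⟨w1, w2, w3⟩ := e5 C (Y := σ × σ × σ) (s, b1, b2) (K2.dif ζ2 ζ3)
    (K2.dif_flow hz2.fl hz3.fl) (K2.dif_closed C hz2 hz3) (K2.fin_stab_dif a8 C s b1 b2 hz2 hz3)
  set E := C.per (s, b1, b2) (K2.dif ζ1 ζ3) with hE
  set E' := C.per (s, b1, b2) (K2.dif ζ2 ζ3) with hE'
  have hfix : ∀ g : G, g ∈ MulAction.stabilizer G s ⊓ MulAction.stabilizer G b1 →
      g • (s, b1, b2) = (s, b1, b2) := by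
    intro g hg
    have g1 : g • s = s := hg.1
    have g2 : g • b1 = b1 := hg.2
    have g3 : g • b2 = b2 := hle hg
    show (g • s, g • b1, g • b2) = (s, b1, b2)
    rw [g1, g2, g3]
  obtain ⟨x, y, hxy, γ0, hc1, hinv, hd1⟩ := d3 C.X C.deck C.conn C.H1 C.H2
    (MulAction.stabilizer G s ⊓ MulAction.stabilizer G b1) (C.torus _ _ h1)
    (E (s, b1, b2)) (E' (s, b1, b2)) (u1 _) (w1 _) (u2 _) (w2 _)
    (by
      intro g hg t i
      have := u3 g (s, b1, b2) t i
      rwa [hfix g hg] at this)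
    (by
      intro g hg t i
      have := w3 g (s, b1, b2) t i
      rwa [hfix g hg] at this)
  have hstab : ∀ g : G, g • ((s, b1, b2) : σ × σ × σ) = (s, b1, b2) →
      g ∈ MulAction.stabilizer G s ⊓ MulAction.stabilizer G b1 := by
    intro g hg
    exact ⟨congrArg Prod.fst hg, congrArg (fun z : σ × σ × σ => z.2.1) hg⟩
  have hinv' : ∀ g : G, g • ((s, b1, b2) : σ × σ × σ) = (s, b1, b2) →
      ∀ t, γ0 (g • t) = γ0 t := by
    intro g hg t
    funext j k
    exact hinv g (hstab g hg) t j k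
  obtain ⟨F, hF1, hF2⟩ := F5.ext_orbit b5 (G := G)
    (fun (z : σ × σ × σ) f => C.X.IsC1 f ∧ ∀ t i, d1 f t i = x * E z t i + y * E' z t i)
    (by
      intro g z f hf
      refine ⟨F5.isC1_smul C.deck g hf.1, fun t i => ?_⟩
      have h5 := hf.2 (g⁻¹ • t) i
      have h6 : E (g • z) t i = E z (g⁻¹ • t) i := by
        have := u3 g z (g⁻¹ • t) i
        rwa [smul_inv_smul] at this
      have h7 : E' (g • z) t i = E' z (g⁻¹ • t) i := by
        have := w3 g z (g⁻¹ • t) i
        rwa [smul_inv_smul] at this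
      rw [h6, h7, ← h5]
      rfl) (s, b1, b2) γ0 ⟨hc1, hd1⟩ hinv'
  -- finiteness
  have hfin1 : ∀ t, {z : σ × σ × σ | z ∈ MulAction.orbit G (s, b1, b2) ∧
      C.crossT (z.1, z.2.1) t}.Finite := by
    intro t
    refine Set.Finite.of_finite_image ((f1 C t).subset ?_) (f := fun z => (z.1, z.2.1)) ?_
    · rintro _ ⟨z, ⟨⟨g, rfl⟩, hz'⟩, rfl⟩
      exact ⟨C.adj_smul g _ _ h1, hz'⟩
    · rintro z ⟨⟨g, rfl⟩, -⟩ z' ⟨⟨g', rfl⟩, -⟩ hzz
      have e1 : g • s = g' • s := congrArg Prod.fst hzz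
      have e2 : g • b1 = g' • b1 := congrArg Prod.snd hzz
      have e3 : g'⁻¹ * g ∈ MulAction.stabilizer G s ⊓ MulAction.stabilizer G b1 := by
        constructor
        · show (g'⁻¹ * g) • s = s
          rw [mul_smul, e1, inv_smul_smul]
        · show (g'⁻¹ * g) • b1 = b1
          rw [mul_smul, e2, inv_smul_smul]
      have e4 := hfix _ e3
      have e5 : g • ((s, b1, b2) : σ × σ × σ) = g' • (s, b1, b2) := by
        rw [mul_smul] at e4
        rw [← e4, smul_inv_smul, e4]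
      exact e5
  have hHfin : (MulAction.orbit (↥(MulAction.stabilizer G s ⊓ MulAction.stabilizer G b2))
      ((s, b1, b2) : σ × σ × σ)).Finite := by
    have hi := k1 (MulAction.stabilizer G s ⊓ MulAction.stabilizer G b1)
      (MulAction.stabilizer G s ⊓ MulAction.stabilizer G b2) (C.torus _ _ h1) (C.torus _ _ h2)
      (le_inf inf_le_left hle)
    have hs : MulAction.stabilizer (↥(MulAction.stabilizer G s ⊓ MulAction.stabilizer G b2))
        ((s, b1, b2) : σ × σ × σ) = (MulAction.stabilizer G s ⊓ MulAction.stabilizer G b1).subgroupOf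
          (MulAction.stabilizer G s ⊓ MulAction.stabilizer G b2) := by
      ext g
      rw [Subgroup.mem_subgroupOf, MulAction.mem_stabilizer_iff]
      exact ⟨fun hg => hstab _ hg, fun hg => hfix _ hg⟩
    have e := MulAction.orbitEquivQuotientStabilizer
      (↥(MulAction.stabilizer G s ⊓ MulAction.stabilizer G b2)) ((s, b1, b2) : σ × σ × σ)
    rw [hs] at e
    have : Finite (↥(MulAction.stabilizer G s ⊓ MulAction.stabilizer G b2) ⧸
        (MulAction.stabilizer G s ⊓ MulAction.stabilizer G b1).subgroupOf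
          (MulAction.stabilizer G s ⊓ MulAction.stabilizer G b2)) :=
      Subgroup.finite_quotient_of_finiteIndex
    exact @Set.toFinite _ _ (Finite.of_equiv _ e.symm)
  have hfin2 : ∀ t, {z : σ × σ × σ | z ∈ MulAction.orbit G (s, b1, b2) ∧
      C.crossT (z.1, z.2.2) t}.Finite := by
    intro t
    have hb : (⋃ p ∈ {p : σ × σ | C.S.Adj p.1 p.2 ∧ C.crossT p t},
        {z : σ × σ × σ | z ∈ MulAction.orbit G (s, b1, b2) ∧ (z.1, z.2.2) = p}).Finite := by
      refine (f1 C t).biUnion fun p hp => ?_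
      by_cases hne : ∃ g0 : G, (g0 • s, g0 • b2) = p
      · obtain ⟨g0, rfl⟩ := hne
        refine (hHfin.image (fun z => g0 • z)).subset ?_
        rintro _ ⟨⟨g, rfl⟩, hz⟩
        have e1 : g • s = g0 • s := congrArg Prod.fst hz
        have e2 : g • b2 = g0 • b2 := congrArg Prod.snd hz
        refine ⟨(g0⁻¹ * g) • (s, b1, b2), ⟨⟨g0⁻¹ * g, ?_, ?_⟩, rfl⟩, ?_⟩
        · show (g0⁻¹ * g) • s = s
          rw [mul_smul, e1, inv_smul_smul]
        · show (g0⁻¹ * g) • b2 = b2
          rw [mul_smul, e2, inv_smul_smul]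
        · show g0 • (g0⁻¹ * g) • ((s, b1, b2) : σ × σ × σ) = g • (s, b1, b2)
          rw [mul_smul, smul_inv_smul]
      · refine Set.finite_empty.subset ?_
        rintro _ ⟨⟨g, rfl⟩, hz⟩
        exact hne ⟨g, hz⟩
    refine hb.subset ?_
    rintro z ⟨⟨g, rfl⟩, hz⟩
    refine Set.mem_biUnion (x := (g • s, g • b2)) ⟨C.adj_smul g _ _ h2, hz⟩ ?_
    exact ⟨⟨g, rfl⟩, rfl⟩
  have key : ∀ ed : σ × σ × σ → σ × σ, (∀ (g : G) z, ed (g • z) = g • ed z) →
      (∀ t, {z : σ × σ × σ | z ∈ MulAction.orbit G (s, b1, b2) ∧ C.crossT (ed z) t}.Finite) →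
      ∀ a, C.S.Adj s a → a ≠ b3 → ed (s, b1, b2) = (s, a) →
      x * (if a = b1 then 1 else 0) + y * (if a = b2 then 1 else 0) = 0 := by
    intro ed hed hfin a ha ha3 hed0
    have h7 := e7 C (Z := σ × σ × σ) ed (fun z => z ∈ MulAction.orbit G (s, b1, b2)) hed
      (fun g z hz => MulAction.mem_orbit_of_mem_orbit g hz) hfin F (fun z hz => (hF1 z hz).1)
      (fun g z t j k => by rw [hF2 g z t])
    have h8 := e8 C (Z := σ × σ × σ) ed (fun z => z ∈ MulAction.orbit G (s, b1, b2)) hfin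
      E E' (fun z _ => u2 z) (fun z _ => w2 z) x y
    have h9 : C.Phi ed (fun z => z ∈ MulAction.orbit G (s, b1, b2)) (fun z t i => d1 (F z) t i) =
        C.Phi ed (fun z => z ∈ MulAction.orbit G (s, b1, b2))
          (fun z t i => x * E z t i + y * E' z t i) := by
      refine F5.phi_congr C _ _ _ _ fun z hz => ?_
      funext t i
      exact (hF1 z hz).2 t i
    have p1 := K2.phi_per a6 a8 e4 e6 C s b1 b2 ha h1 h3 hz1 hz3 ed hed hed0
    have p2 := K2.phi_per a6 a8 e4 e6 C s b1 b2 ha h2 h3 hz2 hz3 ed hed hed0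
    rw [if_neg ha3, sub_zero] at p1 p2
    rw [← p1, ← p2]
    rw [h9, h8] at h7
    exact h7
  have k1' := key (fun z => (z.1, z.2.1)) (fun g z => rfl) hfin1 b1 h1 h13 rfl
  have k2' := key (fun z => (z.1, z.2.2)) (fun g z => rfl) hfin2 b2 h2 h23 rfl
  rw [if_pos rfl, if_neg h12] at k1'
  rw [if_neg (Ne.symm h12), if_pos rfl] at k2'
  simp only [mul_one, mul_zero, add_zero, zero_add] at k1' k2'
  rcases hxy with h | h
  · exact h k1'
  · exact h k2'

end

end Pool.Agent.MP_343d73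

end

section

set_option autoImplicit false

/-!
R3: the separation function of a component of a surface in a simply connected triangulation.
-/

namespace Pool.Agent.MP_343d73

open scoped Classical

variable {τ V : Type}

theorem rot_ne (X : Tri τ V) (p : τ × Fin 4 × Fin 4) (h : p.2.1 ≠ p.2.2) :
    (X.rot p).2.1 ≠ (X.rot p).2.2 := by
  intro h'
  exact h ((X.pm p.1 p.2.1).injective h').symm

theorem iter_ne (X : Tri τ V) (p : τ × Fin 4 × Fin 4) (h : p.2.1 ≠ p.2.2) (k : ℕ) :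
    (X.rot^[k] p).2.1 ≠ (X.rot^[k] p).2.2 := by
  induction k with
  | zero => exact h
  | succ k ih => rw [Function.iterate_succ_apply']; exact rot_ne X _ ih

theorem sum_shift {α : Type} (r : α → α) (c : α → ZMod 2) (p : α) (n k : ℕ) (h : r^[n] p = p) :
    ∑ l ∈ Finset.range n, c (r^[l] (r^[k] p)) = ∑ l ∈ Finset.range n, c (r^[l] p) := by
  induction k with
  | zero => rfl
  | succ k ih =>
    rw [← ih]
    have hk : r^[n] (r^[k] p) = r^[k] p := by
      rw [← Function.iterate_add_apply, Nat.add_comm, Function.iterate_add_apply, h]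
    have h1 : ∀ l, c (r^[l] (r^[k + 1] p)) = c (r^[l + 1] (r^[k] p)) := by
      intro l
      rw [Function.iterate_succ_apply' r k p, Function.iterate_succ_apply r l]
    simp only [h1]
    have h2 := Finset.sum_range_succ' (fun l => c (r^[l] (r^[k] p))) n
    have h3 := Finset.sum_range_succ (fun l => c (r^[l] (r^[k] p))) n
    rw [h2] at h3
    simp only [hk, Function.iterate_zero, id] at h3
    exact add_right_cancel h3

theorem sum_mult {α : Type} (r : α → α) (c : α → ZMod 2) (p : α) (n q : ℕ) (h : r^[n] p = p) :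
    ∑ l ∈ Finset.range (n * q), c (r^[l] p) = q • ∑ l ∈ Finset.range n, c (r^[l] p) := by
  induction q with
  | zero => simp
  | succ q ih =>
    rw [Nat.mul_succ, Nat.add_comm, Finset.sum_range_add, succ_nsmul, add_comm, ← ih]
    congr 1
    refine Finset.sum_congr rfl fun l _ => ?_
    rw [Nat.add_comm, Function.iterate_add_apply, h]

theorem period_dvd {α : Type} (r : α → α) (p : α) (n n0 : ℕ) (h0 : 0 < n0) (hn0 : r^[n0] p = p)
    (hmin : ∀ l, 0 < l → l < n0 → r^[l] p ≠ p) (hn : r^[n] p = p) : n0 ∣ n := by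
  rw [Nat.dvd_iff_mod_eq_zero]
  by_contra hne
  refine hmin (n % n0) (Nat.pos_of_ne_zero hne) (Nat.mod_lt _ h0) ?_
  have h1 : ∀ q, r^[n0 * q] p = p := by
    intro q
    induction q with
    | zero => rfl
    | succ q ih => rw [Nat.mul_succ, Function.iterate_add_apply, hn0, ih]
  have h2 : n = n % n0 + n0 * (n / n0) := (Nat.mod_add_div n n0).symm
  rw [h2, Function.iterate_add_apply, h1] at hn
  exact hn

/-- the two faces of the surface around an edge lie in the same component -/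
theorem surfRel_turn {X : Tri τ V} {D : Set (τ × Fin 4)} (hD : X.IsSurface D) (t : τ)
    (i j : Fin 4) (n m : ℕ) (h : (t, i) ∈ D) (hj : j ≠ i) (hm : 0 < m) (hmn : m < n)
    (hn : X.rot^[n] (t, i, j) = (t, i, j)) (hin : ∀ l, l < n → (X.turn t i j l ∈ D ↔ l = 0 ∨ l = m)) :
    X.SurfRel D (t, i) (X.turn t i j m) := by
  obtain ⟨-, -, h3, h4⟩ := sideStep_exists hD t i j n m h hj hm hmn hn hin
  refine Relation.EqvGen.trans _ _ _ (Relation.EqvGen.rel _ _ (Or.inl h4)) ?_
  refine Relation.EqvGen.rel _ _ (Or.inr ⟨h3, ?_⟩)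
  exact (opF_opF X _).symm

theorem prod_range_ofAdd (f : ℕ → ZMod 2) (n : ℕ) :
    ((List.range n).map fun l => Multiplicative.ofAdd (f l)).prod =
      Multiplicative.ofAdd (∑ l ∈ Finset.range n, f l) := by
  induction n with
  | zero => simp
  | succ n ih =>
    rw [List.range_succ, List.map_append, List.prod_append, ih, Finset.sum_range_succ]
    simp

theorem prR3 : PR3 := by
  intro τ V X D hX hD a ha
  obtain ⟨hconn, hsc⟩ := hX
  set c : τ × Fin 4 → ZMod 2 := fun b => if b ∈ D ∧ X.SurfRel D a b then 1 else 0 with hc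
  have hop : ∀ b, c (opF X b) = c b := by
    intro b
    have h1 : ∀ b, (b ∈ D ∧ X.SurfRel D a b) → (opF X b ∈ D ∧ X.SurfRel D a (opF X b)) := by
      intro b hb
      refine ⟨(mem_opF hD b).2 hb.1, ?_⟩
      exact Relation.EqvGen.trans _ _ _ hb.2 (Relation.EqvGen.rel _ _ (Or.inr ⟨hb.1, rfl⟩))
    have h2 : (opF X b ∈ D ∧ X.SurfRel D a (opF X b)) ↔ (b ∈ D ∧ X.SurfRel D a b) := by
      refine ⟨fun h => ?_, h1 b⟩
      have := h1 _ h
      rwa [opF_opF] at this
    simp only [hc, h2]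
  have hneg : ∀ x : ZMod 2, -x = x := by decide
  have hff := hsc (Multiplicative (ZMod 2)) (fun t i => Multiplicative.ofAdd (c (t, i))) ?_ ?_ ?_
  · obtain ⟨f, hf⟩ := hff
    refine ⟨fun t => Multiplicative.toAdd (f t), fun t i => ?_⟩
    have h1 := congrArg Multiplicative.toAdd (hf t i)
    rw [toAdd_ofAdd, toAdd_mul, toAdd_inv, hneg] at h1
    have h2 : Multiplicative.toAdd (f (X.nb t i)) = Multiplicative.toAdd (f t) + c (t, i) := by
      rw [h1, ← add_assoc]
      have : ∀ x : ZMod 2, x + x = 0 := by decide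
      rw [this, zero_add]
    constructor
    · intro h
      simp only [h2, hc, h, and_self, if_true]
    · intro h
      simp only [h2, hc, h, if_false, add_zero]
  · intro t i
    rw [← ofAdd_neg, hneg]
    congr 1
    exact hop (t, i)
  · intro t i hbd
    have h1 : (t, i) ∉ D := by
      intro h
      obtain ⟨j, hj⟩ : ∃ j : Fin 4, j ≠ i := exists_ne i
      obtain ⟨n, m, hm, hmn, -, -, hin⟩ := hD.two t i j h hj
      exact (hin 0 (by omega)).1 hbd
    simp [hc, h1]
  · intro t i j n hij hn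
    have h1 := prod_range_ofAdd (fun l => c (X.turn t i j l)) n
    have h2 : ((List.range n).map fun l => Multiplicative.ofAdd
        (c ((X.turn t i j l).1, (X.turn t i j l).2))).prod = Multiplicative.ofAdd
        (∑ l ∈ Finset.range n, c (X.turn t i j l)) := h1
    rw [h2, ofAdd_eq_one]
    set C : τ × Fin 4 × Fin 4 → ZMod 2 := fun s => c (s.1, s.2.1) with hC
    have h3 : ∀ l, c (X.turn t i j l) = C (X.rot^[l] (t, i, j)) := fun l => rfl
    simp only [h3]
    by_cases hex : ∃ k, C (X.rot^[k] (t, i, j)) ≠ 0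
    · obtain ⟨k, hk⟩ := hex
      rw [← sum_shift X.rot C (t, i, j) n k hn]
      have hnk : X.rot^[n] (X.rot^[k] (t, i, j)) = X.rot^[k] (t, i, j) := by
        rw [← Function.iterate_add_apply, Nat.add_comm, Function.iterate_add_apply, hn]
      have hne := iter_ne X (t, i, j) hij k
      rcases hst : X.rot^[k] (t, i, j) with ⟨t', i', j'⟩
      rw [hst] at hk hnk hne
      have hin' : (t', i') ∈ D ∧ X.SurfRel D a (t', i') := by
        by_contra hcon
        exact hk (by simp only [hC, hc, hcon, if_false])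
      obtain ⟨n0, m, hm, hmn, hn0, hmin, hin⟩ := hD.two t' i' j' hin'.1 (Ne.symm hne)
      have hin2 : ∀ l, l < n0 → (X.turn t' i' j' l ∈ D ↔ l = 0 ∨ l = m) :=
        fun l hl => (hin l hl).2
      obtain ⟨q, rfl⟩ := period_dvd X.rot (t', i', j') n n0 (by omega) hn0 hmin hnk
      rw [sum_mult X.rot C _ n0 q hn0]
      have h4 : ∑ l ∈ Finset.range n0, C (X.rot^[l] (t', i', j')) = 0 := by
        have h5 : ∀ l ∈ Finset.range n0, C (X.rot^[l] (t', i', j')) =
            (if l = 0 then 1 else 0) + (if l = m then 1 else 0) := by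
          intro l hl
          rw [Finset.mem_range] at hl
          have h6 : C (X.rot^[l] (t', i', j')) = c (X.turn t' i' j' l) := rfl
          rw [h6]
          by_cases hl0 : l = 0
          · subst hl0
            have h7 : X.turn t' i' j' 0 = (t', i') := rfl
            have hm0 : ¬ (0 : ℕ) = m := by omega
            rw [h7]
            simp only [hc, hin', and_self, if_true, hm0, if_false, add_zero]
          · by_cases hlm : l = m
            · subst hlm
              have h8 : X.turn t' i' j' l ∈ D := (hin2 l hl).2 (Or.inr rfl)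
              have h9 : X.SurfRel D a (X.turn t' i' j' l) :=
                Relation.EqvGen.trans _ _ _ hin'.2
                  (surfRel_turn hD t' i' j' n0 l hin'.1 (Ne.symm hne) hm hmn hn0 hin2)
              simp only [hc, h8, h9, and_self, if_true, hl0, if_false, zero_add]
            · have h8 : X.turn t' i' j' l ∉ D := by
                rw [hin2 l hl]
                tauto
              simp only [hc, h8, false_and, if_false, hl0, hlm, add_zero]
        rw [Finset.sum_congr rfl h5, Finset.sum_add_distrib, Finset.sum_ite_eq' , Finset.sum_ite_eq',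
          if_pos (Finset.mem_range.2 (by omega)), if_pos (Finset.mem_range.2 hmn)]
        decide
      rw [h4, smul_zero]
    · push Not at hex
      exact Finset.sum_eq_zero fun l _ => hex l

end Pool.Agent.MP_343d73

end

section

set_option autoImplicit false

/-!
A group isomorphic to `ℤ × ℤ` that acts acylindrically and without inversions on a tree fixes a
vertex.
-/

namespace Pool.Agent.MP_343d73

namespace TreeZ2

variable {σ G : Type} [Group G] [MulAction G σ]

theorem uniq (h4 : PA4) (S : SimpleGraph σ) (hS : S.IsTree) {x y r r' : σ}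
    (h : S.dist x r = S.dist x r') (h1 : S.dist x r + S.dist r y = S.dist x y)
    (h2 : S.dist x r' + S.dist r' y = S.dist x y) : r = r' :=
  (h4 S hS x y (S.dist x r) (by omega)).unique ⟨rfl, h1⟩ ⟨h.symm, h2⟩

/-- two points of an interval, in order -/
theorem mid (h4 : PA4) (S : SimpleGraph σ) (hT : S.IsTree) {u v c z : σ}
    (hc : S.dist u c + S.dist c v = S.dist u v) (hz : S.dist u z + S.dist z v = S.dist u v)
    (hle : S.dist u c ≤ S.dist u z) : S.dist u c + S.dist c z = S.dist u z := by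
  obtain ⟨c₂, ⟨h21, h22⟩, -⟩ := h4 S hT u z (S.dist u c) hle
  have h3 : S.dist u c₂ + S.dist c₂ v = S.dist u v := by
    have e1 := hT.1.dist_triangle (u := u) (v := c₂) (w := v)
    have e2 := hT.1.dist_triangle (u := c₂) (v := z) (w := v)
    omega
  have h5 : c₂ = c := uniq h4 S hT h21 h3 hc
  rw [h5] at h22
  exact h22

/-- two commuting elliptic elements have a common fixed point -/
theorem common_fix (h4 : PA4) (h5 : PA5) (h8 : PA8) (S : SimpleGraph σ) (hS : S.IsTree)
    (hadj : ∀ (g : G) a b, S.Adj a b → S.Adj (g • a) (g • b)) (x y : G) (hxy : Commute x y) :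
    ∀ (n : ℕ) (u w : σ), S.dist u w = n → x • u = u → y • w = w → ∃ a : σ, x • a = a ∧ y • a = a := by
  intro n
  induction n using Nat.strong_induction_on with
  | _ n ih =>
    intro u w hd hu hw
    by_cases hyu : y • u = u
    · exact ⟨u, hu, hyu⟩
    obtain ⟨c, hc, hproj⟩ := h5 S hS u (y • u) w
    have hxyu : x • (y • u) = y • u := by
      rw [← mul_smul, hxy.eq, mul_smul, hu]
    have hxc : x • c = c := by
      have e1 := h8 S hadj x u c
      have e2 := h8 S hadj x c (y • u)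
      rw [hu] at e1
      rw [hxyu] at e2
      exact uniq h4 S hS (y := y • u) e1 (by omega) hc
    have e1 := hproj u (by rw [SimpleGraph.dist_self]; omega)
    have e2 := hproj (y • u) (by rw [SimpleGraph.dist_self]; omega)
    have e3 := h8 S hadj y w u
    rw [hw] at e3
    have e4 : S.dist w u = n := by rw [SimpleGraph.dist_comm, hd]
    have e5 : S.dist c u = S.dist u c := SimpleGraph.dist_comm
    have e6 : S.dist c w = S.dist w c := SimpleGraph.dist_comm
    have hpos : S.dist u c ≠ 0 := by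
      intro h0
      have h1 : S.dist u (y • u) = 0 := by omega
      exact hyu ((hS.1.dist_eq_zero_iff).1 h1).symm
    exact ih (S.dist c w) (by omega) c w rfl hxc hw

section hyp

variable (S : SimpleGraph σ) (x : G) (v0 : σ)

/-- translation distance -/
structure Hyp (S : SimpleGraph σ) (x : G) (v0 : σ) : Prop where
  tree : S.IsTree
  adj : ∀ (g : G) a b, S.Adj a b → S.Adj (g • a) (g • b)
  noinv : ∀ (g : G) a b, S.Adj a b → ¬ (g • a = b ∧ g • b = a)
  nofix : ∀ v : σ, x • v ≠ v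
  min : ∀ v : σ, S.dist v0 (x • v0) ≤ S.dist v (x • v)

theorem Hyp.pos {S : SimpleGraph σ} {x : G} {v0 : σ} (h : Hyp S x v0) :
    0 < S.dist v0 (x • v0) := by
  rw [Nat.pos_iff_ne_zero]
  intro h0
  exact h.nofix v0 ((h.tree.1.dist_eq_zero_iff).1 h0).symm

theorem Hyp.two {S : SimpleGraph σ} {x : G} {v0 : σ} (h : Hyp S x v0) (h4 : PA4) (h5 : PA5)
    (h8 : PA8) : S.dist v0 (x • x • v0) = 2 * S.dist v0 (x • v0) := by
  have hpos := h.pos
  obtain ⟨c, hc, hproj⟩ := h5 S h.tree v0 (x • x • v0) (x • v0)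
  have e1 := hproj v0 (by rw [SimpleGraph.dist_self]; omega)
  have e2 := hproj (x • x • v0) (by rw [SimpleGraph.dist_self]; omega)
  have e3 := h8 S h.adj x v0 (x • v0)
  have c1 : S.dist (x • v0) v0 = S.dist v0 (x • v0) := SimpleGraph.dist_comm
  have c2 : S.dist c v0 = S.dist v0 c := SimpleGraph.dist_comm
  by_cases ht : S.dist (x • v0) c = 0
  · have : x • v0 = c := (h.tree.1.dist_eq_zero_iff).1 ht
    omega
  exfalso
  -- the point `p` at distance one from `v0`
  obtain ⟨p, ⟨hp1, hp2⟩, -⟩ := h4 S h.tree v0 (x • v0) 1 (by omega)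
  obtain ⟨q, ⟨hq1, hq2⟩, -⟩ := h4 S h.tree (x • v0) c 1 (by omega)
  have t1 := h.tree.1.dist_triangle (u := x • v0) (v := q) (w := v0)
  have t2 := h.tree.1.dist_triangle (u := q) (v := c) (w := v0)
  have t3 := h.tree.1.dist_triangle (u := x • v0) (v := q) (w := x • x • v0)
  have t4 := h.tree.1.dist_triangle (u := q) (v := c) (w := x • x • v0)
  have c3 : S.dist q v0 = S.dist v0 q := SimpleGraph.dist_comm
  have c4 : S.dist q (x • v0) = S.dist (x • v0) q := SimpleGraph.dist_comm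
  have hxp : x • p = q := by
    have e4 := h8 S h.adj x v0 p
    have e5 := h8 S h.adj x p (x • v0)
    exact uniq h4 S h.tree (x := x • v0) (y := x • x • v0) (by omega) (by omega) (by omega)
  have hq3 : S.dist v0 q + S.dist q (x • v0) = S.dist v0 (x • v0) := by omega
  have hmin := h.min p
  rw [hxp] at hmin
  by_cases hl : S.dist v0 (x • v0) = 1
  · have hpe : p = x • v0 := by
      have : S.dist p (x • v0) = 0 := by omega
      exact (h.tree.1.dist_eq_zero_iff).1 this
    have hqe : v0 = q := by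
      have : S.dist v0 q = 0 := by omega
      exact (h.tree.1.dist_eq_zero_iff).1 this
    refine h.noinv x v0 (x • v0) (SimpleGraph.dist_eq_one_iff_adj.1 hl) ⟨rfl, ?_⟩
    rw [← hpe, hxp, ← hqe]
  · have hm := mid h4 S h.tree hp2 hq3 (by omega)
    omega

theorem Hyp.multi {S : SimpleGraph σ} {x : G} {v0 : σ} (h : Hyp S x v0) (h4 : PA4) (h5 : PA5)
    (h7 : PA7) (h8 : PA8) (n : ℕ) : S.dist v0 (x ^ n • v0) = n * S.dist v0 (x • v0) := by
  have hpos := h.pos
  have key : ∀ n : ℕ, S.dist v0 (x ^ n • v0) = n * S.dist v0 (x • v0) ∧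
      S.dist v0 (x ^ (n + 1) • v0) = (n + 1) * S.dist v0 (x • v0) := by
    intro n
    induction n with
    | zero => simp
    | succ n ih =>
      refine ⟨by simpa using ih.2, ?_⟩
      obtain ⟨ih1, ih2⟩ := ih
      have e0 : x ^ (n + 1) • v0 = x ^ n • (x • v0) := by rw [pow_succ, mul_smul]
      have e1 : x ^ (n + 1 + 1) • v0 = x ^ n • (x • x • v0) := by
        rw [pow_succ, pow_succ, mul_smul, mul_smul]
      have e2 := h8 S h.adj (x ^ n) v0 (x • v0)
      have e3 := h8 S h.adj (x ^ n) v0 (x • x • v0)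
      have e4 := h8 S h.adj (x ^ n) (x • v0) (x • x • v0)
      have e5 := h8 S h.adj x v0 (x • v0)
      have e6 := h.two h4 h5 h8
      rw [← e0] at e2 e4
      rw [← e1] at e3 e4
      have c1 : S.dist (x ^ (n + 1) • v0) (x ^ n • v0) = S.dist (x ^ n • v0) (x ^ (n + 1) • v0) :=
        SimpleGraph.dist_comm
      have c2 : S.dist (x ^ (n + 1 + 1) • v0) (x ^ n • v0) =
        S.dist (x ^ n • v0) (x ^ (n + 1 + 1) • v0) := SimpleGraph.dist_comm
      have c3 : S.dist (x ^ (n + 1 + 1) • v0) (x ^ (n + 1) • v0) =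
        S.dist (x ^ (n + 1) • v0) (x ^ (n + 1 + 1) • v0) := SimpleGraph.dist_comm
      have hne : x ^ n • v0 ≠ x ^ (n + 1) • v0 := by
        intro h0
        rw [h0, SimpleGraph.dist_self] at e2
        omega
      have hb1 : Beh S (x ^ n • v0) (x ^ (n + 1) • v0) v0 := by
        unfold Beh
        rw [ih1, ih2, e2]
        ring
      have hb2 : Beh S (x ^ (n + 1) • v0) (x ^ n • v0) (x ^ (n + 1 + 1) • v0) := by
        unfold Beh
        omega
      have := h7 S h.tree _ _ _ _ hne hb1 hb2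
      rw [this, ih1, e2, e4, e5]
      ring
  exact (key n).1

theorem Hyp.shift {S : SimpleGraph σ} {x : G} {v0 : σ} (h : Hyp S x v0) (h4 : PA4) (h5 : PA5)
    (h7 : PA7) (h8 : PA8) (m n : ℕ) :
    S.dist (x ^ m • v0) (x ^ (m + n) • v0) = n * S.dist v0 (x • v0) := by
  rw [pow_add, mul_smul, h8 S h.adj, h.multi h4 h5 h7 h8]

/-- points of minimal displacement lie on the axis -/
theorem Hyp.axis {S : SimpleGraph σ} {x : G} {v0 : σ} (h : Hyp S x v0) (h4 : PA4) (h5 : PA5)
    (h7 : PA7) (h8 : PA8) (w : σ) (hw : S.dist w (x • w) = S.dist v0 (x • v0)) (N : ℕ)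
    (hN : S.dist w v0 + 1 ≤ N) :
    S.dist v0 (x ^ N • w) + S.dist (x ^ N • w) (x ^ (2 * N) • v0) =
      S.dist v0 (x ^ (2 * N) • v0) := by
  have hpos := h.pos
  have hmulti := h.multi h4 h5 h7 h8
  have hshift := h.shift h4 h5 h7 h8
  set l := S.dist v0 (x • v0) with hl
  have hNl : S.dist w v0 + l ≤ N * l := by nlinarith
  set w' := x ^ N • w with hw'
  have d1 : S.dist w' (x ^ N • v0) = S.dist w v0 := h8 S h.adj _ _ _
  have d2 : S.dist w' (x • w') = l := by
    have : x • w' = x ^ N • (x • w) := by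
      rw [hw', ← mul_smul, ← mul_smul, ← pow_succ, ← pow_succ']
    rw [this, hw', h8 S h.adj, hw]
  obtain ⟨c, hc, hproj⟩ := h5 S h.tree v0 (x ^ (2 * N + 1) • v0) w'
  -- distances between the powers
  have m1 := hmulti N
  have m2 := hmulti (2 * N + 1)
  have m3 := hshift N (N + 1)
  have m4 := hmulti (2 * N)
  have m5 := hshift (2 * N) 1
  have m6 := hshift 1 (2 * N)
  have m7 := hmulti 1
  rw [show N + (N + 1) = 2 * N + 1 by ring] at m3
  rw [show 1 + 2 * N = 2 * N + 1 by ring, pow_one] at m6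
  rw [pow_one] at m7
  have r1 : (2 * N + 1) * l = 2 * (N * l) + l := by ring
  have r2 : (N + 1) * l = N * l + l := by ring
  have r3 : 2 * N * l = 2 * (N * l) := by ring
  have p1 := hproj (x ^ N • v0) (by rw [m1, m3, m2]; ring)
  have ct := h.tree.1.dist_triangle (u := v0) (v := c) (w := x ^ N • v0)
  have ct' := h.tree.1.dist_triangle (u := v0) (v := x ^ N • v0) (w := c)
  have cc : S.dist (x ^ N • v0) c = S.dist c (x ^ N • v0) := SimpleGraph.dist_comm
  have hc1 : S.dist v0 c ≤ 2 * N * l := by rw [r3]; omega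
  have hc2 : l ≤ S.dist v0 c := by omega
  -- `c` lies between `v0` and `x ^ (2N) v0`
  have b1 : S.dist v0 (x ^ (2 * N) • v0) + S.dist (x ^ (2 * N) • v0) (x ^ (2 * N + 1) • v0) =
      S.dist v0 (x ^ (2 * N + 1) • v0) := by rw [m4, m5, m2]; ring
  have hc3 := mid h4 S h.tree hc b1 (by rw [m4]; exact hc1)
  -- `c` lies between `x v0` and `x ^ (2N+1) v0`
  have b2 : S.dist v0 (x • v0) + S.dist (x • v0) (x ^ (2 * N + 1) • v0) =
      S.dist v0 (x ^ (2 * N + 1) • v0) := by rw [m6, m2]; ring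
  have hc4 := mid h4 S h.tree b2 hc hc2
  -- `x c` lies between `v0` and `x ^ (2N+1) v0`
  have e0 : x ^ (2 * N + 1) • v0 = x • (x ^ (2 * N) • v0) := by rw [pow_succ', mul_smul]
  have s1 := h8 S h.adj x v0 c
  have s2 := h8 S h.adj x c (x ^ (2 * N) • v0)
  rw [← e0] at s2
  have t1 := h.tree.1.dist_triangle (u := v0) (v := x • v0) (w := x • c)
  have t2 := h.tree.1.dist_triangle (u := v0) (v := x • c) (w := x ^ (2 * N + 1) • v0)
  have hxc : S.dist v0 (x • c) + S.dist (x • c) (x ^ (2 * N + 1) • v0) =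
      S.dist v0 (x ^ (2 * N + 1) • v0) := by omega
  have p2 := hproj (x • c) hxc
  -- `x⁻¹ c` lies between `v0` and `x ^ (2N+1) v0`
  have s3 := h8 S h.adj x v0 (x⁻¹ • c)
  have s4 := h8 S h.adj x (x⁻¹ • c) (x ^ (2 * N) • v0)
  have s5 := h8 S h.adj x w' (x⁻¹ • c)
  have s6 := h8 S h.adj x c (x⁻¹ • c)
  rw [smul_inv_smul] at s3 s4 s5 s6
  rw [← e0] at s4
  have t3 := h.tree.1.dist_triangle (u := v0) (v := x⁻¹ • c) (w := x ^ (2 * N + 1) • v0)
  have t4 := h.tree.1.dist_triangle (u := x⁻¹ • c) (v := x ^ (2 * N) • v0)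
    (w := x ^ (2 * N + 1) • v0)
  have hxc' : S.dist v0 (x⁻¹ • c) + S.dist (x⁻¹ • c) (x ^ (2 * N + 1) • v0) =
      S.dist v0 (x ^ (2 * N + 1) • v0) := by omega
  have p3 := hproj (x⁻¹ • c) hxc'
  have hne : c ≠ x • c := fun h0 => h.nofix c h0.symm
  have c5 : S.dist (x • w') c = S.dist c (x • w') := SimpleGraph.dist_comm
  have c6 : S.dist (x • w') (x • c) = S.dist w' c := h8 S h.adj _ _ _
  have c7 : S.dist (x • c) c = S.dist c (x • c) := SimpleGraph.dist_comm
  have c8 : S.dist (x • c) (x • w') = S.dist (x • w') (x • c) := SimpleGraph.dist_comm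
  have hb1 : Beh S c (x • c) w' := by
    unfold Beh
    omega
  have hb2 : Beh S (x • c) c (x • w') := by
    unfold Beh
    omega
  have h7' := h7 S h.tree _ _ _ _ hne hb1 hb2
  have hmin := h.min c
  have hwc : S.dist w' c = 0 := by omega
  have : w' = c := (h.tree.1.dist_eq_zero_iff).1 hwc
  rw [this]
  exact hc3

theorem Hyp.contra {S : SimpleGraph σ} {x : G} {v0 : σ} (h : Hyp S x v0) (h4 : PA4) (h5 : PA5)
    (h7 : PA7) (h8 : PA8) (y : G) (hxy : Commute x y)
    (hind : ∀ m n : ℤ, x ^ m * y ^ n = 1 → n = 0) (K : ℕ)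
    (hac : ∀ a b : σ, K ≤ S.dist a b → ∀ g : G, g • a = a → g • b = b → g = 1) : False := by
  have hpos := h.pos
  have hmulti := h.multi h4 h5 h7 h8
  have hshift := h.shift h4 h5 h7 h8
  have haxis := h.axis h4 h5 h7 h8
  set l := S.dist v0 (x • v0) with hl
  have hxyn : ∀ j : ℕ, Commute x (y ^ j) := fun j => hxy.pow_right j
  have hdisp : ∀ j : ℕ, S.dist (y ^ j • v0) (x • (y ^ j • v0)) = l := by
    intro j
    rw [← mul_smul, (hxyn j).eq, mul_smul, h8 S h.adj]
  set N := (Finset.range (l + 1)).sup (fun j => S.dist (y ^ j • v0) v0) + 1 with hN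
  have hNj : ∀ j ∈ Finset.range (l + 1), S.dist (y ^ j • v0) v0 + 1 ≤ N := by
    intro j hj
    have h1 : S.dist (y ^ j • v0) v0 ≤
        (Finset.range (l + 1)).sup (fun j => S.dist (y ^ j • v0) v0) :=
      Finset.le_sup (f := fun j => S.dist (y ^ j • v0) v0) hj
    omega
  set s : ℕ → ℕ := fun j => S.dist v0 (x ^ N • (y ^ j • v0)) with hs
  obtain ⟨j, hj, j', hj', hne, heq⟩ : ∃ j ∈ Finset.range (l + 1), ∃ j' ∈ Finset.range (l + 1),
      j ≠ j' ∧ s j % l = s j' % l := by
    refine Finset.exists_ne_map_eq_of_card_lt_of_maps_to (t := Finset.range l) ?_ ?_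
    · rw [Finset.card_range, Finset.card_range]
      omega
    · intro j _
      exact Finset.mem_coe.2 (Finset.mem_range.2 (Nat.mod_lt _ hpos))
  -- the key step for an ordered pair
  have key : ∀ j ∈ Finset.range (l + 1), ∀ j' ∈ Finset.range (l + 1), j ≠ j' →
      s j % l = s j' % l → s j ≤ s j' → False := by
    intro j hj j' hj' hne heq hle
    obtain ⟨m, hm⟩ : ∃ m, s j' = s j + m * l := by
      refine ⟨s j' / l - s j / l, ?_⟩
      have e1 := Nat.div_add_mod (s j') l
      have e2 := Nat.div_add_mod (s j) l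
      have e3 : s j / l ≤ s j' / l := Nat.div_le_div_right hle
      obtain ⟨d, hd⟩ := Nat.exists_eq_add_of_le e3
      rw [hd, Nat.add_sub_cancel_left]
      rw [hd, ← heq] at e1
      have e4 : l * (s j / l + d) = l * (s j / l) + d * l := by ring
      omega
    have ax := haxis (y ^ j • v0) (hdisp j) N (hNj j hj)
    have ax' := haxis (y ^ j' • v0) (hdisp j') N (hNj j' hj')
    have m1 := hmulti (2 * N)
    have m2 := hmulti (m + 2 * N)
    have m3 := hshift (2 * N) m
    have m4 := hmulti m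
    have r1 : (m + 2 * N) * l = m * l + 2 * N * l := by ring
    rw [show 2 * N + m = m + 2 * N by ring] at m3
    have f1 : S.dist v0 (x ^ N • (y ^ j • v0)) = s j := rfl
    have f2 : S.dist v0 (x ^ N • (y ^ j' • v0)) = s j' := rfl
    have t1 := h.tree.1.dist_triangle (u := x ^ N • (y ^ j' • v0)) (v := x ^ (2 * N) • v0)
      (w := x ^ (m + 2 * N) • v0)
    have t2 := h.tree.1.dist_triangle (u := v0) (v := x ^ N • (y ^ j' • v0))
      (w := x ^ (m + 2 * N) • v0)
    have g1 : S.dist v0 (x ^ N • (y ^ j' • v0)) + S.dist (x ^ N • (y ^ j' • v0))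
        (x ^ (m + 2 * N) • v0) = S.dist v0 (x ^ (m + 2 * N) • v0) := by omega
    have u1 := h8 S h.adj (x ^ m) v0 (x ^ N • (y ^ j • v0))
    have u2 := h8 S h.adj (x ^ m) (x ^ N • (y ^ j • v0)) (x ^ (2 * N) • v0)
    have u3 : x ^ m • (x ^ (2 * N) • v0) = x ^ (m + 2 * N) • v0 := by rw [← mul_smul, ← pow_add]
    rw [u3] at u2
    have t3 := h.tree.1.dist_triangle (u := v0) (v := x ^ m • v0)
      (w := x ^ m • (x ^ N • (y ^ j • v0)))
    have t4 := h.tree.1.dist_triangle (u := v0) (v := x ^ m • (x ^ N • (y ^ j • v0)))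
      (w := x ^ (m + 2 * N) • v0)
    have g2 : S.dist v0 (x ^ m • (x ^ N • (y ^ j • v0))) +
        S.dist (x ^ m • (x ^ N • (y ^ j • v0))) (x ^ (m + 2 * N) • v0) =
        S.dist v0 (x ^ (m + 2 * N) • v0) := by omega
    have g3 : x ^ m • (x ^ N • (y ^ j • v0)) = x ^ N • (y ^ j' • v0) :=
      uniq h4 S h.tree (y := x ^ (m + 2 * N) • v0) (by omega) g2 g1
    -- the element
    have g4 : x ^ m • (y ^ j • v0) = y ^ j' • v0 := by
      have e1 : x ^ m • (x ^ N • (y ^ j • v0)) = x ^ N • (x ^ m • (y ^ j • v0)) := by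
        rw [← mul_smul (x ^ m) (x ^ N), ← mul_smul (x ^ N) (x ^ m), ← pow_add, ← pow_add,
          Nat.add_comm]
      rw [e1] at g3
      exact smul_left_cancel _ g3
    set c : G := (y ^ j')⁻¹ * (x ^ m * y ^ j) with hc
    have hc0 : c • v0 = v0 := by
      rw [hc, mul_smul, mul_smul, g4, inv_smul_smul]
    have hxc : Commute x c := by
      refine Commute.mul_right (hxyn j').inv_right ?_
      exact Commute.mul_right ((Commute.refl x).pow_right m) (hxyn j)
    have hcK : c • (x ^ K • v0) = x ^ K • v0 := by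
      rw [← mul_smul, ← (hxc.pow_left K).eq, mul_smul, hc0]
    have hc1 : c = 1 := by
      refine hac v0 (x ^ K • v0) ?_ c hc0 hcK
      rw [hmulti]
      nlinarith
    have hc2 : x ^ (m : ℤ) * y ^ ((j : ℤ) - j') = 1 := by
      rw [zpow_sub, zpow_natCast, zpow_natCast, zpow_natCast]
      rw [hc, inv_mul_eq_one] at hc1
      rw [← mul_assoc, ← hc1, mul_inv_cancel]
    have := hind _ _ hc2
    omega
  rcases le_total (s j) (s j') with hle | hle
  · exact key j hj j' hj' hne heq hle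
  · exact key j' hj' j hj hne.symm heq.symm hle

end hyp

theorem exists_min (S : SimpleGraph σ) (x : G) [Nonempty σ] :
    ∃ v0 : σ, ∀ v : σ, S.dist v0 (x • v0) ≤ S.dist v (x • v) := by
  have hne : (Set.range fun v : σ => S.dist v (x • v)).Nonempty := Set.range_nonempty _
  obtain ⟨v0, hv0⟩ := Nat.sInf_mem hne
  refine ⟨v0, fun v => ?_⟩
  simp only at hv0
  rw [hv0]
  exact Nat.sInf_le ⟨v, rfl⟩

/-- an element without fixed points that commutes with an independent element contradicts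
acylindricity -/
theorem no_hyp (h4 : PA4) (h5 : PA5) (h7 : PA7) (h8 : PA8) (S : SimpleGraph σ) (hS : S.IsTree)
    (hadj : ∀ (g : G) a b, S.Adj a b → S.Adj (g • a) (g • b))
    (hinv : ∀ (g : G) a b, S.Adj a b → ¬ (g • a = b ∧ g • b = a)) (x y : G) (hxy : Commute x y)
    (hind : ∀ m n : ℤ, x ^ m * y ^ n = 1 → n = 0) (K : ℕ)
    (hac : ∀ a b : σ, K ≤ S.dist a b → ∀ g : G, g • a = a → g • b = b → g = 1) :
    ∃ v : σ, x • v = v := by
  by_contra hno
  push Not at hno
  have hne : Nonempty σ := hS.1.nonempty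
  obtain ⟨v0, hv0⟩ := exists_min S x
  exact Hyp.contra (h := ⟨hS, hadj, hinv, hno, hv0⟩) h4 h5 h7 h8 y hxy hind K hac

theorem gens {P : Subgroup G} (hP : IsZ2 P) : ∃ x y : G, Commute x y ∧
    (∀ g ∈ P, ∃ m n : ℤ, g = x ^ m * y ^ n) ∧ ∀ m n : ℤ, x ^ m * y ^ n = 1 → m = 0 ∧ n = 0 := by
  obtain ⟨e⟩ := hP
  set a : P := e.symm (Multiplicative.ofAdd ((1, 0) : ℤ × ℤ)) with ha
  set b : P := e.symm (Multiplicative.ofAdd ((0, 1) : ℤ × ℤ)) with hb
  have hab : ∀ m n : ℤ, e (a ^ m * b ^ n) = Multiplicative.ofAdd ((m, n) : ℤ × ℤ) := by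
    intro m n
    rw [map_mul, map_zpow, map_zpow, ha, hb, e.apply_symm_apply, e.apply_symm_apply, ← ofAdd_zsmul,
      ← ofAdd_zsmul, ← ofAdd_add]
    congr 1
    ext <;> simp
  refine ⟨a, b, ?_, ?_, ?_⟩
  · have h1 : a * b = b * a := by
      apply e.injective
      rw [map_mul, map_mul, mul_comm]
    exact congrArg Subtype.val h1
  · intro g hg
    rcases hmn : Multiplicative.toAdd (e ⟨g, hg⟩) with ⟨m, n⟩
    refine ⟨m, n, ?_⟩
    have h1 : (⟨g, hg⟩ : P) = a ^ m * b ^ n := by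
      apply e.injective
      rw [hab, ← hmn]
      rfl
    have h2 := congrArg Subtype.val h1
    simpa using h2
  · intro m n h
    have h1 : a ^ m * b ^ n = 1 := by
      apply Subtype.ext
      simpa using h
    have h2 := hab m n
    rw [h1, map_one] at h2
    have h3 : ((m, n) : ℤ × ℤ) = 0 := by
      have := congrArg Multiplicative.toAdd h2
      simpa using this.symm
    exact ⟨congrArg Prod.fst h3, congrArg Prod.snd h3⟩

/-- acylindrical actions: every subgroup isomorphic to `ℤ × ℤ` fixes a vertex -/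
theorem elliptic (h4 : PA4) (h5 : PA5) (h7 : PA7) (h8 : PA8) (S : SimpleGraph σ) (hS : S.IsTree)
    (hadj : ∀ (g : G) a b, S.Adj a b → S.Adj (g • a) (g • b))
    (hinv : ∀ (g : G) a b, S.Adj a b → ¬ (g • a = b ∧ g • b = a)) (K : ℕ)
    (hac : ∀ a b : σ, K ≤ S.dist a b → ∀ g : G, g • a = a → g • b = b → g = 1)
    (P : Subgroup G) (hP : IsZ2 P) : ∃ a : σ, P ≤ MulAction.stabilizer G a := by
  obtain ⟨x, y, hxy, hgen, hind⟩ := gens hP
  obtain ⟨u, hu⟩ := no_hyp h4 h5 h7 h8 S hS hadj hinv x y hxy (fun m n h => (hind m n h).2) K hac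
  obtain ⟨w, hw⟩ := no_hyp h4 h5 h7 h8 S hS hadj hinv y x hxy.symm (fun m n h => by
    refine (hind n m ?_).1
    rw [← h]
    exact ((hxy.zpow_zpow n m)).eq) K hac
  obtain ⟨a, ha1, ha2⟩ := common_fix h4 h5 h8 S hS hadj x y hxy _ u w rfl hu hw
  refine ⟨a, fun g hg => ?_⟩
  obtain ⟨m, n, rfl⟩ := hgen g hg
  have e1 : x ∈ MulAction.stabilizer G a := ha1
  have e2 : y ∈ MulAction.stabilizer G a := ha2
  exact mul_mem (zpow_mem e1 m) (zpow_mem e2 n)

end TreeZ2

end Pool.Agent.MP_343d73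

end

section

set_option autoImplicit false

/-!
The criterion of Seifert or acylindrical pieces with non matching fibres implies that the action on
the tree of the tori is acylindrical, so that every subgroup isomorphic to `ℤ × ℤ` fixes a vertex.
-/

namespace Pool.Agent.MP_343d73

variable {σ G : Type} [Group G] [MulAction G σ]

/-- an infinite cyclic normal subgroup of the stabiliser of `v` -/
def FibT (v : σ) (N : Subgroup G) : Prop :=
  Nonempty (N ≃* Multiplicative ℤ) ∧ (∀ n ∈ N, n • v = v) ∧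
    ∀ g : G, g • v = v → ∀ n ∈ N, g * n * g⁻¹ ∈ N

/-- a JSJ tree without the enclosing property -/
structure PreJSJ (G : Type) [Group G] [MulAction G σ] (S : SimpleGraph σ) : Prop where
  tree : S.IsTree
  adj_smul : ∀ (g : G) a b, S.Adj a b → S.Adj (g • a) (g • b)
  no_inv : ∀ (g : G) a b, S.Adj a b → ¬ (g • a = b ∧ g • b = a)
  torus : ∀ a b, S.Adj a b → IsZ2 (MulAction.stabilizer G a ⊓ MulAction.stabilizer G b)
  proper : ∀ a b, S.Adj a b → ¬ MulAction.stabilizer G a ≤ MulAction.stabilizer G b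

/-- pieces are Seifert or acylindrical, fibres of adjacent pieces do not match -/
structure TreeCrit (G : Type) [Group G] [MulAction G σ] (S : SimpleGraph σ) : Prop where
  pieces : ∀ v : σ, (∃ N : Subgroup G, FibT v N) ∨ ∀ b b', S.Adj v b → S.Adj v b' → b ≠ b' →
    ∀ g : G, g • v = v → g • b = b → g • b' = b' → g = 1
  no_match : ∀ v w : σ, S.Adj v w → ∀ N N' : Subgroup G, FibT v N → FibT w N' → N ⊓ N' = ⊥

/-- at least three neighbours -/
def Three (S : SimpleGraph σ) (v : σ) : Prop :=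
  ∃ b1 b2 b3, S.Adj v b1 ∧ S.Adj v b2 ∧ S.Adj v b3 ∧ b1 ≠ b2 ∧ b1 ≠ b3 ∧ b2 ≠ b3

/-- the groups of two edges at a vertex with at least three neighbours have no common `ℤ × ℤ` -/
def NoZ2 (G : Type) [Group G] [MulAction G σ] (S : SimpleGraph σ) : Prop :=
  ∀ s b1 b2 b3 : σ, S.Adj s b1 → S.Adj s b2 → S.Adj s b3 → b1 ≠ b2 → b1 ≠ b3 → b2 ≠ b3 →
    ∀ H : Subgroup G, IsZ2 H →
    ¬ (H ≤ MulAction.stabilizer G s ⊓ MulAction.stabilizer G b1 ∧ H ≤ MulAction.stabilizer G b2)

namespace Crit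

theorem third {S : SimpleGraph σ} {v : σ} (h : Three S v) (b b' : σ) :
    ∃ b'', S.Adj v b'' ∧ b'' ≠ b ∧ b'' ≠ b' := by
  obtain ⟨b1, b2, b3, h1, h2, h3, h12, h13, h23⟩ := h
  by_contra hcon
  push Not at hcon
  have e1 := hcon b1 h1
  have e2 := hcon b2 h2
  have e3 := hcon b3 h3
  by_cases a1 : b1 = b
  · have a2 : b2 ≠ b := fun h => h12 (a1.trans h.symm)
    have a3 : b3 ≠ b := fun h => h13 (a1.trans h.symm)
    exact h23 ((e2 a2).trans (e3 a3).symm)
  · by_cases a2 : b2 = b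
    · have a3 : b3 ≠ b := fun h => h23 (a2.trans h.symm)
      exact h13 ((e1 a1).trans (e3 a3).symm)
    · exact h12 ((e1 a1).trans (e2 a2).symm)

/-- the subgroup generated by two independent commuting elements -/
theorem mkZ2 {x y : G} (hxy : Commute x y) (hind : ∀ m n : ℤ, x ^ m * y ^ n = 1 → m = 0 ∧ n = 0) :
    ∃ H : Subgroup G, IsZ2 H ∧ ∀ h ∈ H, ∃ m n : ℤ, h = x ^ m * y ^ n := by
  let φ : Multiplicative (ℤ × ℤ) →* G :=
    { toFun := fun p => x ^ (Multiplicative.toAdd p).1 * y ^ (Multiplicative.toAdd p).2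
      map_one' := by simp
      map_mul' := by
        intro p q
        simp only [toAdd_mul, Prod.fst_add, Prod.snd_add, zpow_add]
        have h1 : Commute (x ^ (Multiplicative.toAdd q).1) (y ^ (Multiplicative.toAdd p).2) :=
          hxy.zpow_zpow _ _
        calc x ^ (Multiplicative.toAdd p).1 * x ^ (Multiplicative.toAdd q).1 *
            (y ^ (Multiplicative.toAdd p).2 * y ^ (Multiplicative.toAdd q).2) =
            x ^ (Multiplicative.toAdd p).1 * (x ^ (Multiplicative.toAdd q).1 *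
            y ^ (Multiplicative.toAdd p).2) * y ^ (Multiplicative.toAdd q).2 := by
              simp only [mul_assoc]
          _ = x ^ (Multiplicative.toAdd p).1 * (y ^ (Multiplicative.toAdd p).2 *
            x ^ (Multiplicative.toAdd q).1) * y ^ (Multiplicative.toAdd q).2 := by rw [h1.eq]
          _ = _ := by simp only [mul_assoc] }
  have hinj : Function.Injective φ := by
    rw [injective_iff_map_eq_one]
    intro p hp
    obtain ⟨h1, h2⟩ := hind _ _ hp
    exact Multiplicative.toAdd.injective (Prod.ext h1 h2)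
  refine ⟨φ.range, ⟨(MonoidHom.ofInjective hinj).symm⟩, ?_⟩
  rintro h ⟨p, rfl⟩
  exact ⟨_, _, rfl⟩

theorem mkZ {z : G} (hz : ∀ n : ℤ, z ^ n = 1 → n = 0) :
    Nonempty (Subgroup.zpowers z ≃* Multiplicative ℤ) := by
  have hinj : Function.Injective (zpowersHom G z) := by
    rw [injective_iff_map_eq_one]
    intro p hp
    rw [zpowersHom_apply] at hp
    exact Multiplicative.toAdd.injective (hz _ hp)
  have hr : Subgroup.zpowers z = (zpowersHom G z).range := by
    ext g
    rw [Subgroup.mem_zpowers_iff, MonoidHom.mem_range]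
    constructor
    · rintro ⟨k, rfl⟩
      exact ⟨Multiplicative.ofAdd k, rfl⟩
    · rintro ⟨k, rfl⟩
      exact ⟨Multiplicative.toAdd k, rfl⟩
  rw [hr]
  exact ⟨(MonoidHom.ofInjective hinj).symm⟩

/-- a generator of a fibre group -/
theorem gen {v : σ} {N : Subgroup G} (h : FibT v N) : ∃ z ∈ N, (∀ n : ℤ, z ^ n = 1 → n = 0) ∧
    ∀ f ∈ N, ∃ k : ℤ, f = z ^ k := by
  obtain ⟨⟨e⟩, -, -⟩ := h
  set z : N := e.symm (Multiplicative.ofAdd 1) with hz
  have hzn : ∀ n : ℤ, e (z ^ n) = Multiplicative.ofAdd n := by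
    intro n
    rw [map_zpow, hz, e.apply_symm_apply, ← ofAdd_zsmul]
    simp
  refine ⟨z, z.2, ?_, ?_⟩
  · intro n hn
    have h1 : z ^ n = 1 := Subtype.ext (by simpa using hn)
    have h2 := hzn n
    rw [h1, map_one] at h2
    exact (congrArg Multiplicative.toAdd h2).symm
  · intro f hf
    refine ⟨Multiplicative.toAdd (e ⟨f, hf⟩), ?_⟩
    have h1 : (⟨f, hf⟩ : N) = z ^ (Multiplicative.toAdd (e ⟨f, hf⟩)) := by
      apply e.injective
      rw [hzn]
      rfl
    have h2 := congrArg Subtype.val h1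
    simpa using h2

theorem conj_zpow' (g z : G) (n : ℤ) : g * z ^ n * g⁻¹ = (g * z * g⁻¹) ^ n := by
  rw [conj_zpow]

/-- squares of elements of the vertex group commute with the fibre -/
theorem sq_comm {v : σ} {N : Subgroup G} (h : FibT v N) {x : G} (hx : x • v = v) {f : G}
    (hf : f ∈ N) : Commute (x ^ (2 : ℤ)) f := by
  obtain ⟨z, hzN, hz, hgen⟩ := gen h
  have hx' : x⁻¹ • v = v := by rw [inv_smul_eq_iff, hx]
  obtain ⟨e, he⟩ := hgen _ (h.2.2 x hx z hzN)
  obtain ⟨e', he'⟩ := hgen _ (h.2.2 x⁻¹ hx' z hzN)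
  have h1 : z = z ^ (e * e') := by
    have h2 : x * (x⁻¹ * z * x⁻¹⁻¹) * x⁻¹ = z := by group
    rw [he', conj_zpow', he, ← zpow_mul] at h2
    exact h2.symm
  have h3 : e * e' = 1 := by
    have h4 : z ^ (e * e' - 1) = 1 := by rw [zpow_sub, ← h1, zpow_one, mul_inv_cancel]
    have := hz _ h4
    omega
  have h5 : e * e = 1 := by
    rcases Int.isUnit_iff.1 (IsUnit.of_mul_eq_one _ h3) with h6 | h6 <;> rw [h6] <;> norm_num
  have h7 : x ^ (2 : ℤ) * z * (x ^ (2 : ℤ))⁻¹ = z := by
    have h8 : x ^ (2 : ℤ) * z * (x ^ (2 : ℤ))⁻¹ = x * (x * z * x⁻¹) * x⁻¹ := by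
      rw [zpow_two, mul_inv_rev]
      simp only [mul_assoc]
    rw [h8, he, conj_zpow', he, ← zpow_mul, h5, zpow_one]
  obtain ⟨k, rfl⟩ := hgen f hf
  have h9 : Commute (x ^ (2 : ℤ)) z := by
    have := mul_inv_eq_iff_eq_mul.1 h7
    exact this
  exact h9.zpow_right k

/-- generators of a group isomorphic to `ℤ × ℤ` -/
theorem gens' {P : Subgroup G} (hP : IsZ2 P) : ∃ x ∈ P, ∃ y ∈ P, Commute x y ∧
    ∀ m n : ℤ, x ^ m * y ^ n = 1 → m = 0 ∧ n = 0 := by
  obtain ⟨e⟩ := hP
  set a : P := e.symm (Multiplicative.ofAdd ((1, 0) : ℤ × ℤ)) with ha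
  set b : P := e.symm (Multiplicative.ofAdd ((0, 1) : ℤ × ℤ)) with hb
  have hab : ∀ m n : ℤ, e (a ^ m * b ^ n) = Multiplicative.ofAdd ((m, n) : ℤ × ℤ) := by
    intro m n
    rw [map_mul, map_zpow, map_zpow, ha, hb, e.apply_symm_apply, e.apply_symm_apply, ← ofAdd_zsmul,
      ← ofAdd_zsmul, ← ofAdd_add]
    congr 1
    ext <;> simp
  refine ⟨a, a.2, b, b.2, ?_, ?_⟩
  · have h1 : a * b = b * a := by
      apply e.injective
      rw [map_mul, map_mul, mul_comm]
    exact congrArg Subtype.val h1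
  · intro m n h
    have h1 : a ^ m * b ^ n = 1 := by
      apply Subtype.ext
      simpa using h
    have h2 := hab m n
    rw [h1, map_one] at h2
    have h3 : ((m, n) : ℤ × ℤ) = 0 := by
      have := congrArg Multiplicative.toAdd h2
      simpa using this.symm
    exact ⟨congrArg Prod.fst h3, congrArg Prod.snd h3⟩

theorem mem_stab2 {a b : σ} {g : G} :
    g ∈ MulAction.stabilizer G a ⊓ MulAction.stabilizer G b ↔ g • a = a ∧ g • b = b := by
  rw [Subgroup.mem_inf, MulAction.mem_stabilizer_iff, MulAction.mem_stabilizer_iff]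

theorem fib_le {S : SimpleGraph σ} (hS : PreJSJ G S) (hno : NoZ2 G S) {v b : σ} (h3 : Three S v)
    (hb : S.Adj v b) {N : Subgroup G} (hN : FibT v N) {f : G} (hf : f ∈ N) : f • b = b := by
  by_contra hne
  obtain ⟨x, hx, y, hy, hxy, hind⟩ := gens' (hS.torus v b hb)
  rw [mem_stab2] at hx hy
  have hfv : f • v = v := hN.2.1 f hf
  have hfb : S.Adj v (f • b) := by
    have := hS.adj_smul f v b hb
    rwa [hfv] at this
  obtain ⟨b'', hb'', h1, h2⟩ := third h3 b (f • b)
  obtain ⟨H, hH, hHg⟩ := mkZ2 (hxy.zpow_zpow 2 2) (fun m n h => by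
    rw [← zpow_mul, ← zpow_mul] at h
    obtain ⟨e1, e2⟩ := hind _ _ h
    constructor <;> omega)
  have hxf := sq_comm hN hx.1 hf
  have hyf := sq_comm hN hy.1 hf
  refine hno v b (f • b) b'' hb hfb hb'' (fun h => hne h.symm) (fun h => h1 h.symm)
    (fun h => h2 h.symm) H hH ⟨?_, ?_⟩
  · intro h hh
    obtain ⟨m, n, rfl⟩ := hHg h hh
    have hx2 : x ∈ MulAction.stabilizer G v ⊓ MulAction.stabilizer G b := mem_stab2.2 hx
    have hy2 : y ∈ MulAction.stabilizer G v ⊓ MulAction.stabilizer G b := mem_stab2.2 hy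
    exact mul_mem (zpow_mem (zpow_mem hx2 _) _) (zpow_mem (zpow_mem hy2 _) _)
  · intro h hh
    obtain ⟨m, n, rfl⟩ := hHg h hh
    have hx2 : x ^ (2 : ℤ) ∈ MulAction.stabilizer G (f • b) := by
      rw [MulAction.mem_stabilizer_iff, ← mul_smul, hxf.eq, mul_smul]
      have : x ∈ MulAction.stabilizer G b := hx.2
      have := zpow_mem this 2
      rw [MulAction.mem_stabilizer_iff] at this
      rw [this]
    have hy2 : y ^ (2 : ℤ) ∈ MulAction.stabilizer G (f • b) := by
      rw [MulAction.mem_stabilizer_iff, ← mul_smul, hyf.eq, mul_smul]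
      have : y ∈ MulAction.stabilizer G b := hy.2
      have := zpow_mem this 2
      rw [MulAction.mem_stabilizer_iff] at this
      rw [this]
    exact mul_mem (zpow_mem hx2 _) (zpow_mem hy2 _)

/-- an element in the groups of two edges at a Seifert vertex is commensurable with the fibre -/
theorem star {S : SimpleGraph σ} (hS : PreJSJ G S) (hno : NoZ2 G S) {v b b' : σ} (h3 : Three S v)
    (hb : S.Adj v b) (hb' : S.Adj v b') (hne : b ≠ b') {N : Subgroup G} (hN : FibT v N) {c : G}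
    (hcv : c • v = v) (hcb : c • b = b) (hcb' : c • b' = b') : ∃ k : ℤ, k ≠ 0 ∧ c ^ k ∈ N := by
  by_contra hcon
  push Not at hcon
  obtain ⟨z, hzN, hz, -⟩ := gen hN
  have hP := hS.torus v b hb
  have hzb := fib_le hS hno h3 hb hN hzN
  have hzb' := fib_le hS hno h3 hb' hN hzN
  have hzv := hN.2.1 z hzN
  have hcz : Commute c z :=
    K3.comm_of_isZ2 _ hP c z (mem_stab2.2 ⟨hcv, hcb⟩) (mem_stab2.2 ⟨hzv, hzb⟩)
  obtain ⟨H, hH, hHg⟩ := mkZ2 hcz (fun m n h => by
    have hm : m = 0 := by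
      by_contra hm
      apply hcon m hm
      have : c ^ m = (z ^ n)⁻¹ := eq_inv_of_mul_eq_one_left h
      rw [this]
      exact inv_mem (zpow_mem hzN n)
    subst hm
    rw [zpow_zero, one_mul] at h
    exact ⟨rfl, hz n h⟩)
  obtain ⟨b'', hb'', h1, h2⟩ := third h3 b b'
  refine hno v b b' b'' hb hb' hb'' hne (fun h => h1 h.symm) (fun h => h2 h.symm) H hH ⟨?_, ?_⟩
  · intro h hh
    obtain ⟨m, n, rfl⟩ := hHg h hh
    exact mul_mem (zpow_mem (mem_stab2.2 ⟨hcv, hcb⟩) _) (zpow_mem (mem_stab2.2 ⟨hzv, hzb⟩) _)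
  · intro h hh
    obtain ⟨m, n, rfl⟩ := hHg h hh
    have e1 : c ∈ MulAction.stabilizer G b' := hcb'
    have e2 : z ∈ MulAction.stabilizer G b' := hzb'
    exact mul_mem (zpow_mem e1 _) (zpow_mem e2 _)

theorem claimA {S : SimpleGraph σ} (hS : PreJSJ G S) (hC : TreeCrit G S) (hno : NoZ2 G S)
    {u v w x : σ} (huv : S.Adj v u) (hvw : S.Adj v w) (hwx : S.Adj w x) (h1 : u ≠ w) (h2 : v ≠ x)
    (h3v : Three S v) (h3w : Three S w) {g : G} (hu : g • u = u) (hv : g • v = v) (hw : g • w = w)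
    (hx : g • x = x) : g = 1 := by
  by_contra hg
  have hPv := hS.torus v w hvw
  have hgP : g ∈ MulAction.stabilizer G v ⊓ MulAction.stabilizer G w := mem_stab2.2 ⟨hv, hw⟩
  obtain ⟨N, hN⟩ := (hC.pieces v).resolve_right (fun h => hg (h u w huv hvw h1 g hv hu hw))
  obtain ⟨N', hN'⟩ := (hC.pieces w).resolve_right
    (fun h => hg (h v x hvw.symm hwx h2 g hw hv hx))
  obtain ⟨k, hk, hkN⟩ := star hS hno h3v huv hvw h1 hN hv hu hw
  obtain ⟨k', hk', hkN'⟩ := star hS hno h3w hvw.symm hwx h2 hN' hw hv hx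
  have h4 : g ^ (k * k') ∈ N ⊓ N' := by
    refine Subgroup.mem_inf.2 ⟨?_, ?_⟩
    · rw [zpow_mul]
      exact zpow_mem hkN _
    · rw [mul_comm, zpow_mul]
      exact zpow_mem hkN' _
  rw [hC.no_match v w hvw N N' hN hN', Subgroup.mem_bot] at h4
  have h5 := K3.torsion_of_isZ2 _ hPv g hgP hg _ h4
  rcases mul_eq_zero.1 h5 with h6 | h6
  · exact hk h6
  · exact hk' h6

/-- a vertex with two neighbours between two Seifert vertices -/
theorem claimB {S : SimpleGraph σ} (hS : PreJSJ G S) (hC : TreeCrit G S) (hno : NoZ2 G S)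
    {u w v w' u' : σ} (hwu : S.Adj w u) (hvw : S.Adj v w) (hvw' : S.Adj v w') (hwu' : S.Adj w' u')
    (h1 : u ≠ v) (h2 : w ≠ w') (h3 : v ≠ u') (h3v : ¬ Three S v) (h3w : Three S w)
    (h3w' : Three S w') {g : G} (hu : g • u = u) (hw : g • w = w) (hv : g • v = v)
    (hw' : g • w' = w') (hu' : g • u' = u') : g = 1 := by
  by_contra hg
  obtain ⟨t, ht1, ht2⟩ := SetLike.not_le_iff_exists.1 (hS.proper v w hvw)
  rw [MulAction.mem_stabilizer_iff] at ht1 ht2
  -- `t` exchanges `w` and `w'`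
  have hnb : ∀ b, S.Adj v b → b = w ∨ b = w' := by
    intro b hb
    by_contra hcon
    rw [not_or] at hcon
    exact h3v ⟨w, w', b, hvw, hvw', hb, h2, fun h => hcon.1 h.symm, fun h => hcon.2 h.symm⟩
  have htw : t • w = w' := by
    have h4 : S.Adj v (t • w) := by
      have := hS.adj_smul t v w hvw
      rwa [ht1] at this
    exact (hnb _ h4).resolve_left ht2
  have htw' : t • w' = w := by
    have h4 : S.Adj v (t • w') := by
      have := hS.adj_smul t v w' hvw'
      rwa [ht1] at this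
    rcases hnb _ h4 with h5 | h5
    · exact h5
    · exact absurd (smul_left_cancel t (htw.trans h5.symm)) h2
  have hti : t⁻¹ • v = v := by rw [inv_smul_eq_iff, ht1]
  have htiw' : t⁻¹ • w' = w := by rw [inv_smul_eq_iff, htw]
  have htiw : t⁻¹ • w = w' := by rw [inv_smul_eq_iff, htw']
  -- the conjugate
  set g' : G := t * g * t⁻¹ with hg'
  have hg'v : g' • v = v := by rw [hg', mul_smul, mul_smul, hti, hv, ht1]
  have hg'w' : g' • w' = w' := by rw [hg', mul_smul, mul_smul, htiw', hw, htw]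
  have hg'w : g' • w = w := by rw [hg', mul_smul, mul_smul, htiw, hw', htw']
  have hg'u : g' • (t • u) = t • u := by rw [hg', mul_smul, mul_smul, inv_smul_smul, hu]
  have htu : S.Adj w' (t • u) := by
    have := hS.adj_smul t w u hwu
    rwa [htw] at this
  have htuv : v ≠ t • u := by
    intro h
    apply h1
    have : t • v = t • u := ht1.trans h
    exact (smul_left_cancel t this).symm
  have hg1 : g' ≠ 1 := by
    intro h
    apply hg
    rw [hg', mul_inv_eq_one] at h
    simpa using h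
  have hP := hS.torus v w hvw
  have hgP : g ∈ MulAction.stabilizer G v ⊓ MulAction.stabilizer G w := mem_stab2.2 ⟨hv, hw⟩
  have hgP' : g' ∈ MulAction.stabilizer G v ⊓ MulAction.stabilizer G w :=
    mem_stab2.2 ⟨hg'v, hg'w⟩
  have htP : t * t ∈ MulAction.stabilizer G v ⊓ MulAction.stabilizer G w :=
    mem_stab2.2 ⟨by rw [mul_smul, ht1, ht1], by rw [mul_smul, htw, htw']⟩
  have htor : ∀ n : ℤ, g ^ n = 1 → n = 0 := fun n h => K3.torsion_of_isZ2 _ hP g hgP hg n h
  have htor' : ∀ n : ℤ, g' ^ n = 1 → n = 0 := fun n h => K3.torsion_of_isZ2 _ hP g' hgP' hg1 n h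
  -- the fibres
  obtain ⟨N, hN⟩ := (hC.pieces w).resolve_right
    (fun h => hg (h u v hwu hvw.symm h1 g hw hu hv))
  obtain ⟨N', hN'⟩ := (hC.pieces w').resolve_right
    (fun h => hg (h v u' hvw'.symm hwu' h3 g hw' hv hu'))
  obtain ⟨k0, hk0, hk0N⟩ := star hS hno h3w hwu hvw.symm h1 hN hw hu hv
  obtain ⟨k1, hk1, hk1N⟩ := star hS hno h3w' hvw'.symm hwu' h3 hN' hw' hv hu'
  obtain ⟨k2, hk2, hk2N⟩ := star hS hno h3w' hvw'.symm htu htuv hN' hg'w' hg'v hg'u
  obtain ⟨z, hzN, hz, hgen⟩ := gen hN'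
  obtain ⟨p, hp⟩ := hgen _ hk1N
  obtain ⟨q, hq⟩ := hgen _ hk2N
  have hp0 : p ≠ 0 := by
    intro h
    rw [h, zpow_zero] at hp
    exact hk1 (htor _ hp)
  have hq0 : q ≠ 0 := by
    intro h
    rw [h, zpow_zero] at hq
    exact hk2 (htor' _ hq)
  -- a common power
  have hAB : g ^ (k1 * q) = g' ^ (k2 * p) := by
    rw [zpow_mul, zpow_mul, hp, hq, ← zpow_mul, ← zpow_mul, mul_comm]
  set A := k1 * q with hA
  set B := k2 * p with hB
  have hA0 : A ≠ 0 := mul_ne_zero hk1 hq0
  have hcg : t * g' * t⁻¹ = g := by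
    have h4 : Commute (t * t) g := K3.comm_of_isZ2 _ hP _ _ htP hgP
    have h5 : t * g' * t⁻¹ = (t * t) * g * (t * t)⁻¹ := by
      rw [hg', mul_inv_rev]
      simp only [mul_assoc]
    rw [h5, h4.eq, mul_inv_cancel_right]
  have hAB' : g' ^ A = g ^ B := by
    have h4 : t * g ^ A * t⁻¹ = t * g' ^ B * t⁻¹ := by rw [hAB]
    rw [conj_zpow', conj_zpow', hcg, ← hg'] at h4
    exact h4
  have hsq : g ^ (A * A) = g ^ (B * B) := by
    rw [zpow_mul, hAB, ← zpow_mul, mul_comm B A, zpow_mul, hAB', ← zpow_mul]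
  have hsq' : A * A = B * B := by
    have h4 : g ^ (A * A - B * B) = 1 := by rw [zpow_sub, hsq, mul_inv_cancel]
    have := htor _ h4
    omega
  have hconj : t * g ^ A * t⁻¹ = g ^ A ∨ t * g ^ A * t⁻¹ = (g ^ A)⁻¹ := by
    rw [conj_zpow', ← hg']
    rcases mul_self_eq_mul_self_iff.1 hsq' with h4 | h4
    · left
      rw [hAB', h4]
    · right
      rw [hAB', h4, zpow_neg, inv_inv]
  -- the new fibre group of `v`
  have hFib : FibT v (Subgroup.zpowers (g ^ A)) := by
    refine ⟨mkZ fun n hn => ?_, ?_, ?_⟩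
    · rw [← zpow_mul] at hn
      have := htor _ hn
      rcases mul_eq_zero.1 this with h4 | h4
      · exact absurd h4 hA0
      · exact h4
    · intro n hn
      obtain ⟨k, rfl⟩ := Subgroup.mem_zpowers_iff.1 hn
      have e1 : g ∈ MulAction.stabilizer G v := hv
      exact zpow_mem (zpow_mem e1 _) _
    · intro h hh n hn
      obtain ⟨k, rfl⟩ := Subgroup.mem_zpowers_iff.1 hn
      rw [conj_zpow']
      refine zpow_mem ?_ k
      have h4 : S.Adj v (h • w) := by
        have := hS.adj_smul h v w hvw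
        rwa [hh] at this
      rcases hnb _ h4 with h5 | h5
      · have h6 : Commute h (g ^ A) := K3.comm_of_isZ2 _ hP _ _ (mem_stab2.2 ⟨hh, h5⟩)
          (zpow_mem hgP _)
        rw [h6.eq, mul_inv_cancel_right]
        exact Subgroup.mem_zpowers _
      · have h6 : t⁻¹ * h ∈ MulAction.stabilizer G v ⊓ MulAction.stabilizer G w :=
          mem_stab2.2 ⟨by rw [mul_smul, hh, hti], by rw [mul_smul, h5, htiw']⟩
        have h7 : Commute (t⁻¹ * h) (g ^ A) := K3.comm_of_isZ2 _ hP _ _ h6 (zpow_mem hgP _)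
        have h8 : h * g ^ A * h⁻¹ = t * g ^ A * t⁻¹ := by
          have h9 : h * g ^ A * h⁻¹ = t * ((t⁻¹ * h) * g ^ A * (t⁻¹ * h)⁻¹) * t⁻¹ := by
            simp only [mul_inv_rev, inv_inv, mul_assoc, mul_inv_cancel_left, mul_inv_cancel,
              mul_one]
          rw [h9, h7.eq, mul_inv_cancel_right]
        rw [h8]
        rcases hconj with h10 | h10
        · rw [h10]
          exact Subgroup.mem_zpowers _
        · rw [h10]
          exact inv_mem (Subgroup.mem_zpowers _)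
  have h4 : g ^ (A * k0) ∈ Subgroup.zpowers (g ^ A) ⊓ N := by
    refine Subgroup.mem_inf.2 ⟨?_, ?_⟩
    · have h5 : g ^ (A * k0) = (g ^ A) ^ k0 := zpow_mul _ _ _
      rw [h5]
      exact zpow_mem (Subgroup.mem_zpowers _) _
    · rw [mul_comm, zpow_mul]
      exact zpow_mem hk0N _
  rw [hC.no_match v w hvw _ N hFib hN, Subgroup.mem_bot] at h4
  rcases mul_eq_zero.1 (htor _ h4) with h5 | h5
  · exact hA0 h5
  · exact hk0 h5

/-- the action is acylindrical -/
theorem acyl (h4 : PA4) (h8 : PA8) {S : SimpleGraph σ} (hS : PreJSJ G S) (hC : TreeCrit G S)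
    (hno : NoZ2 G S) (hval : ∀ u v, S.Adj u v → Three S u ∨ Three S v) (x y : σ)
    (hxy : 5 ≤ S.dist x y) (g : G) (hgx : g • x = x) (hgy : g • y = y) : g = 1 := by
  have hex : ∀ n : ℕ, ∃ r, n ≤ S.dist x y → S.dist x r = n ∧
      S.dist x r + S.dist r y = S.dist x y := by
    intro n
    by_cases hn : n ≤ S.dist x y
    · obtain ⟨r, hr, -⟩ := h4 S hS.tree x y n hn
      exact ⟨r, fun _ => hr⟩
    · exact ⟨x, fun h => absurd h hn⟩
  choose p hp using hex
  have hfix : ∀ n, n ≤ 5 → g • p n = p n := by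
    intro n hn
    obtain ⟨e1, e2⟩ := hp n (by omega)
    have e3 := h8 S hS.adj_smul g x (p n)
    have e4 := h8 S hS.adj_smul g (p n) y
    rw [hgx] at e3
    rw [hgy] at e4
    exact TreeZ2.uniq h4 S hS.tree (y := y) e3 (by omega) e2
  have hd : ∀ m n, m ≤ n → n ≤ 5 → S.dist (p m) (p n) = n - m := by
    intro m n hmn hn
    obtain ⟨e1, e2⟩ := hp m (by omega)
    obtain ⟨e3, e4⟩ := hp n (by omega)
    have := TreeZ2.mid h4 S hS.tree e2 e4 (by omega)
    omega
  have hadj : ∀ n, n + 1 ≤ 5 → S.Adj (p n) (p (n + 1)) := by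
    intro n hn
    refine SimpleGraph.dist_eq_one_iff_adj.1 ?_
    rw [hd n (n + 1) (by omega) hn]
    omega
  have hne : ∀ n, n + 2 ≤ 5 → p n ≠ p (n + 2) := by
    intro n hn h
    have := hd n (n + 2) (by omega) hn
    rw [← h, SimpleGraph.dist_self] at this
    omega
  have a0 := hadj 0 (by omega)
  have a1 := hadj 1 (by omega)
  have a2 := hadj 2 (by omega)
  have a3 := hadj 3 (by omega)
  have a4 := hadj 4 (by omega)
  have n0 := hne 0 (by omega)
  have n1 := hne 1 (by omega)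
  have n2 := hne 2 (by omega)
  have n3 := hne 3 (by omega)
  have f0 := hfix 0 (by omega)
  have f1 := hfix 1 (by omega)
  have f2 := hfix 2 (by omega)
  have f3 := hfix 3 (by omega)
  have f4 := hfix 4 (by omega)
  have f5 := hfix 5 (by omega)
  simp only [Nat.reduceAdd] at a0 a1 a2 a3 a4 n0 n1 n2 n3
  by_cases t2 : Three S (p 2)
  · by_cases t3 : Three S (p 3)
    · exact claimA hS hC hno a1.symm a2 a3 n1 n2 t2 t3 f1 f2 f3 f4
    · have t4 := (hval _ _ a3).resolve_left t3
      exact claimB hS hC hno (u := p 1) (w := p 2) (v := p 3) (w' := p 4) (u' := p 5)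
        a1.symm a2.symm a3 a4 n1 n2 n3 t3 t2 t4 f1 f2 f3 f4 f5
  · have t1 := (hval _ _ a1).resolve_right t2
    have t3 := (hval _ _ a2).resolve_left t2
    exact claimB hS hC hno (u := p 0) (w := p 1) (v := p 2) (w' := p 3) (u' := p 4)
      a0.symm a1.symm a2 a3 n0 n1 n2 t2 t1 t3 f0 f1 f2 f3 f4

/-- every subgroup isomorphic to `ℤ × ℤ` fixes a vertex -/
theorem enclosing (h4 : PA4) (h5 : PA5) (h7 : PA7) (h8 : PA8) {S : SimpleGraph σ}
    (hS : PreJSJ G S) (hC : TreeCrit G S)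
    (hno : NoZ2 G S) (hval : ∀ u v, S.Adj u v → Three S u ∨ Three S v) (P : Subgroup G)
    (hP : IsZ2 P) : ∃ a : σ, P ≤ MulAction.stabilizer G a :=
  TreeZ2.elliptic h4 h5 h7 h8 S hS.tree hS.adj_smul hS.no_inv 5
    (fun a b hab g ha hb => acyl h4 h8 hS hC hno hval a b hab g ha hb) P hP

end Crit

end Pool.Agent.MP_343d73

end

section

set_option autoImplicit false

namespace Pool.Agent.MP_343d73

open scoped Classical

namespace IH4

variable {τ V σ G : Type} [Group G] [MulAction G τ] [MulAction G V] [MulAction G σ]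

/-- indicator of the vertices over `s` -/
noncomputable def cs (C : Ctx τ V σ G) (s : σ) (v : V) : ℝ := if C.ph v = s then 1 else 0

lemma cbar_eq_sum (X : Tri τ V) (c : V → ℝ) (t : τ) (i : Fin 4) :
    X.cbar c t i = (∑ j, if j ≠ i then c (X.vx t j) else 0) / 3 := by
  unfold Tri.cbar
  congr 1
  rw [Fin.sum_univ_four]
  fin_cases i <;> simp [fa, fb, fc] <;> ring

lemma cbar_nb (X : Tri τ V) (c : V → ℝ) (t : τ) (i : Fin 4) :
    X.cbar c (X.nb t i) (X.pm t i i) = X.cbar c t i := by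
  rw [cbar_eq_sum, cbar_eq_sum]
  congr 1
  rw [← Equiv.sum_comp (X.pm t i)]
  apply Finset.sum_congr rfl
  intro j _
  by_cases hj : j = i
  · subst hj
    simp
  · rw [if_pos hj, if_pos (fun h => hj ((X.pm t i).injective h)), X.vx_nb t i j hj]

lemma cbar_lin (X : Tri τ V) {ι : Type} (s : Finset ι) (c : ι → V → ℝ) (t : τ) (i : Fin 4) :
    ∑ b ∈ s, X.cbar (c b) t i = X.cbar (fun v => ∑ b ∈ s, c b v) t i := by
  unfold Tri.cbar
  rw [← Finset.sum_div, Finset.sum_add_distrib, Finset.sum_add_distrib]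

/-- a finite sum of invariant flows indexed by a `G`-set, which vanish on the frontier of `A`,
sums to zero over the orbits in `A` -/
lemma total_zeroA (b2 : PB2) (C : Ctx τ V σ G) {Z : Type} [MulAction G Z]
    (F : Z → τ → Fin 4 → ℝ) (hflow : ∀ z, C.X.Flow (F z))
    (hinv : ∀ (g : G) z t i, F (g • z) (g • t) i = F z t i)
    (hfin : ∀ t i, (Function.support fun z => F z t i).Finite)
    (A : Set (Quotient (MulAction.orbitRel G τ)))
    (hA : ∀ t i, cl G t ∈ A → cl G (C.X.nb t i) ∉ A → ∀ z, F z t i = 0) :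
    ∑ᶠ q : Quotient (MulAction.orbitRel G τ),
      (if q ∈ A then ∑ᶠ z : Z, ∑ i, F z q.out i else 0) = 0 := by
  have h := b2 C.X C.deck (fun t i => ∑ᶠ z, F z t i) ?_ ?_ A ?_
  · rw [← h]
    apply finsum_congr
    intro q
    congr 1
    rw [finsum_sum_comm]
    intro i _
    exact hfin _ i
  · intro g t i
    have e1 : ∑ᶠ z, F z (g • t) i = ∑ᶠ z, F (g • z) (g • t) i :=
      (finsum_comp_equiv (MulAction.toPerm g) (f := fun z => F z (g • t) i)).symm
    show ∑ᶠ z, F z (g • t) i = ∑ᶠ z, F z t i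
    rw [e1]
    apply finsum_congr
    intro z
    exact hinv g z t i
  · intro t i
    show ∑ᶠ z, F z (C.X.nb t i) (C.X.pm t i i) = - ∑ᶠ z, F z t i
    rw [← finsum_neg_distrib]
    apply finsum_congr
    intro z
    exact hflow z t i
  · intro t i h1 h2
    exact finsum_eq_zero_of_forall_eq_zero (hA t i h1 h2)

lemma cs_smul (C : Ctx τ V σ G) (g : G) (s : σ) (v : V) : cs C (g • s) (g • v) = cs C s v := by
  unfold cs
  rw [C.ph_smul]
  congr 1
  rw [eq_iff_iff]
  constructor
  · intro h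
    exact smul_left_cancel g h
  · intro h
    rw [h]

/-- the edges at `s` with the image of `v` on the far side -/
lemma far_unique (h6 : PA6) (C : Ctx τ V σ G) (s : σ) (v : V) :
    ∃ b0 : σ, ∀ b, (if C.S.Adj s b then C.cE (s, b) v else 0) =
      if b = b0 then 1 - cs C s v else 0 := by
  by_cases hs : C.ph v = s
  · refine ⟨s, fun b => ?_⟩
    have e1 : cs C s v = 1 := by
      unfold cs
      rw [if_pos hs]
    have e2 : C.cE (s, b) v = 0 := by
      unfold Ctx.cE
      rw [if_neg]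
      unfold Far
      rw [hs]
      simp
    rw [e1, e2]
    simp
  · obtain ⟨b0, ⟨hb0, hf0⟩, hu⟩ := h6 C.S C.tree s (C.ph v) (Ne.symm hs)
    refine ⟨b0, fun b => ?_⟩
    have e1 : cs C s v = 0 := by
      unfold cs
      rw [if_neg hs]
    rw [e1, sub_zero]
    by_cases hb : b = b0
    · rw [hb, if_pos hb0, if_pos rfl]
      unfold Ctx.cE
      rw [if_pos hf0]
    · rw [if_neg hb]
      by_cases hadj : C.S.Adj s b
      · rw [if_pos hadj]
        unfold Ctx.cE
        rw [if_neg]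
        intro hf
        exact hb (hu b ⟨hadj, hf⟩)
      · rw [if_neg hadj]

/-- the sum over the edges at `s` -/
lemma sum_at (h6 : PA6) (C : Ctx τ V σ G) (s : σ) (t : τ) (e : τ → Fin 4 → ℝ)
    (he : ∑ i, e t i = 0) :
    ∑ᶠ b : σ, (if C.S.Adj s b then C.Nn (s, b) e t else 0) =
      - ∑ i, C.X.cbar (cs C s) t i * e t i := by
  choose b0 hb0 using fun j : Fin 4 => far_unique h6 C s (C.X.vx t j)
  set B : Finset σ := Finset.univ.image b0 with hB
  have hval : ∀ (i : Fin 4) (b : σ), (if C.S.Adj s b then C.X.cbar (C.cE (s, b)) t i else 0) =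
      (∑ j, if j ≠ i then (if b = b0 j then 1 - cs C s (C.X.vx t j) else 0) else 0) / 3 := by
    intro i b
    rw [cbar_eq_sum]
    by_cases hadj : C.S.Adj s b
    · rw [if_pos hadj]
      congr 1
      apply Finset.sum_congr rfl
      intro j _
      have := hb0 j b
      rw [if_pos hadj] at this
      rw [this]
    · rw [if_neg hadj]
      have : ∀ j, (if b = b0 j then 1 - cs C s (C.X.vx t j) else 0) = 0 := by
        intro j
        have := hb0 j b
        rw [if_neg hadj] at this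
        exact this.symm
      simp [this]
  have hterm : ∀ b, (if C.S.Adj s b then C.Nn (s, b) e t else 0) =
      ∑ i, ((∑ j, if j ≠ i then (if b = b0 j then 1 - cs C s (C.X.vx t j) else 0) else 0) / 3)
        * e t i := by
    intro b
    have : (if C.S.Adj s b then C.Nn (s, b) e t else 0) =
        ∑ i, (if C.S.Adj s b then C.X.cbar (C.cE (s, b)) t i else 0) * e t i := by
      by_cases hadj : C.S.Adj s b
      · simp only [if_pos hadj]
        rfl
      · simp only [if_neg hadj]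
        simp
    rw [this]
    apply Finset.sum_congr rfl
    intro i _
    rw [hval]
  rw [finsum_congr hterm]
  rw [finsum_eq_sum_of_support_subset (s := B)]
  · rw [Finset.sum_comm]
    have hin : ∀ j, b0 j ∈ B := fun j => Finset.mem_image_of_mem _ (Finset.mem_univ j)
    have e1 : ∀ i, ∑ b ∈ B, ((∑ j, if j ≠ i then
        (if b = b0 j then 1 - cs C s (C.X.vx t j) else 0) else 0) / 3) * e t i =
        (1 - C.X.cbar (cs C s) t i) * e t i := by
      intro i
      rw [← Finset.sum_mul, ← Finset.sum_div]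
      congr 1
      rw [Finset.sum_comm]
      have e2 : ∀ j, ∑ b ∈ B, (if j ≠ i then
          (if b = b0 j then 1 - cs C s (C.X.vx t j) else 0) else 0) =
          if j ≠ i then 1 - cs C s (C.X.vx t j) else 0 := by
        intro j
        by_cases hj : j = i
        · simp [hj]
        · simp only [ne_eq, hj, not_false_eq_true, if_true]
          rw [Finset.sum_ite_eq' B (b0 j), if_pos (hin j)]
      rw [Finset.sum_congr rfl (fun j _ => e2 j)]
      rw [cbar_eq_sum]
      have e3 : ∀ j : Fin 4, (if j ≠ i then 1 - cs C s (C.X.vx t j) else 0) =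
          (if j ≠ i then (1 : ℝ) else 0) - if j ≠ i then cs C s (C.X.vx t j) else 0 := by
        intro j
        by_cases hj : j = i
        · simp [hj]
        · simp [hj]
      rw [Finset.sum_congr rfl (fun j _ => e3 j), Finset.sum_sub_distrib]
      have e4 : ∑ j : Fin 4, (if j ≠ i then (1 : ℝ) else 0) = 3 := by
        rw [Fin.sum_univ_four]
        fin_cases i <;> simp <;> norm_num
      rw [e4]
      ring
    rw [Finset.sum_congr rfl (fun i _ => e1 i)]
    simp only [sub_mul, one_mul]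
    rw [Finset.sum_sub_distrib, he, zero_sub]
  · intro b hb
    rw [Function.mem_support] at hb
    by_contra hbB
    apply hb
    apply Finset.sum_eq_zero
    intro i _
    have : ∀ j, b ≠ b0 j := by
      intro j hj
      apply hbB
      rw [hj]
      exact Finset.mem_coe.2 (Finset.mem_image_of_mem _ (Finset.mem_univ j))
    simp [this]

end IH4

theorem prH4 (b2 : PB2) (f1 : PHF1) (_h1 : PA1) (h6 : PA6) (_h8 : PA8) : PH4 := by
  intro τ V σ G _ _ _ _ C η M ηS lam γ hS A hA
  have hMinv : ∀ (g : G) s, g • s ∈ M ↔ s ∈ M := by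
    intro g s
    constructor
    · intro h
      have := hS.inv g⁻¹ _ h
      rwa [inv_smul_smul] at this
    · exact hS.inv g s
  set F : σ → τ → Fin 4 → ℝ := fun s t i =>
    if s ∈ M then C.X.cbar (IH4.cs C s) t i * ηS s t i else 0 with hF
  have hcbar0 : ∀ s t i, (∀ j, j ≠ i → C.img t j ≠ s) → C.X.cbar (IH4.cs C s) t i = 0 := by
    intro s t i h
    rw [IH4.cbar_eq_sum]
    rw [Finset.sum_eq_zero, zero_div]
    intro j _
    by_cases hj : j = i
    · simp [hj]
    · rw [if_pos hj]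
      unfold IH4.cs
      rw [if_neg]
      exact h j hj
  have hfinF : ∀ t i, (Function.support fun s => F s t i).Finite := by
    intro t i
    apply (Set.finite_range (C.img t)).subset
    intro s hs
    rw [Function.mem_support] at hs
    by_contra hr
    apply hs
    simp only [hF]
    rw [hcbar0 s t i (fun j _ h => hr ⟨j, h⟩)]
    simp
  have hzero := IH4.total_zeroA b2 C F ?_ ?_ hfinF A ?_
  · have key : ∀ t : τ, ∑ᶠ p : σ × σ, (if p.1 ∈ M ∧ C.S.Adj p.1 p.2 then
        C.Nn p (ηS p.1) t else 0) = - ∑ᶠ s : σ, ∑ i, F s t i := by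
      intro t
      rw [← finsum_neg_distrib]
      rw [finsum_curry]
      · apply finsum_congr
        intro s
        by_cases hs : s ∈ M
        · simp only [hs, true_and, hF, if_true]
          exact IH4.sum_at h6 C s t (ηS s) (hS.closed s hs t)
        · simp only [hs, false_and, if_false, hF]
          simp
      · apply (f1 C t).subset
        intro p hp
        rw [Function.mem_support] at hp
        by_cases hpp : p.1 ∈ M ∧ C.S.Adj p.1 p.2
        · refine ⟨hpp.2, ?_⟩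
          by_contra hcr
          apply hp
          rw [if_pos hpp]
          exact IH3.Nn_zero C (hS.closed p.1 hpp.1 t) hcr
        · rw [if_neg hpp] at hp
          exact absurd rfl hp
    have e1 : ∀ q : Quotient (MulAction.orbitRel G τ), (if q ∈ A then
        ∑ᶠ p : σ × σ, (if p.1 ∈ M ∧ C.S.Adj p.1 p.2 then C.Nn p (ηS p.1) q.out else 0) else 0) =
        - if q ∈ A then ∑ᶠ s : σ, ∑ i, F s q.out i else 0 := by
      intro q
      by_cases hq : q ∈ A
      · rw [if_pos hq, if_pos hq, key]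
      · rw [if_neg hq, if_neg hq, neg_zero]
    rw [finsum_congr e1, finsum_neg_distrib, hzero, neg_zero]
  · intro s t i
    by_cases hs : s ∈ M
    · simp only [hF, if_pos hs]
      rw [IH4.cbar_nb, hS.flow s hs t i]
      ring
    · simp only [hF, if_neg hs, neg_zero]
  · intro g s t i
    by_cases hs : s ∈ M
    · simp only [hF, if_pos hs, if_pos ((hMinv g s).2 hs)]
      rw [hS.equi g s t i]
      congr 1
      rw [IH4.cbar_eq_sum, IH4.cbar_eq_sum]
      congr 1
      apply Finset.sum_congr rfl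
      intro j _
      rw [C.deck.vx_smul, IH4.cs_smul]
    · simp only [hF, if_neg hs, if_neg (fun h => hs ((hMinv g s).1 h))]
  · intro t i h1 h2 s
    by_cases hs : s ∈ M
    · simp only [hF, if_pos hs]
      rw [hcbar0 s t i (hA t i h1 h2 s hs).1, zero_mul]
    · simp only [hF, if_neg hs]

end Pool.Agent.MP_343d73

end

section

set_option autoImplicit false

/-!
Item K2s, a strengthening of K2: for three different neighbours, the intersection of two edge groups
contains no `ℤ × ℤ`.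
-/

namespace Pool.Agent.MP_343d73

open scoped Classical

noncomputable section

/-- K2s: edge groups of different edges at a vertex with three neighbours -/
def PK2s : Prop := ∀ {τ V σ G : Type} [Group G] [MulAction G τ] [MulAction G V] [MulAction G σ]
  (C : Ctx τ V σ G) (s b1 b2 b3 : σ), C.S.Adj s b1 → C.S.Adj s b2 → C.S.Adj s b3 → b1 ≠ b2 →
  b1 ≠ b3 → b2 ≠ b3 → ∀ P : Subgroup G, IsZ2 P → P ≤ MulAction.stabilizer G s →
    P ≤ MulAction.stabilizer G b1 → P ≤ MulAction.stabilizer G b2 → False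

/-- a subgroup between two groups isomorphic to `ℤ × ℤ` is isomorphic to `ℤ × ℤ` -/
theorem isZ2_between {G : Type} [Group G] (P J Q : Subgroup G) (hP : IsZ2 P) (hQ : IsZ2 Q)
    (h1 : P ≤ J) (h2 : J ≤ Q) : IsZ2 J := by
  obtain ⟨eP⟩ := hP
  obtain ⟨eQ⟩ := hQ
  let inc : Multiplicative (ℤ × ℤ) →* Multiplicative (ℤ × ℤ) :=
    (eQ.toMonoidHom.comp (Subgroup.inclusion (h1.trans h2))).comp eP.symm.toMonoidHom
  have hinc : Function.Injective inc := by
    refine Function.Injective.comp (g := fun x => eQ (Subgroup.inclusion (h1.trans h2) x)) ?_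
      eP.symm.injective
    exact eQ.injective.comp (Subgroup.inclusion_injective (h1.trans h2))
  let ψ : (ℤ × ℤ) →ₗ[ℤ] (ℤ × ℤ) := (MonoidHom.toAdditive inc).toIntLinearMap
  have hψ : Function.Injective ψ := hinc
  let N : Submodule ℤ (ℤ × ℤ) :=
    { carrier := {z | ∃ x : J, Multiplicative.toAdd (eQ (Subgroup.inclusion h2 x)) = z}
      zero_mem' := ⟨1, by simp⟩
      add_mem' := by
        rintro a b ⟨x, rfl⟩ ⟨y, rfl⟩
        exact ⟨x * y, by simp⟩
      smul_mem' := by
        rintro c a ⟨x, rfl⟩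
        refine ⟨x ^ c, ?_⟩
        rw [map_zpow, map_zpow, toAdd_zpow] }
  have hle : LinearMap.range ψ ≤ N := by
    rintro _ ⟨z, rfl⟩
    exact ⟨Subgroup.inclusion h1 (eP.symm (Multiplicative.ofAdd z)), rfl⟩
  have hrank : Module.finrank ℤ N = Module.finrank ℤ (ℤ × ℤ) := by
    apply le_antisymm
    · exact Submodule.finrank_le N
    · rw [← LinearMap.finrank_range_of_inj hψ]
      exact Submodule.finrank_mono hle
  let e1 : N ≃ₗ[ℤ] (ℤ × ℤ) := LinearEquiv.ofFinrankEq _ _ hrank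
  let f : J →* Multiplicative N :=
    { toFun := fun x => Multiplicative.ofAdd
        (⟨Multiplicative.toAdd (eQ (Subgroup.inclusion h2 x)), ⟨x, rfl⟩⟩ : N)
      map_one' := by
        apply Multiplicative.toAdd.injective
        apply Subtype.ext
        simp
      map_mul' := by
        intro x y
        apply Multiplicative.toAdd.injective
        apply Subtype.ext
        simp }
  have hf : Function.Bijective f := by
    constructor
    · intro x y hxy
      have h3 : Multiplicative.toAdd (eQ (Subgroup.inclusion h2 x)) =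
          Multiplicative.toAdd (eQ (Subgroup.inclusion h2 y)) :=
        congrArg (fun z : Multiplicative N => ((Multiplicative.toAdd z : N) : ℤ × ℤ)) hxy
      exact Subgroup.inclusion_injective h2 (eQ.injective (Multiplicative.toAdd.injective h3))
    · intro z
      obtain ⟨x, hx⟩ := (Multiplicative.toAdd z).2
      refine ⟨x, ?_⟩
      apply Multiplicative.toAdd.injective
      exact Subtype.ext hx
  exact ⟨(MulEquiv.ofBijective f hf).trans (AddEquiv.toMultiplicative e1.toAddEquiv)⟩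

theorem prK2s (k1 : PK1) (b5 : PB5) (d3 : PD3) (e3 : PE3) (e4 : PE4) (e5 : PE5) (e6 : PE6)
    (e7 : PE7) (e8 : PE8) (f1 : PHF1) (a6 : PA6) (a8 : PA8) : PK2s := by
  intro τ V σ G _ _ _ _ C s b1 b2 b3 h1 h2 h3 h12 h13 h23 P hP hPs hP1 hP2
  set J : Subgroup G := MulAction.stabilizer G s ⊓ MulAction.stabilizer G b1 ⊓
    MulAction.stabilizer G b2 with hJ
  have hPJ : P ≤ J := le_inf (le_inf hPs hP1) hP2
  have hJ1 : J ≤ MulAction.stabilizer G s ⊓ MulAction.stabilizer G b1 := inf_le_left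
  have hJ2 : J ≤ MulAction.stabilizer G s ⊓ MulAction.stabilizer G b2 :=
    le_inf (inf_le_left.trans inf_le_left) inf_le_right
  have hJZ : IsZ2 J := isZ2_between P J _ hP (C.torus _ _ h1) hPJ hJ1
  obtain ⟨t0⟩ := C.conn.1
  obtain ⟨ζ1, hz1⟩ : ∃ ζ, K2.Ray C s b1 t0 ζ := by
    obtain ⟨ζ, a1, a2, a3, a4⟩ := e3 C (s, b1) h1 t0
    exact ⟨ζ, a1, a2, a3, a4⟩
  obtain ⟨ζ2, hz2⟩ : ∃ ζ, K2.Ray C s b2 t0 ζ := by
    obtain ⟨ζ, a1, a2, a3, a4⟩ := e3 C (s, b2) h2 t0
    exact ⟨ζ, a1, a2, a3, a4⟩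
  obtain ⟨ζ3, hz3⟩ : ∃ ζ, K2.Ray C s b3 t0 ζ := by
    obtain ⟨ζ, a1, a2, a3, a4⟩ := e3 C (s, b3) h3 t0
    exact ⟨ζ, a1, a2, a3, a4⟩
  obtain ⟨u1, u2, u3⟩ := e5 C (Y := σ × σ × σ) (s, b1, b2) (K2.dif ζ1 ζ3)
    (K2.dif_flow hz1.fl hz3.fl) (K2.dif_closed C hz1 hz3) (K2.fin_stab_dif a8 C s b1 b2 hz1 hz3)
  obtain ⟨w1, w2, w3⟩ := e5 C (Y := σ × σ × σ) (s, b1, b2) (K2.dif ζ2 ζ3)
    (K2.dif_flow hz2.fl hz3.fl) (K2.dif_closed C hz2 hz3) (K2.fin_stab_dif a8 C s b1 b2 hz2 hz3)
  set E := C.per (s, b1, b2) (K2.dif ζ1 ζ3) with hE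
  set E' := C.per (s, b1, b2) (K2.dif ζ2 ζ3) with hE'
  have hfix : ∀ g : G, g ∈ J → g • (s, b1, b2) = (s, b1, b2) := by
    intro g hg
    have g1 : g • s = s := hg.1.1
    have g2 : g • b1 = b1 := hg.1.2
    have g3 : g • b2 = b2 := hg.2
    show (g • s, g • b1, g • b2) = (s, b1, b2)
    rw [g1, g2, g3]
  obtain ⟨x, y, hxy, γ0, hc1, hinv, hd1⟩ := d3 C.X C.deck C.conn C.H1 C.H2 J hJZ
    (E (s, b1, b2)) (E' (s, b1, b2)) (u1 _) (w1 _) (u2 _) (w2 _)
    (by
      intro g hg t i
      have := u3 g (s, b1, b2) t i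
      rwa [hfix g hg] at this)
    (by
      intro g hg t i
      have := w3 g (s, b1, b2) t i
      rwa [hfix g hg] at this)
  have hstab : ∀ g : G, g • ((s, b1, b2) : σ × σ × σ) = (s, b1, b2) → g ∈ J := by
    intro g hg
    exact ⟨⟨congrArg Prod.fst hg, congrArg (fun z : σ × σ × σ => z.2.1) hg⟩,
      congrArg (fun z : σ × σ × σ => z.2.2) hg⟩
  have hinv' : ∀ g : G, g • ((s, b1, b2) : σ × σ × σ) = (s, b1, b2) →
      ∀ t, γ0 (g • t) = γ0 t := by
    intro g hg t
    funext j k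
    exact hinv g (hstab g hg) t j k
  obtain ⟨F, hF1, hF2⟩ := F5.ext_orbit b5 (G := G)
    (fun (z : σ × σ × σ) f => C.X.IsC1 f ∧ ∀ t i, d1 f t i = x * E z t i + y * E' z t i)
    (by
      intro g z f hf
      refine ⟨F5.isC1_smul C.deck g hf.1, fun t i => ?_⟩
      have h5 := hf.2 (g⁻¹ • t) i
      have h6 : E (g • z) t i = E z (g⁻¹ • t) i := by
        have := u3 g z (g⁻¹ • t) i
        rwa [smul_inv_smul] at this
      have h7 : E' (g • z) t i = E' z (g⁻¹ • t) i := by
        have := w3 g z (g⁻¹ • t) i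
        rwa [smul_inv_smul] at this
      rw [h6, h7, ← h5]
      rfl) (s, b1, b2) γ0 ⟨hc1, hd1⟩ hinv'
  -- finiteness
  have hHfin : ∀ b, C.S.Adj s b → J ≤ MulAction.stabilizer G s ⊓ MulAction.stabilizer G b →
      (MulAction.orbit (↥(MulAction.stabilizer G s ⊓ MulAction.stabilizer G b))
      ((s, b1, b2) : σ × σ × σ)).Finite := by
    intro b hb hJb
    have hi := k1 J (MulAction.stabilizer G s ⊓ MulAction.stabilizer G b) hJZ (C.torus _ _ hb) hJb
    have hs : MulAction.stabilizer (↥(MulAction.stabilizer G s ⊓ MulAction.stabilizer G b))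
        ((s, b1, b2) : σ × σ × σ) = J.subgroupOf
          (MulAction.stabilizer G s ⊓ MulAction.stabilizer G b) := by
      ext g
      rw [Subgroup.mem_subgroupOf, MulAction.mem_stabilizer_iff]
      exact ⟨fun hg => hstab _ hg, fun hg => hfix _ hg⟩
    have e := MulAction.orbitEquivQuotientStabilizer
      (↥(MulAction.stabilizer G s ⊓ MulAction.stabilizer G b)) ((s, b1, b2) : σ × σ × σ)
    rw [hs] at e
    have : Finite (↥(MulAction.stabilizer G s ⊓ MulAction.stabilizer G b) ⧸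
        J.subgroupOf (MulAction.stabilizer G s ⊓ MulAction.stabilizer G b)) :=
      Subgroup.finite_quotient_of_finiteIndex
    exact @Set.toFinite _ _ (Finite.of_equiv _ e.symm)
  have hfin : ∀ (b : σ) (pr : σ × σ × σ → σ), (∀ (g : G) z, pr (g • z) = g • pr z) →
      pr (s, b1, b2) = b → C.S.Adj s b →
      J ≤ MulAction.stabilizer G s ⊓ MulAction.stabilizer G b →
      ∀ t, {z : σ × σ × σ | z ∈ MulAction.orbit G (s, b1, b2) ∧
      C.crossT (z.1, pr z) t}.Finite := by
    intro b pr hpr hprb hsb hJb t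
    have hb : (⋃ p ∈ {p : σ × σ | C.S.Adj p.1 p.2 ∧ C.crossT p t},
        {z : σ × σ × σ | z ∈ MulAction.orbit G (s, b1, b2) ∧ (z.1, pr z) = p}).Finite := by
      refine (f1 C t).biUnion fun p hp => ?_
      by_cases hne : ∃ g0 : G, (g0 • s, g0 • b) = p
      · obtain ⟨g0, rfl⟩ := hne
        refine ((hHfin b hsb hJb).image (fun z => g0 • z)).subset ?_
        rintro _ ⟨⟨g, rfl⟩, hz⟩
        have e1 : g • s = g0 • s := congrArg Prod.fst hz
        have e2 : g • b = g0 • b := by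
          have := congrArg Prod.snd hz
          have e3 : pr (g • ((s, b1, b2) : σ × σ × σ)) = g0 • b := this
          rwa [hpr, hprb] at e3
        refine ⟨(g0⁻¹ * g) • (s, b1, b2), ⟨⟨g0⁻¹ * g, ?_, ?_⟩, rfl⟩, ?_⟩
        · show (g0⁻¹ * g) • s = s
          rw [mul_smul, e1, inv_smul_smul]
        · show (g0⁻¹ * g) • b = b
          rw [mul_smul, e2, inv_smul_smul]
        · show g0 • (g0⁻¹ * g) • ((s, b1, b2) : σ × σ × σ) = g • (s, b1, b2)
          rw [mul_smul, smul_inv_smul]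
      · refine Set.finite_empty.subset ?_
        rintro _ ⟨⟨g, rfl⟩, hz⟩
        refine hne ⟨g, ?_⟩
        have e3 : (g • s, pr (g • ((s, b1, b2) : σ × σ × σ))) = p := hz
        rwa [hpr, hprb] at e3
    refine hb.subset ?_
    rintro z ⟨⟨g, rfl⟩, hz⟩
    refine Set.mem_biUnion (x := (g • s, g • b)) ⟨C.adj_smul g _ _ hsb, ?_⟩ ⟨⟨g, rfl⟩, ?_⟩
    · have : C.crossT (g • s, pr (g • ((s, b1, b2) : σ × σ × σ))) t := hz
      rwa [hpr, hprb] at this
    · show (g • s, pr (g • ((s, b1, b2) : σ × σ × σ))) = (g • s, g • b)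
      rw [hpr, hprb]
  have hfin1 := hfin b1 (fun z => z.2.1) (fun g z => rfl) rfl h1 hJ1
  have hfin2 := hfin b2 (fun z => z.2.2) (fun g z => rfl) rfl h2 hJ2
  have key : ∀ ed : σ × σ × σ → σ × σ, (∀ (g : G) z, ed (g • z) = g • ed z) →
      (∀ t, {z : σ × σ × σ | z ∈ MulAction.orbit G (s, b1, b2) ∧ C.crossT (ed z) t}.Finite) →
      ∀ a, C.S.Adj s a → a ≠ b3 → ed (s, b1, b2) = (s, a) →
      x * (if a = b1 then 1 else 0) + y * (if a = b2 then 1 else 0) = 0 := by
    intro ed hed hfin a ha ha3 hed0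
    have h7 := e7 C (Z := σ × σ × σ) ed (fun z => z ∈ MulAction.orbit G (s, b1, b2)) hed
      (fun g z hz => MulAction.mem_orbit_of_mem_orbit g hz) hfin F (fun z hz => (hF1 z hz).1)
      (fun g z t j k => by rw [hF2 g z t])
    have h8 := e8 C (Z := σ × σ × σ) ed (fun z => z ∈ MulAction.orbit G (s, b1, b2)) hfin
      E E' (fun z _ => u2 z) (fun z _ => w2 z) x y
    have h9 : C.Phi ed (fun z => z ∈ MulAction.orbit G (s, b1, b2)) (fun z t i => d1 (F z) t i) =
        C.Phi ed (fun z => z ∈ MulAction.orbit G (s, b1, b2))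
          (fun z t i => x * E z t i + y * E' z t i) := by
      refine F5.phi_congr C _ _ _ _ fun z hz => ?_
      funext t i
      exact (hF1 z hz).2 t i
    have p1 := K2.phi_per a6 a8 e4 e6 C s b1 b2 ha h1 h3 hz1 hz3 ed hed hed0
    have p2 := K2.phi_per a6 a8 e4 e6 C s b1 b2 ha h2 h3 hz2 hz3 ed hed hed0
    rw [if_neg ha3, sub_zero] at p1 p2
    rw [← p1, ← p2]
    rw [h9, h8] at h7
    exact h7
  have k1' := key (fun z => (z.1, z.2.1)) (fun g z => rfl) hfin1 b1 h1 h13 rfl
  have k2' := key (fun z => (z.1, z.2.2)) (fun g z => rfl) hfin2 b2 h2 h23 rfl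
  rw [if_pos rfl, if_neg h12] at k1'
  rw [if_neg (Ne.symm h12), if_pos rfl] at k2'
  simp only [mul_one, mul_zero, add_zero, zero_add] at k1' k2'
  rcases hxy with h | h
  · exact h k1'
  · exact h k2'

end

end Pool.Agent.MP_343d73

end

section

set_option autoImplicit false

/-!
R4: the graph of the pieces is a tree, and two adjacent pieces are separated by a unique component.
-/

namespace Pool.Agent.MP_343d73

variable {τ V : Type}

theorem treeGraph_rel {X : Tri τ V} {D : Set (τ × Fin 4)} (hD : X.IsSurface D)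
    {p q : Quot (X.PieceStep D)} (h : (X.treeGraph D).Adj p q) :
    ∃ t i, (t, i) ∈ D ∧ Quot.mk _ t = p ∧ Quot.mk _ (X.nb t i) = q := by
  rw [Tri.treeGraph, SimpleGraph.fromRel_adj] at h
  obtain ⟨-, h | ⟨t, i, hti, h1, h2⟩⟩ := h
  · exact h
  · refine ⟨X.nb t i, X.pm t i i, hD.glue t i hti, h2, ?_⟩
    rw [X.nb_nb]
    exact h1

theorem sep_piece {X : Tri τ V} {D : Set (τ × Fin 4)} {s : τ → ZMod 2}
    (h : ∀ t i, (t, i) ∉ D → s (X.nb t i) = s t) {t t' : τ} (ht : X.PieceRel D t t') :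
    s t = s t' := by
  induction ht with
  | rel a b hab =>
    obtain ⟨i, hi, rfl⟩ := hab
    exact (h a i hi).symm
  | refl a => rfl
  | symm a b _ ih => exact ih.symm
  | trans a b c _ _ ih1 ih2 => exact ih1.trans ih2

theorem prR4 (h2 : PR2) (h3 : PR3) : PR4 := by
  intro τ V X D hX hD
  have hone : ∀ x : ZMod 2, x + 1 ≠ x := by decide
  have hadj : ∀ t i, (t, i) ∈ D →
      (X.treeGraph D).Adj (Quot.mk _ t) (Quot.mk _ (X.nb t i)) := by
    intro t i hti
    obtain ⟨s, hs⟩ := h3 X D hX hD (t, i) hti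
    rw [Tri.treeGraph, SimpleGraph.fromRel_adj]
    refine ⟨fun heq => ?_, Or.inl ⟨t, i, hti, rfl, rfl⟩⟩
    have h4 : X.PieceRel D t (X.nb t i) := Quot.eqvGen_exact heq
    have h5 := sep_piece (fun t' i' h' => (hs t' i').2 fun hc => h' hc.1) h4
    have h6 := (hs t i).1 ⟨hti, Relation.EqvGen.refl _⟩
    rw [h6] at h5
    exact hone _ h5.symm
  refine ⟨⟨?_, ?_⟩, hadj, ?_⟩
  · -- connected
    obtain ⟨hne, hc⟩ := hX.1
    have : Nonempty (Quot (X.PieceStep D)) := hne.map (Quot.mk _)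
    refine ⟨fun p q => ?_⟩
    induction p using Quot.ind with
    | mk t =>
    induction q using Quot.ind with
    | mk t' =>
    have h4 := hc t t'
    induction h4 with
    | refl => exact SimpleGraph.Reachable.refl _
    | @tail b c _ hbc ih =>
      obtain ⟨i, rfl⟩ := hbc
      refine ih.trans ?_
      by_cases hi : (b, i) ∈ D
      · exact (hadj b i hi).reachable
      · have h5 : (Quot.mk (X.PieceStep D) b) = Quot.mk _ (X.nb b i) := Quot.sound ⟨i, hi, rfl⟩
        rw [h5]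
  · -- acyclic
    rw [SimpleGraph.isAcyclic_iff_forall_adj_isBridge]
    intro p q hpq
    obtain ⟨t, i, hti, hp, hq⟩ := treeGraph_rel hD hpq
    obtain ⟨s, hs⟩ := h3 X D hX hD (t, i) hti
    rw [SimpleGraph.isBridge_iff]
    have hsp : ∀ {t t' : τ}, X.PieceRel D t t' → s t = s t' := fun h =>
      sep_piece (fun t' i' h' => (hs t' i').2 fun hc => h' hc.1) h
    let s' : Quot (X.PieceStep D) → ZMod 2 :=
      Quot.lift s fun a b hab => hsp (Relation.EqvGen.rel _ _ hab)
    have hstep : ∀ p' q', ((X.treeGraph D).deleteEdges {s(p, q)}).Adj p' q' → s' p' = s' q' := by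
      intro p' q' h
      rw [SimpleGraph.deleteEdges_adj] at h
      obtain ⟨h, hne⟩ := h
      obtain ⟨t', i', hti', hp', hq'⟩ := treeGraph_rel hD h
      by_cases hsr : X.SurfRel D (t, i) (t', i')
      · exfalso
        apply hne
        rw [Set.mem_singleton_iff]
        rcases (h2 X D hD).2 _ _ hti hsr with h5 | h5
        · obtain ⟨-, h6, h7, -⟩ := (h2 X D hD).1 _ _ hti h5
          have e1 : p' = p := by rw [← hp', ← hp]; exact (Quot.eqvGen_sound h6).symm
          have e2 : q' = q := by rw [← hq', ← hq]; exact (Quot.eqvGen_sound h7).symm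
          rw [e1, e2]
        · obtain ⟨-, h6, h7, -⟩ := (h2 X D hD).1 _ _ (hD.glue t i hti) h5
          have e1 : p' = q := by rw [← hp', ← hq]; exact (Quot.eqvGen_sound h6).symm
          have e2 : q' = p := by
            rw [← hq', ← hp]
            have h8 : X.nb (X.nb t i) (X.pm t i i) = t := X.nb_nb t i
            simp only [h8] at h7
            exact (Quot.eqvGen_sound h7).symm
          rw [e1, e2]
          exact Sym2.eq_swap
      · have h6 := (hs t' i').2 fun hc => hsr hc.2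
        rw [← hp', ← hq']
        exact h6.symm
    rintro ⟨w⟩
    have hw : ∀ p' q', ((X.treeGraph D).deleteEdges {s(p, q)}).Walk p' q' → s' p' = s' q' := by
      intro p' q' w
      induction w with
      | nil => rfl
      | cons h _ ih => exact (hstep _ _ h).trans ih
    have h4 := hw _ _ w
    have h5 := (hs t i).1 ⟨hti, Relation.EqvGen.refl _⟩
    rw [← hp, ← hq] at h4
    have h6 : s t = s (X.nb t i) := h4
    rw [h5] at h6
    exact hone _ h6.symm
  · intro t i t' i' hti hti' h4 h5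
    obtain ⟨s, hs⟩ := h3 X D hX hD (t, i) hti
    have hsp : ∀ {t t' : τ}, X.PieceRel D t t' → s t = s t' := fun h =>
      sep_piece (fun t' i' h' => (hs t' i').2 fun hc => h' hc.1) h
    have h6 := (hs t i).1 ⟨hti, Relation.EqvGen.refl _⟩
    have h7 := hsp h4
    have h8 := hsp h5
    have hsr : X.SurfRel D (t, i) (t', i') := by
      by_contra hc
      have h9 := (hs t' i').2 fun hc' => hc hc'.2
      rw [h9, ← h7, h6] at h8
      exact hone _ h8
    rcases (h2 X D hD).2 _ _ hti hsr with h9 | h9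
    · exact h9
    · exfalso
      obtain ⟨-, h10, -, -⟩ := (h2 X D hD).1 _ _ (hD.glue t i hti) h9
      have h11 := hsp h10
      simp only at h11
      rw [h6, ← h7] at h11
      exact hone _ h11

end Pool.Agent.MP_343d73

end

section

set_option autoImplicit false

namespace Pool.Agent.MP_343d73

theorem main_final : Final := by
  have a1 : PA1 := prA1
  have a2 : PA2 := prA2 a1
  have a3 : PA3 := prA3
  have a4 : PA4 := prA4
  have a5 : PA5 := prA5 a1 a2 a4
  have a6 : PA6 := prA6 a1 a2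
  have a7 : PA7 := prA7 a1 a2
  have a8 : PA8 := prA8
  have a9 : PA9 := prA9 a1 a2 a8
  have b1 : PB1 := prB1
  have b2 : PB2 := prB2
  have b3 : PB3 := prB3 b1
  have b4 : PB4 := prB4
  have b5 : PB5 := prB5
  have c1 : PC1 := prC1
  have c2 : PC2 := prC2
  have c3 : PC3 := prC3
  have c4 : PC4 := prC4
  have c5 : PC5 := prC5
  have f1 : PHF1 := prHF1 a1 a2 a3
  have f2 : PHF2 := prHF2 a3 a7
  have f3 : PHF3 := prHF3 a8 f2
  have d2 : PD2 := prD2 prD1
  have d3 : PD3 := prD3 d2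
  have e1 : PE1 := prE1
  have e2 : PE2 := prE2 a1 a2 a8 a9
  have e3 : PE3 := prE3 e1 e2 a8
  have e4 : PE4 := prE4 b4
  have e5 : PE5 := prE5
  have e6 : PE6 := prE6 b1 a8
  have e7 : PE7 := prE7 b2 c2 c3 c4 a8
  have e8 : PE8 := prE8
  have g1 : PF1 := prF1
  have g2 : PF2 := prF2 e3 e4 e5 e6 f1 a8
  have g3 : PF3 := prF3 g2 e8 f1 a1
  have g4 : PF4 := prF4 b5 a4
  have g5 : PF5 := prF5 b5 d3 e7 e8 f1 a8
  have g6 : PF6 := prF6 e3 e4 e5 e6 f1 a6 a8
  have h1 : PH1 := prH1 a1 a4 c3 c4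
  have h2 : PH2 := prH2 a1 a8
  have h3 : PH3 := prH3 b2 c2 c4 f1 a8
  have h4 : PH4 := prH4 b2 f1 a1 a6 a8
  have h5 : PH5 := prH5 c3 c4 f1
  have h6 : PH6 := prH6 c2 c4 f1 a8
  have h7 : PH7 := prH7 a4 c4
  have h8 : PH8 := prH8 b4 c1 c5 f3 a4
  have h9 : PH9 := prH9 b3 h8 a4 a8 f2 f3
  have h10 : PH10 := prH10 b2 g5 g6 h2 h4 h5 h6 h7 h9 f1 h1 a4 a8
  have i1 : PI1 := prI1 a1 a2 a4 a5 a7
  have i2 : PI2 := prI2 a1 a8 h1
  have i3 : PI3 := prI3 a8
  have j1 : PJ1 := prJ1
  have j2 : PJ2 := prJ2 j1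
  have j3 : PJ3 := prJ3
  have j4 : PJ4 := prJ4 a1 a2 a6
  have j5 : PJ5 := prJ5 j2 j3 j4
  have k1 : PK1 := prK1
  have k2 : PK2 := prK2 k1 b5 d3 e3 e4 e5 e6 e7 e8 f1 a6 a8
  have k3 : PK3 := prK3 a1 a2 a8 a9
  have k4 : PK4 := prK4 a1 a2 a4 a8 k3
  have k5 : PK5 := prK5
  intro τ V σ G _ _ _ _
  exact final g1 g3 g4 h2 h3 h10 i1 i2 i3 j5 k2 k4 k5

end Pool.Agent.MP_343d73

end
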